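import Mathlib

set_option autoImplicit false

namespace Pool.Agent.MP_f14165_co

theorem shift {x c : ℝ} (h : c ≤ x) : ∃ t : ℝ, 0 ≤ t ∧ x = t + c := ⟨x - c, by linarith, by ring⟩

theorem p_sigma {x : ℝ} (h : 5800 ≤ x) :
    6 * 4100 / ((x + 1) * (x + 3)) ^ 2 ≤ 4100 / (x + 1) ^ 3 - 4100 / (x + 3) ^ 3 := by
  obtain ⟨t, ht, rfl⟩ := shift h
  rw [div_sub_div _ _ (by positivity) (by positivity), div_le_div_iff₀ (by positivity) (by positivity),
    ← sub_nonneg]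
  ring_nf; positivity

theorem p_tau {x : ℝ} (h : 5800 ≤ x) :
    4100 / (x - 1) ^ 3 - 1 / ((x + 21) ^ 3 / 4100 + 19) ≤
      6601 / 100 * 4100 / ((x - 1) * (x + 21)) ^ 2 := by
  obtain ⟨t, ht, rfl⟩ := shift h
  have e : t + 5800 - 1 = t + 5799 := by ring
  have e2 : 1 / ((t + 5800 + 21) ^ 3 / 4100 + 19) = 4100 / ((t + 5800 + 21) ^ 3 + 77900) := by
    field_simp; ring
  rw [e, e2, div_sub_div _ _ (by positivity) (by positivity),
    div_le_div_iff₀ (by positivity) (by positivity), ← sub_nonneg]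
  ring_nf; positivity

theorem p_tauB {x : ℝ} (h : 5800 ≤ x) :
    6601 / 100 * 4100 / ((x - 1) * (x + 21)) ^ 2 ≤ 1 / ((x + 21) ^ 3 / 4100 + 19) := by
  obtain ⟨t, ht, rfl⟩ := shift h
  have e : t + 5800 - 1 = t + 5799 := by ring
  rw [e, div_le_div_iff₀ (by positivity) (by positivity), ← sub_nonneg]
  ring_nf; positivity

theorem p_kappa {x : ℝ} (h : 5800 ≤ x) :
    6601 / 100 * 4100 / ((x - 1) * (x + 21)) ^ 2 ≤ 6601 / 100 / x * (4100 / (x + 1) ^ 3) := by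
  obtain ⟨t, ht, rfl⟩ := shift h
  have e : t + 5800 - 1 = t + 5799 := by ring
  rw [e, div_mul_div_comm, div_le_div_iff₀ (by positivity) (by positivity), ← sub_nonneg]
  ring_nf; positivity

theorem p_uw {x : ℝ} (h : 5800 ≤ x) :
    99 / 100 * (4100 / (x - 1) ^ 3) ≤ 4100 / (x + 1) ^ 3 := by
  obtain ⟨t, ht, rfl⟩ := shift h
  have e : t + 5800 - 1 = t + 5799 := by ring
  rw [e, ← mul_div_assoc, div_le_div_iff₀ (by positivity) (by positivity), ← sub_nonneg]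
  ring_nf; positivity

/-- `a ^ 3 * CC ≤ x` for the end pieces of a batch -/
theorem p_cc {x : ℝ} (h : 5800 ≤ x) :
    (4100 / (x - 1) ^ 3) ^ 3 * 1900000000000 ≤ 6 * 4100 / ((x + 1) * (x + 3)) ^ 2 := by
  obtain ⟨t, ht, rfl⟩ := shift h
  have e : t + 5800 - 1 = t + 5799 := by ring
  rw [e, div_pow, div_mul_eq_mul_div, div_le_div_iff₀ (by positivity) (by positivity), ← sub_nonneg]
  ring_nf; positivity

theorem p_G {x : ℝ} (h : 5800 ≤ x) :
    3 * ((((x + 21) ^ 3 / 4100 + 19) - (x + 3) ^ 3 / 4100) / 18 *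
      (4100 / (x - 1) ^ 3 - 2 / ((x + 3) ^ 3 / 4100 + ((x + 21) ^ 3 / 4100 + 19)))) +
      6601 / 100 / x * (12 / 25 / x) ≤ 384 / (x - 1) - 384 / x := by
  obtain ⟨t, ht, rfl⟩ := shift h
  have e : t + 5800 - 1 = t + 5799 := by ring
  rw [e, ← sub_nonneg]
  have : 384 / (t + 5799) - 384 / (t + 5800) -
      (3 * ((((t + 5800 + 21) ^ 3 / 4100 + 19) - (t + 5800 + 3) ^ 3 / 4100) / 18 *
      (4100 / (t + 5799) ^ 3 - 2 / ((t + 5800 + 3) ^ 3 / 4100 + ((t + 5800 + 21) ^ 3 / 4100 + 19)))) +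
      6601 / 100 / (t + 5800) * (12 / 25 / (t + 5800))) =
      (384 * (t + 5799) ^ 2 * (t + 5800) * ((t + 5803) ^ 3 + (t + 5821) ^ 3 + 77900) -
        ((t + 5821) ^ 3 + 77900 - (t + 5803) ^ 3) / 6 * (t + 5800) ^ 2 *
          (((t + 5803) ^ 3 + (t + 5821) ^ 3 + 77900) - 2 * (t + 5799) ^ 3) -
        6601 / 100 * (12 / 25) * (t + 5799) ^ 3 * ((t + 5803) ^ 3 + (t + 5821) ^ 3 + 77900)) /
      ((t + 5799) ^ 3 * (t + 5800) ^ 2 * ((t + 5803) ^ 3 + (t + 5821) ^ 3 + 77900)) := by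
    field_simp; ring
  rw [this]
  refine div_nonneg ?_ (by positivity)
  ring_nf; positivity

theorem p_main {x : ℝ} (h : 5800 ≤ x) :
    4 * 8 * (4100 / (x + 1) ^ 3) ^ 2 ≤ 1 / ((x + 21) ^ 3 / 4100 + 19) -
      (21 / 25 * (4100 / x ^ 3) + 12 * (4100 / (x + 1) ^ 4)) - 4100 / (x + 1) ^ 3 * (213 / 2000) := by
  obtain ⟨t, ht, rfl⟩ := shift h
  rw [← sub_nonneg]
  have : 1 / ((t + 5800 + 21) ^ 3 / 4100 + 19) -
      (21 / 25 * (4100 / (t + 5800) ^ 3) + 12 * (4100 / (t + 5800 + 1) ^ 4)) -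
      4100 / (t + 5800 + 1) ^ 3 * (213 / 2000) - 4 * 8 * (4100 / (t + 5800 + 1) ^ 3) ^ 2 =
      4100 * ((t + 5800) ^ 3 * (t + 5801) ^ 6 - ((t + 5821) ^ 3 + 77900) *
        (21 / 25 * (t + 5801) ^ 6 + 12 * (t + 5800) ^ 3 * (t + 5801) ^ 2 +
          213 / 2000 * (t + 5800) ^ 3 * (t + 5801) ^ 3 + 32 * 4100 * (t + 5800) ^ 3)) /
      (((t + 5821) ^ 3 + 77900) * (t + 5800) ^ 3 * (t + 5801) ^ 6) := by
    field_simp; ring
  rw [this]
  refine div_nonneg ?_ (by positivity)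
  ring_nf; positivity

theorem p_tel4 {x : ℝ} (h : 5800 ≤ x) : 3 / x ^ 4 ≤ 1 / (x - 1) ^ 3 - 1 / x ^ 3 := by
  obtain ⟨t, ht, rfl⟩ := shift h
  have e : t + 5800 - 1 = t + 5799 := by ring
  rw [e, div_sub_div _ _ (by positivity) (by positivity),
    div_le_div_iff₀ (by positivity) (by positivity), ← sub_nonneg]
  ring_nf; positivity

theorem p_tel3 {x : ℝ} (h : 5800 ≤ x) :
    4100 / (x + 3) ^ 3 ≤ 8200 / (2 * x + 5) ^ 2 - 8200 / (2 * (x + 1) + 5) ^ 2 := by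
  obtain ⟨t, ht, rfl⟩ := shift h
  rw [div_sub_div _ _ (by positivity) (by positivity),
    div_le_div_iff₀ (by positivity) (by positivity), ← sub_nonneg]
  ring_nf; positivity

theorem p_cup {x : ℝ} (h : 5800 ≤ x) : (1 - (x + 3) ^ 3 / (x + 21) ^ 3) / 18 ≤ 3 / x := by
  obtain ⟨t, ht, rfl⟩ := shift h
  rw [one_sub_div (by positivity), div_div, div_le_div_iff₀ (by positivity) (by positivity),
    ← sub_nonneg]
  ring_nf; positivity

theorem p_clo {x : ℝ} (h : 5800 ≤ x) :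
    3 / (x + 42) ≤ (1 - ((x + 3) ^ 3 + 77900) / (x + 21) ^ 3) / 18 := by
  obtain ⟨t, ht, rfl⟩ := shift h
  rw [one_sub_div (by positivity), div_div, div_le_div_iff₀ (by positivity) (by positivity),
    ← sub_nonneg]
  ring_nf; positivity

end Pool.Agent.MP_f14165_co
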