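import Pool.Agent.MP_f14165_co.Batch
import Pool.Agent.MP_f14165_co.Poly

set_option autoImplicit false

namespace Pool.Agent.MP_f14165_co
open Finset

noncomputable def wq (h : ℕ) : ℝ := if h = 0 then 8200 else 4100 / (h : ℝ) ^ 3
noncomputable def capq (h : ℕ) : ℝ := if 5817 ≤ h then 12 / 25 / (h : ℝ) else 0
noncomputable def cq (g : ℕ) : ℝ :=
  (1 - (max 197137368500 (((g : ℝ) + 3) ^ 3 + 4100) + 73800) / ((g : ℝ) + 21) ^ 3) / 18
noncomputable def Eq' (m0 : ℝ) (h : ℕ) : ℝ :=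
  if h ≤ 5800 then 0 else min m0 (Real.sqrt (4100 / ((h : ℝ) + 2) ^ 3))
noncomputable def phq (g : ℕ) : ℝ := 8200 / (2 * (g : ℝ) + 5) ^ 2
noncomputable def dq (g : ℕ) : ℝ := (((g : ℝ) + 21) ^ 3 / 4100 + 19) / 18
noncomputable def sgq (g : ℕ) : ℝ := 6 * 4100 / (((g : ℝ) + 1) * ((g : ℝ) + 3)) ^ 2
noncomputable def tauq (g : ℕ) : ℝ := 6601 / 100 * 4100 / (((g : ℝ) - 1) * ((g : ℝ) + 21)) ^ 2
def acq (g : ℕ) : ℕ := ((g + 3) ^ 3 + 4099) / 4100
def aq (g : ℕ) : ℕ := max 48082285 (acq g)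
def bq (g : ℕ) : ℕ := aq g + (g + 17 * aq g) % 18
def mq (g : ℕ) : ℕ := (bq (g + 18) - bq g) / 18

theorem wq_pos' {h : ℕ} (hh : 0 < h) : wq h = 4100 / (h : ℝ) ^ 3 := if_neg hh.ne'

theorem wq_pos (h : ℕ) : 0 < wq h := by
  unfold wq
  split_ifs with h0
  · norm_num
  · have : (0 : ℝ) < h := by exact_mod_cast Nat.pos_of_ne_zero h0
    positivity

theorem wq_anti : StrictAnti wq := by
  refine strictAnti_nat_of_succ_lt fun h => ?_
  rcases Nat.eq_zero_or_pos h with rfl | hh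
  · norm_num [wq]
  · rw [wq_pos' hh, wq_pos' (Nat.succ_pos h)]
    have : (0 : ℝ) < h := by exact_mod_cast hh
    push_cast
    exact div_lt_div_of_pos_left (by norm_num) (by positivity)
      (pow_lt_pow_left₀ (by linarith) this.le three_ne_zero)

theorem wq_lim (x : ℝ) (hx : 0 < x) : ∃ H, wq H ≤ x := by
  obtain ⟨n, hn⟩ := exists_nat_ge (4100 / x)
  refine ⟨n + 1, ?_⟩
  rw [wq_pos' (Nat.succ_pos n)]
  have h0 : (0 : ℝ) ≤ n := Nat.cast_nonneg n
  rw [div_le_iff₀ hx] at hn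
  push_cast
  rw [div_le_iff₀ (by positivity)]
  have : (n : ℝ) ≤ ((n : ℝ) + 1) ^ 3 := by nlinarith [pow_nonneg h0 2, pow_nonneg h0 3]
  nlinarith

theorem acq_mono {g g' : ℕ} (h : g ≤ g') : acq g ≤ acq g' :=
  Nat.div_le_div_right (Nat.add_le_add_right (Nat.pow_le_pow_left (by omega) 3) _)

theorem aq_mono {g g' : ℕ} (h : g ≤ g') : aq g ≤ aq g' := max_le_max le_rfl (acq_mono h)

theorem acq_g1 : acq 5817 = 48082285 := by norm_num [acq]

theorem aq_lo {g : ℕ} (h : g ≤ 5817) : aq g = 48082285 :=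
  max_eq_left (acq_g1 ▸ acq_mono h)

theorem aq_hi {g : ℕ} (h : 5817 ≤ g) : aq g = acq g :=
  max_eq_right (acq_g1 ▸ acq_mono h)

theorem acq_bd (g : ℕ) : ((g : ℝ) + 3) ^ 3 / 4100 ≤ acq g ∧ (acq g : ℝ) ≤ ((g : ℝ) + 3) ^ 3 / 4100 + 1 := by
  have h1 : (g + 3) ^ 3 ≤ 4100 * acq g := by unfold acq; omega
  have h2 : 4100 * acq g ≤ (g + 3) ^ 3 + 4100 := by unfold acq; omega
  have h1' : ((g : ℝ) + 3) ^ 3 ≤ 4100 * acq g := by exact_mod_cast h1
  have h2' : (4100 : ℝ) * acq g ≤ ((g : ℝ) + 3) ^ 3 + 4100 := by exact_mod_cast h2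
  constructor <;> linarith

theorem aq_ge (g : ℕ) : ((g : ℝ) + 3) ^ 3 / 4100 ≤ aq g :=
  (acq_bd g).1.trans (by exact_mod_cast le_max_right _ _)

theorem aq_le (g : ℕ) : (4100 : ℝ) * aq g ≤ max 197137368500 (((g : ℝ) + 3) ^ 3 + 4100) := by
  rcases le_total g 5817 with h | h
  · rw [aq_lo h]; exact le_max_of_le_left (by norm_num)
  · rw [aq_hi h]; exact le_max_of_le_right (by linarith [(acq_bd g).2])

theorem Bq_le {g : ℕ} (hg : 5800 ≤ g) :
    ((aq (g + 18) + 18 : ℕ) : ℝ) ≤ ((g : ℝ) + 21) ^ 3 / 4100 + 19 := by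
  rw [aq_hi (by omega)]
  have := (acq_bd (g + 18)).2
  push_cast at this ⊢
  have e : (g : ℝ) + 18 + 3 = g + 21 := by ring
  rw [e] at this
  linarith

theorem bq_spec (g : ℕ) : aq g ≤ bq g ∧ bq g < aq g + 18 ∧ bq g % 18 = g % 18 := by
  unfold bq; omega

theorem bq_next (g : ℕ) : bq g + mq g * 18 = bq (g + 18) := by
  have h1 := bq_spec g
  have h2 := bq_spec (g + 18)
  have h3 := aq_mono (show g ≤ g + 18 by omega)
  unfold mq; omega

theorem aq_pos (g : ℕ) : 0 < aq g := lt_of_lt_of_le (by norm_num) (le_max_left _ _)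

theorem ex1 (h : ℕ) : ∃ g, 5800 ≤ g ∧ 6 * h ^ 3 < ((g + 1) * (g + 3)) ^ 2 :=
  ⟨5800 + 6 * h ^ 3, by omega, by
    nlinarith [Nat.zero_le (h ^ 3), Nat.zero_le ((h ^ 3) ^ 2),
      Nat.zero_le ((h ^ 3) ^ 3), Nat.zero_le ((h ^ 3) ^ 4)]⟩

theorem ex2 (h : ℕ) : ∃ g, 5800 ≤ g ∧ 6601 * h ^ 3 < 100 * ((g - 1) * (g + 21)) ^ 2 :=
  ⟨5800 + 67 * h ^ 3, by omega, by
    have : 5800 + 67 * h ^ 3 - 1 = 5799 + 67 * h ^ 3 := by omega
    rw [this]
    nlinarith [Nat.zero_le (h ^ 3), Nat.zero_le ((h ^ 3) ^ 2),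
      Nat.zero_le ((h ^ 3) ^ 3), Nat.zero_le ((h ^ 3) ^ 4)]⟩

def G1 (h : ℕ) : ℕ := Nat.find (ex1 h)
def G2 (h : ℕ) : ℕ := Nat.find (ex2 h)

noncomputable def thq (h : ℕ) : ℝ := (wq h - wq (h + 1)) * ∑ k ∈ Ico (G1 h) (G2 (h + 1)), dq k

theorem crit1_mono {h g g' : ℕ} (hg : g ≤ g') (hc : 6 * h ^ 3 < ((g + 1) * (g + 3)) ^ 2) :
    6 * h ^ 3 < ((g' + 1) * (g' + 3)) ^ 2 :=
  hc.trans_le (Nat.pow_le_pow_left (Nat.mul_le_mul (by omega) (by omega)) 2)

theorem crit2_mono {h g g' : ℕ} (hg : g ≤ g')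
    (hc : 6601 * h ^ 3 < 100 * ((g - 1) * (g + 21)) ^ 2) :
    6601 * h ^ 3 < 100 * ((g' - 1) * (g' + 21)) ^ 2 :=
  hc.trans_le (Nat.mul_le_mul_left _ (Nat.pow_le_pow_left (Nat.mul_le_mul (by omega) (by omega)) 2))

theorem G1_le {h k : ℕ} (hh : 0 < h) (hk : 5800 ≤ k) (hc : sgq k < wq h) : G1 h ≤ k := by
  refine Nat.find_min' _ ⟨hk, ?_⟩
  have h0 : (0 : ℝ) < h := by exact_mod_cast hh
  rw [wq_pos' hh, sgq, div_lt_div_iff₀ (by positivity) (by positivity)] at hc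
  have : (6 : ℝ) * h ^ 3 < (((k : ℝ) + 1) * ((k : ℝ) + 3)) ^ 2 := by linarith
  exact_mod_cast this

theorem lt_G2 {h k : ℕ} (hh : 0 < h) (hk : 5800 ≤ k) (hc : wq h ≤ tauq k) : k < G2 h := by
  by_contra hn
  have h1 := crit2_mono (not_lt.1 hn) (Nat.find_spec (ex2 h)).2
  have h0 : (0 : ℝ) < h := by exact_mod_cast hh
  have hk' : (5800 : ℝ) ≤ k := by exact_mod_cast hk
  have hk1 : (0 : ℝ) < (k : ℝ) - 1 := by linarith
  rw [wq_pos' hh, tauq, div_le_div_iff₀ (by positivity) (by positivity)] at hc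
  have h2 : ((6601 * h ^ 3 : ℕ) : ℝ) < ((100 * ((k - 1) * (k + 21)) ^ 2 : ℕ) : ℝ) := by
    exact_mod_cast h1
  push_cast [Nat.cast_sub (show 1 ≤ k by omega)] at h2
  linarith

theorem G1_le_G2 {h1 h2 : ℕ} (h : h1 ≤ h2) : G1 h1 ≤ G2 h2 := by
  obtain ⟨a1, a2⟩ := Nat.find_spec (ex2 h2)
  refine Nat.find_min' _ ⟨a1, ?_⟩
  change 6601 * h2 ^ 3 < 100 * ((G2 h2 - 1) * (G2 h2 + 21)) ^ 2 at a2
  change 5800 ≤ G2 h2 at a1
  generalize G2 h2 = g at *
  have b1 : h1 ^ 3 ≤ h2 ^ 3 := Nat.pow_le_pow_left h 3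
  have b2 : (g - 1) * (g + 21) ≤ 2 * ((g + 1) * (g + 3)) := by
    have : g - 1 ≤ g + 1 := by omega
    have : g + 21 ≤ 2 * (g + 3) := by omega
    nlinarith
  have b3 := Nat.pow_le_pow_left b2 2
  nlinarith

theorem G1_ge (h : ℕ) : 5800 ≤ G1 h := (Nat.find_spec (ex1 h)).1
theorem G2_ge (h : ℕ) : 5800 ≤ G2 h := (Nat.find_spec (ex2 h)).1

theorem clamp_sum {w : ℕ → ℝ} (hw : StrictAnti w) {σ τ : ℝ} (hστ : σ ≤ τ) {h1 h2 : ℕ}
    (h : h1 ≤ h2) : max σ (min τ (w h1)) - max σ (min τ (w h2)) ≤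
      ∑ k ∈ Ico h1 h2, if σ < w k ∧ w (k + 1) ≤ τ then w k - w (k + 1) else 0 := by
  induction h2, h using Nat.le_induction with
  | base => simp
  | succ k hk ih =>
    rw [Finset.sum_Ico_succ_top hk]
    have a1 : w (k + 1) < w k := hw (Nat.lt_succ_self k)
    have : max σ (min τ (w k)) - max σ (min τ (w (k + 1))) ≤
        if σ < w k ∧ w (k + 1) ≤ τ then w k - w (k + 1) else 0 := by
      split_ifs with h3
      · simp only [max_def, min_def]; split_ifs <;> linarith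
      · rw [not_and_or, not_lt, not_le] at h3
        simp only [max_def, min_def]; rcases h3 with h3 | h3 <;> split_ifs <;> linarith
    linarith

theorem sg_le_tau {g : ℕ} (hg : 5800 ≤ g) : sgq g ≤ tauq g := by
  have hx : (5800 : ℝ) ≤ g := by exact_mod_cast hg
  obtain ⟨t, ht, e⟩ := shift hx
  unfold sgq tauq
  rw [e]
  have e : t + 5800 - 1 = t + 5799 := by ring
  rw [e, div_le_div_iff₀ (by positivity) (by positivity), ← sub_nonneg]
  ring_nf; positivity

theorem dq_nonneg (g : ℕ) : 0 ≤ dq g := by unfold dq; positivity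

theorem sumT_le {h1 h2 : ℕ} (a1 : 5800 ≤ h1) (a2 : h1 < h2) :
    ∑ k ∈ Ico 5800 h2, tb (sgq k) (tauq k) (4100 / ((k : ℝ) + 3) ^ 3) (dq k) (wq h2) (wq h1) ≤
      phq (G1 h1) - phq (G2 h2) + ∑ h ∈ Ico h1 h2, thq h := by
  have b1 : ∀ k ∈ Ico 5800 h2,
      tb (sgq k) (tauq k) (4100 / ((k : ℝ) + 3) ^ 3) (dq k) (wq h2) (wq h1) ≤
      (if k ∈ Ico (G1 h1) (G2 h2) then phq k - phq (k + 1) else 0) +
      ∑ h ∈ Ico h1 h2, if k ∈ Ico (G1 h) (G2 (h + 1)) then (wq h - wq (h + 1)) * dq k else 0 := by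
    intro k hk
    have hk1 := (Finset.mem_Ico.1 hk).1
    have hx : (5800 : ℝ) ≤ k := by exact_mod_cast hk1
    have c0 := p_tel3 hx
    have c00 : (0 : ℝ) ≤ 4100 / ((k : ℝ) + 3) ^ 3 := by positivity
    have c1 : phq k - phq (k + 1) = 8200 / (2 * (k : ℝ) + 5) ^ 2 - 8200 / (2 * ((k : ℝ) + 1) + 5) ^ 2 := by
      simp only [phq]; push_cast; ring
    have c2 : ∀ h ∈ Ico h1 h2, dq k * (if sgq k < wq h ∧ wq (h + 1) ≤ tauq k then wq h - wq (h + 1)
        else 0) ≤ if k ∈ Ico (G1 h) (G2 (h + 1)) then (wq h - wq (h + 1)) * dq k else 0 := by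
      intro h hh
      have hh1 := (Finset.mem_Ico.1 hh).1
      by_cases h3 : sgq k < wq h ∧ wq (h + 1) ≤ tauq k
      · rw [if_pos h3, if_pos (Finset.mem_Ico.2 ⟨G1_le (by omega) hk1 h3.1,
          lt_G2 (by omega) hk1 h3.2⟩), mul_comm]
      · rw [if_neg h3, mul_zero]
        split_ifs
        · exact mul_nonneg (sub_nonneg.2 (wq_anti (Nat.lt_succ_self h)).le) (dq_nonneg k)
        · exact le_rfl
    have c3 := Finset.sum_le_sum c2
    rw [← Finset.mul_sum] at c3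
    have c4 := mul_le_mul_of_nonneg_left (clamp_sum wq_anti (sg_le_tau hk1) a2.le) (dq_nonneg k)
    have c5 := sg_le_tau hk1
    unfold tb
    by_cases h3 : sgq k < wq h1 ∧ wq h2 ≤ tauq k
    · rw [if_pos h3, if_pos (Finset.mem_Ico.2 ⟨G1_le (by omega) hk1 h3.1,
        lt_G2 (by omega) hk1 h3.2⟩)]
      rw [max_eq_right (le_min c5 h3.1.le), min_eq_right h3.2, min_comm, max_comm] at c4
      linarith
    · rw [if_neg h3]
      refine add_nonneg ?_ (Finset.sum_nonneg fun h _ => ?_)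
      · split_ifs <;> linarith
      · split_ifs
        · exact mul_nonneg (sub_nonneg.2 (wq_anti (Nat.lt_succ_self h)).le) (dq_nonneg k)
        · exact le_rfl
  refine (Finset.sum_le_sum b1).trans ?_
  rw [Finset.sum_add_distrib, Finset.sum_comm]
  refine add_le_add ?_ (Finset.sum_le_sum fun h _ => ?_)
  · rw [← Finset.sum_filter]
    have c1 : ∑ k ∈ Ico (G1 h1) (G2 h2), (phq k - phq (k + 1)) = phq (G1 h1) - phq (G2 h2) := by
      have := Finset.sum_Ico_sub (fun k => - phq k) (G1_le_G2 a2.le)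
      rw [show phq (G1 h1) - phq (G2 h2) = - phq (G2 h2) - - phq (G1 h1) by ring, ← this]
      exact Finset.sum_congr rfl fun k _ => by ring
    rw [← c1]
    refine Finset.sum_le_sum_of_subset_of_nonneg (fun k hk => (Finset.mem_filter.1 hk).2) ?_
    intro k hk _
    have hx : (5800 : ℝ) ≤ k := by exact_mod_cast (G1_ge h1).trans (Finset.mem_Ico.1 hk).1
    have c0 := p_tel3 hx
    have c00 : (0 : ℝ) ≤ 4100 / ((k : ℝ) + 3) ^ 3 := by positivity
    simp only [phq]; push_cast; linarith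
  · rw [← Finset.sum_filter, thq, Finset.mul_sum]
    refine Finset.sum_le_sum_of_subset_of_nonneg (fun k hk => (Finset.mem_filter.1 hk).2) ?_
    intro k _ _
    exact mul_nonneg (sub_nonneg.2 (wq_anti (Nat.lt_succ_self h)).le) (dq_nonneg k)

theorem amhm {b c N : ℝ} (m : ℕ) (hb : 0 < b) (hN : 0 ≤ N) (hc : 0 < c)
    (h : b + N * ((m : ℝ) - 1) / 2 ≤ c) : (m : ℝ) / c ≤ ∑ i ∈ range m, 1 / (b + i * N) := by
  have h1 : ∀ i ∈ range m, 2 / c - (b + i * N) / c ^ 2 ≤ 1 / (b + i * N) := by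
    intro i _
    have : 0 < b + i * N := by positivity
    rw [← sub_nonneg]
    have e : 1 / (b + i * N) - (2 / c - (b + i * N) / c ^ 2) =
        (c - (b + i * N)) ^ 2 / ((b + i * N) * c ^ 2) := by field_simp; ring
    rw [e]; positivity
  refine le_trans ?_ (Finset.sum_le_sum h1)
  have h2 : ∀ m : ℕ, ∑ i ∈ range m, (2 / c - (b + i * N) / c ^ 2) =
      m * (2 / c - (b + N * ((m : ℝ) - 1) / 2) / c ^ 2) := by
    intro m
    induction m with
    | zero => simp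
    | succ m ih => rw [Finset.sum_range_succ, ih]; push_cast; ring
  rw [h2]
  have h3 : (b + N * ((m : ℝ) - 1) / 2) / c ^ 2 ≤ 1 / c := by
    rw [div_le_div_iff₀ (by positivity) hc]; nlinarith
  have h4 : (m : ℝ) / c = m * (2 / c - 1 / c) := by ring
  rw [h4]
  exact mul_le_mul_of_nonneg_left (by linarith) (Nat.cast_nonneg m)

theorem area_items (n : ℕ) (hn : 1 ≤ n) :
    area (∑ j ∈ Ico 1 n, ({item j} : MS)) = 1 - 1 / (n : ℝ) := by
  induction n, hn using Nat.le_induction with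
  | base => simp
  | succ n hn ih =>
    rw [Finset.sum_Ico_succ_top hn, area_add, ih, area_single]
    have : (0 : ℝ) < n := by exact_mod_cast hn
    simp only [item]; push_cast; field_simp; ring

theorem area_items_mono {S T : Finset ℕ} (h : S ⊆ T) :
    area (∑ j ∈ S, ({item j} : MS)) ≤ area (∑ j ∈ T, ({item j} : MS)) := by
  simp only [area_sum]
  exact Finset.sum_le_sum_of_subset_of_nonneg h fun j _ _ => BD.area_item j

noncomputable def gd (m0 : ℝ) (Init : ℕ → ℕ → ℝ) : GD where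
  g0 := 5800
  N := 18
  w := wq
  cap := capq
  c := cq
  E := Eq' m0
  κ := fun g => 6601 / 100 / (g : ℝ)
  G := fun g => 384 / ((g : ℝ) - 1) - 384 / (g : ℝ)
  σ := sgq
  τ := tauq
  e := fun g => 4100 / ((g : ℝ) + 3) ^ 3
  d := dq
  AR := fun g => 21 / 25 * (4100 / (g : ℝ) ^ 3) + 12 * (4100 / ((g : ℝ) + 1) ^ 4)
  b := bq
  m := mq
  a := aq
  B := fun g => aq (g + 18) + 18
  u := 99 / 100
  Λ := 39 / 250
  Mu := 213 / 2000
  Mu0 := 201 / 5000
  r := 8
  m0 := m0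
  Init := Init
  P0 := ∑ j ∈ Ico 1 48082285, ({item j} : MS)

theorem placed_spec (m0 : ℝ) (Init : ℕ → ℕ → ℝ) {g : ℕ} (hg : 5800 ≤ g) :
    ∃ S : Finset ℕ, (gd m0 Init).placed g = ∑ j ∈ S, ({item j} : MS) ∧
      ∀ j, j ∈ S ↔ 1 ≤ j ∧ j < bq (g + (j + 17 * g) % 18) := by
  induction g, hg using Nat.le_induction with
  | base =>
    refine ⟨Ico 1 48082285, by simp [GD.placed, gd], fun j => ?_⟩
    have h1 := bq_spec (5800 + (j + 17 * 5800) % 18)
    rw [aq_lo (by omega)] at h1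
    rw [Finset.mem_Ico]
    omega
  | succ g hg ih =>
    obtain ⟨S, h1, h2⟩ := ih
    have h3 := bq_spec g
    have h4 := bq_next g
    have h5 := aq_pos g
    let I := (Ico 0 (mq g)).image fun i => bq g + i * 18
    have hI : ∀ j, j ∈ I ↔ bq g ≤ j ∧ j < bq (g + 18) ∧ j % 18 = g % 18 := by
      intro j
      simp only [I, Finset.mem_image, Finset.mem_Ico]
      constructor
      · rintro ⟨i, hi, rfl⟩; omega
      · intro h; exact ⟨(j - bq g) / 18, by omega, by omega⟩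
    have hd : Disjoint S I := by
      rw [Finset.disjoint_left]
      intro j hj hj'
      rw [h2] at hj; rw [hI] at hj'
      have : g + (j + 17 * g) % 18 = g := by omega
      rw [this] at hj; omega
    refine ⟨S ∪ I, ?_, fun j => ?_⟩
    · rw [Finset.sum_union hd, ← h1, Finset.sum_image (fun i _ j _ h => by
        have h' : bq g + i * 18 = bq g + j * 18 := h
        omega)]
      simp only [GD.placed]
      rw [Finset.sum_Ico_succ_top (show (gd m0 Init).g0 ≤ g from hg), add_assoc]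
      rfl
    · rw [Finset.mem_union, h2, hI]
      by_cases hj : j % 18 = g % 18
      · have e1 : g + (j + 17 * g) % 18 = g := by omega
        have e2 : g + 1 + (j + 17 * (g + 1)) % 18 = g + 18 := by omega
        rw [e1, e2]; omega
      · have e2 : g + 1 + (j + 17 * (g + 1)) % 18 = g + (j + 17 * g) % 18 := by omega
        rw [e2]; omega

theorem cq_le {g : ℕ} (hg : 5800 ≤ g) : cq g ≤ 3 / (g : ℝ) := by
  have hx : (5800 : ℝ) ≤ g := by exact_mod_cast hg
  refine le_trans ?_ (p_cup hx)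
  unfold cq
  have : ((g : ℝ) + 3) ^ 3 / ((g : ℝ) + 21) ^ 3 ≤
      (max 197137368500 (((g : ℝ) + 3) ^ 3 + 4100) + 73800) / ((g : ℝ) + 21) ^ 3 :=
    div_le_div_of_nonneg_right (by linarith [le_max_right (197137368500 : ℝ) (((g : ℝ) + 3) ^ 3 + 4100)])
      (by positivity)
  linarith

theorem bookable_of {a x : ℝ} (ha : 0 < a) (hx : 0 < x) (h1 : a ^ 3 * 1900000000000 ≤ x)
    {h : ℕ} (hh : 5817 ≤ h) (h2 : (1 - 99 / 100) * x < wq h) :
    39 / 250 * Real.log (wq h / wq (h + 1)) + 2 * a ≤ capq h := by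
  have h0 : (5817 : ℝ) ≤ h := by exact_mod_cast hh
  have hp : (0 : ℝ) < h := by linarith
  rw [wq_pos' (by omega)] at h2
  rw [wq_pos' (show 0 < h by omega), wq_pos' (Nat.succ_pos h), capq, if_pos hh]
  push_cast
  have e : 4100 / (h : ℝ) ^ 3 / (4100 / ((h : ℝ) + 1) ^ 3) = (1 + 1 / (h : ℝ)) ^ 3 := by
    field_simp
  have l1 : Real.log (1 + 1 / (h : ℝ)) ≤ 1 / (h : ℝ) := by
    have := Real.log_le_sub_one_of_pos (show 0 < 1 + 1 / (h : ℝ) by positivity)
    linarith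
  rw [e, Real.log_pow]
  rw [lt_div_iff₀ (by positivity)] at h2
  have l2 : (a * h) ^ 3 ≤ (3 / 500) ^ 3 := by
    have : a ^ 3 * 1900000000000 * (h : ℝ) ^ 3 ≤ x * (h : ℝ) ^ 3 :=
      mul_le_mul_of_nonneg_right h1 (by positivity)
    nlinarith
  have l3 : a * h ≤ 3 / 500 := le_of_pow_le_pow_left₀ three_ne_zero (by norm_num) l2
  have l4 : a ≤ 3 / 500 * (1 / (h : ℝ)) := by
    rw [mul_one_div, le_div_iff₀ hp]; exact l3
  have e2 : 12 / 25 / (h : ℝ) = 12 / 25 * (1 / (h : ℝ)) := by ring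
  rw [e2]; push_cast; linarith

theorem win_ge {h : ℕ} {x : ℝ} (h1 : wq (h + 1) ≤ 99 / 100 * x) (h2 : x ≤ wq 5799) : 5817 ≤ h := by
  by_contra hn
  have h3 := wq_anti.antitone (show h + 1 ≤ 5817 by omega)
  rw [wq_pos' (by norm_num : 0 < 5817)] at h3
  rw [wq_pos' (by norm_num : 0 < 5799)] at h2
  norm_num at h2 h3
  linarith

theorem gd_ok (m0 : ℝ) (hm0 : 0 ≤ m0) (Init : ℕ → ℕ → ℝ)
    (hEc : ∀ h, 5800 ≤ h → Eq' m0 h ≤ cq h)
    (hM : ∀ h1 h2, 5800 ≤ h1 → h1 < h2 → Eq' m0 h1 + phq (G1 h1) + Init h1 h2 +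
      ∑ h ∈ Ico h1 h2, (thq h + capq h - cq h) ≤ cq h2 + phq (G2 h2)) : (gd m0 Init).OK := by
  have cast : ∀ g : ℕ, 5800 ≤ g → (5800 : ℝ) ≤ g ∧ wq (g - 1) = 4100 / ((g : ℝ) - 1) ^ 3 ∧
      wq (g + 1) = 4100 / ((g : ℝ) + 1) ^ 3 ∧
      1 / (((g : ℝ) + 21) ^ 3 / 4100 + 19) ≤ 1 / ((aq (g + 18) + 18 : ℕ) : ℝ) ∧
      1 / (aq g : ℝ) ≤ 4100 / ((g : ℝ) + 3) ^ 3 := by
    intro g hg
    refine ⟨by exact_mod_cast hg, ?_, ?_, ?_, ?_⟩
    · rw [wq_pos' (by omega), Nat.cast_sub (by omega), Nat.cast_one]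
    · rw [wq_pos' (by omega)]; push_cast; rfl
    · exact one_div_le_one_div_of_le (by positivity) (Bq_le hg)
    · have := one_div_le_one_div_of_le (by positivity) (aq_ge g)
      rwa [one_div_div] at this
  refine
    { hw := wq_anti, hw0 := wq_pos, hlim := wq_lim, hu := by norm_num [gd], hu1 := by norm_num [gd],
      hΛ := by norm_num [gd], hMu := ?_, hN := by norm_num [gd], hr := by norm_num [gd],
      hcap := fun h => ?_, ha := fun g _ => aq_pos g, hab := fun g _ => (bq_spec g).1,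
      hB := fun g _ => ?_, hσ0 := fun g _ => ?_, hσ := fun g hg => ?_, hτ := fun g hg => ?_,
      hτB := fun g hg => ?_, he := fun g hg => (cast g hg).2.2.2.2, hd := fun g hg => ?_,
      hκ0 := fun g _ => ?_, hκ := fun g hg => ?_, hκa := fun g hg => ?_,
      hbook := fun g hg h a1 a2 => ?_, huw := fun g hg => ?_, hE0 := fun g => ?_,
      hE := fun g hg x x0 x1 x2 => ?_, hup := fun g hg => ?_, hlo := fun g hg => ?_,
      hAR := fun g hg H hH => ?_, hmain := fun g hg => ?_, hc := fun g hg => ?_,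
      hG := fun g hg => ?_, hGs := fun g hg => ?_, hEc := hEc, hM := fun h1 h2 a1 a2 => ?_ }
  · change (213 : ℝ) / 2000 < 39 / 250 * Real.log (2 * (99 / 100))
    rw [Real.log_mul (by norm_num) (by norm_num)]
    have h1 := Real.log_two_gt_d9
    have h2 := Real.one_sub_inv_le_log_of_pos (show (0 : ℝ) < 99 / 100 by norm_num)
    norm_num at h1 h2 ⊢
    linarith
  · change 0 ≤ capq h
    unfold capq; split_ifs <;> positivity
  · change bq g + mq g * 18 ≤ aq (g + 18) + 18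
    rw [bq_next]; exact (bq_spec _).2.1.le
  · change 0 < sgq g
    unfold sgq; positivity
  · obtain ⟨c1, c2, c3, c4, c5⟩ := cast g hg
    change sgq g ≤ wq (g + 1) - 1 / (aq g : ℝ)
    have := p_sigma c1
    unfold sgq; linarith
  · obtain ⟨c1, c2, c3, c4, c5⟩ := cast g hg
    change wq (g - 1) - 1 / ((aq (g + 18) + 18 : ℕ) : ℝ) ≤ tauq g
    have := p_tau c1
    unfold tauq; linarith
  · obtain ⟨c1, c2, c3, c4, c5⟩ := cast g hg
    exact (p_tauB c1).trans c4
  · change ((aq (g + 18) + 18 : ℕ) : ℝ) / ((18 : ℕ) : ℝ) ≤ dq g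
    have := Bq_le hg
    unfold dq; push_cast at this ⊢; linarith
  · change 0 ≤ 6601 / 100 / (g : ℝ)
    positivity
  · obtain ⟨c1, c2, c3, c4, c5⟩ := cast g hg
    change tauq g ≤ 6601 / 100 / (g : ℝ) * wq (g + 1)
    rw [c3]; exact p_kappa c1
  · obtain ⟨c1, _⟩ := cast g hg
    change 6601 / 100 / ((g + 1 : ℕ) : ℝ) ≤ 6601 / 100 / (g : ℝ)
    push_cast
    exact div_le_div_of_nonneg_left (by norm_num) (by linarith) (by linarith)
  · obtain ⟨c1, c2, c3, c4, c5⟩ := cast g hg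
    change 5800 ≤ g at hg
    refine bookable_of (x := sgq g) (wq_pos _) (by unfold sgq; positivity) ?_
      (win_ge a1 (wq_anti.antitone (by omega))) a2
    change wq (g - 1) ^ 3 * _ ≤ _
    rw [c2]; exact p_cc c1
  · obtain ⟨c1, c2, c3, c4, c5⟩ := cast g hg
    change 99 / 100 * wq (g - 1) ≤ wq (g + 1)
    rw [c2, c3]; exact p_uw c1
  · change 0 ≤ Eq' m0 g
    unfold Eq'; split_ifs
    · exact le_rfl
    · exact le_min hm0 (Real.sqrt_nonneg _)
  · obtain ⟨c1, c2, c3, c4, c5⟩ := cast g hg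
    change x ≤ Eq' m0 (g + 1)
    change 5800 ≤ g at hg
    unfold Eq'
    rw [if_neg (by omega)]
    refine le_min x1 (Real.le_sqrt_of_sq_le ?_)
    push_cast
    rw [show (g : ℝ) + 1 + 2 = g + 3 by ring]
    exact x2.trans c5
  · obtain ⟨S, h1, h2⟩ := placed_spec m0 Init hg
    rw [h1]
    have h3 := area_items (aq g) (aq_pos g)
    have h4 := area_items_mono (S := Ico 1 (aq g)) (T := S) fun j hj => by
      rw [h2]; rw [Finset.mem_Ico] at hj
      have := (bq_spec (g + (j + 17 * g) % 18)).1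
      have := aq_mono (show g ≤ g + (j + 17 * g) % 18 by omega)
      omega
    change _ ≤ 1 / (aq g : ℝ)
    linarith
  · obtain ⟨S, h1, h2⟩ := placed_spec m0 Init (show 5800 ≤ g + 1 from Nat.le_succ_of_le hg)
    rw [h1]
    have h3 := area_items (aq (g + 18) + 18) (by omega)
    have h4 := area_items_mono (S := S) (T := Ico 1 (aq (g + 18) + 18)) fun j hj => by
      rw [h2] at hj; rw [Finset.mem_Ico]
      have := (bq_spec (g + 1 + (j + 17 * (g + 1)) % 18)).2.1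
      have := aq_mono (show g + 1 + (j + 17 * (g + 1)) % 18 ≤ g + 18 by omega)
      omega
    change 1 / ((aq (g + 18) + 18 : ℕ) : ℝ) ≤ _
    linarith
  · obtain ⟨c1, c2, c3, c4, c5⟩ := cast g hg
    change 5800 ≤ g at hg
    change wq (g + 1) * cq (g + 1) + ∑ k ∈ Ico (g + 1) H, wq k * (cq (k + 1) - capq k) ≤
      21 / 25 * (4100 / (g : ℝ) ^ 3) + 12 * (4100 / ((g : ℝ) + 1) ^ 4)
    let η : ℕ → ℝ := fun k => 21 / 25 * (4100 / ((k : ℝ) - 1) ^ 3) +
      12 / 25 * (4100 / ((g : ℝ) + 1) ^ 4) * ((5817 - k : ℕ) : ℝ)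
    have d1 : ∀ k ∈ Ico (g + 1) H, wq k * (cq (k + 1) - capq k) ≤ - η (k + 1) - - η k := by
      intro k hk
      have hk1 := (Finset.mem_Ico.1 hk).1
      have k1 : (g : ℝ) + 1 ≤ k := by exact_mod_cast hk1
      have k2 := p_tel4 (x := k) (by linarith)
      have k3 := cq_le (g := k + 1) (by omega)
      have k4 : 3 / ((k + 1 : ℕ) : ℝ) ≤ 3 / (k : ℝ) := by
        push_cast; exact div_le_div_of_nonneg_left (by norm_num) (by linarith) (by linarith)
      have k5 : 4100 / (k : ℝ) ^ 4 ≤ 4100 / ((g : ℝ) + 1) ^ 4 :=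
        div_le_div_of_nonneg_left (by norm_num) (by positivity)
          (pow_le_pow_left₀ (by linarith) k1 4)
      have k0 : (0 : ℝ) < k := by linarith
      have k6 : 4100 / (k : ℝ) ^ 3 * (3 / (k : ℝ)) = 4100 * (3 / (k : ℝ) ^ 4) := by field_simp
      have k7 : 4100 / (k : ℝ) ^ 3 * (12 / 25 / (k : ℝ)) = 4100 * 4 / 25 * (3 / (k : ℝ) ^ 4) := by
        field_simp; ring
      have k8 : 4100 / (k : ℝ) ^ 3 * cq (k + 1) ≤ 4100 / (k : ℝ) ^ 3 * (3 / (k : ℝ)) :=
        mul_le_mul_of_nonneg_left (k3.trans k4) (by positivity)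
      have k9 : 4100 / (k : ℝ) ^ 4 = 4100 / 3 * (3 / (k : ℝ) ^ 4) := by ring
      have e1 : 4100 / ((k : ℝ) - 1) ^ 3 = 4100 * (1 / ((k : ℝ) - 1) ^ 3) := by ring
      have e2 : 4100 / (k : ℝ) ^ 3 = 4100 * (1 / (k : ℝ) ^ 3) := by ring
      rw [wq_pos' (by omega), mul_sub]
      simp only [η, capq]
      push_cast
      rw [add_sub_cancel_right]
      split_ifs with h5
      · rw [show 5816 - k = 0 by omega, show 5817 - k = 0 by omega]
        push_cast; linarith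
      · rw [show 5817 - k = (5816 - k) + 1 by omega]
        push_cast; linarith
    have d2 := Finset.sum_le_sum d1
    rw [Finset.sum_Ico_sub (fun k => - η k) hH] at d2
    have d3 : 0 ≤ η H := by
      have : (g : ℝ) + 1 ≤ H := by exact_mod_cast hH
      have : (0 : ℝ) < (H : ℝ) - 1 := by linarith
      simp only [η]; positivity
    have d4 : η (g + 1) ≤ 21 / 25 * (4100 / (g : ℝ) ^ 3) + 9 * (4100 / ((g : ℝ) + 1) ^ 4) := by
      simp only [η]
      push_cast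
      rw [add_sub_cancel_right]
      have : ((5816 - g : ℕ) : ℝ) ≤ 18 := by exact_mod_cast (by omega : 5816 - g ≤ 18)
      have : (0 : ℝ) ≤ 4100 / ((g : ℝ) + 1) ^ 4 := by positivity
      nlinarith
    have d5 : wq (g + 1) * cq (g + 1) ≤ 3 * (4100 / ((g : ℝ) + 1) ^ 4) := by
      have := cq_le (g := g + 1) (by omega)
      push_cast at this
      rw [c3]
      calc _ ≤ 4100 / ((g : ℝ) + 1) ^ 3 * (3 / ((g : ℝ) + 1)) :=
            mul_le_mul_of_nonneg_left this (by positivity)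
        _ = _ := by field_simp
    linarith
  · obtain ⟨c1, c2, c3, c4, c5⟩ := cast g hg
    have := p_main c1
    change 4 * 8 * wq (g + 1) ^ 2 ≤ 1 / ((aq (g + 18) + 18 : ℕ) : ℝ) -
      (21 / 25 * (4100 / (g : ℝ) ^ 3) + 12 * (4100 / ((g : ℝ) + 1) ^ 4)) - wq (g + 1) * (213 / 2000)
    rw [c3]; linarith
  · obtain ⟨c1, _⟩ := cast g hg
    change 5800 ≤ g at hg
    change cq g ≤ ∑ i ∈ Ico 0 (mq g), 1 / (((bq g + i * 18 : ℕ) : ℝ) + 1)
    have d1 := bq_next g
    have d0 : (0 : ℝ) < bq (g + 18) := by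
      exact_mod_cast (aq_pos _).trans_le (bq_spec (g + 18)).1
    have d2 : ∀ i ∈ Ico 0 (mq g), 1 / (bq (g + 18) : ℝ) ≤ 1 / (((bq g + i * 18 : ℕ) : ℝ) + 1) := by
      intro i hi
      have := (Finset.mem_Ico.1 hi).2
      refine one_div_le_one_div_of_le (by positivity) ?_
      have : bq g + i * 18 + 1 ≤ bq (g + 18) := by omega
      exact_mod_cast this
    have d3 := Finset.card_nsmul_le_sum _ _ _ d2
    rw [Nat.card_Ico, Nat.sub_zero, nsmul_eq_mul] at d3
    refine le_trans ?_ d3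
    have d4 : (bq g : ℝ) + mq g * 18 = bq (g + 18) := by exact_mod_cast d1
    have d5 : (mq g : ℝ) * (1 / (bq (g + 18) : ℝ)) = (1 - bq g / (bq (g + 18) : ℝ)) / 18 := by
      field_simp; linarith
    rw [d5, cq]
    have d6 : (bq g : ℝ) ≤ aq g + 18 := by exact_mod_cast (bq_spec g).2.1.le
    have d7 := aq_le g
    have d8 := aq_ge (g + 18)
    have d9 : (aq (g + 18) : ℝ) ≤ bq (g + 18) := by exact_mod_cast (bq_spec (g + 18)).1
    push_cast at d8
    rw [show (g : ℝ) + 18 + 3 = g + 21 by ring] at d8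
    have d10 : (bq g : ℝ) / (bq (g + 18) : ℝ) ≤
        (max 197137368500 (((g : ℝ) + 3) ^ 3 + 4100) + 73800) / ((g : ℝ) + 21) ^ 3 := by
      rw [show (bq g : ℝ) / (bq (g + 18) : ℝ) = (4100 * bq g) / (4100 * bq (g + 18)) by field_simp]
      exact div_le_div₀ (by positivity) (by linarith) (by positivity) (by linarith)
    linarith
  · obtain ⟨c1, c2, _⟩ := cast g hg
    change 5800 ≤ g at hg
    change 3 * ∑ i ∈ Ico 0 (mq g), (wq (g - 1) - 1 / ((bq g + i * 18 : ℕ) : ℝ)) +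
      6601 / 100 / (g : ℝ) * capq g ≤ 384 / ((g : ℝ) - 1) - 384 / (g : ℝ)
    refine le_trans (add_le_add (mul_le_mul_of_nonneg_left ?_ (by norm_num))
      (mul_le_mul_of_nonneg_left ?_ (by positivity))) (p_G c1)
    · have d4 : (bq g : ℝ) + mq g * 18 = bq (g + 18) := by exact_mod_cast bq_next g
      have d6 : (aq g : ℝ) ≤ bq g := by exact_mod_cast (bq_spec g).1
      have d7 := aq_ge g
      have d8 := Bq_le hg
      have d9 : (bq (g + 18) : ℝ) ≤ ((aq (g + 18) + 18 : ℕ) : ℝ) := by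
        exact_mod_cast (bq_spec (g + 18)).2.1.le
      rw [c2]
      set A := ((g : ℝ) + 3) ^ 3 / 4100 with hA
      set B := ((g : ℝ) + 21) ^ 3 / 4100 + 19
      set b := (bq g : ℝ)
      set b' := (bq (g + 18) : ℝ)
      set w := 4100 / ((g : ℝ) - 1) ^ 3 with hw
      have A0 : 0 < A := by positivity
      have m0 : (0 : ℝ) ≤ mq g := Nat.cast_nonneg _
      have wA : 1 ≤ w * A := by
        have : (0 : ℝ) < (g : ℝ) - 1 := by linarith
        rw [hw, hA, div_mul_div_comm, le_div_iff₀ (by positivity)]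
        have := pow_le_pow_left₀ this.le (show (g : ℝ) - 1 ≤ g + 3 by linarith) 3
        linarith
      have w0 : 0 < w := by
        have : (0 : ℝ) < (g : ℝ) - 1 := by linarith
        positivity
      have e1 := amhm (b := b) (c := (b + b') / 2) (N := 18) (mq g) (by linarith) (by norm_num)
        (by linarith) (by linarith)
      rw [Finset.sum_sub_distrib, Finset.sum_const, Nat.card_Ico, Nat.sub_zero, nsmul_eq_mul,
        ← Finset.range_eq_Ico]
      push_cast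
      have e2 : (mq g : ℝ) = (b' - b) / 18 := by linarith
      have e3 : (b' - b) * (w - 2 / (b + b')) ≤ (b' - A) * (w - 2 / (A + b')) := by
        rw [← sub_nonneg]
        have p1 : 0 < b + b' := by linarith
        have p2 : 0 < A + b' := by linarith
        have : (b' - A) * (w - 2 / (A + b')) - (b' - b) * (w - 2 / (b + b')) =
            (b - A) * (w * ((A + b') * (b + b')) - 4 * b') / ((A + b') * (b + b')) := by
          field_simp; ring
        rw [this]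
        refine div_nonneg (mul_nonneg (by linarith) ?_) (by positivity)
        have q1 : 4 * A * b' ≤ (A + b') * (b + b') := by nlinarith [sq_nonneg (A - b')]
        have q2 := mul_le_mul_of_nonneg_left q1 w0.le
        nlinarith
      have e4 : (b' - A) * (w - 2 / (A + b')) ≤ (B - A) * (w - 2 / (A + B)) := by
        rw [← sub_nonneg]
        have p1 : 0 < A + B := by linarith
        have p2 : 0 < A + b' := by linarith
        have : (B - A) * (w - 2 / (A + B)) - (b' - A) * (w - 2 / (A + b')) =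
            (B - b') * (w * ((A + B) * (A + b')) - 4 * A) / ((A + B) * (A + b')) := by
          field_simp; ring
        rw [this]
        refine div_nonneg (mul_nonneg (by linarith) ?_) (by positivity)
        have q1 : (2 * A) * (2 * A) ≤ (A + B) * (A + b') :=
          mul_le_mul (by linarith) (by linarith) (by linarith) (by linarith)
        have q2 := mul_le_mul_of_nonneg_left q1 w0.le
        nlinarith
      have e5 : (mq g : ℝ) / ((b + b') / 2) = (b' - b) / 18 * (2 / (b + b')) := by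
        rw [e2]; field_simp
      rw [e5] at e1
      rw [e2]
      linarith
    · unfold capq; split_ifs
      · exact le_rfl
      · positivity
  · change 5800 ≤ g at hg
    change (201 : ℝ) / 5000 + ∑ k ∈ Ico 5800 g, (384 / ((k : ℝ) - 1) - 384 / (k : ℝ)) ≤ 213 / 2000
    have d1 := Finset.sum_Ico_sub (fun k : ℕ => - (384 / ((k : ℝ) - 1))) hg
    have d2 : ∑ k ∈ Ico 5800 g, (384 / ((k : ℝ) - 1) - 384 / (k : ℝ)) =
        ∑ k ∈ Ico 5800 g, (- (384 / (((k + 1 : ℕ) : ℝ) - 1)) - - (384 / ((k : ℝ) - 1))) :=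
      Finset.sum_congr rfl fun k _ => by push_cast; rw [add_sub_cancel_right]; ring
    rw [d2, d1]
    have : (5800 : ℝ) ≤ g := by exact_mod_cast hg
    have : 0 ≤ 384 / ((g : ℝ) - 1) := div_nonneg (by norm_num) (by linarith)
    norm_num
    linarith
  · have d1 := hM h1 h2 a1 a2
    have d2 := sumT_le a1 a2
    rw [Finset.sum_sub_distrib, Finset.sum_add_distrib] at d1
    rw [Finset.sum_Ico_succ_top a2.le]
    change Eq' m0 h1 + Init h1 h2 + ∑ k ∈ Ico 5800 h2,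
      tb (sgq k) (tauq k) (4100 / ((k : ℝ) + 3) ^ 3) (dq k) (wq h2) (wq h1) +
      ∑ k ∈ Ico h1 h2, capq k ≤ ∑ k ∈ Ico h1 h2, cq k + cq h2
    linarith

theorem finite_of_start {m0 : ℝ} {Init : ℕ → ℕ → ℝ} (H : (gd m0 Init).OK) {M1 M2 : ℝ} {R Pc : MS}
    (h : GD.Start (gd m0 Init) M1 M2 R Pc) (n : ℕ) :
    Fits (Set.Ioo 0 1 ×ˢ Set.Ioo 0 1) (∑ j ∈ Finset.Ico 1 n, ({item j} : MS)) := by
  have hg : 5800 ≤ 5800 + n := by omega
  refine h.fits H (g := 5800 + n) hg ?_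
  obtain ⟨S, h1, h2⟩ := placed_spec m0 Init hg
  rw [h1]
  refine Finset.sum_le_sum_of_subset fun j hj => ?_
  rw [h2]; rw [Finset.mem_Ico] at hj
  have a1 := (bq_spec (5800 + n + (j + 17 * (5800 + n)) % 18)).1
  have a2 := aq_mono (show 5800 + n ≤ 5800 + n + (j + 17 * (5800 + n)) % 18 by omega)
  have a3 : n ≤ aq (5800 + n) := by
    refine le_trans ?_ (le_max_right _ _)
    unfold acq
    rw [Nat.le_div_iff_mul_le (by norm_num)]
    nlinarith [Nat.zero_le (n ^ 2), Nat.zero_le (n ^ 3)]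
  omega

end Pool.Agent.MP_f14165_co
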