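import Pool.Agent.MP_f14165_co.Mid

set_option autoImplicit false

namespace Pool.Agent.MP_f14165_co
open Finset

noncomputable def thinGe (t : ℝ) : MS → ℝ := sm fun s => if t ≤ s.2 then s.2 else 0

noncomputable def hiP (t : ℝ) (M : MS) : MS := M.filter fun s => t ≤ s.2
noncomputable def loP (t : ℝ) (M : MS) : MS := M.filter fun s => ¬ t ≤ s.2

theorem hi_add_lo (t : ℝ) (M : MS) : hiP t M + loP t M = M := Multiset.filter_add_not _ _

theorem mem_hiP {t : ℝ} {M : MS} {s : ℝ × ℝ} : s ∈ hiP t M ↔ s ∈ M ∧ t ≤ s.2 :=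
  Multiset.mem_filter
theorem mem_loP {t : ℝ} {M : MS} {s : ℝ × ℝ} : s ∈ loP t M ↔ s ∈ M ∧ s.2 < t := by
  rw [loP, Multiset.mem_filter, not_le]

theorem sm_split (f : ℝ × ℝ → ℝ) (t : ℝ) (M : MS) : sm f M = sm f (hiP t M) + sm f (loP t M) := by
  rw [← sm_add, hi_add_lo]

theorem WF.lo {t t' : ℝ} {M : MS} (h : WF t M) : WF t' (loP t' M) := fun s hs =>
  ⟨(h s (mem_loP.1 hs).1).1, (h s (mem_loP.1 hs).1).2.1, (mem_loP.1 hs).2⟩

theorem lenI_hi {lo hi : ℝ} {M : MS} (h : ∀ s ∈ M, hi ≤ s.2) : lenI lo hi M = 0 :=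
  sm_eq_zero fun s hs => if_neg fun h1 => absurd (h s hs) (not_le.2 h1.2)

theorem lenI_lo {lo hi : ℝ} {M : MS} (h : ∀ s ∈ M, s.2 < lo) : lenI lo hi M = 0 :=
  sm_eq_zero fun s hs => if_neg fun h1 => absurd (h s hs) (not_lt.2 h1.1)

theorem lenGe_lo {t : ℝ} {M : MS} (h : ∀ s ∈ M, s.2 < t) : lenGe t M = 0 :=
  sm_eq_zero fun s hs => if_neg (not_le.2 (h s hs))

theorem thinGe_lo {t : ℝ} {M : MS} (h : ∀ s ∈ M, s.2 < t) : thinGe t M = 0 :=
  sm_eq_zero fun s hs => if_neg (not_le.2 (h s hs))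

theorem lenGe_hi {t : ℝ} {M : MS} (h : ∀ s ∈ M, t ≤ s.2) : lenGe t M = len M :=
  sm_congr fun s hs => if_pos (h s hs)

theorem thinGe_hi {t : ℝ} {M : MS} (h : ∀ s ∈ M, t ≤ s.2) : thinGe t M = thin M :=
  sm_congr fun s hs => if_pos (h s hs)

theorem lenI_self (t : ℝ) (M : MS) : lenI t t M = 0 :=
  sm_eq_zero fun _ _ => if_neg fun h => absurd h.1 (not_le.2 h.2)

theorem lenI_split {a b c : ℝ} (h1 : a ≤ b) (h2 : b ≤ c) (M : MS) :
    lenI a c M = lenI a b M + lenI b c M := by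
  simp only [lenI]
  rw [← sm_addf]
  refine sm_congr fun s _ => ?_
  by_cases h3 : s.2 < b
  · rw [if_neg (show ¬ (b ≤ s.2 ∧ s.2 < c) from fun h => absurd h.1 (not_le.2 h3)), add_zero]
    exact if_congr ⟨fun h => ⟨h.1, h3⟩, fun h => ⟨h.1, h3.trans_le h2⟩⟩ rfl rfl
  · rw [if_neg (show ¬ (a ≤ s.2 ∧ s.2 < b) from fun h => h3 h.2), zero_add]
    exact if_congr ⟨fun h => ⟨not_lt.1 h3, h.2⟩, fun h => ⟨h1.trans h.1, h.2⟩⟩ rfl rfl

theorem lenGe_split {a b : ℝ} (h1 : a ≤ b) (M : MS) : lenGe a M = lenI a b M + lenGe b M := by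
  simp only [lenI, lenGe]
  rw [← sm_addf]
  refine sm_congr fun s _ => ?_
  by_cases h3 : s.2 < b
  · rw [if_neg (not_le.2 h3), add_zero]
    exact if_congr ⟨fun h => ⟨h, h3⟩, fun h => h.1⟩ rfl rfl
  · rw [if_neg (show ¬ (a ≤ s.2 ∧ s.2 < b) from fun h => h3 h.2), zero_add,
      if_pos (not_lt.1 h3), if_pos (h1.trans (not_lt.1 h3))]

theorem thinGe_le {a b t : ℝ} {M : MS} (h : WF t M) :
    thinGe a M ≤ lenI a b M + thinGe b M := by
  simp only [lenI, thinGe]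
  rw [← sm_addf]
  refine sm_le fun s hs => ?_
  have := h s hs
  by_cases h3 : s.2 < b
  · rw [if_neg (not_le.2 h3), add_zero]
    by_cases h4 : a ≤ s.2
    · rw [if_pos h4, if_pos ⟨h4, h3⟩]; exact this.2.1
    · rw [if_neg h4, if_neg fun h => h4 h.1]
  · rw [if_neg (show ¬ (a ≤ s.2 ∧ s.2 < b) from fun h => h3 h.2), zero_add, if_pos (not_lt.1 h3)]
    split_ifs
    · exact le_rfl
    · exact this.1.le

theorem lenI_lo_le {lo hi t t' : ℝ} {M : MS} (h : WF t M) :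
    lenI lo hi (loP t' M) ≤ lenI lo hi M := by
  have h1 := sm_split (fun s => if lo ≤ s.2 ∧ s.2 < hi then s.1 else 0) t' M
  have h2 : 0 ≤ lenI lo hi (hiP t' M) :=
    lenI_nonneg (t := t) fun s hs => h s (mem_hiP.1 hs).1
  simp only [lenI] at *
  linarith

theorem tb_hi {p τ e d lo hi hi' : ℝ} (hp : p ≤ τ) (h1 : τ < hi) (h2 : τ < hi') :
    tb p τ e d lo hi = tb p τ e d lo hi' := by
  unfold tb
  rw [min_eq_right h1.le, min_eq_right h2.le]
  exact if_congr ⟨fun h => ⟨hp.trans_lt h2, h.2⟩, fun h => ⟨hp.trans_lt h1, h.2⟩⟩ rfl rfl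

theorem area_abel {w : ℕ → ℝ} (hw : StrictAnti w) (hw0 : ∀ h, 0 < w h)
    (hlim : ∀ x, 0 < x → ∃ H, w H ≤ x) {g : ℕ} {β : ℕ → ℝ} {AR : ℝ} {O : MS}
    (hO : WF (w g) O) (hβ : ∀ h, g ≤ h → lenGe (w h) O ≤ β h)
    (hA : ∀ H, g ≤ H → w g * β g + ∑ k ∈ Ico g H, w k * (β (k + 1) - β k) ≤ AR) :
    area O ≤ AR := by
  have hex : ∃ H, g ≤ H ∧ ∀ s ∈ O, w H ≤ s.2 := by
    clear hβ hA
    induction O using Multiset.induction_on with
    | empty => exact ⟨g, le_rfl, by simp⟩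
    | cons s O ih =>
      obtain ⟨H, h1, h2⟩ := ih fun t ht => hO t (Multiset.mem_cons_of_mem ht)
      obtain ⟨H', h3⟩ := hlim s.2 (hO s (Multiset.mem_cons_self _ _)).1
      refine ⟨max H H', h1.trans (le_max_left _ _), fun t ht => ?_⟩
      rcases Multiset.mem_cons.1 ht with rfl | ht
      · exact (hw.antitone (le_max_right _ _)).trans h3
      · exact (hw.antitone (le_max_left _ _)).trans (h2 t ht)
  obtain ⟨H, hH, hHO⟩ := hex
  have pt : ∀ y, y < w g → ∀ H, g ≤ H → max y (w H) ≤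
      w H + ∑ k ∈ Ico g H, (w k - w (k + 1)) * (if w (k + 1) ≤ y then 1 else 0) := by
    intro y hy H hH
    induction H, hH using Nat.le_induction with
    | base => simp [hy.le]
    | succ H hH ih =>
      rw [Finset.sum_Ico_succ_top hH]
      have h1 : w (H + 1) < w H := hw (Nat.lt_succ_self H)
      split_ifs with h2
      · have : max y (w (H + 1)) ≤ max y (w H) := max_le_max le_rfl h1.le
        linarith
      · rw [max_eq_right (not_le.1 h2).le]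
        have : 0 ≤ ∑ k ∈ Ico g H, (w k - w (k + 1)) * (if w (k + 1) ≤ y then 1 else 0) :=
          Finset.sum_nonneg fun k _ => mul_nonneg (sub_nonneg.2 (hw (Nat.lt_succ_self k)).le)
            (by split_ifs <;> norm_num)
        linarith
  have h1 : area O ≤ w H * lenGe (w H) O +
      ∑ k ∈ Ico g H, (w k - w (k + 1)) * lenGe (w (k + 1)) O := by
    simp only [lenGe, ← sm_mul]
    rw [← sm_fsum, ← sm_addf, area_eq_sm]
    refine sm_le fun s hs => ?_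
    have a1 := hO s hs
    have a2 := (le_max_left _ _).trans (pt s.2 a1.2.2 H hH)
    rw [if_pos (hHO s hs)]
    have a3 : ∑ k ∈ Ico g H, (w k - w (k + 1)) * (if w (k + 1) ≤ s.2 then s.1 else 0) =
        s.1 * ∑ k ∈ Ico g H, (w k - w (k + 1)) * (if w (k + 1) ≤ s.2 then 1 else 0) := by
      rw [Finset.mul_sum]
      refine Finset.sum_congr rfl fun k _ => ?_
      split_ifs <;> ring
    rw [a3]
    have a4 : 0 ≤ s.1 := by linarith [a1.1, a1.2.1]
    nlinarith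
  have h2 : w H * lenGe (w H) O + ∑ k ∈ Ico g H, (w k - w (k + 1)) * lenGe (w (k + 1)) O ≤
      w H * β H + ∑ k ∈ Ico g H, (w k - w (k + 1)) * β (k + 1) :=
    add_le_add (mul_le_mul_of_nonneg_left (hβ H hH) (hw0 H).le)
      (Finset.sum_le_sum fun k hk => mul_le_mul_of_nonneg_left
        (hβ _ (by have := (Finset.mem_Ico.1 hk).1; omega))
        (sub_nonneg.2 (hw (Nat.lt_succ_self k)).le))
  have h3 : ∀ H, g ≤ H → w H * β H + ∑ k ∈ Ico g H, (w k - w (k + 1)) * β (k + 1) =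
      w g * β g + ∑ k ∈ Ico g H, w k * (β (k + 1) - β k) := by
    intro H hH
    induction H, hH using Nat.le_induction with
    | base => simp
    | succ H hH ih => rw [Finset.sum_Ico_succ_top hH, Finset.sum_Ico_succ_top hH]; linarith
  have := hA H hH
  rw [← h3 H hH] at this
  linarith

/-- the data of the whole scheme -/
structure GD where
  (g0 N : ℕ)
  (w cap c E κ G σ τ e d AR : ℕ → ℝ)
  (b m a B : ℕ → ℕ)
  (u Λ Mu Mu0 r m0 : ℝ)
  (Init : ℕ → ℕ → ℝ)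
  (P0 : MS)

namespace GD
variable (P : GD)

noncomputable def its (g : ℕ) : MS := ∑ i ∈ Ico 0 (P.m g), ({item (P.b g + i * P.N)} : MS)
noncomputable def placed (g : ℕ) : MS := P.P0 + ∑ k ∈ Ico P.g0 g, P.its k
noncomputable def T (g : ℕ) (lo hi : ℝ) : ℝ := tb (P.σ g) (P.τ g) (P.e g) (P.d g) lo hi

structure OK : Prop where
  hw : StrictAnti P.w
  hw0 : ∀ h, 0 < P.w h
  hlim : ∀ x, 0 < x → ∃ H, P.w H ≤ x
  hu : 1 / 2 ≤ P.u
  hu1 : P.u < 1
  hΛ : 0 < P.Λ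
  hMu : P.Mu < P.Λ * Real.log (2 * P.u)
  hN : 0 < P.N
  hr : 2 ≤ P.r
  hcap : ∀ h, 0 ≤ P.cap h
  ha : ∀ g, P.g0 ≤ g → 0 < P.a g
  hab : ∀ g, P.g0 ≤ g → P.a g ≤ P.b g
  hB : ∀ g, P.g0 ≤ g → P.b g + P.m g * P.N ≤ P.B g
  hσ0 : ∀ g, P.g0 ≤ g → 0 < P.σ g
  hσ : ∀ g, P.g0 ≤ g → P.σ g ≤ P.w (g + 1) - 1 / (P.a g : ℝ)
  hτ : ∀ g, P.g0 ≤ g → P.w (g - 1) - 1 / (P.B g : ℝ) ≤ P.τ g
  hτB : ∀ g, P.g0 ≤ g → P.τ g ≤ 1 / (P.B g : ℝ)
  he : ∀ g, P.g0 ≤ g → 1 / (P.a g : ℝ) ≤ P.e g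
  hd : ∀ g, P.g0 ≤ g → (P.B g : ℝ) / P.N ≤ P.d g
  hκ0 : ∀ g, P.g0 ≤ g → 0 ≤ P.κ g
  hκ : ∀ g, P.g0 ≤ g → P.τ g ≤ P.κ g * P.w (g + 1)
  hκa : ∀ g, P.g0 ≤ g → P.κ (g + 1) ≤ P.κ g
  hbook : ∀ g, P.g0 ≤ g → ∀ h, P.w (h + 1) ≤ P.u * P.w (g - 1) → (1 - P.u) * P.σ g < P.w h →
    P.Λ * Real.log (P.w h / P.w (h + 1)) + 2 * P.w (g - 1) ≤ P.cap h
  huw : ∀ g, P.g0 ≤ g → P.u * P.w (g - 1) ≤ P.w (g + 1)
  hE0 : ∀ g, 0 ≤ P.E g
  hE : ∀ g, P.g0 ≤ g → ∀ x, 0 ≤ x → x ≤ P.m0 → x ^ 2 ≤ 1 / (P.a g : ℝ) → x ≤ P.E (g + 1)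
  hup : ∀ g, P.g0 ≤ g → 1 - area (P.placed g) ≤ 1 / (P.a g : ℝ)
  hlo : ∀ g, P.g0 ≤ g → 1 / (P.B g : ℝ) ≤ 1 - area (P.placed (g + 1))
  hAR : ∀ g, P.g0 ≤ g → ∀ H, g + 1 ≤ H → P.w (g + 1) * P.c (g + 1) +
    ∑ k ∈ Ico (g + 1) H, P.w k * (P.c (k + 1) - P.cap k) ≤ P.AR g
  hmain : ∀ g, P.g0 ≤ g →
    4 * P.r * P.w (g + 1) ^ 2 ≤ 1 / (P.B g : ℝ) - P.AR g - P.w (g + 1) * P.Mu
  hc : ∀ g, P.g0 ≤ g → P.c g ≤ ∑ i ∈ Ico 0 (P.m g), 1 / (((P.b g + i * P.N : ℕ) : ℝ) + 1)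
  hG : ∀ g, P.g0 ≤ g → 3 * ∑ i ∈ Ico 0 (P.m g), (P.w (g - 1) - 1 / ((P.b g + i * P.N : ℕ) : ℝ)) +
    P.κ g * P.cap g ≤ P.G g
  hGs : ∀ g, P.g0 ≤ g → P.Mu0 + ∑ k ∈ Ico P.g0 g, P.G k ≤ P.Mu
  hEc : ∀ h, P.g0 ≤ h → P.E h ≤ P.c h
  hM : ∀ h1 h2, P.g0 ≤ h1 → h1 < h2 → P.E h1 + P.Init h1 h2 +
    ∑ k ∈ Ico P.g0 h2, P.T k (P.w h2) (P.w h1) + ∑ k ∈ Ico h1 h2, P.cap k ≤
    ∑ k ∈ Ico h1 (h2 + 1), P.c k

structure Inv (g : ℕ) (M1 M2 : ℝ) (R J : MS) : Prop where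
  step : Step {(1, 1)} (P.placed g + {(M1, M2)} + R + J)
  wr : WF (P.w (g - 1)) R
  wj : WF (P.w (g - 1)) J
  ir : ∀ h1 h2, g ≤ h1 → h1 < h2 → lenI (P.w h2) (P.w h1) R ≤
    P.Init h1 h2 + ∑ k ∈ Ico P.g0 g, P.T k (P.w h2) (P.w h1)
  ii : ∀ h, g ≤ h → lenI (P.w (h + 1)) (P.w h) J ≤ P.cap h
  ib : ∀ h2, g ≤ h2 → lenGe (P.w g) (R + J) + lenI (P.w h2) (P.w g) R +
    ∑ k ∈ Ico g h2, P.cap k + ∑ k ∈ Ico g h2, P.T k (P.w h2) (P.w g) ≤
    ∑ k ∈ Ico g (h2 + 1), P.c k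
  pot : 3 * (M1 + M2) + 3 * thin R + (len J + thin J) + P.κ g * thinGe (P.w g) J ≤
    P.Mu0 + ∑ k ∈ Ico P.g0 g, P.G k
  m1 : 0 < M1
  m2 : 0 < M2
  r1 : M1 ≤ P.r * M2
  r2 : M2 ≤ P.r * M1
  mm : min M1 M2 ≤ P.m0

variable {P}

theorem OK.facts (H : P.OK) {g : ℕ} (hg : P.g0 ≤ g) :
    P.σ g ≤ P.τ g ∧ P.τ g < P.w (g + 1) ∧ 0 ≤ P.e g ∧ 0 ≤ P.d g := by
  have a0 : (0 : ℝ) < P.a g := by exact_mod_cast H.ha g hg
  have a1 : 1 / (P.B g : ℝ) ≤ 1 / (P.a g : ℝ) := by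
    refine one_div_le_one_div_of_le a0 ?_
    have : P.a g ≤ P.B g := (H.hab g hg).trans ((Nat.le_add_right _ _).trans (H.hB g hg))
    exact_mod_cast this
  have a2 := H.hσ g hg; have a3 := H.hσ0 g hg; have a4 := H.hτ g hg; have a5 := H.hτB g hg
  have a6 : P.w (g + 1) ≤ P.w (g - 1) := H.hw.antitone (by omega)
  exact ⟨by linarith, by linarith, le_trans (by positivity) (H.he g hg),
    le_trans (by positivity) (H.hd g hg)⟩

theorem OK.T_nonneg (H : P.OK) {g : ℕ} (hg : P.g0 ≤ g) {lo hi : ℝ} (h : lo < hi) :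
    0 ≤ P.T g lo hi :=
  tb_nonneg (H.facts hg).1 (H.facts hg).2.2.1 (H.facts hg).2.2.2 h

theorem Inv.next (H : P.OK) {g : ℕ} (hg : P.g0 ≤ g) {M1 M2 : ℝ} {R J : MS}
    (h : P.Inv g M1 M2 R J) : ∃ M1' M2' R' J', P.Inv (g + 1) M1' M2' R' J' := by
  have w21 : P.w (g + 1) < P.w g := H.hw (Nat.lt_succ_self g)
  have w10 : P.w g ≤ P.w (g - 1) := H.hw.antitone (by omega)
  have hpl : P.placed (g + 1) = P.placed g + P.its g := by
    simp only [placed]; rw [Finset.sum_Ico_succ_top hg, add_assoc]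
  set ER := hiP (P.w (g + 1)) R with hER
  set O := loP (P.w (g + 1)) R with hO
  set EI := hiP (P.w (g + 1)) J with hEI
  set J0 := loP (P.w (g + 1)) J with hJ0
  have eR : ER + O = R := hi_add_lo _ _
  have eJ : EI + J0 = J := hi_add_lo _ _
  have wO : WF (P.w (g + 1)) O := h.wr.lo
  have wJ0 : WF (P.w (g + 1)) J0 := h.wj.lo
  have hc1 : 0 ≤ P.c (g + 1) := (H.hE0 _).trans (H.hEc _ (by omega))
  have ar := h.step.2
  rw [← eR, ← eJ] at ar
  simp only [area_add, area_single] at ar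
  have hlo := H.hlo g hg
  rw [hpl, area_add] at hlo
  have hup := H.hup g hg
  have hOI : ∀ h1 h2, lenI (P.w h2) (P.w h1) O ≤ lenI (P.w h2) (P.w h1) R := fun _ _ =>
    lenI_lo_le h.wr
  have hArO : area O ≤ P.AR g := by
    refine area_abel H.hw H.hw0 H.hlim (g := g + 1)
      (β := fun h => ∑ k ∈ Ico (g + 1) (h + 1), P.c k - ∑ k ∈ Ico (g + 1) h, P.cap k) wO ?_ ?_
    · intro h2 hh
      rcases hh.eq_or_lt with rfl | hh
      · rw [lenGe_lo fun s hs => (wO s hs).2.2]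
        simpa using hc1
      · rw [lenGe_split (H.hw hh).le, lenGe_lo fun s hs => (wO s hs).2.2, add_zero]
        have a1 := h.ir (g + 1) h2 (by omega) hh
        have a2 := H.hM (g + 1) h2 (by omega) hh
        have a3 := H.hE0 (g + 1)
        have a4 : ∑ k ∈ Ico P.g0 g, P.T k (P.w h2) (P.w (g + 1)) ≤
            ∑ k ∈ Ico P.g0 h2, P.T k (P.w h2) (P.w (g + 1)) :=
          Finset.sum_le_sum_of_subset_of_nonneg (Finset.Ico_subset_Ico le_rfl (by omega))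
            fun k hk _ => H.T_nonneg (Finset.mem_Ico.1 hk).1 (H.hw hh)
        have := hOI (g + 1) h2
        linarith
    · intro K hK
      refine le_trans (le_of_eq ?_) (H.hAR g hg K hK)
      congr 1
      · simp
      · refine Finset.sum_congr rfl fun k hk => ?_
        have hk1 := (Finset.mem_Ico.1 hk).1
        rw [Finset.sum_Ico_succ_top (show g + 1 ≤ k + 1 by omega),
          Finset.sum_Ico_succ_top hk1 P.cap]
        ring
  have tEI : thin EI ≤ P.cap g + thinGe (P.w g) J := by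
    have a1 : thinGe (P.w (g + 1)) J = thin EI := by
      rw [← eJ]
      simp only [thinGe, sm_add]
      have b1 := thinGe_hi (t := P.w (g + 1)) (M := EI) fun s hs => (mem_hiP.1 hs).2
      have b2 := thinGe_lo (t := P.w (g + 1)) (M := J0) fun s hs => (wJ0 s hs).2.2
      simp only [thinGe] at b1 b2
      rw [b1, b2, add_zero]
    have a2 := thinGe_le (a := P.w (g + 1)) (b := P.w g) h.wj
    have := h.ii g le_rfl
    linarith
  have hpot := h.pot
  have hκ0 := H.hκ0 g hg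
  have hG := H.hG g hg
  have tO := thin_nonneg wO
  have sR : thin R = thin ER + thin O := sm_split _ _ _
  have sJ : thin J = thin EI + thin J0 := sm_split _ _ _
  have sL : len J = len EI + len J0 := sm_split _ _ _
  have hκt : P.κ g * thin EI ≤ P.κ g * (P.cap g + thinGe (P.w g) J) :=
    mul_le_mul_of_nonneg_left tEI hκ0
  let Q : BD :=
    { w := P.w, cap := P.cap, u := P.u, Λ := P.Λ, Mu := P.Mu, r := P.r, m0 := P.m0,
      w0 := P.w (g - 1), w1 := P.w g, w2 := P.w (g + 1), σ := P.σ g, τ := P.τ g, e := P.e g,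
      d := P.d g, κ := P.κ g, E := P.E (g + 1), AR := P.AR g, ArO := area O,
      Φ0 := 3 * (M1 + M2) + 3 * thin ER + (len EI + (1 + P.κ g) * thin EI) + (len J0 + thin J0),
      l1 := lenGe (P.w g) (ER + EI), l2 := len (ER + EI),
      b := P.b g, N := P.N, m := P.m g, a := P.a g, B := P.B g,
      S0 := {(M1, M2)} + (ER + EI) + J0 }
  have hGs := H.hGs (g + 1) (by omega)
  rw [Finset.sum_Ico_succ_top hg] at hGs
  have HQ : Q.OK :=
    { hw := H.hw, hw0 := H.hw0, hlim := H.hlim, hu := H.hu, hu1 := H.hu1, hΛ := H.hΛ,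
      hMu := H.hMu, h21 := w21, h20 := w21.le.trans w10, hN := H.hN, ha := H.ha g hg,
      hab := H.hab g hg, hB := H.hB g hg, hσ0 := H.hσ0 g hg, hσ := H.hσ g hg, hτ := H.hτ g hg,
      hτB := H.hτB g hg, he := H.he g hg, hd := H.hd g hg, hκ0 := hκ0, hκ := H.hκ g hg,
      hbook := H.hbook g hg, huw := H.huw g hg, hr := H.hr, hE := H.hE g hg,
      hup := by simp only [Q, area_add, area_single]; linarith
      hlo := by
        have : Q.its 0 = P.its g := rfl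
        rw [this]
        simp only [Q, area_add, area_single]; linarith
      hO0 := BD.area_nonneg_wf wO, hO := hArO, hmain := H.hmain g hg
      hΦ := by
        simp only [Q, BD.gr]
        linarith }
  have hE0 : ∀ s ∈ ER + EI, P.w (g + 1) ≤ s.2 ∧ s.2 ≤ P.w (g - 1) ∧ s.2 ≤ s.1 := by
    intro s hs
    rcases Multiset.mem_add.1 hs with hs | hs
    · have := h.wr s (mem_hiP.1 hs).1
      exact ⟨(mem_hiP.1 hs).2, this.2.2.le, this.2.1⟩
    · have := h.wj s (mem_hiP.1 hs).1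
      exact ⟨(mem_hiP.1 hs).2, this.2.2.le, this.2.1⟩
  obtain ⟨f1, f2, f3, f4⟩ := H.facts hg
  have start : Q.Mid Q.m M1 M2 (P.w (g - 1)) ER EI 0 J0 :=
    { step := Step.of_eq (by simp [Q, BD.its])
      eok := ⟨w21.le.trans w10, le_rfl, hE0, by simp [Q, BD.pl], by simp [Q, BD.pl]⟩
      chw := WF.zero _
      chl := by simp
      chain := Chain.zero (by
        have a1 := HQ.le_inv (le_refl Q.m)
        have a2 := HQ.hτ
        exact le_trans (sub_le_sub_left a1 _) a2) f3 f4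
      jw := wJ0
      jc := fun k => by
        by_cases hk : g + 1 ≤ k
        · exact (lenI_lo_le h.wj).trans (h.ii k (by omega))
        · rw [lenI_lo fun s hs => (wJ0 s hs).2.2.trans_le (H.hw.antitone (by omega))]
          exact H.hcap k
      pot := by simp [Q, BD.gr, thin]
      m1 := h.m1, m2 := h.m2, r1 := h.r1, r2 := h.r2, mm := h.mm }
  obtain ⟨N1, N2, Y, ER', EI', Ch, J', f⟩ := start.run HQ le_rfl
  have hpl0 : P.c g ≤ Q.pl 0 := H.hc g hg
  have eok := f.eok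
  have hE' : ∀ s ∈ ER' + EI', P.w (g + 1) ≤ s.2 ∧ s.2 ≤ Y ∧ s.2 ≤ s.1 := eok.hE
  have w2p := H.hw0 (g + 1)
  have chain : Chain (P.σ g) (P.τ g) (P.e g) (P.d g) Ch := by
    refine f.chain.mono ?_ f1 f3 f4
    have a1 := HQ.inv_le 0
    have a2 := HQ.hσ
    have a3 := eok.hY1
    exact le_trans a2 (sub_le_sub a3 a1)
  have l1e : lenGe (P.w g) (R + J) = lenGe (P.w g) (ER + EI) := by
    rw [← eR, ← eJ]
    have b1 := lenGe_lo (t := P.w g) (M := O) fun s hs => (wO s hs).2.2.trans w21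
    have b2 := lenGe_lo (t := P.w g) (M := J0) fun s hs => (wJ0 s hs).2.2.trans w21
    simp only [lenGe, sm_add] at b1 b2 ⊢
    linarith
  have l2e : lenGe (P.w (g + 1)) (R + J) = len (ER + EI) := by
    rw [← lenGe_hi (t := P.w (g + 1)) fun s hs => (hE0 s hs).1, ← eR, ← eJ]
    have b1 := lenGe_lo (t := P.w (g + 1)) (M := O) fun s hs => (wO s hs).2.2
    have b2 := lenGe_lo (t := P.w (g + 1)) (M := J0) fun s hs => (wJ0 s hs).2.2
    simp only [lenGe, sm_add] at b1 b2 ⊢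
    linarith
  have gone : ∀ s ∈ ER' + EI', s.2 < P.w g := by
    intro s hs
    by_contra hn
    have a1 := h.ib g le_rfl
    simp only [lenI_self, Finset.Ico_self, Finset.sum_empty, add_zero,
      Nat.Ico_succ_singleton, Finset.sum_singleton] at a1
    have a2 : lenGe (P.w g) (ER' + EI') ≤ max 0 (lenGe (P.w g) (ER + EI) - Q.pl 0) := eok.h1
    rw [max_eq_left (by linarith)] at a2
    have a3 := le_sm (f := fun s => if P.w g ≤ s.2 then s.1 else 0) (M := ER' + EI')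
      (fun t ht => by have := hE' t ht; split_ifs <;> linarith) hs
    simp only [if_pos (not_lt.1 hn)] at a3
    have := hE' s hs
    simp only [lenGe] at a2
    linarith
  have chw : WF (P.w (g + 1)) Ch := f.chw
  have jw : WF (P.w (g + 1)) J' := f.jw
  have wER : WF (P.w g) ER' := fun s hs => by
    have a1 := hE' s (Multiset.mem_add.2 (Or.inl hs))
    exact ⟨by linarith, a1.2.2, gone s (Multiset.mem_add.2 (Or.inl hs))⟩
  have wEI : WF (P.w g) EI' := fun s hs => by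
    have a1 := hE' s (Multiset.mem_add.2 (Or.inr hs))
    exact ⟨by linarith, a1.2.2, gone s (Multiset.mem_add.2 (Or.inr hs))⟩
  have lenR : ∀ h1 h2, g + 1 ≤ h1 → lenI (P.w h2) (P.w h1) (O + ER' + Ch) =
      lenI (P.w h2) (P.w h1) O + lenI (P.w h2) (P.w h1) Ch := by
    intro h1 h2 hh
    have b1 := lenI_hi (lo := P.w h2) (hi := P.w h1) (M := ER') fun s hs =>
      (H.hw.antitone hh).trans (hE' s (Multiset.mem_add.2 (Or.inl hs))).1
    simp only [lenI, sm_add] at b1 ⊢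
    linarith
  refine ⟨N1, N2, O + ER' + Ch, EI' + J', ?_, ?_, ?_, ?_, ?_, ?_, ?_, f.m1, f.m2, f.r1, f.r2, f.mm⟩
  · refine h.step.trans ?_
    have := f.step.add_left (P.placed g + O)
    refine (Step.of_eq ?_).trans (this.trans (Step.of_eq ?_))
    · rw [← eR, ← eJ]; simp only [Q]; abel
    · rw [hpl, show Q.its 0 = P.its g from rfl]; abel
  · exact ((wO.mono w21.le).add wER).add (chw.mono w21.le)
  · exact wEI.add (jw.mono w21.le)
  · intro h1 h2 a1 a2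
    rw [lenR h1 h2 a1, Finset.sum_Ico_succ_top hg]
    have b1 := h.ir h1 h2 (by omega) a2
    have b2 := hOI h1 h2
    have b3 : lenI (P.w h2) (P.w h1) Ch ≤ P.T g (P.w h2) (P.w h1) := chain _ _ (H.hw a2)
    linarith
  · intro k hk
    have b1 := lenI_hi (lo := P.w (k + 1)) (hi := P.w k) (M := EI') fun s hs =>
      (H.hw.antitone hk).trans (hE' s (Multiset.mem_add.2 (Or.inr hs))).1
    have b2 : lenI (P.w (k + 1)) (P.w k) J' ≤ P.cap k := f.jc k
    simp only [lenI, sm_add] at b1 b2 ⊢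
    linarith
  · intro h2 hh
    have b0 : lenGe (P.w (g + 1)) (O + ER' + Ch + (EI' + J')) = len (ER' + EI') := by
      rw [← lenGe_hi (t := P.w (g + 1)) fun s hs => (hE' s hs).1]
      have b1 := lenGe_lo (t := P.w (g + 1)) (M := O) fun s hs => (wO s hs).2.2
      have b2 := lenGe_lo (t := P.w (g + 1)) (M := Ch) fun s hs => (chw s hs).2.2
      have b3 := lenGe_lo (t := P.w (g + 1)) (M := J') fun s hs => (jw s hs).2.2
      simp only [lenGe, sm_add] at b1 b2 b3 ⊢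
      linarith
    rw [b0, lenR _ _ le_rfl]
    have b1 : len (ER' + EI') ≤ max (P.E (g + 1)) (len (ER + EI) - Q.pl 0) := eok.h2
    have wh : P.w h2 ≤ P.w (g + 1) := H.hw.antitone hh
    rcases le_max_iff.1 b1 with b1 | b1
    · rcases hh.eq_or_lt with rfl | hh'
      · have := H.hEc (g + 1) (by omega)
        simp only [lenI_self, Finset.Ico_self, Finset.sum_empty, add_zero,
          Nat.Ico_succ_singleton, Finset.sum_singleton]
        linarith
      · have c1 := h.ir (g + 1) h2 (by omega) hh'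
        have c2 := hOI (g + 1) h2
        have c3 : lenI (P.w h2) (P.w (g + 1)) Ch ≤ P.T g (P.w h2) (P.w (g + 1)) :=
          chain _ _ (H.hw hh')
        have c4 := H.hM (g + 1) h2 (by omega) hh'
        rw [← Finset.sum_Ico_consecutive _ (show P.g0 ≤ g + 1 by omega) hh,
          Finset.sum_Ico_succ_top hg] at c4
        linarith
    · have c1 := h.ib h2 (by omega)
      rw [Finset.sum_eq_sum_Ico_succ_bot (show g < h2 by omega),
        Finset.sum_eq_sum_Ico_succ_bot (show g < h2 by omega),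
        Finset.sum_eq_sum_Ico_succ_bot (show g < h2 + 1 by omega),
        lenI_split wh w21.le R] at c1
      have c2 : ∑ k ∈ Ico (g + 1) h2, P.T k (P.w h2) (P.w (g + 1)) =
          ∑ k ∈ Ico (g + 1) h2, P.T k (P.w h2) (P.w g) := by
        refine Finset.sum_congr rfl fun k hk => ?_
        have hk1 := (Finset.mem_Ico.1 hk).1
        obtain ⟨d1, d2, _, _⟩ := H.facts (show P.g0 ≤ k by omega)
        have d3 : P.w (k + 1) ≤ P.w (g + 1) := H.hw.antitone (by omega)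
        exact tb_hi d1 (by linarith) (by linarith)
      have c3 : lenI (P.w h2) (P.w g) Ch ≤ P.T g (P.w h2) (P.w g) := chain _ _ (wh.trans_lt w21)
      rw [lenI_split wh w21.le Ch] at c3
      have c4 := lenI_nonneg (lo := P.w (g + 1)) (hi := P.w g) chw
      have c5 := hOI (g + 1) h2
      have c6 := lenGe_split w21.le (R + J)
      have c7 : lenI (P.w (g + 1)) (P.w g) (R + J) =
          lenI (P.w (g + 1)) (P.w g) R + lenI (P.w (g + 1)) (P.w g) J := sm_add _ _ _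
      have c8 := h.ii g le_rfl
      rw [c2]
      linarith
  · have b1 := f.pot
    simp only [Q, BD.gr] at b1
    have b2 : thinGe (P.w (g + 1)) (EI' + J') = thin EI' := by
      have c1 := thinGe_hi (t := P.w (g + 1)) (M := EI') fun s hs =>
        (hE' s (Multiset.mem_add.2 (Or.inr hs))).1
      have c2 := thinGe_lo (t := P.w (g + 1)) (M := J') fun s hs => (jw s hs).2.2
      simp only [thinGe, sm_add] at c1 c2 ⊢
      rw [c1, c2, add_zero]
    have b3 : P.κ (g + 1) * thin EI' ≤ P.κ g * thin EI' :=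
      mul_le_mul_of_nonneg_right (H.hκa g hg) (thin_nonneg wEI)
    rw [b2, Finset.sum_Ico_succ_top hg]
    simp only [thin, len, sm_add] at *
    linarith

theorem book_all (H : P.OK) {θ : ℝ} (Pc : MS)
    (hP : ∀ s ∈ Pc, 0 < s.2 ∧ s.2 ≤ s.1 ∧ P.u * s.2 < θ ∧ Bookable P.w P.cap P.u P.Λ s.1 s.2)
    (hl : 2 * len Pc + thin Pc ≤ P.Mu) :
    ∃ J, Step Pc J ∧ WF θ J ∧ Capped P.w P.cap J ∧ len J + thin J = 2 * len Pc + thin Pc := by
  induction Pc using Multiset.induction_on with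
  | empty => exact ⟨0, Step.refl _, WF.zero _, fun h => by simpa [lenI] using H.hcap h,
      by simp [len, thin]⟩
  | cons s Pc ih =>
    obtain ⟨a, x⟩ := s
    have h0 := hP (a, x) (Multiset.mem_cons_self _ _)
    simp only at h0
    simp only [len, thin, sm_cons] at hl
    obtain ⟨J, b1, b2, b3, b4⟩ := ih (fun t ht => hP t (Multiset.mem_cons_of_mem ht))
      (by simp only [len, thin]; linarith [h0.1, h0.2.1])
    have b5 := thin_nonneg b2
    obtain ⟨J', c1, c2, c3, c4⟩ := book H.hw H.hw0 H.hlim H.hu H.hu1 H.hΛ H.hMu b2 b3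
      (by simp only [len, thin] at *; linarith [h0.1, h0.2.1]) h0.1 h0.2.1 h0.2.2.2 h0.2.2.1
    refine ⟨J', ?_, c2, c3, ?_⟩
    · rw [← Multiset.singleton_add]
      exact (b1.add_left _).trans c1
    · simp only [len, thin, sm_cons] at *; linarith

structure Start (P : GD) (M1 M2 : ℝ) (R Pc : MS) : Prop where
  step : Step {(1, 1)} (P.P0 + {(M1, M2)} + R + Pc)
  wr : WF (P.w P.g0) R
  ir : ∀ h1 h2, P.g0 ≤ h1 → h1 < h2 → lenI (P.w h2) (P.w h1) R ≤ P.Init h1 h2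
  pc : ∀ s ∈ Pc, 0 < s.2 ∧ s.2 ≤ s.1 ∧ P.u * s.2 < P.w P.g0 ∧
    Bookable P.w P.cap P.u P.Λ s.1 s.2
  pot : 3 * (M1 + M2) + 3 * thin R + (2 * len Pc + thin Pc) ≤ P.Mu0
  m1 : 0 < M1
  m2 : 0 < M2
  r1 : M1 ≤ P.r * M2
  r2 : M2 ≤ P.r * M1
  mm : min M1 M2 ≤ P.m0

theorem Start.inv (H : P.OK) {M1 M2 : ℝ} {R Pc : MS} (h : Start P M1 M2 R Pc) :
    ∃ J, P.Inv P.g0 M1 M2 R J := by
  have a1 := H.hGs P.g0 le_rfl
  simp only [Finset.Ico_self, Finset.sum_empty, add_zero] at a1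
  have a2 := h.pot
  have a3 := thin_nonneg h.wr
  obtain ⟨J, b1, b2, b3, b4⟩ := book_all H Pc h.pc (by linarith [h.m1, h.m2])
  have w10 : P.w P.g0 ≤ P.w (P.g0 - 1) := H.hw.antitone (by omega)
  refine ⟨J, ?_, h.wr.mono w10, b2.mono w10, ?_, fun k _ => b3 k, ?_, ?_,
    h.m1, h.m2, h.r1, h.r2, h.mm⟩
  · simp only [placed, Finset.Ico_self, Finset.sum_empty, add_zero]
    exact h.step.trans (b1.add_left _)
  · intro h1 h2 c1 c2
    simpa using h.ir h1 h2 c1 c2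
  · intro h2 hh
    rw [lenGe_lo fun s hs => ((h.wr.add b2) s hs).2.2, zero_add]
    rcases hh.eq_or_lt with rfl | hh'
    · simpa [lenI_self] using (H.hE0 _).trans (H.hEc _ le_rfl)
    · have c1 := h.ir _ _ le_rfl hh'
      have c2 := H.hM _ _ le_rfl hh'
      have := H.hE0 P.g0
      linarith
  · rw [thinGe_lo fun s hs => (b2 s hs).2.2]
    simp only [Finset.Ico_self, Finset.sum_empty, add_zero, mul_zero]
    linarith

theorem Start.fits (H : P.OK) {M1 M2 : ℝ} {R Pc : MS} (h : Start P M1 M2 R Pc) {g : ℕ}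
    (hg : P.g0 ≤ g) {S : MS} (hS : S ≤ P.placed g) :
    Fits (Set.Ioo 0 1 ×ˢ Set.Ioo 0 1) S := by
  have key : ∀ g, P.g0 ≤ g → ∃ M1 M2 R J, P.Inv g M1 M2 R J := by
    intro g hg
    induction g, hg using Nat.le_induction with
    | base => obtain ⟨J, hJ⟩ := h.inv H; exact ⟨_, _, _, J, hJ⟩
    | succ g hg ih => obtain ⟨_, _, _, _, hI⟩ := ih; exact hI.next H hg
  obtain ⟨N1, N2, R', J, hI⟩ := key g hg
  have h1 : Fits (Set.Ioo 0 1 ×ˢ Set.Ioo 0 1) ({(1, 1)} : MS) := by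
    rw [← Multiset.cons_zero, fits_cons]
    exact ⟨_, ⟨0, 0, Or.inl (by simp)⟩, subset_rfl, fits_zero _⟩
  have h2 := hI.step.1 _ h1
  obtain ⟨T, hT⟩ := Multiset.le_iff_exists_add.1 hS
  rw [hT, add_assoc, add_assoc, add_assoc] at h2
  obtain ⟨V, hV, h3, _⟩ := fits_add.1 h2
  exact h3.mono hV

end GD
end Pool.Agent.MP_f14165_co
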