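import Pool.Agent.MP_f14165_co.Final

set_option autoImplicit false

namespace Pool.Agent.MP_f14165_co
open Finset

abbrev MS := Multiset (ℝ × ℝ)

noncomputable def sm (f : ℝ × ℝ → ℝ) (M : MS) : ℝ := (M.map f).sum

@[simp] theorem sm_zero (f : ℝ × ℝ → ℝ) : sm f 0 = 0 := by simp [sm]
@[simp] theorem sm_add (f : ℝ × ℝ → ℝ) (S T : MS) : sm f (S + T) = sm f S + sm f T := by
  simp [sm]
@[simp] theorem sm_single (f : ℝ × ℝ → ℝ) (s : ℝ × ℝ) : sm f {s} = f s := by simp [sm]
@[simp] theorem sm_cons (f : ℝ × ℝ → ℝ) (s : ℝ × ℝ) (M : MS) : sm f (s ::ₘ M) = f s + sm f M := by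
  simp [sm]
theorem sm_sum {ι : Type} (f : ℝ × ℝ → ℝ) (s : Finset ι) (g : ι → MS) :
    sm f (∑ i ∈ s, g i) = ∑ i ∈ s, sm f (g i) := by
  classical
  induction s using Finset.induction_on with
  | empty => simp
  | insert a s ha ih => rw [Finset.sum_insert ha, Finset.sum_insert ha, sm_add, ih]

theorem sm_le {f g : ℝ × ℝ → ℝ} {M : MS} (h : ∀ s ∈ M, f s ≤ g s) : sm f M ≤ sm g M :=
  Multiset.sum_map_le_sum_map _ _ h

theorem sm_nonneg {f : ℝ × ℝ → ℝ} {M : MS} (h : ∀ s ∈ M, 0 ≤ f s) : 0 ≤ sm f M := by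
  have := sm_le (f := fun _ => 0) (g := f) h
  simpa [sm] using this

theorem sm_eq_zero {f : ℝ × ℝ → ℝ} {M : MS} (h : ∀ s ∈ M, f s = 0) : sm f M = 0 := by
  have h1 := sm_le (f := f) (g := fun _ => 0) (fun s hs => (h s hs).le)
  have h2 := sm_nonneg (f := f) (fun s hs => (h s hs).ge)
  have : sm (fun _ => (0 : ℝ)) M = 0 := by simp [sm]
  linarith

theorem sm_congr {f g : ℝ × ℝ → ℝ} {M : MS} (h : ∀ s ∈ M, f s = g s) : sm f M = sm g M :=
  le_antisymm (sm_le fun s hs => (h s hs).le) (sm_le fun s hs => (h s hs).ge)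

theorem sm_addf (f g : ℝ × ℝ → ℝ) (M : MS) : sm (fun s => f s + g s) M = sm f M + sm g M := by
  simp [sm, Multiset.sum_map_add]

theorem sm_mul (c : ℝ) (f : ℝ × ℝ → ℝ) (M : MS) : sm (fun s => c * f s) M = c * sm f M := by
  simp [sm, Multiset.sum_map_mul_left]

theorem sm_fsum {ι : Type} (t : Finset ι) (f : ι → ℝ × ℝ → ℝ) (M : MS) :
    sm (fun s => ∑ i ∈ t, f i s) M = ∑ i ∈ t, sm (f i) M := by
  induction M using Multiset.induction_on with
  | empty => simp
  | cons s M ih => simp [ih, Finset.sum_add_distrib]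

theorem le_sm {f : ℝ × ℝ → ℝ} {M : MS} (h : ∀ s ∈ M, 0 ≤ f s) {s : ℝ × ℝ} (hs : s ∈ M) :
    f s ≤ sm f M := by
  obtain ⟨T, rfl⟩ := Multiset.exists_cons_of_mem hs
  have := sm_nonneg (f := f) (M := T) (fun t ht => h t (Multiset.mem_cons_of_mem ht))
  simp; linarith

theorem area_eq_sm (M : MS) : area M = sm (fun s => s.1 * s.2) M := rfl

/-- total length of the holes whose thin side lies in `[lo, hi)` -/
noncomputable def lenI (lo hi : ℝ) : MS → ℝ := sm fun s => if lo ≤ s.2 ∧ s.2 < hi then s.1 else 0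
/-- total length of the holes whose thin side is at least `t` -/
noncomputable def lenGe (t : ℝ) : MS → ℝ := sm fun s => if t ≤ s.2 then s.1 else 0
noncomputable def len : MS → ℝ := sm Prod.fst
noncomputable def thin : MS → ℝ := sm Prod.snd

def WF (t : ℝ) (M : MS) : Prop := ∀ s ∈ M, 0 < s.2 ∧ s.2 ≤ s.1 ∧ s.2 < t

theorem WF.zero (t : ℝ) : WF t 0 := by simp [WF]
theorem WF.add {t : ℝ} {S T : MS} (h1 : WF t S) (h2 : WF t T) : WF t (S + T) := by
  intro s hs
  rcases Multiset.mem_add.1 hs with h | h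
  · exact h1 s h
  · exact h2 s h
theorem WF.cons {t : ℝ} {s : ℝ × ℝ} {T : MS} (h1 : 0 < s.2 ∧ s.2 ≤ s.1 ∧ s.2 < t) (h2 : WF t T) :
    WF t (s ::ₘ T) := by
  intro r hr
  rcases Multiset.mem_cons.1 hr with rfl | h
  · exact h1
  · exact h2 r h
theorem WF.mono {t t' : ℝ} {S : MS} (h : WF t S) (ht : t ≤ t') : WF t' S :=
  fun s hs => ⟨(h s hs).1, (h s hs).2.1, (h s hs).2.2.trans_le ht⟩

theorem lenI_nonneg {lo hi t : ℝ} {M : MS} (h : WF t M) : 0 ≤ lenI lo hi M :=
  sm_nonneg fun s hs => by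
    have := h s hs
    split_ifs <;> linarith
theorem len_nonneg {t : ℝ} {M : MS} (h : WF t M) : 0 ≤ len M :=
  sm_nonneg fun s hs => by have := h s hs; linarith
theorem thin_nonneg {t : ℝ} {M : MS} (h : WF t M) : 0 ≤ thin M :=
  sm_nonneg fun s hs => by have := h s hs; linarith

/-- bound for a chain of holes with thin sides in `[p, τ]` -/
noncomputable def tb (p τ e d lo hi : ℝ) : ℝ :=
  if p < hi ∧ lo ≤ τ then e + d * (min hi τ - max lo p) else 0

theorem tb_nonneg {p τ e d lo hi : ℝ} (hp : p ≤ τ) (he : 0 ≤ e) (hd : 0 ≤ d) (h : lo < hi) :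
    0 ≤ tb p τ e d lo hi := by
  unfold tb
  split_ifs with h1
  · have : max lo p ≤ min hi τ := max_le (le_min h.le h1.2) (le_min h1.1.le hp)
    nlinarith
  · exact le_rfl

theorem tb_mono {p p' τ e d lo hi : ℝ} (hp : p' ≤ p) (hp' : p' ≤ τ) (he : 0 ≤ e) (hd : 0 ≤ d)
    (h : lo < hi) : tb p τ e d lo hi ≤ tb p' τ e d lo hi := by
  by_cases h1 : p < hi ∧ lo ≤ τ
  · unfold tb
    rw [if_pos h1, if_pos ⟨hp.trans_lt h1.1, h1.2⟩]
    have : max lo p' ≤ max lo p := max_le_max le_rfl hp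
    nlinarith
  · have := tb_nonneg hp' he hd h
    unfold tb at this ⊢
    rw [if_neg h1]; exact this

def Chain (p τ e d : ℝ) (C : MS) : Prop :=
  ∀ lo hi, lo < hi → lenI lo hi C ≤ tb p τ e d lo hi

theorem Chain.zero {p τ e d : ℝ} (hp : p ≤ τ) (he : 0 ≤ e) (hd : 0 ≤ d) : Chain p τ e d 0 :=
  fun lo hi h => by simpa [lenI] using tb_nonneg hp he hd h

theorem Chain.mono {p p' τ e d : ℝ} {C : MS} (h : Chain p τ e d C) (hp : p' ≤ p) (hp' : p' ≤ τ)
    (he : 0 ≤ e) (hd : 0 ≤ d) : Chain p' τ e d C :=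
  fun lo hi hl => (h lo hi hl).trans (tb_mono hp hp' he hd hl)

theorem Chain.cons {p τ e d l s : ℝ} {C : MS} (h : Chain p τ e d C) (hs : s ≤ p) (hsτ : s ≤ τ)
    (he : 0 ≤ e) (hd : 0 ≤ d) (hl : l ≤ e) (hl' : l ≤ d * (p - s)) :
    Chain s τ e d ((l, s) ::ₘ C) := by
  intro lo hi hlh
  have h0 := h lo hi hlh
  have h1 := tb_mono hs hsτ he hd hlh
  simp only [lenI, sm_cons] at h0 ⊢
  split_ifs with h2
  · unfold tb at h0 ⊢
    rw [if_pos ⟨h2.2, h2.1.trans hsτ⟩, max_eq_right h2.1]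
    split_ifs at h0 with h3
    · rw [max_eq_right (h2.1.trans hs)] at h0
      nlinarith
    · have : s ≤ min hi τ := le_min h2.2.le hsτ
      nlinarith
  · linarith

theorem exists_uncovered {ι : Type} (t : Finset ι) (p q : ι → ℝ) (α β : ℝ) (hα : 0 < α)
    (hp : ∀ i ∈ t, 0 < p i ∧ p i ≤ q i)
    (h : ∑ i ∈ t, Real.log (q i / p i) < Real.log (β / α)) (hβ : 0 < β) :
    ∃ z, α ≤ z ∧ z ≤ β ∧ ∀ i ∈ t, ¬ (p i ≤ z ∧ z ≤ q i) := by
  by_contra hc
  push Not at hc
  have hsub : Set.Icc (Real.log α) (Real.log β) ⊆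
      ⋃ i ∈ t, Set.Icc (Real.log (p i)) (Real.log (q i)) := by
    intro x hx
    have h1 : α ≤ Real.exp x := by
      rw [← Real.exp_log hα]; exact Real.exp_le_exp.2 hx.1
    have h2 : Real.exp x ≤ β := by
      rw [← Real.exp_log hβ]; exact Real.exp_le_exp.2 hx.2
    obtain ⟨i, hi, h3, h4⟩ := hc _ h1 h2
    simp only [Set.mem_iUnion]
    refine ⟨i, hi, ?_, ?_⟩
    · rw [← Real.log_exp x]; exact Real.log_le_log (hp i hi).1 h3
    · rw [← Real.log_exp x]; exact Real.log_le_log (Real.exp_pos x) h4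
  have h1 := (MeasureTheory.measure_mono (μ := MeasureTheory.volume) hsub).trans
    (MeasureTheory.measure_biUnion_finset_le t _)
  simp only [Real.volume_Icc] at h1
  have hn : ∀ i ∈ t, 0 ≤ Real.log (q i) - Real.log (p i) := fun i hi =>
    sub_nonneg.2 (Real.log_le_log (hp i hi).1 (hp i hi).2)
  rw [← ENNReal.ofReal_sum_of_nonneg hn,
    ENNReal.ofReal_le_ofReal_iff (Finset.sum_nonneg hn)] at h1
  rw [Real.log_div hβ.ne' hα.ne'] at h
  have : ∑ i ∈ t, Real.log (q i / p i) = ∑ i ∈ t, (Real.log (q i) - Real.log (p i)) :=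
    Finset.sum_congr rfl fun i hi =>
      Real.log_div ((hp i hi).1.trans_le (hp i hi).2).ne' (hp i hi).1.ne'
  linarith

theorem sum_lenI_le {w : ℕ → ℝ} (hw : StrictAnti w) (t : Finset ℕ) {θ : ℝ} {M : MS}
    (hM : WF θ M) : ∑ h ∈ t, lenI (w (h + 1)) (w h) M ≤ len M := by
  unfold lenI len
  rw [← sm_fsum]
  refine sm_le fun s hs => ?_
  have h0 : 0 ≤ s.1 := by have := hM s hs; linarith
  by_cases hex : ∃ h ∈ t, w (h + 1) ≤ s.2 ∧ s.2 < w h
  · obtain ⟨h, ht, h1⟩ := hex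
    rw [Finset.sum_eq_single_of_mem h ht, if_pos h1]
    intro k _ hk
    rw [if_neg]
    rintro ⟨h2, h3⟩
    rcases lt_or_gt_of_ne hk with hl | hl
    · have := hw.antitone (show k + 1 ≤ h from hl); linarith [h1.2]
    · have := hw.antitone (show h + 1 ≤ k from hl); linarith [h1.1]
  · push Not at hex
    rw [Finset.sum_eq_zero]
    · exact h0
    · intro h ht
      rw [if_neg]
      rintro ⟨h1, h2⟩
      exact absurd (hex h ht h1) (not_le.2 h2)

def Bookable (w cap : ℕ → ℝ) (u Λ a x : ℝ) : Prop :=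
  ∀ h, w (h + 1) ≤ u * x → (1 - u) * x < w h → Λ * Real.log (w h / w (h + 1)) + 2 * a ≤ cap h

def Capped (w cap : ℕ → ℝ) (J : MS) : Prop := ∀ h, lenI (w (h + 1)) (w h) J ≤ cap h

theorem book {w cap : ℕ → ℝ} {u Λ Mu a x θ : ℝ} {J : MS} (hw : StrictAnti w)
    (hw0 : ∀ h, 0 < w h) (hlim : ∀ x, 0 < x → ∃ H, w H ≤ x) (hu : 1 / 2 ≤ u) (hu1 : u < 1)
    (hΛ : 0 < Λ) (hMu : Mu < Λ * Real.log (2 * u)) (hJ : WF θ J) (hc : Capped w cap J)
    (hl : len J ≤ Mu) (hx : 0 < x) (hxa : x ≤ a) (hb : Bookable w cap u Λ a x)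
    (hθ : u * x < θ) :
    ∃ J', Step ({(a, x)} + J) J' ∧ WF θ J' ∧ Capped w cap J' ∧
      len J' + thin J' = len J + thin J + 2 * a + x := by
  obtain ⟨H, hH⟩ := hlim ((1 - u) * x) (by nlinarith)
  classical
  let t := (range H).filter fun h => w (h + 1) ≤ u * x ∧ (1 - u) * x < w h ∧
    cap h < lenI (w (h + 1)) (w h) J + 2 * a
  have hlt : ∀ h, w (h + 1) < w h := fun h => hw (Nat.lt_succ_self h)
  obtain ⟨z, hz1, hz2, hz⟩ := exists_uncovered t
    (fun h => if x < w h + w (h + 1) then w (h + 1) else x - w h)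
    (fun h => if x < w h + w (h + 1) then w h else x - w (h + 1)) (x / 2) (u * x) (by linarith)
    (fun h _ => by
      have := hw0 (h + 1); have := hlt h
      split_ifs <;> constructor <;> linarith)
    (by
      have e : u * x / (x / 2) = 2 * u := by field_simp
      rw [e]
      have h1 : ∑ h ∈ t, Real.log ((if x < w h + w (h + 1) then w h else x - w (h + 1)) /
          (if x < w h + w (h + 1) then w (h + 1) else x - w h)) ≤
          ∑ h ∈ t, Real.log (w h / w (h + 1)) := by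
        refine Finset.sum_le_sum fun h _ => ?_
        have a1 := hw0 (h + 1); have a2 := hlt h
        split_ifs with h2
        · exact le_rfl
        · refine Real.log_le_log (div_pos (by linarith) (by linarith)) ?_
          rw [div_le_div_iff₀ (by linarith) a1]
          nlinarith
      have h2 : Λ * ∑ h ∈ t, Real.log (w h / w (h + 1)) ≤ ∑ h ∈ t, lenI (w (h + 1)) (w h) J := by
        rw [Finset.mul_sum]
        refine Finset.sum_le_sum fun h hh => ?_
        obtain ⟨_, b1, b2, b3⟩ := Finset.mem_filter.1 hh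
        have := hb h b1 b2
        linarith
      have h3 := sum_lenI_le hw t hJ
      have h4 : Λ * ∑ h ∈ t, Real.log (w h / w (h + 1)) < Λ * Real.log (2 * u) := by linarith
      exact h1.trans_lt (lt_of_mul_lt_mul_left h4 hΛ.le))
    (by nlinarith)
  have hz3 : (1 - u) * x ≤ x - z := by linarith
  have hz4 : 0 < (1 - u) * x := by nlinarith
  refine ⟨(a, z) ::ₘ (a, x - z) ::ₘ J, ?_, ?_, ?_, ?_⟩
  · have := (step_cutY (L := a) (y := x) (h := z) (by linarith) (by linarith)).add_right J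
    rwa [add_assoc, Multiset.singleton_add, Multiset.singleton_add] at this
  · exact WF.cons ⟨by simp only; linarith, by simp only; linarith, by simp only; linarith⟩
      (WF.cons ⟨by simp only; linarith, by simp only; linarith, by simp only; linarith⟩ hJ)
  · intro h
    have h0 := hc h
    have a1 := hw0 (h + 1); have a2 := hlt h
    by_cases hin : (w (h + 1) ≤ z ∧ z < w h) ∨ (w (h + 1) ≤ x - z ∧ x - z < w h)
    · have b1 : w (h + 1) ≤ u * x := by rcases hin with h1 | h1 <;> linarith [h1.1]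
      have b2 : (1 - u) * x < w h := by rcases hin with h1 | h1 <;> linarith [h1.2]
      have b3 : h < H := by
        by_contra hh
        have := hw.antitone (not_lt.1 hh)
        linarith
      have b4 : ¬ cap h < lenI (w (h + 1)) (w h) J + 2 * a := by
        intro hh
        apply hz h (Finset.mem_filter.2 ⟨Finset.mem_range.2 b3, b1, b2, hh⟩)
        split_ifs with h5
        · rcases hin with h1 | h1 <;> constructor <;> linarith [h1.1, h1.2]
        · rcases hin with h1 | h1 <;> constructor <;> linarith [h1.1, h1.2]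
      simp only [lenI, sm_cons] at b4 ⊢
      split_ifs <;> linarith
    · push Not at hin
      simp only [lenI, sm_cons] at h0 ⊢
      rw [if_neg (fun h1 => absurd (hin.1 h1.1) (not_le.2 h1.2)),
        if_neg (fun h1 => absurd (hin.2 h1.1) (not_le.2 h1.2))]
      linarith
  · simp only [len, thin, sm_cons]; ring

theorem step_place {L y : ℝ} {j : ℕ} (hj : 0 < j) (h1 : 1 / (j : ℝ) ≤ y)
    (h2 : 1 / ((j : ℝ) + 1) ≤ L) :
    Step {(L, y)} ({item j} + {(1 / ((j : ℝ) + 1), y - 1 / (j : ℝ))} +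
      {(L - 1 / ((j : ℝ) + 1), y)}) :=
  (step_cut (by positivity) h2).trans
    (((step_cutY (by positivity) h1).trans ((step_rot _ _).add_right _)).add_right _)

end Pool.Agent.MP_f14165_co
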