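import Mathlib.Data.Nat.Notation

set_option autoImplicit false
set_option linter.unusedVariables false

namespace Pool.Agent.MP_f14165_co.C
def cS : Nat := nat_lit 158773385498679850932633600
def cS2 : Nat := nat_lit 317546770997359701865267200
def cE : Nat := nat_lit 35254773656
def cS36 : Nat := nat_lit 2310456846297600
def cQ : Nat := nat_lit 650970880544587388823797760000
def cQ1 : Nat := nat_lit 650970880544587388823797759999
def cM26 : Nat := nat_lit 67108863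
def cM27 : Nat := nat_lit 134217727
def cM48 : Nat := nat_lit 281474976710655
def cM72 : Nat := nat_lit 4722366482869645213695
def cM80 : Nat := nat_lit 1208925819614629174706175
def cM192 : Nat := nat_lit 6277101735386680763835789423207666416102355444464034512895
def cLu : Nat := nat_lit 70368745226240
def cZ : Nat := nat_lit 68719476736
def cZ2 : Nat := nat_lit 137438953472
def cZ3 : Nat := nat_lit 206158430208
def cZ12 : Nat := nat_lit 824633720832
def cF : Nat := nat_lit 563499709235200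
def cM0 : Nat := nat_lit 3600000
def cQZ : Nat := nat_lit 19361702579765545376153600
inductive Stk : Type
  | nil : Stk
  | hole (a b c d : Nat) (r : Stk) : Stk
  | fh (a o t c d : Nat) (r : Stk) : Stk
  | fa (a j t c d : Nat) (r : Stk) : Stk
  | gp (a j k i : Nat) (r : Stk) : Stk
noncomputable def frc (x : Nat) (f : Nat → Bool) : Bool :=
  @Nat.rec (fun _ => Bool) false (fun n _ => f n) (Nat.succ x)
noncomputable def hf (k : Nat) (c : Nat) (d : Nat) : Nat :=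
  (Nat.div (Nat.mul cS2 (Nat.mul k (Nat.add (Nat.mul (nat_lit 3) (Nat.pow c (nat_lit 2))) d))) (Nat.mul (nat_lit 3) (Nat.pow c (nat_lit 3))))
noncomputable def hg (a : Nat) (k : Nat) (s : Nat) (u : Nat) : Nat :=
  (hf k (Nat.sub (Nat.add (Nat.mul (nat_lit 2) a) u) s) (Nat.sub (Nat.pow u (nat_lit 2)) (Nat.pow s (nat_lit 2))))
noncomputable def hs (s : Nat) (f : Nat) : Nat → Nat → Nat :=
  (@Nat.rec (fun _ => Nat → Nat → Nat) (fun a k => (Nat.div (Nat.mul k cS) a))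
    (fun _ ih => (fun a k => (@Bool.rec (fun _ => Nat)
    (@Bool.rec (fun _ => Nat)
    (Nat.add (ih a (Nat.div k (nat_lit 2))) (ih (Nat.add a (Nat.mul s (Nat.div k (nat_lit 2)))) (Nat.sub k (Nat.div k (nat_lit 2)))))
    (Nat.div (Nat.mul k cS) a) (Nat.ble k (nat_lit 1)))
    (hg a k s (Nat.mul s k)) (Nat.ble (Nat.mul (Nat.mul s k) (nat_lit 4096)) a)))) f)
noncomputable def er (a : Nat) (k : Nat) : Nat :=
  (Nat.add (Nat.div (Nat.mul k (Nat.add a cE)) a) (nat_lit 3))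
noncomputable def vv (b : Nat) : Nat :=
  (Nat.add (Nat.div cS b) (Nat.div cS (Nat.add b (nat_lit 2))))
noncomputable def cv (J : Nat) : Nat → Nat :=
  (@Nat.rec (fun _ => Nat → Nat) (fun b => (nat_lit 0))
    (fun _ ih => (fun b => (Nat.add (vv b) (ih (Nat.add b (nat_lit 2)))))) J)
noncomputable def sc2 (key : Nat) (sh : Nat) (A : Nat) (k : Nat → Bool) : Bool :=
  (@Bool.rec (fun _ => Bool) false
    (k (Nat.add A (Nat.shiftLeft key sh))) (Nat.beq (Nat.land (Nat.shiftRight A sh) cM72) (nat_lit 0)))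
noncomputable def sc (key : Nat) (pos : Nat) (A : Nat) (k : Nat → Bool) : Bool :=
  (sc2 key (Nat.mul (nat_lit 72) pos) A k)
noncomputable def rt (r : Nat) (k : Nat → Nat → Nat → Nat → Stk → Bool) (a : Nat) (b : Nat) (c : Nat) (d : Nat) (rest : Stk) : Bool :=
  (@Bool.rec (fun _ => Bool)
    (k c d a b rest)
    (k a b c d rest) (Nat.beq (Nat.land r (nat_lit 16)) (nat_lit 0)))
noncomputable def ph2 (r : Nat) (k : Nat → Nat → Nat → Nat → Stk → Bool) (B : Nat) (H : Nat) (yl : Nat) (yh : Nat) (rest : Stk) : Bool :=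
  (rt r k B (Nat.add B (nat_lit 2)) (Nat.sub yl (Nat.succ H)) (Nat.sub yh H) rest)
noncomputable def ph1 (r : Nat) (k : Nat → Nat → Nat → Nat → Stk → Bool) (x : Nat) (o : Nat) (yl : Nat) (yh : Nat) (rest : Stk) : Bool :=
  (ph2 r k (Nat.add (Nat.div cS x) (@Nat.rec (fun _ => Nat) (Nat.div cS (Nat.add x (nat_lit 2)))
    (fun o1 _ => (nat_lit 0)) o)) (Nat.div cS (Nat.succ x)) yl yh rest)
noncomputable def pa2 (r : Nat) (k : Nat → Nat → Nat → Nat → Stk → Bool) (B : Nat) (H : Nat) (yl : Nat) (yh : Nat) (rest : Stk) : Bool :=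
  (rt r k B (Nat.succ B) (Nat.sub yl (Nat.add H (nat_lit 16))) (Nat.sub yh H) rest)
noncomputable def pa1 (r : Nat) (k : Nat → Nat → Nat → Nat → Stk → Bool) (b : Nat) (J : Nat) (yl : Nat) (yh : Nat) (rest : Stk) : Bool :=
  (pa2 r k (Nat.div cS (Nat.sub (Nat.add b (Nat.mul (nat_lit 2) J)) (nat_lit 1))) ((cv J) b) yl yh rest)
noncomputable def pop (r : Nat) (st : Stk) (k : Nat → Nat → Nat → Nat → Stk → Bool) : Bool :=
  (@Stk.rec (fun _ => Bool) false
    (fun a b c d rest _ => (rt r k a b c d rest))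
    (fun a o t yl yh rest _ => (ph1 r k (Nat.add a (Nat.mul (nat_lit 2) t)) o yl yh (@Nat.rec (fun _ => Stk) rest
    (fun t1 _ => (Stk.fh a (nat_lit 0) t1 yl yh rest)) t)))
    (fun a J t yl yh rest _ => (pa1 r k (Nat.add a (Nat.mul (Nat.mul (nat_lit 2) J) t)) J yl yh (@Nat.rec (fun _ => Stk) rest
    (fun t1 _ => (Stk.fa a J t1 yl yh rest)) t)))
    (fun _ _ _ _ _ _ => false) st)
noncomputable def em1b (p : Nat) (pos : Nat) (sl : Nat) (su : Nat) (tot : Nat) (AE : Nat) (k : Nat → Bool) : Bool :=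
  (@Bool.rec (fun _ => Bool) false
    (@Bool.rec (fun _ => Bool) false
    (@Bool.rec (fun _ => Bool) false
    (sc (Nat.add (Nat.mul (nat_lit 4) p) (Nat.mul tot cLu)) pos AE k) (Nat.ble tot cM26)) (Nat.ble cQ (Nat.mul sl (Nat.pow (Nat.succ p) (nat_lit 3))))) (Nat.ble (Nat.mul su (Nat.pow p (nat_lit 3))) cQ1))
noncomputable def em1 (r : Nat) (sl : Nat) (su : Nat) (tot : Nat) (AE : Nat) (k : Nat → Bool) : Bool :=
  (em1b (Nat.add (Nat.land (Nat.shiftRight r (nat_lit 5)) (nat_lit 65535)) (nat_lit 5800)) (Nat.land (Nat.shiftRight r (nat_lit 21)) (nat_lit 4095)) sl su tot AE k)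
noncomputable def em2d (r : Nat) (q : Nat) (ky : Nat) (k : Nat → Bool) (A : Nat) : Bool :=
  (sc (Nat.add (Nat.succ (Nat.mul (nat_lit 4) q)) ky) (Nat.land (Nat.shiftRight r (nat_lit 48)) (nat_lit 4095)) A k)
noncomputable def em2c (r : Nat) (p : Nat) (q : Nat) (sl : Nat) (su : Nat) (e : Nat) (d : Nat) (ky : Nat) (AE : Nat) (k : Nat → Bool) : Bool :=
  (@Bool.rec (fun _ => Bool) false
    (@Bool.rec (fun _ => Bool) false
    (@Bool.rec (fun _ => Bool) false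
    (@Bool.rec (fun _ => Bool) false
    (sc (Nat.add (Nat.mul (nat_lit 4) p) ky) (Nat.land (Nat.shiftRight r (nat_lit 36)) (nat_lit 4095)) AE (em2d r q ky k)) (Nat.ble d cM26)) (Nat.ble e cM26)) (Nat.ble cQ (Nat.mul sl (Nat.pow q (nat_lit 3))))) (Nat.ble (Nat.mul su (Nat.pow p (nat_lit 3))) cQ1))
noncomputable def em2b (r : Nat) (p : Nat) (sl : Nat) (su : Nat) (e : Nat) (d : Nat) (AE : Nat) (k : Nat → Bool) : Bool :=
  (em2c r p (Nat.add (Nat.succ p) (Nat.land (Nat.shiftRight r (nat_lit 21)) (nat_lit 32767))) sl su e d (Nat.add (Nat.add (nat_lit 524288) (Nat.shiftLeft d (nat_lit 20))) (Nat.shiftLeft e (nat_lit 46))) AE k)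
noncomputable def em2 (r : Nat) (sl : Nat) (su : Nat) (e : Nat) (d : Nat) (AE : Nat) (k : Nat → Bool) : Bool :=
  (em2b r (Nat.add (Nat.land (Nat.shiftRight r (nat_lit 5)) (nat_lit 65535)) (nat_lit 5800)) sl su e d AE k)
noncomputable def kk (k : Stk → Nat → Nat → Nat → Bool) (st : Stk) (AI : Nat) (pt : Nat) (AE : Nat) : Bool :=
  (k st AI AE pt)
noncomputable def ki (k : Stk → Nat → Nat → Nat → Bool) (st : Stk) (AE : Nat) (pt : Nat) (AI : Nat) : Bool :=
  (k st AI AE pt)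
noncomputable def l1 (r : Nat) (AI : Nat) (AE : Nat) (pt : Nat) (k : Stk → Nat → Nat → Nat → Bool) (a : Nat) (b : Nat) (c : Nat) (d : Nat) (rest : Stk) : Bool :=
  (@Bool.rec (fun _ => Bool) false
    (em1 r c d (Nat.succ (Nat.div b cS36)) AE (kk k rest AI (Nat.add pt d))) (Nat.ble d a))
noncomputable def l2 (r : Nat) (AI : Nat) (AE : Nat) (pt : Nat) (k : Stk → Nat → Nat → Nat → Bool) (a : Nat) (b : Nat) (c : Nat) (d : Nat) (rest : Stk) : Bool :=
  (@Bool.rec (fun _ => Bool) false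
    (em2 r c d (Nat.succ (Nat.div b cS36)) (nat_lit 0) AE (kk k rest AI (Nat.add pt d))) (Nat.ble d a))
noncomputable def smh (k : Nat → Nat → Nat → Nat → Nat → Nat → Stk → Bool) (a : Nat) (n : Nat) (x : Nat) (yl : Nat) (yh : Nat) (su : Nat) (rest : Stk) : Bool :=
  (@Bool.rec (fun _ => Bool) false
    (k (Nat.sub yl (Nat.succ (Nat.div cS (Nat.succ a)))) su (Nat.succ (Nat.div cZ2 a)) (Nat.add x (nat_lit 3)) n (Nat.mul n (Nat.sub yh (Nat.div cS (Nat.add a n)))) rest) (Nat.ble (Nat.mul su x) cS))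
noncomputable def sma (k : Nat → Nat → Nat → Nat → Nat → Nat → Stk → Bool) (a : Nat) (J : Nat) (j : Nat) (n : Nat) (x : Nat) (yl : Nat) (yh : Nat) (su : Nat) (rest : Stk) : Bool :=
  (@Bool.rec (fun _ => Bool) false
    (k (Nat.sub yl (Nat.add ((cv J) a) (nat_lit 16))) su (Nat.succ (Nat.div cZ a)) (Nat.succ (Nat.div (Nat.add (Nat.add x j) (nat_lit 3)) (Nat.pow j (nat_lit 2)))) n (Nat.mul n (Nat.sub yh (Nat.div (Nat.mul j cS) (Nat.add a (Nat.mul J n))))) rest) (Nat.ble (Nat.mul su x) cS))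
noncomputable def smy (st : Stk) (k : Nat → Nat → Nat → Nat → Nat → Nat → Stk → Bool) : Bool :=
  (@Stk.rec (fun _ => Bool) false
    (fun _ _ _ _ _ _ => false)
    (fun a _ t yl yh rest _ => (smh k a (Nat.succ t) (Nat.add (Nat.add a (Nat.mul (nat_lit 2) t)) (nat_lit 2)) yl yh (Nat.sub yh (Nat.div cS (Nat.succ (Nat.add a (Nat.mul (nat_lit 2) t))))) rest))
    (fun a J t yl yh rest _ => (sma k a J (Nat.mul (nat_lit 2) J) (Nat.succ t) (Nat.add a (Nat.mul (Nat.mul (nat_lit 2) J) (Nat.succ t))) yl yh (Nat.sub yh ((cv J) (Nat.add a (Nat.mul (Nat.mul (nat_lit 2) J) t)))) rest))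
    (fun _ _ _ _ _ _ => false) st)
noncomputable def k1 (r : Nat) (AI : Nat) (AE : Nat) (pt : Nat) (k : Stk → Nat → Nat → Nat → Bool) (sl : Nat) (su : Nat) (e : Nat) (_d : Nat) (n : Nat) (pi : Nat) (rest : Stk) : Bool :=
  (em1 r sl su (Nat.mul n e) AE (kk k rest AI (Nat.add pt pi)))
noncomputable def k2 (r : Nat) (AI : Nat) (AE : Nat) (pt : Nat) (k : Stk → Nat → Nat → Nat → Bool) (sl : Nat) (su : Nat) (e : Nat) (d : Nat) (_n : Nat) (pi : Nat) (rest : Stk) : Bool :=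
  (em2 r sl su e d AE (kk k rest AI (Nat.add pt pi)))
noncomputable def emi (r : Nat) (a : Nat) (m : Nat) (AI : Nat) (k : Nat → Bool) : Bool :=
  (sc (Nat.add (Nat.add (Nat.land (Nat.shiftRight r (nat_lit 49)) (nat_lit 524287)) (Nat.shiftLeft a (nat_lit 19))) (Nat.shiftLeft m (nat_lit 46))) (Nat.land (Nat.shiftRight r (nat_lit 68)) (nat_lit 4095)) AI k)
noncomputable def oh3 (r : Nat) (AI : Nat) (AE : Nat) (pt : Nat) (k : Stk → Nat → Nat → Nat → Bool) (a : Nat) (o : Nat) (t : Nat) (sb : Nat) (su : Nat) (Ll : Nat) (Lh : Nat) (yl : Nat) (yh : Nat) (rest : Stk) : Bool :=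
  (@Bool.rec (fun _ => Bool) false
    (@Bool.rec (fun _ => Bool) false
    (emi r a (Nat.sub (Nat.add (Nat.mul (nat_lit 2) t) (nat_lit 2)) o) AI (ki k (Stk.hole (Nat.sub Ll su) (Nat.sub Lh sb) yl yh (Stk.fh a o t yl yh rest)) AE pt)) (Nat.ble cS (Nat.mul yl (Nat.succ a)))) (Nat.ble su Ll))
noncomputable def oh2 (r : Nat) (AI : Nat) (AE : Nat) (pt : Nat) (k : Stk → Nat → Nat → Nat → Bool) (a : Nat) (o : Nat) (t : Nat) (sb : Nat) (Ll : Nat) (Lh : Nat) (yl : Nat) (yh : Nat) (rest : Stk) : Bool :=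
  (oh3 r AI AE pt k a o t sb (Nat.add sb (er a (Nat.mul (nat_lit 2) t))) Ll Lh yl yh rest)
noncomputable def oh1 (r : Nat) (AI : Nat) (AE : Nat) (pt : Nat) (k : Stk → Nat → Nat → Nat → Bool) (a : Nat) (o : Nat) (t : Nat) (Ll : Nat) (Lh : Nat) (yl : Nat) (yh : Nat) (rest : Stk) : Bool :=
  (oh2 r AI AE pt k a o t (Nat.add (Nat.add (Nat.div cS a) (Nat.mul (nat_lit 2) ((hs (nat_lit 2) (nat_lit 20)) (Nat.add a (nat_lit 2)) t))) (@Nat.rec (fun _ => Nat) (Nat.div cS (Nat.add (Nat.add a (Nat.mul (nat_lit 2) t)) (nat_lit 2)))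
    (fun o1 _ => (nat_lit 0)) o)) Ll Lh yl yh rest)
noncomputable def oh (r : Nat) (st : Stk) (AI : Nat) (AE : Nat) (pt : Nat) (k : Stk → Nat → Nat → Nat → Bool) : Bool :=
  (pop r st (oh1 r AI AE pt k (Nat.succ (Nat.land (Nat.shiftRight r (nat_lit 23)) cM26)) (Nat.land (Nat.shiftRight r (nat_lit 5)) (nat_lit 1)) (Nat.land (Nat.shiftRight r (nat_lit 6)) (nat_lit 131071))))
noncomputable def al (j : Nat) (K : Nat) (e : Nat) (Ll : Nat) (Lh : Nat) (yl : Nat) (yh : Nat) (k : Stk → Bool) (n : Nat) : Nat → Nat → Stk → Bool :=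
  (@Nat.rec (fun _ => Nat → Nat → Stk → Bool) (fun b ac st => (@Bool.rec (fun _ => Bool) false
    (k (Stk.hole (Nat.sub Ll (Nat.add ((hs j (nat_lit 20)) (Nat.succ b) K) e)) (Nat.sub Lh ((hs j (nat_lit 20)) (Nat.succ b) K)) (Nat.sub yl (Nat.add ac (nat_lit 16))) (Nat.sub yh ac) st)) (Nat.ble (Nat.add (Nat.add ac (vv b)) (nat_lit 16)) yl)))
    (fun _ ih => (fun b ac st => (ih (Nat.add b (nat_lit 2)) (Nat.add ac (vv b)) (Stk.hole (Nat.sub Ll (Nat.add ((hs j (nat_lit 20)) (Nat.succ b) K) e)) (Nat.sub Lh ((hs j (nat_lit 20)) (Nat.succ b) K)) (vv b) (Nat.add (vv b) (nat_lit 2)) st)))) n)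
noncomputable def oa3 (r : Nat) (AI : Nat) (AE : Nat) (pt : Nat) (k : Stk → Nat → Nat → Nat → Bool) (a : Nat) (m : Nat) (st : Stk) : Bool :=
  (emi r a m AI (ki k st AE pt))
noncomputable def oa2 (r : Nat) (AI : Nat) (AE : Nat) (pt : Nat) (k : Stk → Nat → Nat → Nat → Bool) (a : Nat) (j1 : Nat) (t : Nat) (J : Nat) (j : Nat) (K : Nat) (e : Nat) (Ll : Nat) (Lh : Nat) (yl : Nat) (yh : Nat) (rest : Stk) : Bool :=
  (@Bool.rec (fun _ => Bool) false
    ((al j K e Ll Lh yl yh (oa3 r AI AE pt k a (Nat.mul j K)) j1) a (nat_lit 0) (@Nat.rec (fun _ => Stk) (Stk.fa a J t yl yh rest)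
    (fun j2 _ => (Stk.gp a J K t (Stk.fa a J t yl yh rest))) j1)) (Nat.ble (Nat.add ((hs j (nat_lit 20)) (Nat.succ a) K) e) Ll))
noncomputable def oa1 (r : Nat) (AI : Nat) (AE : Nat) (pt : Nat) (k : Stk → Nat → Nat → Nat → Bool) (a : Nat) (j1 : Nat) (t : Nat) (Ll : Nat) (Lh : Nat) (yl : Nat) (yh : Nat) (rest : Stk) : Bool :=
  (oa2 r AI AE pt k a j1 t (Nat.succ j1) (Nat.mul (nat_lit 2) (Nat.succ j1)) (Nat.succ t) (er a (Nat.succ t)) Ll Lh yl yh rest)
noncomputable def oa (r : Nat) (st : Stk) (AI : Nat) (AE : Nat) (pt : Nat) (k : Stk → Nat → Nat → Nat → Bool) : Bool :=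
  (pop r st (oa1 r AI AE pt k (Nat.succ (Nat.land (Nat.shiftRight r (nat_lit 23)) cM26)) (Nat.land (Nat.shiftRight r (nat_lit 5)) (nat_lit 7)) (Nat.land (Nat.shiftRight r (nat_lit 8)) (nat_lit 32767))))
noncomputable def oc1 (r : Nat) (AI : Nat) (AE : Nat) (pt : Nat) (k : Stk → Nat → Nat → Nat → Bool) (W : Nat) (Ll : Nat) (Lh : Nat) (yl : Nat) (yh : Nat) (rest : Stk) : Bool :=
  (@Bool.rec (fun _ => Bool) false
    (k (@Bool.rec (fun _ => Stk)
    (Stk.hole (Nat.sub Ll W) (Nat.sub Lh W) yl yh (Stk.hole W W yl yh rest))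
    (Stk.hole W W yl yh (Stk.hole (Nat.sub Ll W) (Nat.sub Lh W) yl yh rest)) (Nat.beq (Nat.land r (nat_lit 32)) (nat_lit 0))) AI AE pt) (Nat.ble W Ll))
noncomputable def oc (r : Nat) (st : Stk) (AI : Nat) (AE : Nat) (pt : Nat) (k : Stk → Nat → Nat → Nat → Bool) : Bool :=
  (pop r st (oc1 r AI AE pt k (Nat.shiftLeft (Nat.land (Nat.shiftRight r (nat_lit 6)) cM48) (nat_lit 40))))
noncomputable def of1 (r : Nat) (AI : Nat) (AE : Nat) (pt : Nat) (k : Stk → Nat → Nat → Nat → Bool) (a : Nat) (Ll : Nat) (Lh : Nat) (yl : Nat) (yh : Nat) (rest : Stk) : Bool :=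
  (@Bool.rec (fun _ => Bool) false
    (@Bool.rec (fun _ => Bool) false
    (@Bool.rec (fun _ => Bool) false
    (@Bool.rec (fun _ => Bool) false
    (emi r a (nat_lit 1) AI (ki k rest AE pt)) (Nat.beq (Nat.mul yh a) cS)) (Nat.beq (Nat.mul yl a) cS)) (Nat.beq (Nat.mul Lh (Nat.succ a)) cS)) (Nat.beq (Nat.mul Ll (Nat.succ a)) cS))
noncomputable def of0 (r : Nat) (st : Stk) (AI : Nat) (AE : Nat) (pt : Nat) (k : Stk → Nat → Nat → Nat → Bool) : Bool :=
  (pop r st (of1 r AI AE pt k (Nat.succ (Nat.land (Nat.shiftRight r (nat_lit 23)) cM26))))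
noncomputable def gl (j : Nat) (n : Nat) (e : Nat) (k : Stk → Bool) (f : Nat) : Nat → Nat → Nat → Stk → Bool :=
  (@Nat.rec (fun _ => Nat → Nat → Nat → Stk → Bool) (fun b u v st => (k st))
    (fun _ ih => (fun b u v st => (ih (Nat.add b (nat_lit 2)) (Nat.add u (vv b)) (Nat.add v (vv (Nat.add b j))) (Stk.hole (Nat.sub ((hs j (nat_lit 20)) (Nat.succ (Nat.add b j)) n) (Nat.add ((hs j (nat_lit 20)) (Nat.add (Nat.add b j) (nat_lit 3)) n) e)) (Nat.sub (Nat.add ((hs j (nat_lit 20)) (Nat.succ (Nat.add b j)) n) e) ((hs j (nat_lit 20)) (Nat.add (Nat.add b j) (nat_lit 3)) n)) (Nat.sub (Nat.add u (vv b)) (Nat.add (Nat.add v (vv (Nat.add b j))) (nat_lit 16))) (Nat.sub (Nat.add (Nat.add u (vv b)) (nat_lit 16)) (Nat.add v (vv (Nat.add b j)))) st)))) f)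
noncomputable def ks (k : Stk → Nat → Nat → Nat → Bool) (AI : Nat) (AE : Nat) (pt : Nat) (st : Stk) : Bool :=
  (k st AI AE pt)
noncomputable def ox (st : Stk) (AI : Nat) (AE : Nat) (pt : Nat) (k : Stk → Nat → Nat → Nat → Bool) : Bool :=
  (@Stk.rec (fun _ => Bool) false
    (fun _ _ _ _ _ _ => false)
    (fun _ _ _ _ _ _ _ => false)
    (fun _ _ _ _ _ _ _ => false)
    (fun a J K i rest _ => (@Nat.rec (fun _ => Bool) (k rest AI AE pt)
    (fun i1 _ => ((gl (Nat.mul (nat_lit 2) J) (Nat.sub K i) (er a K) (ks k AI AE pt) (Nat.sub J (nat_lit 1))) (Nat.add a (Nat.mul (Nat.mul (nat_lit 2) J) i1)) (nat_lit 0) (nat_lit 0) (Stk.gp a J K i1 rest))) i)) st)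
noncomputable def og1 (AI : Nat) (AE : Nat) (pt : Nat) (k : Stk → Nat → Nat → Nat → Bool) (a : Nat) (j : Nat) (K : Nat) (Z : Nat) (rest : Stk) : Bool :=
  (@Bool.rec (fun _ => Bool) false
    (@Bool.rec (fun _ => Bool) false
    (k rest AI AE (Nat.succ (Nat.add pt (Nat.div (Nat.mul (Nat.mul (Nat.mul j K) Z) cS) (Nat.mul (nat_lit 3) (Nat.pow a (nat_lit 2))))))) (Nat.ble (Nat.mul (nat_lit 195112000000) (Nat.pow j (nat_lit 2))) (Nat.mul (nat_lit 4100) (Nat.pow a (nat_lit 2))))) (Nat.ble (Nat.mul (nat_lit 950000000000) (Nat.mul (Nat.pow Z (nat_lit 3)) (Nat.pow (Nat.add a (Nat.mul j K)) (nat_lit 2)))) (Nat.pow a (nat_lit 6))))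
noncomputable def og (st : Stk) (AI : Nat) (AE : Nat) (pt : Nat) (k : Stk → Nat → Nat → Nat → Bool) : Bool :=
  (@Stk.rec (fun _ => Bool) false
    (fun _ _ _ _ _ _ => false)
    (fun _ _ _ _ _ _ _ => false)
    (fun _ _ _ _ _ _ _ => false)
    (fun a J K _ rest _ => (og1 AI AE pt k a (Nat.mul (nat_lit 2) J) K (Nat.add (Nat.mul (nat_lit 2) K) (Nat.pow (Nat.mul (nat_lit 2) J) (nat_lit 2))) rest)) st)
noncomputable def fk3 (k : Stk → Nat → Nat → Nat → Bool) (st : Stk) (AI : Nat) (AE : Nat) (pt : Nat) : Bool :=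
  (frc AI (fun x => (frc AE (fun y => (frc pt (fun z => (k st x y z)))))))
noncomputable def disp (k : Stk → Nat → Nat → Nat → Bool) (ih : Nat → Stk → Nat → Nat → Nat → Bool) (rem : Nat) (r : Nat) (st : Stk) (AI : Nat) (AE : Nat) (pt : Nat) : Bool :=
  (@Nat.rec (fun _ => Bool) (fk3 k st AI AE pt)
    (fun n1 _ => (@Nat.rec (fun _ => Bool) (pop r st (l1 r AI AE pt (ih (Nat.shiftRight rem (nat_lit 33)))))
    (fun n2 _ => (@Nat.rec (fun _ => Bool) (oh r st AI AE pt (ih (Nat.shiftRight rem (nat_lit 80))))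
    (fun n3 _ => (@Nat.rec (fun _ => Bool) (smy st (k2 r AI AE pt (ih (Nat.shiftRight rem (nat_lit 60)))))
    (fun n4 _ => (@Nat.rec (fun _ => Bool) (smy st (k1 r AI AE pt (ih (Nat.shiftRight rem (nat_lit 33)))))
    (fun n5 _ => (@Nat.rec (fun _ => Bool) (oa r st AI AE pt (ih (Nat.shiftRight rem (nat_lit 80))))
    (fun n6 _ => (@Nat.rec (fun _ => Bool) (oc r st AI AE pt (ih (Nat.shiftRight rem (nat_lit 54))))
    (fun n7 _ => (@Nat.rec (fun _ => Bool) (og st AI AE pt (ih (Nat.shiftRight rem (nat_lit 5))))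
    (fun n8 _ => (@Nat.rec (fun _ => Bool) (pop r st (l2 r AI AE pt (ih (Nat.shiftRight rem (nat_lit 60)))))
    (fun n9 _ => (@Nat.rec (fun _ => Bool) (ox st AI AE pt (ih (Nat.shiftRight rem (nat_lit 5))))
    (fun n10 _ => (of0 r st AI AE pt (ih (Nat.shiftRight rem (nat_lit 80))))) n9)) n8)) n7)) n6)) n5)) n4)) n3)) n2)) n1)) (Nat.land r (nat_lit 15)))
noncomputable def lp (k : Stk → Nat → Nat → Nat → Bool) (f : Nat) : Nat → Stk → Nat → Nat → Nat → Bool :=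
  (@Nat.rec (fun _ => Nat → Stk → Nat → Nat → Nat → Bool) (fun rem st AI AE pt => false)
    (fun _ ih => (fun rem st AI AE pt => (disp k ih rem (Nat.land rem cM80) st AI AE pt))) f)
noncomputable def run (k : Stk → Nat → Nat → Nat → Bool) (l : List Nat) : Stk → Nat → Nat → Nat → Bool :=
  (@List.rec Nat (fun _ => Stk → Nat → Nat → Nat → Bool) k
    (fun x _ ih => (lp ih (nat_lit 4000) x)) l)
noncomputable def eqs (s : Stk) : Stk → Bool :=
  (@Stk.rec (fun _ => Stk → Bool) (fun u => (@Stk.rec (fun _ => Bool) true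
    (fun _ _ _ _ _ _ => false)
    (fun _ _ _ _ _ _ _ => false)
    (fun _ _ _ _ _ _ _ => false)
    (fun _ _ _ _ _ _ => false) u))
    (fun a1 b1 c1 d1 _ ih => (fun u => (@Stk.rec (fun _ => Bool) false
    (fun a b c d r _ => (@Bool.rec (fun _ => Bool) false
    (@Bool.rec (fun _ => Bool) false
    (@Bool.rec (fun _ => Bool) false
    (@Bool.rec (fun _ => Bool) false
    (ih r) (Nat.beq d1 d)) (Nat.beq c1 c)) (Nat.beq b1 b)) (Nat.beq a1 a)))
    (fun _ _ _ _ _ _ _ => false)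
    (fun _ _ _ _ _ _ _ => false)
    (fun _ _ _ _ _ _ => false) u)))
    (fun a1 b1 c1 d1 e1 _ ih => (fun u => (@Stk.rec (fun _ => Bool) false
    (fun _ _ _ _ _ _ => false)
    (fun a b c d e r _ => (@Bool.rec (fun _ => Bool) false
    (@Bool.rec (fun _ => Bool) false
    (@Bool.rec (fun _ => Bool) false
    (@Bool.rec (fun _ => Bool) false
    (@Bool.rec (fun _ => Bool) false
    (ih r) (Nat.beq e1 e)) (Nat.beq d1 d)) (Nat.beq c1 c)) (Nat.beq b1 b)) (Nat.beq a1 a)))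
    (fun _ _ _ _ _ _ _ => false)
    (fun _ _ _ _ _ _ => false) u)))
    (fun a1 b1 c1 d1 e1 _ ih => (fun u => (@Stk.rec (fun _ => Bool) false
    (fun _ _ _ _ _ _ => false)
    (fun _ _ _ _ _ _ _ => false)
    (fun a b c d e r _ => (@Bool.rec (fun _ => Bool) false
    (@Bool.rec (fun _ => Bool) false
    (@Bool.rec (fun _ => Bool) false
    (@Bool.rec (fun _ => Bool) false
    (@Bool.rec (fun _ => Bool) false
    (ih r) (Nat.beq e1 e)) (Nat.beq d1 d)) (Nat.beq c1 c)) (Nat.beq b1 b)) (Nat.beq a1 a)))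
    (fun _ _ _ _ _ _ => false) u)))
    (fun a1 b1 c1 d1 _ ih => (fun u => (@Stk.rec (fun _ => Bool) false
    (fun _ _ _ _ _ _ => false)
    (fun _ _ _ _ _ _ _ => false)
    (fun _ _ _ _ _ _ _ => false)
    (fun a b c d r _ => (@Bool.rec (fun _ => Bool) false
    (@Bool.rec (fun _ => Bool) false
    (@Bool.rec (fun _ => Bool) false
    (@Bool.rec (fun _ => Bool) false
    (ih r) (Nat.beq d1 d)) (Nat.beq c1 c)) (Nat.beq b1 b)) (Nat.beq a1 a))) u))) s)
noncomputable def fin (s1 : Stk) (I1 : Nat) (E1 : Nat) (p1 : Nat) (st : Stk) (AI : Nat) (AE : Nat) (pt : Nat) : Bool :=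
  (@Bool.rec (fun _ => Bool) false
    (@Bool.rec (fun _ => Bool) false
    (@Bool.rec (fun _ => Bool) false
    ((eqs st) s1) (Nat.beq pt p1)) (Nat.beq AE E1)) (Nat.beq AI I1))
noncomputable def chunk (l : List Nat) (s0 : Stk) (p0 : Nat) (s1 : Stk) (I1 : Nat) (E1 : Nat) (p1 : Nat) : Bool :=
  ((run (fin s1 I1 E1 p1) l) s0 (nat_lit 0) (nat_lit 0) p0)
noncomputable def il (f : Nat → Nat → (Nat → Bool) → Bool) (k : Nat → Bool) (n : Nat) : Nat → Nat → Bool :=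
  (@Nat.rec (fun _ => Nat → Nat → Bool) (fun X A => (frc A k))
    (fun _ ih => (fun X A => (f (Nat.land X cM72) A (ih (Nat.shiftRight X (nat_lit 72)))))) n)
noncomputable def ga2 (f : Nat → Nat → (Nat → Bool) → Bool) (k : Nat → Bool) (K : Nat) (o : Nat) (n : Nat) (A : Nat) : Bool :=
  ((il f k n) (Nat.land (Nat.shiftRight K (Nat.mul (nat_lit 72) o)) (Nat.sub (Nat.shiftLeft (nat_lit 1) (Nat.mul (nat_lit 72) n)) (nat_lit 1))) A)
noncomputable def ga1 (f : Nat → Nat → (Nat → Bool) → Bool) (ih : Nat → Nat → Nat → Nat → Bool) (K : Nat) (o : Nat) (u : Nat) (o1 : Nat) (u1 : Nat) (c : Nat) (A : Nat) : Bool :=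
  (@Bool.rec (fun _ => Bool) false
    (@Bool.rec (fun _ => Bool) false
    (ga2 f (ih (Nat.shiftRight o (nat_lit 12)) (Nat.shiftRight u (nat_lit 12)) c) K o1 (Nat.sub u1 o1) A) (Nat.ble c (nat_lit 1048576))) (Nat.ble o1 u1))
noncomputable def ga (f : Nat → Nat → (Nat → Bool) → Bool) (k : Nat → Bool) (l : List Nat) : Nat → Nat → Nat → Nat → Bool :=
  (@List.rec Nat (fun _ => Nat → Nat → Nat → Nat → Bool) (fun o u c A => (k A))
    (fun K _ ih => (fun o u c A => (ga1 f ih K o u (Nat.land o (nat_lit 4095)) (Nat.land u (nat_lit 4095)) (Nat.add c (Nat.sub (Nat.land u (nat_lit 4095)) (Nat.land o (nat_lit 4095)))) A))) l)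
noncomputable def done (l : List Nat) : Nat → Bool :=
  (@List.rec Nat (fun _ => Nat → Bool) (fun o => true)
    (fun K _ ih => (fun o => (@Bool.rec (fun _ => Bool) false
    (ih (Nat.shiftRight o (nat_lit 12))) (Nat.beq (Nat.shiftRight K (Nat.mul (nat_lit 72) (Nat.land o (nat_lit 4095)))) (nat_lit 0))))) l)
noncomputable def fi (r0 : Nat) (key : Nat) (A : Nat) (k : Nat → Bool) : Bool :=
  (sc key (Nat.sub (Nat.land key (nat_lit 524287)) r0) A k)
noncomputable def tl1 (ih : Nat → Nat → Bool) (A : Nat) (T : Nat) (key : Nat) : Bool :=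
  (@Bool.rec (fun _ => Bool) false
    (ih (Nat.shiftRight A (nat_lit 72)) (Nat.add T (Nat.shiftRight key (nat_lit 46)))) (Nat.beq (Nat.land (Nat.shiftRight key (nat_lit 19)) cM27) T))
noncomputable def tl (T1 : Nat) (W : Nat) : Nat → Nat → Bool :=
  (@Nat.rec (fun _ => Nat → Nat → Bool) (fun A T => (@Bool.rec (fun _ => Bool) false
    (Nat.beq T T1) (Nat.beq A (nat_lit 0))))
    (fun _ ih => (fun A T => (tl1 ih A T (Nat.land A cM72)))) W)
noncomputable def tk (T0 : Nat) (T1 : Nat) (W : Nat) (A : Nat) : Bool :=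
  ((tl T1 W) A T0)
noncomputable def bucketI (l : List Nat) (o : Nat) (u : Nat) (r0 : Nat) (W : Nat) (T0 : Nat) (T1 : Nat) : Bool :=
  ((ga (fi r0) (tk T0 T1 W) l) o u (nat_lit 0) (nat_lit 0))
noncomputable def fe1 (P0 : Nat) (key : Nat) (P : Nat) (A : Nat) (k : Nat → Bool) : Bool :=
  (@Bool.rec (fun _ => Bool) false
    (k (Nat.add A (Nat.shiftLeft (Nat.add (Nat.shiftRight key (nat_lit 46)) (Nat.shiftLeft (Nat.land (Nat.shiftRight key (nat_lit 20)) cM26) (Nat.add (nat_lit 48) (Nat.mul (nat_lit 48) (Nat.land (Nat.shiftRight key (nat_lit 19)) (nat_lit 1)))))) (Nat.mul (nat_lit 48) (Nat.sub P P0))))) (Nat.ble P0 P))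
noncomputable def fe (P0 : Nat) (key : Nat) (A : Nat) (k : Nat → Bool) : Bool :=
  (fe1 P0 key (Nat.land key (nat_lit 524287)) A k)
noncomputable def pq (g : Nat) : Nat :=
  (Nat.add (Nat.pow (Nat.mul (Nat.add g (nat_lit 20)) (Nat.add g (nat_lit 21))) (nat_lit 2)) (Nat.mul (nat_lit 311600) g))
noncomputable def c2 (g : Nat) : Nat :=
  (Nat.mul (nat_lit 100) (Nat.pow (Nat.mul (Nat.sub g (nat_lit 1)) (Nat.add g (nat_lit 21))) (nat_lit 2)))
noncomputable def c1 (g : Nat) : Nat :=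
  (Nat.pow (Nat.mul (Nat.succ g) (Nat.add g (nat_lit 3))) (nat_lit 2))
noncomputable def fh (g : Nat) : Nat :=
  (Nat.div cF (Nat.pow (Nat.add (Nat.mul (nat_lit 2) g) (nat_lit 5)) (nat_lit 2)))
noncomputable def cl (h : Nat) : Nat :=
  (@Bool.rec (fun _ => Nat)
    (Nat.div (Nat.mul (Nat.sub (Nat.pow (Nat.add h (nat_lit 21)) (nat_lit 3)) (nat_lit 197137442300)) cZ) (Nat.mul (nat_lit 18) (Nat.pow (Nat.add h (nat_lit 21)) (nat_lit 3))))
    (Nat.div cZ3 (Nat.add h (nat_lit 42))) (Nat.ble (nat_lit 5817) h))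
noncomputable def cp (h : Nat) : Nat :=
  (@Bool.rec (fun _ => Nat)
    (nat_lit 0)
    (Nat.succ (Nat.div cZ12 (Nat.mul (nat_lit 25) h))) (Nat.ble (nat_lit 5817) h))
noncomputable def mx (a : Nat) (b : Nat) : Nat :=
  (@Bool.rec (fun _ => Nat)
    a
    b (Nat.ble a b))
noncomputable def sw4 (Eb : Nat) (ih : Nat → Nat → Nat → Nat → Nat → Nat → Bool) (h1 : Nat) (v1 : Nat) (O : Nat) (D : Nat) (g1 : Nat) (g2 : Nat) : Bool :=
  (frc (mx v1 (Nat.add (Nat.succ (Nat.add Eb (fh g1))) O)) (fun v => (ih h1 v O D g1 g2)))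
noncomputable def sw3 (Eb : Nat) (ih : Nat → Nat → Nat → Nat → Nat → Nat → Bool) (h1 : Nat) (v1 : Nat) (O : Nat) (D : Nat) (g1 : Nat) (g2 : Nat) : Bool :=
  (@Bool.rec (fun _ => Bool) false
    (@Bool.rec (fun _ => Bool)
    (sw4 Eb ih h1 v1 O D g1 g2)
    (sw4 Eb ih h1 v1 O D (Nat.succ g1) g2) (Nat.ble (c1 g1) (Nat.mul (nat_lit 6) (Nat.pow h1 (nat_lit 3))))) (Nat.ble v1 (Nat.add (cl h1) (fh g2))))
noncomputable def sw2 (Eb : Nat) (ih : Nat → Nat → Nat → Nat → Nat → Nat → Bool) (h : Nat) (h1 : Nat) (va : Nat) (O : Nat) (D : Nat) (g1 : Nat) (g2 : Nat) : Bool :=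
  (sw3 Eb ih h1 (Nat.sub (Nat.add (Nat.succ (Nat.add va (Nat.div (Nat.shiftLeft (Nat.sub (Nat.add (Nat.mul D (nat_lit 295200)) (pq g2)) (pq g1)) (nat_lit 33)) (Nat.mul (nat_lit 3) (Nat.pow h (nat_lit 4)))))) (cp h)) (cl h)) O D g1 g2)
noncomputable def sw1 (Eb : Nat) (ih : Nat → Nat → Nat → Nat → Nat → Nat → Bool) (h : Nat) (h1 : Nat) (x : Nat) (va : Nat) (O : Nat) (D : Nat) (g1 : Nat) (g2 : Nat) : Bool :=
  (@Bool.rec (fun _ => Bool)
    (sw2 Eb ih h h1 va O D g1 g2)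
    (@Bool.rec (fun _ => Bool) false
    (sw2 Eb ih h h1 va O D g1 (Nat.succ g2)) (Nat.ble (Nat.succ x) (c2 (Nat.succ g2)))) (Nat.ble (c2 g2) x))
noncomputable def sw0 (Eb : Nat) (ih : Nat → Nat → Nat → Nat → Nat → Nat → Bool) (F : Nat) (aa : Nat) (h : Nat) (h1 : Nat) (v : Nat) (O : Nat) (D : Nat) (g1 : Nat) (g2 : Nat) : Bool :=
  (frc (Nat.sub (Nat.add O aa) (Nat.land (Nat.shiftRight F (nat_lit 48)) cM48)) (fun O1 => (frc (Nat.sub (Nat.add D (Nat.land (Nat.shiftRight F (nat_lit 96)) cM48)) (Nat.shiftRight F (nat_lit 144))) (fun D1 => (sw1 Eb ih h h1 (Nat.mul (nat_lit 6601) (Nat.pow h1 (nat_lit 3))) (Nat.add v aa) O1 D1 g1 g2)))))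
noncomputable def swa (Eb : Nat) (ih : Nat → Nat → Nat → Nat → Nat → Nat → Nat → Bool) (A : Nat) (F : Nat) (h : Nat) (v : Nat) (O : Nat) (D : Nat) (g1 : Nat) (g2 : Nat) : Bool :=
  (frc (Nat.succ h) (fun h1 => (sw0 Eb (ih (Nat.shiftRight A (nat_lit 192))) F (Nat.land F cM48) h h1 v O D g1 g2)))
noncomputable def sw (Eb : Nat) (k : Nat → Nat → Nat → Nat → Nat → Nat → Bool) (W : Nat) : Nat → Nat → Nat → Nat → Nat → Nat → Nat → Bool :=
  (@Nat.rec (fun _ => Nat → Nat → Nat → Nat → Nat → Nat → Nat → Bool) (fun A h v O D g1 g2 => (@Bool.rec (fun _ => Bool) false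
    (k h v O D g1 g2) (Nat.beq A (nat_lit 0))))
    (fun _ ih => (fun A h v O D g1 g2 => (swa Eb ih A (Nat.land A cM192) h v O D g1 g2))) W)
noncomputable def swf (h2 : Nat) (v2 : Nat) (O2 : Nat) (D2 : Nat) (a2 : Nat) (b2 : Nat) (h : Nat) (v : Nat) (O : Nat) (D : Nat) (g1 : Nat) (g2 : Nat) : Bool :=
  (@Bool.rec (fun _ => Bool) false
    (@Bool.rec (fun _ => Bool) false
    (@Bool.rec (fun _ => Bool) false
    (@Bool.rec (fun _ => Bool) false
    (@Bool.rec (fun _ => Bool) false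
    (Nat.beq g2 b2) (Nat.beq g1 a2)) (Nat.beq D D2)) (Nat.beq O O2)) (Nat.beq v v2)) (Nat.beq h h2))
noncomputable def swk (Eb : Nat) (k : Nat → Nat → Nat → Nat → Nat → Nat → Bool) (W : Nat) (h : Nat) (v : Nat) (O : Nat) (D : Nat) (g1 : Nat) (g2 : Nat) (A : Nat) : Bool :=
  ((sw Eb k W) A h v O D g1 g2)
noncomputable def ebok (Eb : Nat) (h : Nat) : Bool :=
  (@Bool.rec (fun _ => Bool)
    (Nat.ble cQZ (Nat.mul (Nat.pow Eb (nat_lit 2)) (Nat.pow (Nat.add h (nat_lit 3)) (nat_lit 3))))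
    true (Nat.ble cM0 Eb))
noncomputable def bucketE (l : List Nat) (o : Nat) (u : Nat) (Eb : Nat) (W : Nat) (h : Nat) (v : Nat) (O : Nat) (D : Nat) (g1 : Nat) (g2 : Nat) (h2 : Nat) (v2 : Nat) (O2 : Nat) (D2 : Nat) (a2 : Nat) (b2 : Nat) : Bool :=
  (@Bool.rec (fun _ => Bool) false
    ((ga (fe (Nat.mul (nat_lit 4) h)) (swk Eb (swf h2 v2 O2 D2 a2 b2) W h v O D g1 g2) l) o u (nat_lit 0) (nat_lit 0)) (ebok Eb h))
noncomputable def mainok (s : Stk) (pt : Nat) : Bool :=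
  (@Stk.rec (fun _ => Bool) false
    (fun a b c d r _ => (@Bool.rec (fun _ => Bool) false
    (@Bool.rec (fun _ => Bool) false
    (@Bool.rec (fun _ => Bool) false
    (@Bool.rec (fun _ => Bool) false
    (@Bool.rec (fun _ => Bool) false
    (@Bool.rec (fun _ => Bool) false
    ((eqs r) Stk.nil) (Nat.ble (Nat.mul (nat_lit 15000) (Nat.add (Nat.add b d) pt)) (Nat.mul (nat_lit 201) cS))) (Nat.ble d (Nat.mul cM0 cS36))) (Nat.ble d (Nat.mul (nat_lit 8) a))) (Nat.ble b (Nat.mul (nat_lit 8) c))) (Nat.ble (nat_lit 1) c)) (Nat.ble (nat_lit 1) a)))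
    (fun _ _ _ _ _ _ _ => false)
    (fun _ _ _ _ _ _ _ => false)
    (fun _ _ _ _ _ _ => false) s)

end Pool.Agent.MP_f14165_co.C
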