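import Pool.Agent.MP_f14165_co.Anal
import Pool.Agent.MP_f14165_co.Chk

set_option autoImplicit false

namespace Pool.Agent.MP_f14165_co
open Finset

theorem n_add (a b : ℕ) : Nat.add a b = a + b := (rfl)
theorem n_sub (a b : ℕ) : Nat.sub a b = a - b := (rfl)
theorem n_mul (a b : ℕ) : Nat.mul a b = a * b := (rfl)
theorem n_div (a b : ℕ) : Nat.div a b = a / b := (rfl)
theorem n_pow (a b : ℕ) : Nat.pow a b = a ^ b := (rfl)
theorem n_shl (a b : ℕ) : Nat.shiftLeft a b = a * 2 ^ b := Nat.shiftLeft_eq a b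
theorem n_shr (a b : ℕ) : Nat.shiftRight a b = a / 2 ^ b := Nat.shiftRight_eq_div_pow a b
theorem n_and (a b : ℕ) : Nat.land a b = a &&& b := (rfl)
theorem n_succ (a : ℕ) : Nat.succ a = a + 1 := (rfl)
theorem b_and (x b : Bool) : (@Bool.rec (fun _ => Bool) false x b = true) = (b = true ∧ x = true) := by
  cases b <;> simp
theorem b_ite {α : Type} (x y : α) (b : Bool) :
    @Bool.rec (fun _ => α) x y b = if b = true then y else x := by
  cases b <;> simp
theorem b_le (a b : ℕ) : (Nat.ble a b = true) = (a ≤ b) := Nat.ble_eq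
theorem b_eq (a b : ℕ) : (Nat.beq a b = true) = (a = b) := Nat.beq_eq
theorem frc_eq (x : ℕ) (f : ℕ → Bool) : C.frc x f = f x := (rfl)
theorem and_mask (x n m : ℕ) (h : m = 2 ^ n - 1) : x &&& m = x % 2 ^ n := by
  rw [h, Nat.and_two_pow_sub_one_eq_mod]

noncomputable def SR : ℝ := (C.cS : ℝ)

theorem SR_pos : 0 < SR := by norm_num [SR, C.cS]

def In (lo hi : ℕ) (x : ℝ) : Prop := (lo : ℝ) ≤ x * SR ∧ x * SR ≤ hi

theorem In.nonneg {lo hi : ℕ} {x : ℝ} (h : In lo hi x) : 0 ≤ x :=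
  nonneg_of_mul_nonneg_left ((Nat.cast_nonneg lo).trans h.1) SR_pos

theorem div_hi (n a : ℕ) (ha : 0 < a) : (n : ℝ) / a ≤ ((n / a : ℕ) : ℝ) + 1 := by
  have h0 : (0 : ℝ) < a := by exact_mod_cast ha
  rw [div_le_iff₀ h0]
  have : n ≤ (n / a + 1) * a := by
    have := Nat.div_add_mod n a
    have := Nat.mod_lt n ha
    nlinarith
  exact_mod_cast this

theorem div_lo (n a : ℕ) : ((n / a : ℕ) : ℝ) ≤ (n : ℝ) / a := Nat.cast_div_le

theorem sub_lo {a b : ℕ} {u : ℝ} (h : (a : ℝ) - b ≤ u) (h0 : 0 ≤ u) : ((a - b : ℕ) : ℝ) ≤ u := by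
  rcases le_total b a with h1 | h1
  · rw [Nat.cast_sub h1]; exact h
  · rw [Nat.sub_eq_zero_of_le h1]; simpa using h0

theorem sub_hi (a b : ℕ) : (a : ℝ) - b ≤ ((a - b : ℕ) : ℝ) := by
  rcases le_total b a with h1 | h1
  · rw [Nat.cast_sub h1]
  · rw [Nat.sub_eq_zero_of_le h1]
    have : (a : ℝ) ≤ b := by exact_mod_cast h1
    rw [Nat.cast_zero]; linarith

/-- the enclosure of `S / a` -/
theorem inv_in {a : ℕ} (ha : 0 < a) :
    ((C.cS / a : ℕ) : ℝ) ≤ 1 / (a : ℝ) * SR ∧ 1 / (a : ℝ) * SR ≤ ((C.cS / a : ℕ) : ℝ) + 1 := by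
  have e : 1 / (a : ℝ) * SR = (C.cS : ℝ) / a := by unfold SR; ring
  rw [e]
  exact ⟨div_lo _ _, div_hi _ _ ha⟩

theorem In.sub {a b c d : ℕ} {x y : ℝ} (h : In a b x) (h1 : (c : ℝ) ≤ y * SR) (h2 : y * SR ≤ d)
    (h0 : y ≤ x) : In (a - d) (b - c) (x - y) := by
  have := SR_pos
  refine ⟨sub_lo (by linarith [h.1]) (mul_nonneg (by linarith) this.le), le_trans ?_ (sub_hi _ _)⟩
  linarith [h.2]

noncomputable def Hs (a k s : ℕ) : ℝ := ∑ t ∈ range k, 1 / ((a : ℝ) + s * t)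

theorem Hs_add (a k l s : ℕ) : Hs a (k + l) s = Hs a k s + Hs (a + s * k) l s := by
  unfold Hs
  rw [Finset.sum_range_add]
  congr 1
  refine Finset.sum_congr rfl fun t _ => ?_
  push_cast; ring

theorem Hs_anti {a b : ℕ} (k s : ℕ) (ha : 0 < a) (h : a ≤ b) : Hs b k s ≤ Hs a k s := by
  refine Finset.sum_le_sum fun t _ => ?_
  have h1 : (0 : ℝ) < a := by exact_mod_cast ha
  have h2 : (a : ℝ) ≤ b := by exact_mod_cast h
  exact one_div_le_one_div_of_le (by positivity) (by linarith)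

theorem Hs_nonneg (a k s : ℕ) : 0 ≤ Hs a k s := Finset.sum_nonneg fun t _ => by positivity

theorem taylor_sum (c s γ : ℝ) (k : ℕ) :
    ∑ t ∈ range k, (1 / c - (s * t - γ) / c ^ 2 + (s * t - γ) ^ 2 / c ^ 3 - (s * t - γ) ^ 3 / c ^ 4) =
      k / c - (s * (k * (k - 1) / 2) - k * γ) / c ^ 2 +
      (s ^ 2 * ((k - 1) * k * (2 * k - 1) / 6) - 2 * s * γ * (k * (k - 1) / 2) + k * γ ^ 2) / c ^ 3 -
      (s ^ 3 * (k * (k - 1) / 2) ^ 2 - 3 * s ^ 2 * γ * ((k - 1) * k * (2 * k - 1) / 6) +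
        3 * s * γ ^ 2 * (k * (k - 1) / 2) - k * γ ^ 3) / c ^ 4 := by
  induction k with
  | zero => simp
  | succ k ih => rw [Finset.sum_range_succ, ih]; push_cast; ring

theorem Hs_taylor {a k s : ℕ} (ha : 0 < a) (hk : 1 ≤ k) (h : s * k * 4096 ≤ a) :
    2 * (k * (3 * (2 * a + s * k - s : ℝ) ^ 2 + ((s * k) ^ 2 - s ^ 2))) / (3 * (2 * a + s * k - s : ℝ) ^ 3)
      ≤ Hs a k s ∧
    Hs a k s ≤ 2 * (k * (3 * (2 * a + s * k - s : ℝ) ^ 2 + ((s * k) ^ 2 - s ^ 2))) /
      (3 * (2 * a + s * k - s : ℝ) ^ 3) + k * (1 / 8192 ^ 4 / a) := by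
  have a0 : (0 : ℝ) < a := by exact_mod_cast ha
  have k1 : (1 : ℝ) ≤ k := by exact_mod_cast hk
  have s0 : (0 : ℝ) ≤ s := Nat.cast_nonneg s
  have h' : (s : ℝ) * k * 4096 ≤ a := by exact_mod_cast h
  set γ : ℝ := s * (k - 1) / 2 with hγ
  have g0 : 0 ≤ γ := by have := mul_nonneg s0 (sub_nonneg.2 k1); linarith
  set c : ℝ := a + γ with hc
  have c0 : 0 < c := by linarith
  have e1 : (2 * a + s * k - s : ℝ) = 2 * c := by rw [hc, hγ]; ring
  have e2 := taylor_sum c s γ k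
  have e3 : 2 * (k * (3 * (2 * c) ^ 2 + (((s : ℝ) * k) ^ 2 - s ^ 2))) / (3 * (2 * c) ^ 3) =
      ∑ t ∈ range k, (1 / c - (s * t - γ) / c ^ 2 + (s * t - γ) ^ 2 / c ^ 3 - (s * t - γ) ^ 3 / c ^ 4) := by
    rw [e2, hγ]; field_simp; ring
  have e4 : ∀ t : ℕ, 1 / ((a : ℝ) + s * t) =
      (1 / c - (s * t - γ) / c ^ 2 + (s * t - γ) ^ 2 / c ^ 3 - (s * t - γ) ^ 3 / c ^ 4) +
        ((s * t - γ) / c) ^ 4 / (a + s * t) := by
    intro t
    have : (0 : ℝ) < a + s * t := by positivity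
    have e : (a : ℝ) + s * t = c + (s * t - γ) := by rw [hc]; ring
    rw [e] at this ⊢
    generalize (s : ℝ) * t - γ = x at *
    field_simp; ring
  rw [e1, e3]
  constructor
  · refine Finset.sum_le_sum fun t _ => ?_
    rw [e4 t]
    have : 0 ≤ ((s * t - γ) / c) ^ 4 / ((a : ℝ) + s * t) := by positivity
    linarith
  · have : (k : ℝ) * (1 / 8192 ^ 4 / a) = ∑ t ∈ range k, 1 / 8192 ^ 4 / (a : ℝ) := by simp
    rw [this, ← Finset.sum_add_distrib]
    refine Finset.sum_le_sum fun t ht => ?_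
    rw [e4 t]
    have t1 : (t : ℝ) + 1 ≤ k := by exact_mod_cast Finset.mem_range.1 ht
    have t0 : (0 : ℝ) ≤ t := Nat.cast_nonneg t
    have b1 : |(s * t - γ) / c| ≤ 1 / 8192 := by
      rw [abs_div, abs_of_pos c0, div_le_iff₀ c0, abs_le]
      have := mul_nonneg s0 t0
      have := mul_le_mul_of_nonneg_left t1 s0
      constructor <;> nlinarith
    have b2 : ((s * t - γ) / c) ^ 4 ≤ 1 / 8192 ^ 4 := by
      have := pow_le_pow_left₀ (abs_nonneg _) b1 4
      rw [← abs_pow, abs_of_nonneg (by positivity)] at this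
      linarith [show ((1 : ℝ) / 8192) ^ 4 = 1 / 8192 ^ 4 by norm_num]
    have b3 : ((s * t - γ) / c) ^ 4 / ((a : ℝ) + s * t) ≤ 1 / 8192 ^ 4 / (a : ℝ) :=
      div_le_div₀ (by positivity) b2 a0 (by linarith [mul_nonneg s0 t0])
    linarith

theorem hs_one {a k : ℕ} (s : ℕ) (ha : 0 < a) (hk : k ≤ 1) :
    ((k * C.cS / a : ℕ) : ℝ) ≤ Hs a k s * SR ∧
      Hs a k s * SR ≤ ((k * C.cS / a : ℕ) : ℝ) + k * (a + C.cE) / a := by
  have a0 : (0 : ℝ) < a := by exact_mod_cast ha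
  interval_cases k
  · simp [Hs]
  · have := inv_in ha
    have h1 : (1 : ℝ) ≤ (a + C.cE) / a := by
      rw [le_div_iff₀ a0]; linarith [Nat.cast_nonneg (α := ℝ) C.cE]
    simp only [Hs, Finset.sum_range_one, one_mul, Nat.cast_zero, mul_zero, add_zero, Nat.cast_one]
    exact ⟨this.1, by linarith [this.2]⟩

theorem hs_spec (s f : ℕ) : ∀ a k : ℕ, 0 < a → k ≤ 2 ^ f →
    (C.hs s f a k : ℝ) ≤ Hs a k s * SR ∧ Hs a k s * SR ≤ C.hs s f a k + k * (a + C.cE) / a := by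
  induction f with
  | zero => intro a k ha hk; exact hs_one s ha hk
  | succ f ih =>
    intro a k ha hk
    have e : C.hs s (f + 1) a k = if s * k * 4096 ≤ a then C.hg a k s (s * k) else
        if k ≤ 1 then k * C.cS / a else C.hs s f a (k / 2) + C.hs s f (a + s * (k / 2)) (k - k / 2) := by
      simp only [← b_le, ← b_ite]; rfl
    have a0 : (0 : ℝ) < a := by exact_mod_cast ha
    rw [e]
    split_ifs with h1 h2
    · rcases Nat.eq_zero_or_pos k with rfl | hk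
      · simp [C.hg, C.hf, Hs, n_div]
      · have t := Hs_taylor ha hk h1
        have u1 : s ≤ s * k := Nat.le_mul_of_pos_right s hk
        have e2 : C.hg a k s (s * k) = C.cS2 * (k * (3 * (2 * a + s * k - s) ^ 2 + ((s * k) ^ 2 - s ^ 2))) /
          (3 * (2 * a + s * k - s) ^ 3) := rfl
        have p : 0 < 3 * (2 * a + s * k - s) ^ 3 := by
          have : 0 < 2 * a + s * k - s := by omega
          positivity
        have d1 := div_lo (C.cS2 * (k * (3 * (2 * a + s * k - s) ^ 2 + ((s * k) ^ 2 - s ^ 2))))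
          (3 * (2 * a + s * k - s) ^ 3)
        have d2 := div_hi (C.cS2 * (k * (3 * (2 * a + s * k - s) ^ 2 + ((s * k) ^ 2 - s ^ 2))))
          (3 * (2 * a + s * k - s) ^ 3) p
        rw [← e2] at d1 d2
        have c2 : (C.cS2 : ℝ) = 2 * SR := by norm_num [SR, C.cS, C.cS2]
        push_cast [Nat.cast_sub (show s ≤ 2 * a + s * k by omega),
          Nat.cast_sub (Nat.pow_le_pow_left u1 2), c2] at d1 d2
        have m1 := mul_le_mul_of_nonneg_right t.1 SR_pos.le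
        have m2 := mul_le_mul_of_nonneg_right t.2 SR_pos.le
        have k1 : (1 : ℝ) ≤ k := by exact_mod_cast hk
        have e5 : (k : ℝ) * (a + C.cE) / a = k + k * (C.cE / a) := by field_simp
        have e6 : (k : ℝ) * (1 / 8192 ^ 4 / a * SR) ≤ k * (C.cE / a) := by
          refine mul_le_mul_of_nonneg_left ?_ (by linarith)
          rw [div_mul_eq_mul_div]
          exact div_le_div_of_nonneg_right (by norm_num [SR, C.cS, C.cE]) a0.le
        constructor
        · refine d1.trans (le_trans (le_of_eq ?_) m1); ring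
        · rw [e5]
          have : 2 * ((k : ℝ) * (3 * (2 * a + s * k - s : ℝ) ^ 2 + ((s * k) ^ 2 - s ^ 2))) /
              (3 * (2 * a + s * k - s : ℝ) ^ 3) * SR = 2 * SR * (k * (3 * (2 * a + s * k - s : ℝ) ^ 2 +
              ((s * k) ^ 2 - s ^ 2))) / (3 * (2 * a + s * k - s : ℝ) ^ 3) := by ring
          linarith
    · exact hs_one s ha h2
    · have i1 := ih a (k / 2) ha (by omega)
      have i2 := ih (a + s * (k / 2)) (k - k / 2) (by omega) (by omega)
      have e2 := Hs_add a (k / 2) (k - k / 2) s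
      rw [show k / 2 + (k - k / 2) = k by omega] at e2
      have e3 : (k : ℝ) = ((k / 2 : ℕ) : ℝ) + ((k - k / 2 : ℕ) : ℝ) := by
        exact_mod_cast (by omega : k = k / 2 + (k - k / 2))
      have e4 : (((a + s * (k / 2) : ℕ) : ℝ) + C.cE) / ((a + s * (k / 2) : ℕ) : ℝ) ≤ (a + C.cE) / a := by
        have h3 : (a : ℝ) ≤ ((a + s * (k / 2) : ℕ) : ℝ) := by exact_mod_cast Nat.le_add_right _ _
        rw [div_le_div_iff₀ (by linarith) a0]
        nlinarith [Nat.cast_nonneg (α := ℝ) C.cE]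
      have e5 := mul_le_mul_of_nonneg_left e4 (Nat.cast_nonneg (k - k / 2))
      rw [mul_div_assoc] at i1 i2 ⊢
      rw [e2, Nat.cast_add]
      constructor
      · linarith [i1.1, i2.1]
      · rw [e3]; linarith [i1.2, i2.2]

theorem er_spec {a : ℕ} (k : ℕ) (ha : 0 < a) : (k : ℝ) * (a + C.cE) / a + 2 ≤ C.er a k := by
  have := div_hi (k * (a + C.cE)) a ha
  have e : C.er a k = k * (a + C.cE) / a + 3 := rfl
  rw [e]; push_cast at this ⊢; linarith

/-- the enclosure used for rows of arrays -/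
theorem hs_in {a b k : ℕ} (s : ℕ) (ha : 0 < a) (hb : a ≤ b) (hk : k ≤ 2 ^ 20) :
    (C.hs s 20 b k : ℝ) ≤ Hs b k s * SR ∧ Hs b k s * SR ≤ ((C.hs s 20 b k + C.er a k : ℕ) : ℝ) := by
  have h := hs_spec s 20 b k (by omega) hk
  have h2 := er_spec k ha
  have a0 : (0 : ℝ) < a := by exact_mod_cast ha
  have h3 : (a : ℝ) ≤ b := by exact_mod_cast hb
  have e4 : ((b : ℝ) + C.cE) / b ≤ (a + C.cE) / a := by
    rw [div_le_div_iff₀ (by linarith) a0]
    nlinarith [Nat.cast_nonneg (α := ℝ) C.cE]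
  have e5 := mul_le_mul_of_nonneg_left e4 (Nat.cast_nonneg k)
  rw [mul_div_assoc] at h h2
  push_cast
  exact ⟨h.1, by linarith [h.2]⟩

noncomputable def vR (b : ℕ) : ℝ := 1 / (b : ℝ) + 1 / ((b : ℝ) + 2)
noncomputable def cH (b J : ℕ) : ℝ := ∑ j ∈ range J, vR (b + 2 * j)

theorem vv_in {b : ℕ} (hb : 0 < b) : (C.vv b : ℝ) ≤ vR b * SR ∧ vR b * SR ≤ C.vv b + 2 := by
  have h1 := inv_in hb
  have h2 := inv_in (show 0 < b + 2 by omega)
  have e : C.vv b = C.cS / b + C.cS / (b + 2) := rfl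
  rw [e, vR, Nat.cast_add, add_mul]
  rw [Nat.cast_add, Nat.cast_ofNat] at h2
  constructor <;> linarith [h1.1, h1.2, h2.1, h2.2]

theorem cH_succ (b J : ℕ) : cH b (J + 1) = cH b J + vR (b + 2 * J) := Finset.sum_range_succ _ _

theorem cH_succ' (b J : ℕ) : cH b (J + 1) = vR b + cH (b + 2) J := by
  unfold cH
  rw [Finset.sum_range_succ', add_comm]
  congr 1
  exact Finset.sum_congr rfl fun j _ => by congr 1; ring

theorem cv_in (J : ℕ) : ∀ b : ℕ, 0 < b →
    (C.cv J b : ℝ) ≤ cH b J * SR ∧ cH b J * SR ≤ C.cv J b + 2 * J := by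
  induction J with
  | zero => intro b _; simp [cH, C.cv]
  | succ J ih =>
    intro b hb
    have e : C.cv (J + 1) b = C.vv b + C.cv J (b + 2) := rfl
    have h1 := vv_in hb
    have h2 := ih (b + 2) (by omega)
    rw [e, cH_succ', add_mul]
    push_cast
    constructor <;> linarith [h1.1, h1.2, h2.1, h2.2]

theorem vR_pos {b : ℕ} (hb : 0 < b) : 0 < vR b := by
  have : (0 : ℝ) < b := by exact_mod_cast hb
  unfold vR; positivity

theorem vR_anti {a b : ℕ} (ha : 0 < a) (h : a ≤ b) : vR b ≤ vR a := by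
  have h1 : (0 : ℝ) < a := by exact_mod_cast ha
  have h2 : (a : ℝ) ≤ b := by exact_mod_cast h
  exact add_le_add (one_div_le_one_div_of_le h1 h2)
    (one_div_le_one_div_of_le (by linarith) (by linarith))

theorem cH_anti {a b : ℕ} (J : ℕ) (ha : 0 < a) (h : a ≤ b) : cH b J ≤ cH a J :=
  Finset.sum_le_sum fun j _ => vR_anti (by omega) (by omega)

theorem cH_nonneg (a J : ℕ) : 0 ≤ cH a J :=
  Finset.sum_nonneg fun j _ => by unfold vR; positivity

end Pool.Agent.MP_f14165_co
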