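import Pool.Agent.MP_f14165_co.Geo

set_option autoImplicit false

namespace Pool.Agent.MP_f14165_co
open Set Finset

noncomputable def item (j : ℕ) : ℝ × ℝ := (1 / (j : ℝ), 1 / ((j : ℝ) + 1))

abbrev E2 := EuclideanSpace ℝ (Fin 2)

noncomputable def toP : E2 ≃ₜ ℝ × ℝ :=
  (EuclideanSpace.equiv (Fin 2) ℝ).toHomeomorph.trans Homeomorph.finTwoArrow

theorem toP_apply (z : E2) : toP z = (z 0, z 1) := rfl

theorem exists_iso (p q a b : ℝ) : ∃ f : E2 ≃ᵢ E2,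
    f '' {x : E2 | 0 ≤ x 0 ∧ x 0 ≤ a ∧ 0 ≤ x 1 ∧ x 1 ≤ b} =
      toP ⁻¹' (Set.Icc p (p + a) ×ˢ Set.Icc q (q + b)) := by
  refine ⟨IsometryEquiv.addRight (!₂[p, q] : E2), ?_⟩
  ext z
  simp only [Set.mem_preimage, Set.mem_image, Set.mem_ofPred_eq, toP_apply, Set.mem_prod,
    Set.mem_Icc, IsometryEquiv.addRight_apply]
  constructor
  · rintro ⟨x, ⟨h1, h2, h3, h4⟩, rfl⟩
    simp only [PiLp.add_apply, Matrix.cons_val_zero, Matrix.cons_val_one]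
    exact ⟨⟨by linarith, by linarith⟩, by linarith, by linarith⟩
  · rintro ⟨⟨h1, h2⟩, h3, h4⟩
    refine ⟨z - (!₂[p, q] : E2), ?_, by simp⟩
    simp only [PiLp.sub_apply, Matrix.cons_val_zero, Matrix.cons_val_one]
    exact ⟨by linarith, by linarith, by linarith, by linarith⟩

theorem exists_iso' (p q a b : ℝ) : ∃ f : E2 ≃ᵢ E2,
    f '' {x : E2 | 0 ≤ x 0 ∧ x 0 ≤ a ∧ 0 ≤ x 1 ∧ x 1 ≤ b} =
      toP ⁻¹' (Set.Icc p (p + b) ×ˢ Set.Icc q (q + a)) := by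
  obtain ⟨f, hf⟩ := exists_iso p q b a
  let s : E2 ≃ᵢ E2 :=
    (LinearIsometryEquiv.piLpCongrLeft 2 ℝ ℝ (Equiv.swap (0 : Fin 2) 1)).toIsometryEquiv
  refine ⟨s.trans f, ?_⟩
  rw [← hf, show (⇑(s.trans f) : E2 → E2) = f ∘ s from rfl, Set.image_comp]
  congr 1
  have hs : ∀ z : E2, s z 0 = z 1 ∧ s z 1 = z 0 := fun z => ⟨rfl, rfl⟩
  ext z
  constructor
  · rintro ⟨x, ⟨h1, h2, h3, h4⟩, rfl⟩
    simp only [Set.mem_ofPred_eq, (hs x).1, (hs x).2]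
    exact ⟨h3, h4, h1, h2⟩
  · rintro ⟨h1, h2, h3, h4⟩
    refine ⟨s.symm z, ?_, s.apply_symm_apply z⟩
    have e := hs (s.symm z)
    rw [s.apply_symm_apply] at e
    simp only [Set.mem_ofPred_eq, ← e.1, ← e.2]
    exact ⟨h3, h4, h1, h2⟩

theorem closed_sub {p q a b R : ℝ} (ha : 0 < a) (hb : 0 < b)
    (h : Set.Ioo p (p + a) ×ˢ Set.Ioo q (q + b) ⊆ Set.Ioo 0 R ×ˢ Set.Ioo 0 R) :
    Set.Icc p (p + a) ×ˢ Set.Icc q (q + b) ⊆ Set.Icc 0 R ×ˢ Set.Icc 0 R := by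
  have h2 : Set.Ioo p (p + a) ×ˢ Set.Ioo q (q + b) ⊆ Set.Icc 0 R ×ˢ Set.Icc 0 R :=
    h.trans (Set.prod_mono Set.Ioo_subset_Icc_self Set.Ioo_subset_Icc_self)
  have h3 := closure_minimal h2 (isClosed_Icc.prod isClosed_Icc)
  rwa [closure_prod_eq, closure_Ioo (by linarith), closure_Ioo (by linarith)] at h3

theorem of_boxes (R : ℝ) (b : ℕ → Set (ℝ × ℝ))
    (h1 : ∀ n, IsBox (b n) (item (n + 1)) ∧ b n ⊆ Set.Ioo 0 R ×ˢ Set.Ioo 0 R)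
    (h2 : ∀ n m, n ≠ m → Disjoint (b n) (b m)) :
    ∃ f : ℕ → (E2 ≃ᵢ E2),
      (∀ n : ℕ,
        f n '' {x : E2 | 0 ≤ x 0 ∧ x 0 ≤ 1 / ((n : ℝ) + 1) ∧ 0 ≤ x 1 ∧ x 1 ≤ 1 / ((n : ℝ) + 2)}
          ⊆ {x : E2 | 0 ≤ x 0 ∧ x 0 ≤ R ∧ 0 ≤ x 1 ∧ x 1 ≤ R}) ∧
      (∀ n m : ℕ, n ≠ m →
        Disjoint
          (interior (f n '' {x : E2 |
            0 ≤ x 0 ∧ x 0 ≤ 1 / ((n : ℝ) + 1) ∧ 0 ≤ x 1 ∧ x 1 ≤ 1 / ((n : ℝ) + 2)}))
          (interior (f m '' {x : E2 |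
            0 ≤ x 0 ∧ x 0 ≤ 1 / ((m : ℝ) + 1) ∧ 0 ≤ x 1 ∧ x 1 ≤ 1 / ((m : ℝ) + 2)}))) := by
  have key : ∀ n : ℕ, ∃ f : E2 ≃ᵢ E2,
      f '' {x : E2 | 0 ≤ x 0 ∧ x 0 ≤ 1 / ((n : ℝ) + 1) ∧ 0 ≤ x 1 ∧ x 1 ≤ 1 / ((n : ℝ) + 2)}
          ⊆ {x : E2 | 0 ≤ x 0 ∧ x 0 ≤ R ∧ 0 ≤ x 1 ∧ x 1 ≤ R} ∧
      interior (f '' {x : E2 |
            0 ≤ x 0 ∧ x 0 ≤ 1 / ((n : ℝ) + 1) ∧ 0 ≤ x 1 ∧ x 1 ≤ 1 / ((n : ℝ) + 2)}) =
        toP ⁻¹' (b n) := by
    intro n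
    have e1 : (item (n + 1)).1 = 1 / ((n : ℝ) + 1) := by simp [item]
    have e2 : (item (n + 1)).2 = 1 / ((n : ℝ) + 2) := by
      simp only [item]; push_cast; ring_nf
    have p1 : 0 < 1 / ((n : ℝ) + 1) := by positivity
    have p2 : 0 < 1 / ((n : ℝ) + 2) := by positivity
    obtain ⟨⟨p, q, h | h⟩, hs⟩ := h1 n
    · rw [e1, e2] at h
      obtain ⟨f, hf⟩ := exists_iso p q (1 / ((n : ℝ) + 1)) (1 / ((n : ℝ) + 2))
      refine ⟨f, ?_, ?_⟩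
      · rw [hf]
        intro z hz
        have := closed_sub p1 p2 (h ▸ hs) hz
        simp only [toP_apply, Set.mem_prod, Set.mem_Icc] at this
        exact ⟨this.1.1, this.1.2, this.2.1, this.2.2⟩
      · rw [hf, ← toP.preimage_interior, interior_prod_eq, interior_Icc, interior_Icc, h]
    · rw [e1, e2] at h
      obtain ⟨f, hf⟩ := exists_iso' p q (1 / ((n : ℝ) + 1)) (1 / ((n : ℝ) + 2))
      refine ⟨f, ?_, ?_⟩
      · rw [hf]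
        intro z hz
        have := closed_sub p2 p1 (h ▸ hs) hz
        simp only [toP_apply, Set.mem_prod, Set.mem_Icc] at this
        exact ⟨this.1.1, this.1.2, this.2.1, this.2.2⟩
      · rw [hf, ← toP.preimage_interior, interior_prod_eq, interior_Icc, interior_Icc, h]
  choose f hf using key
  refine ⟨f, fun n => (hf n).1, fun n m hnm => ?_⟩
  rw [(hf n).2, (hf m).2]
  exact (h2 n m hnm).preimage _

/-- The tail of the sequence goes into a thin strip, one column for each dyadic block. -/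
theorem tail_boxes (M : ℕ) (hM : 0 < M) : ∃ b : ℕ → Set (ℝ × ℝ),
    (∀ j, M ≤ j → IsBox (b j) (item j) ∧ b j ⊆ Set.Ioo 1 (1 + 2 / (M : ℝ)) ×ˢ Set.Ioo 0 1) ∧
    (∀ i j, M ≤ i → M ≤ j → i ≠ j → Disjoint (b i) (b j)) := by
  let k : ℕ → ℕ := fun j => Nat.log 2 (j / M)
  let s : ℕ → ℝ := fun k => 1 / ((2 : ℝ) ^ k * M)
  let x : ℕ → ℝ := fun k => 1 + 2 / (M : ℝ) - 2 * s k
  let y : ℕ → ℝ := fun j => (j : ℝ) * s (k j) - 1
  have hMr : (0 : ℝ) < M := by exact_mod_cast hM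
  have hk : ∀ j, M ≤ j → (2 : ℝ) ^ k j * M ≤ j ∧ (j : ℝ) + 1 ≤ 2 * ((2 : ℝ) ^ k j * M) := by
    intro j hj
    have h0 : j / M ≠ 0 := (Nat.div_pos hj hM).ne'
    have h1 : 2 ^ k j ≤ j / M := Nat.pow_log_le_self 2 h0
    have h2 : j / M < 2 ^ (k j + 1) := Nat.lt_pow_succ_log_self (by norm_num) _
    have h3 : 2 ^ k j * M ≤ j := (Nat.le_div_iff_mul_le hM).1 h1
    have h4 : j < 2 ^ (k j + 1) * M := (Nat.div_lt_iff_lt_mul hM).1 h2
    constructor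
    · exact_mod_cast h3
    · have : j + 1 ≤ 2 * (2 ^ k j * M) := by rw [pow_succ] at h4; nlinarith
      exact_mod_cast this
  have hs : ∀ k, 0 < s k := fun k => by positivity
  have hs1 : ∀ k, s k * ((2 : ℝ) ^ k * M) = 1 := fun k => by
    simp only [s]; field_simp
  have hs2 : ∀ k, s (k + 1) = s k / 2 := fun k => by
    simp only [s]; rw [pow_succ]; field_simp
  have hs3 : ∀ k l, k ≤ l → s l ≤ s k := fun k l h => by
    simp only [s]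
    exact one_div_le_one_div_of_le (by positivity)
      (mul_le_mul_of_nonneg_right (pow_le_pow_right₀ (by norm_num) h) hMr.le)
  have hw : ∀ j, M ≤ j → 1 / (j : ℝ) ≤ s (k j) ∧ 1 / ((j : ℝ) + 1) ≤ s (k j) := by
    intro j hj
    have := (hk j hj).1
    exact ⟨one_div_le_one_div_of_le (by positivity) this,
      one_div_le_one_div_of_le (by positivity) (by linarith)⟩
  refine ⟨fun j => Set.Ioo (x (k j)) (x (k j) + 1 / (j : ℝ)) ×ˢ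
    Set.Ioo (y j) (y j + 1 / ((j : ℝ) + 1)), fun j hj => ⟨⟨_, _, Or.inl rfl⟩, ?_⟩, ?_⟩
  · have a1 := hs3 0 (k j) (Nat.zero_le _)
    have a2 : s 0 = 1 / (M : ℝ) := by simp [s]
    have a3 : 2 / (M : ℝ) = 2 * (1 / (M : ℝ)) := by ring
    have a4 := hw j hj
    have a5 := hs (k j)
    have a6 := hs1 (k j)
    have a7 := hk j hj
    refine Set.prod_mono (Set.Ioo_subset_Ioo ?_ ?_) (Set.Ioo_subset_Ioo ?_ ?_)
    · simp only [x]; linarith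
    · simp only [x]; linarith
    · simp only [y]; nlinarith
    · simp only [y]; nlinarith
  · have lt : ∀ i j, M ≤ i → M ≤ j → i < j →
        Disjoint (Set.Ioo (x (k i)) (x (k i) + 1 / (i : ℝ)) ×ˢ
          Set.Ioo (y i) (y i + 1 / ((i : ℝ) + 1)))
        (Set.Ioo (x (k j)) (x (k j) + 1 / (j : ℝ)) ×ˢ
          Set.Ioo (y j) (y j + 1 / ((j : ℝ) + 1))) := by
      intro i j hi hj hij
      apply box_disj
      have hkk : k i ≤ k j := Nat.log_mono_right (Nat.div_le_div_right hij.le)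
      rcases hkk.eq_or_lt with h | h
      · refine Or.inr (Or.inr (Or.inl ?_))
        have a4 := (hw i hi).2
        have : (i : ℝ) + 1 ≤ j := by exact_mod_cast hij
        have a5 := hs (k i)
        simp only [y, ← h]
        nlinarith
      · refine Or.inl ?_
        have a4 := (hw i hi).1
        have a5 := hs3 (k i + 1) (k j) h
        rw [hs2] at a5
        simp only [x]
        linarith
    intro i j hi hj hij
    rcases lt_or_gt_of_ne hij with h | h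
    · exact lt i j hi hj h
    · exact (lt j i hj hi h).symm

theorem final_of_finite
    (h : ∀ N : ℕ, Fits (Set.Ioo 0 1 ×ˢ Set.Ioo 0 1)
      (∑ j ∈ Finset.Ico 1 N, ({item j} : Multiset (ℝ × ℝ)))) :
    ∀ ε : ℝ, 0 < ε →
      ∃ f : ℕ → (EuclideanSpace ℝ (Fin 2) ≃ᵢ EuclideanSpace ℝ (Fin 2)),
        (∀ n : ℕ,
          f n '' {x : EuclideanSpace ℝ (Fin 2) |
              0 ≤ x 0 ∧ x 0 ≤ 1 / ((n : ℝ) + 1) ∧ 0 ≤ x 1 ∧ x 1 ≤ 1 / ((n : ℝ) + 2)}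
            ⊆ {x : EuclideanSpace ℝ (Fin 2) |
              0 ≤ x 0 ∧ x 0 ≤ Real.sqrt (1 + ε) ∧ 0 ≤ x 1 ∧ x 1 ≤ Real.sqrt (1 + ε)}) ∧
        (∀ n m : ℕ, n ≠ m →
          Disjoint
            (interior (f n '' {x : EuclideanSpace ℝ (Fin 2) |
              0 ≤ x 0 ∧ x 0 ≤ 1 / ((n : ℝ) + 1) ∧ 0 ≤ x 1 ∧ x 1 ≤ 1 / ((n : ℝ) + 2)}))
            (interior (f m '' {x : EuclideanSpace ℝ (Fin 2) |
              0 ≤ x 0 ∧ x 0 ≤ 1 / ((m : ℝ) + 1) ∧ 0 ≤ x 1 ∧ x 1 ≤ 1 / ((m : ℝ) + 2)}))) := by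
  intro ε hε
  have hR : 1 < Real.sqrt (1 + ε) := Real.lt_sqrt_of_sq_lt (by linarith)
  obtain ⟨M0, hM0⟩ := exists_nat_gt (2 / (Real.sqrt (1 + ε) - 1))
  have hp : 0 < 2 / (Real.sqrt (1 + ε) - 1) := div_pos two_pos (by linarith)
  have hM : 0 < M0 := by
    have : (0 : ℝ) < M0 := hp.trans hM0
    exact_mod_cast this
  have hMr : (0 : ℝ) < M0 := by exact_mod_cast hM
  have hw : 1 + 2 / (M0 : ℝ) ≤ Real.sqrt (1 + ε) := by
    rw [div_lt_iff₀ (by linarith)] at hM0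
    have : 2 / (M0 : ℝ) ≤ Real.sqrt (1 + ε) - 1 := by
      rw [div_le_iff₀ hMr]; linarith
    linarith
  obtain ⟨b, hb1, hb2⟩ := pairwise_of_fits _ _ _ (h M0)
  obtain ⟨c, hc1, hc2⟩ := tail_boxes M0 hM
  have hbc : ∀ i j, i ∈ Finset.Ico 1 M0 → M0 ≤ j → Disjoint (b i) (c j) := fun i j hi hj =>
    (box_disj (Or.inl le_rfl)).mono (hb1 i hi).2 (hc1 j hj).2
  refine of_boxes _ (fun n => if n + 1 < M0 then b (n + 1) else c (n + 1)) (fun n => ?_)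
    (fun n m hnm => ?_)
  · split_ifs with hn
    · have := hb1 (n + 1) (Finset.mem_Ico.2 ⟨by omega, hn⟩)
      exact ⟨this.1, this.2.trans (Set.prod_mono (Set.Ioo_subset_Ioo le_rfl hR.le)
        (Set.Ioo_subset_Ioo le_rfl hR.le))⟩
    · have := hc1 (n + 1) (by omega)
      exact ⟨this.1, this.2.trans (Set.prod_mono (Set.Ioo_subset_Ioo zero_le_one hw)
        (Set.Ioo_subset_Ioo le_rfl hR.le))⟩
  · split_ifs with hn hm hm
    · exact hb2 _ (Finset.mem_Ico.2 ⟨by omega, hn⟩) _ (Finset.mem_Ico.2 ⟨by omega, hm⟩) (by omega)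
    · exact hbc _ _ (Finset.mem_Ico.2 ⟨by omega, hn⟩) (by omega)
    · exact (hbc _ _ (Finset.mem_Ico.2 ⟨by omega, hm⟩) (by omega)).symm
    · exact hc2 _ _ (by omega) (by omega) (by omega)

end Pool.Agent.MP_f14165_co
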