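import Mathlib

set_option autoImplicit false

namespace Pool.Agent.MP_f14165_co
open Set Finset

/-- `b` is an open axis-parallel box whose sides are the two entries of `s`, in either order. -/
def IsBox (b : Set (ℝ × ℝ)) (s : ℝ × ℝ) : Prop :=
  ∃ x y : ℝ, b = Set.Ioo x (x + s.1) ×ˢ Set.Ioo y (y + s.2) ∨
    b = Set.Ioo x (x + s.2) ×ˢ Set.Ioo y (y + s.1)

def FitsL : Set (ℝ × ℝ) → List (ℝ × ℝ) → Prop
  | _, [] => True
  | U, s :: S => ∃ b, IsBox b s ∧ b ⊆ U ∧ FitsL (U \ b) S

theorem FitsL.mono {S : List (ℝ × ℝ)} : ∀ {U V : Set (ℝ × ℝ)}, U ⊆ V → FitsL U S → FitsL V S := by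
  induction S with
  | nil => intro U V _ _; trivial
  | cons s S ih =>
    rintro U V h ⟨b, hb, hbU, hS⟩
    exact ⟨b, hb, hbU.trans h, ih (Set.sdiff_subset_sdiff_left h) hS⟩

theorem FitsL.perm {S T : List (ℝ × ℝ)} (h : S.Perm T) :
    ∀ {U : Set (ℝ × ℝ)}, FitsL U S → FitsL U T := by
  induction h with
  | nil => intro U h; exact h
  | cons x _ ih =>
    rintro U ⟨b, hb, hbU, hS⟩
    exact ⟨b, hb, hbU, ih hS⟩
  | swap x y l =>
    rintro U ⟨b, hb, hbU, c, hc, hcU, hS⟩
    refine ⟨c, hc, hcU.trans Set.sdiff_subset, b, hb, ?_, ?_⟩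
    · intro z hz
      exact ⟨hbU hz, fun hzc => (hcU hzc).2 hz⟩
    · rw [Set.sdiff_sdiff_comm]; exact hS
  | trans _ _ ih1 ih2 => intro U h; exact ih2 (ih1 h)

def Fits (U : Set (ℝ × ℝ)) (M : Multiset (ℝ × ℝ)) : Prop :=
  ∃ l : List (ℝ × ℝ), (l : Multiset (ℝ × ℝ)) = M ∧ FitsL U l

theorem fits_coe {U : Set (ℝ × ℝ)} {l : List (ℝ × ℝ)} :
    Fits U (l : Multiset (ℝ × ℝ)) ↔ FitsL U l :=
  ⟨fun ⟨_, h, h'⟩ => h'.perm (Multiset.coe_eq_coe.1 h), fun h => ⟨l, rfl, h⟩⟩

theorem Fits.mono {U V : Set (ℝ × ℝ)} {M : Multiset (ℝ × ℝ)} (h : U ⊆ V) (hM : Fits U M) :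
    Fits V M := by
  obtain ⟨l, hl, h'⟩ := hM
  exact ⟨l, hl, h'.mono h⟩

theorem fits_zero (U : Set (ℝ × ℝ)) : Fits U 0 := ⟨[], rfl, trivial⟩

theorem fits_cons {U : Set (ℝ × ℝ)} {s : ℝ × ℝ} {M : Multiset (ℝ × ℝ)} :
    Fits U (s ::ₘ M) ↔ ∃ b, IsBox b s ∧ b ⊆ U ∧ Fits (U \ b) M := by
  induction M using Quotient.inductionOn with
  | h l =>
    simp only [Multiset.quot_mk_to_coe, Multiset.cons_coe, fits_coe]
    rfl

theorem fits_add {S T : Multiset (ℝ × ℝ)} : ∀ {U : Set (ℝ × ℝ)},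
    Fits U (S + T) ↔ ∃ V, V ⊆ U ∧ Fits V S ∧ Fits (U \ V) T := by
  induction S using Multiset.induction_on with
  | empty =>
    intro U
    simp only [zero_add]
    exact ⟨fun h => ⟨∅, Set.empty_subset _, fits_zero _, by simpa using h⟩,
      fun ⟨V, _, _, h⟩ => h.mono Set.sdiff_subset⟩
  | cons s S ih =>
    intro U
    rw [Multiset.cons_add, fits_cons]
    constructor
    · rintro ⟨b, hb, hbU, h⟩
      obtain ⟨V, hV, h1, h2⟩ := ih.1 h
      refine ⟨b ∪ V, Set.union_subset hbU (hV.trans Set.sdiff_subset), ?_, ?_⟩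
      · rw [fits_cons]
        refine ⟨b, hb, Set.subset_union_left, h1.mono ?_⟩
        intro z hz
        exact ⟨Or.inr hz, (hV hz).2⟩
      · rw [← Set.sdiff_sdiff]; exact h2
    · rintro ⟨V, hV, h1, h2⟩
      rw [fits_cons] at h1
      obtain ⟨b, hb, hbV, h1⟩ := h1
      refine ⟨b, hb, hbV.trans hV, ih.2 ⟨V \ b, Set.sdiff_subset_sdiff_left hV, h1, h2.mono ?_⟩⟩
      intro z hz
      exact ⟨⟨hz.1, fun h => hz.2 (hbV h)⟩, fun h => hz.2 h.1⟩

theorem IsBox.swap {b : Set (ℝ × ℝ)} {s : ℝ × ℝ} (h : IsBox b s) :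
    IsBox (Prod.swap ⁻¹' b) s := by
  obtain ⟨x, y, h | h⟩ := h
  · refine ⟨y, x, Or.inr ?_⟩
    rw [h, Set.preimage_swap_prod]
  · refine ⟨y, x, Or.inl ?_⟩
    rw [h, Set.preimage_swap_prod]

theorem Fits.swap {M : Multiset (ℝ × ℝ)} : ∀ {U : Set (ℝ × ℝ)}, Fits U M →
    Fits (Prod.swap ⁻¹' U) M := by
  induction M using Multiset.induction_on with
  | empty => intro U _; exact fits_zero _
  | cons s M ih =>
    intro U h
    rw [fits_cons] at h ⊢
    obtain ⟨b, hb, hbU, h⟩ := h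
    exact ⟨_, hb.swap, Set.preimage_mono hbU, by simpa using ih h⟩

noncomputable def area (M : Multiset (ℝ × ℝ)) : ℝ := (M.map fun s => s.1 * s.2).sum

@[simp] theorem area_zero : area 0 = 0 := by simp [area]
@[simp] theorem area_add (S T : Multiset (ℝ × ℝ)) : area (S + T) = area S + area T := by
  simp [area]
@[simp] theorem area_single (s : ℝ × ℝ) : area {s} = s.1 * s.2 := by simp [area]
@[simp] theorem area_cons (s : ℝ × ℝ) (M : Multiset (ℝ × ℝ)) :
    area (s ::ₘ M) = s.1 * s.2 + area M := by simp [area]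
theorem area_sum {ι : Type} (s : Finset ι) (f : ι → Multiset (ℝ × ℝ)) :
    area (∑ i ∈ s, f i) = ∑ i ∈ s, area (f i) := by
  classical
  induction s using Finset.induction_on with
  | empty => simp
  | insert a s ha ih => rw [Finset.sum_insert ha, Finset.sum_insert ha, area_add, ih]

/-- `T` is obtained from `S` by cutting boxes, with no loss of area. -/
def Step (S T : Multiset (ℝ × ℝ)) : Prop :=
  (∀ U, Fits U S → Fits U T) ∧ area T = area S

theorem Step.refl (S : Multiset (ℝ × ℝ)) : Step S S := ⟨fun _ h => h, rfl⟩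

theorem Step.trans {S T R : Multiset (ℝ × ℝ)} (h1 : Step S T) (h2 : Step T R) : Step S R :=
  ⟨fun U h => h2.1 U (h1.1 U h), h2.2.trans h1.2⟩

theorem Step.of_eq {S T : Multiset (ℝ × ℝ)} (h : S = T) : Step S T := h ▸ Step.refl S

theorem Step.add_right {S T : Multiset (ℝ × ℝ)} (h : Step S T) (R : Multiset (ℝ × ℝ)) :
    Step (S + R) (T + R) := by
  refine ⟨fun U hU => ?_, by simp [h.2]⟩
  obtain ⟨V, hV, h1, h2⟩ := fits_add.1 hU
  exact fits_add.2 ⟨V, hV, h.1 V h1, h2⟩

theorem Step.add_left {S T : Multiset (ℝ × ℝ)} (h : Step S T) (R : Multiset (ℝ × ℝ)) :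
    Step (R + S) (R + T) := by
  rw [add_comm R S, add_comm R T]; exact h.add_right R

theorem Step.add {S T S' T' : Multiset (ℝ × ℝ)} (h : Step S T) (h' : Step S' T') :
    Step (S + S') (T + T') := (h.add_right S').trans (h'.add_left T)

theorem Step.sum {ι : Type} (s : Finset ι) (f g : ι → Multiset (ℝ × ℝ))
    (h : ∀ i ∈ s, Step (f i) (g i)) : Step (∑ i ∈ s, f i) (∑ i ∈ s, g i) := by
  classical
  induction s using Finset.induction_on with
  | empty => simpa using Step.refl 0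
  | insert a s ha ih =>
    rw [Finset.sum_insert ha, Finset.sum_insert ha]
    exact (h a (Finset.mem_insert_self _ _)).add
      (ih fun i hi => h i (Finset.mem_insert_of_mem hi))

theorem step_single {a b : ℝ} {T : Multiset (ℝ × ℝ)}
    (h : ∀ x y : ℝ, Fits (Set.Ioo x (x + a) ×ˢ Set.Ioo y (y + b)) T) (ha : area T = a * b) :
    Step {(a, b)} T := by
  refine ⟨fun U hU => ?_, by simpa using ha⟩
  rw [← Multiset.cons_zero, fits_cons] at hU
  obtain ⟨c, ⟨x, y, hc | hc⟩, hcU, _⟩ := hU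
  · exact (h x y).mono (hc ▸ hcU)
  · have := (h y x).swap
    rw [Set.preimage_swap_prod] at this
    exact this.mono (hc ▸ hcU)

theorem step_rot (a b : ℝ) : Step {(a, b)} {(b, a)} := by
  refine step_single (fun x y => ?_) (by simp [mul_comm])
  rw [← Multiset.cons_zero, fits_cons]
  exact ⟨_, ⟨x, y, Or.inr rfl⟩, subset_rfl, fits_zero _⟩

theorem step_drop {Z : Multiset (ℝ × ℝ)} (h : area Z = 0) : Step Z 0 :=
  ⟨fun U _ => fits_zero U, by simp [h]⟩

theorem step_cut {L y w : ℝ} (h0 : 0 ≤ w) (h1 : w ≤ L) :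
    Step {(L, y)} ({(w, y)} + {(L - w, y)}) := by
  refine step_single (fun p q => ?_) (by simp; ring)
  rw [Multiset.singleton_add, fits_cons]
  refine ⟨_, ⟨p, q, Or.inl rfl⟩, ?_, ?_⟩
  · exact Set.prod_mono (Set.Ioo_subset_Ioo le_rfl (by simp; linarith)) subset_rfl
  · rw [← Multiset.cons_zero, fits_cons]
    refine ⟨_, ⟨p + w, q, Or.inl rfl⟩, ?_, fits_zero _⟩
    rintro ⟨z1, z2⟩ ⟨⟨h2, h3⟩, h4⟩
    simp only at h2 h3 h4
    refine ⟨⟨⟨by simp only; linarith, by simp only; linarith⟩, h4⟩, ?_⟩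
    rintro ⟨⟨_, h6⟩, _⟩
    simp only at h6
    linarith

theorem step_cutY {L y h : ℝ} (h0 : 0 ≤ h) (h1 : h ≤ y) :
    Step {(L, y)} ({(L, h)} + {(L, y - h)}) :=
  (step_rot L y).trans ((step_cut h0 h1).trans ((step_rot _ _).add (step_rot _ _)))

theorem fits_of_pairwise {ι : Type} (s : Finset ι) (b : ι → Set (ℝ × ℝ)) (d : ι → ℝ × ℝ) :
    ∀ U : Set (ℝ × ℝ), (∀ i ∈ s, IsBox (b i) (d i) ∧ b i ⊆ U) →
      (∀ i ∈ s, ∀ j ∈ s, i ≠ j → Disjoint (b i) (b j)) →
      Fits U (∑ i ∈ s, ({d i} : Multiset (ℝ × ℝ))) := by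
  classical
  induction s using Finset.induction_on with
  | empty => intro U _ _; simpa using fits_zero U
  | insert a s ha ih =>
    intro U h1 h2
    rw [Finset.sum_insert ha, Multiset.singleton_add, fits_cons]
    refine ⟨b a, (h1 a (Finset.mem_insert_self _ _)).1, (h1 a (Finset.mem_insert_self _ _)).2,
      ih _ (fun i hi => ⟨(h1 i (Finset.mem_insert_of_mem hi)).1, ?_⟩)
        (fun i hi j hj => h2 i (Finset.mem_insert_of_mem hi) j (Finset.mem_insert_of_mem hj))⟩
    have hd := h2 i (Finset.mem_insert_of_mem hi) a (Finset.mem_insert_self _ _)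
      (fun h => ha (h ▸ hi))
    exact Set.subset_sdiff.2 ⟨(h1 i (Finset.mem_insert_of_mem hi)).2, hd⟩

theorem pairwise_of_fits {ι : Type} (s : Finset ι) (d : ι → ℝ × ℝ) :
    ∀ U : Set (ℝ × ℝ), Fits U (∑ i ∈ s, ({d i} : Multiset (ℝ × ℝ))) →
      ∃ b : ι → Set (ℝ × ℝ), (∀ i ∈ s, IsBox (b i) (d i) ∧ b i ⊆ U) ∧
      (∀ i ∈ s, ∀ j ∈ s, i ≠ j → Disjoint (b i) (b j)) := by
  classical
  induction s using Finset.induction_on with
  | empty => intro U _; exact ⟨fun _ => ∅, by simp, by simp⟩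
  | insert a s ha ih =>
    intro U h
    rw [Finset.sum_insert ha, Multiset.singleton_add, fits_cons] at h
    obtain ⟨c, hc, hcU, h⟩ := h
    obtain ⟨b, hb1, hb2⟩ := ih _ h
    have hne : ∀ i ∈ s, Function.update b a c i = b i := fun i hi =>
      Function.update_of_ne (fun h : i = a => ha (h ▸ hi)) _ _
    refine ⟨Function.update b a c, fun i hi => ?_, fun i hi j hj hij => ?_⟩
    · rcases Finset.mem_insert.1 hi with rfl | hi
      · simpa using ⟨hc, hcU⟩
      · rw [hne i hi]; exact ⟨(hb1 i hi).1, (hb1 i hi).2.trans Set.sdiff_subset⟩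
    · rcases Finset.mem_insert.1 hi with rfl | hi' <;> rcases Finset.mem_insert.1 hj with rfl | hj'
      · exact absurd rfl hij
      · rw [hne j hj', Function.update_self]
        exact (Set.subset_sdiff.1 (hb1 j hj').2).2.symm
      · rw [hne i hi', Function.update_self]
        exact (Set.subset_sdiff.1 (hb1 i hi').2).2
      · rw [hne i hi', hne j hj']; exact hb2 i hi' j hj' hij

theorem box_disj {x1 x2 y1 y2 x1' x2' y1' y2' : ℝ}
    (h : x2 ≤ x1' ∨ x2' ≤ x1 ∨ y2 ≤ y1' ∨ y2' ≤ y1) :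
    Disjoint (Set.Ioo x1 x2 ×ˢ Set.Ioo y1 y2) (Set.Ioo x1' x2' ×ˢ Set.Ioo y1' y2') := by
  rw [Set.disjoint_left]
  rintro ⟨z1, z2⟩ ⟨⟨h1, h2⟩, h3, h4⟩ ⟨⟨h5, h6⟩, h7, h8⟩
  simp only at h1 h2 h3 h4 h5 h6 h7 h8
  rcases h with h | h | h | h <;> linarith

theorem mono_of_step {f : ℕ → ℝ} {n : ℕ} (h : ∀ i, i < n → f i ≤ f (i + 1)) :
    ∀ {i j : ℕ}, i ≤ j → j ≤ n → f i ≤ f j := by
  intro i j hij hj
  induction j, hij using Nat.le_induction with
  | base => exact le_rfl
  | succ k hk ih => exact (ih (by omega)).trans (h k (by omega))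

/-- The pinwheel array: `K + 1` columns and `J + 1` rows of cells and `K * J` gaps. -/
theorem step_array (X Y : ℕ → ℕ → ℝ) (K J : ℕ) (W H : ℝ)
    (hX0 : ∀ j, X 0 j = 0) (hXK : ∀ j, X (K + 1) j = W)
    (hY0 : ∀ i, Y i 0 = 0) (hYJ : ∀ i, Y i (J + 1) = H)
    (hXi : ∀ j, j ≤ J → ∀ i, i < K + 1 → X i j ≤ X (i + 1) j)
    (hXj : ∀ i, i ≤ K + 1 → ∀ j, j < J → X i j ≤ X i (j + 1))
    (hYj : ∀ i, i ≤ K → ∀ j, j < J + 1 → Y i j ≤ Y i (j + 1))
    (hYi : ∀ j, j ≤ J + 1 → ∀ i, i < K → Y (i + 1) j ≤ Y i j) :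
    Step {(W, H)}
      ((∑ i ∈ range (K + 1), ∑ j ∈ range (J + 1),
          ({(X (i + 1) j - X i j, Y i (j + 1) - Y i j)} : Multiset (ℝ × ℝ))) +
       (∑ i ∈ range K, ∑ j ∈ range J,
          ({(X (i + 1) (j + 1) - X (i + 1) j, Y i (j + 1) - Y (i + 1) (j + 1))} :
            Multiset (ℝ × ℝ)))) := by
  have mX : ∀ {i j i' j' : ℕ}, i ≤ i' → j ≤ j' → i' ≤ K + 1 → j' ≤ J → X i j ≤ X i' j' := by
    intro i j i' j' h1 h2 h3 h4
    exact (mono_of_step (f := fun i => X i j) (hXi j (by omega)) h1 h3).trans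
      (mono_of_step (f := fun j => X i' j) (hXj i' h3) h2 h4)
  have mY : ∀ {i j i' j' : ℕ}, i' ≤ i → j ≤ j' → i ≤ K → j' ≤ J + 1 → Y i j ≤ Y i' j' := by
    intro i j i' j' h1 h2 h3 h4
    have := mono_of_step (f := fun i => - Y i j') (n := K)
      (fun i hi => neg_le_neg (hYi j' h4 i hi)) h1 h3
    exact (mono_of_step (f := fun j => Y i j) (hYj i h3) h2 h4).trans (by linarith)
  refine step_single (fun x y => ?_) ?_
  · rw [← Finset.sum_product' (f := fun i j =>
        ({(X (i + 1) j - X i j, Y i (j + 1) - Y i j)} : Multiset (ℝ × ℝ))),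
      ← Finset.sum_product' (f := fun i j =>
        ({(X (i + 1) (j + 1) - X (i + 1) j, Y i (j + 1) - Y (i + 1) (j + 1))} :
            Multiset (ℝ × ℝ)))]
    have key := fits_of_pairwise
      ((range (K + 1) ×ˢ range (J + 1)).disjSum (range K ×ˢ range J))
      (Sum.elim
        (fun p => Set.Ioo (x + X p.1 p.2) (x + X (p.1 + 1) p.2) ×ˢ
          Set.Ioo (y + Y p.1 p.2) (y + Y p.1 (p.2 + 1)))
        (fun p => Set.Ioo (x + X (p.1 + 1) p.2) (x + X (p.1 + 1) (p.2 + 1)) ×ˢ
          Set.Ioo (y + Y (p.1 + 1) (p.2 + 1)) (y + Y p.1 (p.2 + 1))))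
      (Sum.elim
        (fun p => (X (p.1 + 1) p.2 - X p.1 p.2, Y p.1 (p.2 + 1) - Y p.1 p.2))
        (fun p => (X (p.1 + 1) (p.2 + 1) - X (p.1 + 1) p.2,
          Y p.1 (p.2 + 1) - Y (p.1 + 1) (p.2 + 1))))
      (Set.Ioo x (x + W) ×ˢ Set.Ioo y (y + H)) ?_ ?_
    · rw [Finset.sum_disjSum] at key
      exact key
    · rintro (⟨i, j⟩ | ⟨i, j⟩) hp
      · simp only [Finset.inl_mem_disjSum, Finset.mem_product, Finset.mem_range] at hp
        refine ⟨⟨x + X i j, y + Y i j, Or.inl ?_⟩, ?_⟩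
        · simp only [Sum.elim_inl]; congr 2 <;> ring
        · simp only [Sum.elim_inl]
          have a1 := mX (i := 0) (j := j) (i' := i) (j' := j) (by omega) le_rfl (by omega) (by omega)
          have a2 := mX (i := i + 1) (j := j) (i' := K + 1) (j' := j) (by omega) le_rfl le_rfl
            (by omega)
          have a3 := mY (i := i) (j := 0) (i' := i) (j' := j) le_rfl (by omega) (by omega) (by omega)
          have a4 := mY (i := i) (j := j + 1) (i' := i) (j' := J + 1) le_rfl (by omega) (by omega)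
            le_rfl
          rw [hX0] at a1; rw [hXK] at a2; rw [hY0] at a3; rw [hYJ] at a4
          exact Set.prod_mono (Set.Ioo_subset_Ioo (by linarith) (by linarith))
            (Set.Ioo_subset_Ioo (by linarith) (by linarith))
      · simp only [Finset.inr_mem_disjSum, Finset.mem_product, Finset.mem_range] at hp
        refine ⟨⟨x + X (i + 1) j, y + Y (i + 1) (j + 1), Or.inl ?_⟩, ?_⟩
        · simp only [Sum.elim_inr]; congr 2 <;> ring
        · simp only [Sum.elim_inr]
          have a1 := mX (i := 0) (j := j) (i' := i + 1) (j' := j) (by omega) le_rfl (by omega)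
            (by omega)
          have a2 := mX (i := i + 1) (j := j + 1) (i' := K + 1) (j' := j + 1) (by omega) le_rfl
            le_rfl (by omega)
          have a3 := mY (i := i + 1) (j := 0) (i' := i + 1) (j' := j + 1) le_rfl (by omega)
            (by omega) (by omega)
          have a4 := mY (i := i) (j := j + 1) (i' := i) (j' := J + 1) le_rfl (by omega) (by omega)
            le_rfl
          rw [hX0] at a1; rw [hXK] at a2; rw [hY0] at a3; rw [hYJ] at a4
          exact Set.prod_mono (Set.Ioo_subset_Ioo (by linarith) (by linarith))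
            (Set.Ioo_subset_Ioo (by linarith) (by linarith))
    · have cg : ∀ i j i' j' : ℕ, i < K + 1 → j < J + 1 → i' < K → j' < J →
          Disjoint (Set.Ioo (x + X i j) (x + X (i + 1) j) ×ˢ
            Set.Ioo (y + Y i j) (y + Y i (j + 1)))
           (Set.Ioo (x + X (i' + 1) j') (x + X (i' + 1) (j' + 1)) ×ˢ
            Set.Ioo (y + Y (i' + 1) (j' + 1)) (y + Y i' (j' + 1))) := by
        intro i j i' j' h1 h2 h3 h4
        apply box_disj
        rcases le_or_gt i i' with hi | hi <;> rcases le_or_gt j j' with hj | hj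
        · exact Or.inl (by have := mX (i := i + 1) (j := j) (i' := i' + 1) (j' := j') (by omega) hj (by omega) (by omega); linarith)
        · exact Or.inr (Or.inr (Or.inr (by have := mY (i := i') (j := j' + 1) (i' := i) (j' := j) hi (by omega) (by omega) (by omega); linarith)))
        · exact Or.inr (Or.inr (Or.inl (by have := mY (i := i) (j := j + 1) (i' := i' + 1) (j' := j' + 1) (by omega) (by omega) (by omega) (by omega); linarith)))
        · exact Or.inr (Or.inl (by have := mX (i := i' + 1) (j := j' + 1) (i' := i) (j' := j) (by omega) (by omega) (by omega) (by omega); linarith))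
      have cc : ∀ i j i' j' : ℕ, i < K + 1 → j < J + 1 → i' < K + 1 → j' < J + 1 →
          (i < i' ∨ (i = i' ∧ j < j')) →
          Disjoint (Set.Ioo (x + X i j) (x + X (i + 1) j) ×ˢ
            Set.Ioo (y + Y i j) (y + Y i (j + 1)))
           (Set.Ioo (x + X i' j') (x + X (i' + 1) j') ×ˢ
            Set.Ioo (y + Y i' j') (y + Y i' (j' + 1))) := by
        intro i j i' j' h1 h2 h3 h4 h5
        apply box_disj
        rcases h5 with hi | ⟨rfl, hj⟩
        · rcases le_or_gt j j' with hj | hj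
          · exact Or.inl (by have := mX (i := i + 1) (j := j) (i' := i') (j' := j') (by omega) hj (by omega) (by omega); linarith)
          · exact Or.inr (Or.inr (Or.inr (by have := mY (i := i') (j := j' + 1) (i' := i) (j' := j) (by omega) (by omega) (by omega) (by omega); linarith)))
        · exact Or.inr (Or.inr (Or.inl (by have := mY (i := i) (j := j + 1) (i' := i) (j' := j') le_rfl (by omega) (by omega) (by omega); linarith)))
      have gg : ∀ i j i' j' : ℕ, i < K → j < J → i' < K → j' < J →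
          (j < j' ∨ (j = j' ∧ i < i')) →
          Disjoint (Set.Ioo (x + X (i + 1) j) (x + X (i + 1) (j + 1)) ×ˢ
            Set.Ioo (y + Y (i + 1) (j + 1)) (y + Y i (j + 1)))
           (Set.Ioo (x + X (i' + 1) j') (x + X (i' + 1) (j' + 1)) ×ˢ
            Set.Ioo (y + Y (i' + 1) (j' + 1)) (y + Y i' (j' + 1))) := by
        intro i j i' j' h1 h2 h3 h4 h5
        apply box_disj
        rcases h5 with hj | ⟨rfl, hi⟩
        · rcases le_or_gt i i' with hi | hi
          · exact Or.inl (by have := mX (i := i + 1) (j := j + 1) (i' := i' + 1) (j' := j') (by omega) (by omega) (by omega) (by omega); linarith)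
          · exact Or.inr (Or.inr (Or.inl (by have := mY (i := i) (j := j + 1) (i' := i' + 1) (j' := j' + 1) (by omega) (by omega) (by omega) (by omega); linarith)))
        · exact Or.inr (Or.inr (Or.inr (by have := mY (i := i') (j := j + 1) (i' := i + 1) (j' := j + 1) (by omega) le_rfl (by omega) (by omega); linarith)))
      rintro (⟨i, j⟩ | ⟨i, j⟩) hp (⟨i', j'⟩ | ⟨i', j'⟩) hp' hne <;>
        simp only [Finset.inl_mem_disjSum, Finset.inr_mem_disjSum, Finset.mem_product,
          Finset.mem_range, Sum.elim_inl, Sum.elim_inr, ne_eq, Sum.inl.injEq, Sum.inr.injEq,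
          Prod.mk.injEq] at hp hp' hne ⊢
      · by_cases h : i < i' ∨ (i = i' ∧ j < j')
        · exact cc _ _ _ _ hp.1 hp.2 hp'.1 hp'.2 h
        · exact (cc _ _ _ _ hp'.1 hp'.2 hp.1 hp.2 (by omega)).symm
      · exact cg _ _ _ _ hp.1 hp.2 hp'.1 hp'.2
      · exact (cg _ _ _ _ hp'.1 hp'.2 hp.1 hp.2).symm
      · by_cases h : j < j' ∨ (j = j' ∧ i < i')
        · exact gg _ _ _ _ hp.1 hp.2 hp'.1 hp'.2 h
        · exact (gg _ _ _ _ hp'.1 hp'.2 hp.1 hp.2 (by omega)).symm
  · simp only [area_add, area_sum, area_single]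
    have abel : ∀ (u D : ℕ → ℝ) (n : ℕ), ∑ j ∈ range (n + 1), u j * (D (j + 1) - D j) =
        u n * D (n + 1) - u 0 * D 0 - ∑ j ∈ range n, (u (j + 1) - u j) * D (j + 1) := by
      intro u D n
      induction n with
      | zero => simp; ring
      | succ n ih => rw [Finset.sum_range_succ, ih, Finset.sum_range_succ]; ring
    have col : ∀ n : ℕ, (∑ i ∈ range (n + 1), ∑ j ∈ range (J + 1),
          (X (i + 1) j - X i j) * (Y i (j + 1) - Y i j)) +
        (∑ i ∈ range n, ∑ j ∈ range J,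
          (X (i + 1) (j + 1) - X (i + 1) j) * (Y i (j + 1) - Y (i + 1) (j + 1))) =
        ∑ j ∈ range (J + 1), X (n + 1) j * (Y n (j + 1) - Y n j) := by
      intro n
      induction n with
      | zero => simp [hX0]
      | succ n ih =>
        rw [Finset.sum_range_succ _ (n + 1), Finset.sum_range_succ (fun i => ∑ j ∈ range J,
          (X (i + 1) (j + 1) - X (i + 1) j) * (Y i (j + 1) - Y (i + 1) (j + 1))) n]
        have e1 := abel (X (n + 1)) (fun j => Y (n + 1) j - Y n j) J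
        simp only [hY0, hYJ, sub_self, mul_zero] at e1
        have e2 : ∑ j ∈ range (J + 1), (X (n + 1 + 1) j - X (n + 1) j) *
            (Y (n + 1) (j + 1) - Y (n + 1) j) =
            ∑ j ∈ range (J + 1), X (n + 1 + 1) j * (Y (n + 1) (j + 1) - Y (n + 1) j) -
            ∑ j ∈ range (J + 1), X (n + 1) j * (Y n (j + 1) - Y n j) -
            ∑ j ∈ range (J + 1), X (n + 1) j *
              (Y (n + 1) (j + 1) - Y n (j + 1) - (Y (n + 1) j - Y n j)) := by
          rw [← Finset.sum_sub_distrib, ← Finset.sum_sub_distrib]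
          exact Finset.sum_congr rfl fun j _ => by ring
        have e3 : ∑ j ∈ range J, (X (n + 1) (j + 1) - X (n + 1) j) *
            (Y n (j + 1) - Y (n + 1) (j + 1)) =
            - ∑ j ∈ range J, (X (n + 1) (j + 1) - X (n + 1) j) *
            (Y (n + 1) (j + 1) - Y n (j + 1)) := by
          rw [← Finset.sum_neg_distrib]
          exact Finset.sum_congr rfl fun j _ => by ring
        rw [e2, e3, e1]
        linarith
    rw [col K]
    simp only [hXK]
    rw [← Finset.mul_sum, Finset.sum_range_sub (fun j => Y K j), hY0, hYJ, sub_zero]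

end Pool.Agent.MP_f14165_co
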