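import Pool.Agent.MP_f14165_co.Summ

set_option autoImplicit false

namespace Pool.Agent.MP_f14165_co
open Finset

def dsum {α : Type} [AddCommMonoid α] (f : ℕ → α) : ℕ → ℕ → α
  | 0, _ => 0
  | n + 1, A => f (A % 2 ^ 72) + dsum f n (A / 2 ^ 72)

section
variable {α : Type} [AddCommMonoid α] {f : ℕ → α}

theorem dsum_zero (f0 : f 0 = 0) (n : ℕ) : dsum f n 0 = 0 := by
  induction n with
  | zero => rfl
  | succ n ih => rw [dsum, Nat.zero_mod, Nat.zero_div, f0, ih, add_zero]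

theorem dsum_scatter (f0 : f 0 = 0) {key : ℕ} (hk : key < 2 ^ 72) (r : ℕ) : ∀ n A, r < n →
    A / 2 ^ (72 * r) % 2 ^ 72 = 0 → dsum f n (A + key * 2 ^ (72 * r)) = dsum f n A + f key := by
  induction r with
  | zero =>
    intro n A hn h
    obtain ⟨n, rfl⟩ : ∃ m, n = m + 1 := ⟨n - 1, by omega⟩
    simp only [Nat.mul_zero, Nat.pow_zero, Nat.div_one, Nat.mul_one] at h ⊢
    rw [dsum, dsum, h, f0, show (A + key) % 2 ^ 72 = key by omega,
      show (A + key) / 2 ^ 72 = A / 2 ^ 72 by omega, zero_add, add_comm]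
  | succ r ih =>
    intro n A hn h
    obtain ⟨n, rfl⟩ : ∃ m, n = m + 1 := ⟨n - 1, by omega⟩
    have e : 2 ^ (72 * (r + 1)) = 2 ^ 72 * 2 ^ (72 * r) := by rw [← pow_add]; congr 1; ring
    rw [e] at h ⊢
    rw [← Nat.div_div_eq_div_mul] at h
    rw [dsum, dsum, show key * (2 ^ 72 * 2 ^ (72 * r)) = 2 ^ 72 * (key * 2 ^ (72 * r)) by ring,
      Nat.add_mul_mod_self_left, Nat.add_mul_div_left _ _ (by positivity), ih n _ (by omega) h,
      add_assoc]

theorem dsum_add (n o : ℕ) : ∀ K, dsum f (o + n) K = dsum f o K + dsum f n (K / 2 ^ (72 * o)) := by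
  induction o with
  | zero => intro K; simp [dsum]
  | succ o ih =>
    intro K
    have e : 2 ^ (72 * (o + 1)) = 2 ^ 72 * 2 ^ (72 * o) := by rw [← pow_add]; congr 1; ring
    rw [show o + 1 + n = (o + n) + 1 by omega, dsum, dsum, ih, e, Nat.div_div_eq_div_mul, add_assoc]

theorem dsum_mod (n : ℕ) : ∀ X, dsum f n (X % 2 ^ (72 * n)) = dsum f n X := by
  induction n with
  | zero => intro X; rfl
  | succ n ih =>
    intro X
    have e : 2 ^ (72 * (n + 1)) = 2 ^ 72 * 2 ^ (72 * n) := by rw [← pow_add]; congr 1; ring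
    rw [dsum, dsum, e, Nat.mod_mul_right_mod, Nat.mod_mul_right_div_self, ih]

theorem sc_snd (f0 : f 0 = 0) {key pos A n : ℕ} {k : ℕ → Bool} (h : C.sc key pos A k = true)
    (hk : key < 2 ^ 72) (hp : pos < n) : ∃ A', dsum f n A' = dsum f n A + f key ∧ k A' = true := by
  simp only [C.sc, C.sc2, b_and, b_eq, n_add, n_shl, n_shr, n_and, n_mul] at h
  rw [and_mask _ 72 C.cM72 rfl] at h
  exact ⟨_, dsum_scatter f0 hk pos n A hp h.1, h.2⟩
end

noncomputable def fI (key : ℕ) : MS := items (key / 2 ^ 19 % 2 ^ 27) (key / 2 ^ 46)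

def sing (P z : ℕ) : ℕ → ℕ := fun p => if p = P then z else 0

def fE (key : ℕ) : ℕ → ℕ :=
  sing (key % 2 ^ 19) (key / 2 ^ 46) +
    sing (key % 2 ^ 19 + 1 + key / 2 ^ 19 % 2) (key / 2 ^ 20 % 2 ^ 26)

theorem fI_zero : fI 0 = 0 := by simp [fI, items_zero]
theorem fE_zero : fE 0 = 0 := by funext p; simp [fE, sing]

theorem fI_enc {r a m : ℕ} (hr : r < 2 ^ 19) (ha : a < 2 ^ 27) :
    fI (r + a * 2 ^ 19 + m * 2 ^ 46) = items a m := by
  unfold fI; congr 1 <;> omega

theorem fE_enc1 {P z : ℕ} (hP : P < 2 ^ 19) (hz : z < 2 ^ 26) :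
    fE (P + z * C.cLu) = sing P z + sing (P + 1) z := by
  have e : C.cLu = 70368745226240 := rfl
  unfold fE; rw [e]; congr 2 <;> omega

theorem fE_enc2 {P e d : ℕ} (hP : P < 2 ^ 19) (hd : d < 2 ^ 26) :
    fE (P + (524288 + d * 2 ^ 20 + e * 2 ^ 46)) = sing P e + sing (P + 2) d := by
  unfold fE; congr 2 <;> omega

noncomputable def UU (c : ℕ → ℕ) (s h : ℕ) : ℝ :=
  ∑ i ∈ range h, ((c (4 * i + s) : ℝ) / 2 ^ 36 + ((c (4 * i + 2) : ℝ) - c (4 * i + 3)) * (wq i - wq h))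

noncomputable def IC (c : ℕ → ℕ) (h1 h2 : ℕ) : ℝ := UU c 0 h2 - UU c 1 h1

theorem UU_add (c c' : ℕ → ℕ) (s h : ℕ) : UU (c + c') s h = UU c s h + UU c' s h := by
  unfold UU
  rw [← Finset.sum_add_distrib]
  refine Finset.sum_congr rfl fun i _ => ?_
  simp only [Pi.add_apply]; push_cast; ring

theorem IC_add (c c' : ℕ → ℕ) (h1 h2 : ℕ) : IC (c + c') h1 h2 = IC c h1 h2 + IC c' h1 h2 := by
  unfold IC; rw [UU_add, UU_add]; ring

theorem IC_zero (h1 h2 : ℕ) : IC 0 h1 h2 = 0 := by simp [IC, UU]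

theorem UU_sing {i σ s : ℕ} (z h : ℕ) (hσ : σ < 4) (hs : s < 2) : UU (sing (4 * i + σ) z) s h =
    if i < h then (if s = σ then (z : ℝ) else 0) / 2 ^ 36 +
      ((if σ = 2 then (z : ℝ) else 0) - (if σ = 3 then (z : ℝ) else 0)) * (wq i - wq h) else 0 := by
  unfold UU
  have a : ∀ j, j ≠ i → ((sing (4 * i + σ) z (4 * j + s) : ℝ) / 2 ^ 36 +
      ((sing (4 * i + σ) z (4 * j + 2) : ℝ) - sing (4 * i + σ) z (4 * j + 3)) * (wq j - wq h)) = 0 := by
    intro j hj
    simp only [sing]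
    rw [if_neg (by omega), if_neg (by omega), if_neg (by omega)]; simp
  split_ifs with h1
  all_goals first
    | rw [Finset.sum_eq_single_of_mem i (Finset.mem_range.2 h1) fun j _ hj => a j hj]
      simp only [sing]
      split_ifs <;> first | omega | simp
    | exact Finset.sum_eq_zero fun j hj => a j (by have := Finset.mem_range.1 hj; omega)

theorem win_hi {su p : ℕ} {x : ℝ} (hp : 0 < p) (h : su * p ^ 3 ≤ C.cQ1) (hx : x * SR ≤ su) :
    x < wq p := by
  have p0 : (0 : ℝ) < p := by exact_mod_cast hp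
  have h1 : (su : ℝ) * p ^ 3 ≤ C.cQ1 := by exact_mod_cast h
  have e : (C.cQ1 : ℝ) = 4100 * SR - 1 := by norm_num [C.cQ1, SR, C.cS]
  rw [wq_pos' hp, lt_div_iff₀ (by positivity)]
  refine lt_of_mul_lt_mul_right ?_ SR_pos.le
  have := mul_le_mul_of_nonneg_right hx (show (0 : ℝ) ≤ p ^ 3 by positivity)
  linarith

theorem win_lo {sl q : ℕ} {x : ℝ} (hq : 0 < q) (h : C.cQ ≤ sl * q ^ 3) (hx : sl ≤ x * SR) :
    wq q ≤ x := by
  have p0 : (0 : ℝ) < q := by exact_mod_cast hq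
  have h1 : (C.cQ : ℝ) ≤ sl * q ^ 3 := by exact_mod_cast h
  have e : (C.cQ : ℝ) = 4100 * SR := by norm_num [C.cQ, SR, C.cS]
  rw [wq_pos' hq, div_le_iff₀ (by positivity)]
  refine le_of_mul_le_mul_right ?_ SR_pos
  have := mul_le_mul_of_nonneg_right hx (show (0 : ℝ) ≤ q ^ 3 by positivity)
  linarith

theorem Sm.win {sl su e d tot pi p q : ℕ} {R : MS} (H : Sm sl su e d tot pi R) (hp : 5800 ≤ p)
    (hq : 0 < q) (h1 : su * p ^ 3 ≤ C.cQ1) (h2 : C.cQ ≤ sl * q ^ 3) :
    WF (wq 5800) R ∧ (∀ s ∈ R, wq q ≤ s.2) ∧ ∀ s ∈ R, s.2 < wq p := by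
  have a1 : ∀ s ∈ R, wq q ≤ s.2 := fun s hs => win_lo hq h2 (H.lo s hs)
  have a2 : ∀ s ∈ R, s.2 < wq p := fun s hs => win_hi (by omega) h1 (H.hi s hs)
  exact ⟨fun s hs => ⟨(wq_pos q).trans_le (a1 s hs), H.wf s hs,
    (a2 s hs).trans_le (wq_anti.antitone hp)⟩, a1, a2⟩

theorem Sm.emit1 {sl su e d tot pi p : ℕ} {R : MS} (H : Sm sl su e d tot pi R) (hp : 5800 ≤ p)
    (h1 : su * p ^ 3 ≤ C.cQ1) (h2 : C.cQ ≤ sl * (p + 1) ^ 3) {g h : ℕ} (hg : g < h) :
    lenI (wq h) (wq g) R ≤ IC (sing (4 * p) tot + sing (4 * p + 1) tot) g h := by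
  obtain ⟨a0, a1, a2⟩ := H.win hp (by omega) h1 h2
  have u1 := UU_sing (i := p) (σ := 0) (s := 0) tot h (by omega) (by omega)
  have u2 := UU_sing (i := p) (σ := 1) (s := 0) tot h (by omega) (by omega)
  have u3 := UU_sing (i := p) (σ := 0) (s := 1) tot g (by omega) (by omega)
  have u4 := UU_sing (i := p) (σ := 1) (s := 1) tot g (by omega) (by omega)
  rw [add_zero] at u1 u3
  rw [IC, UU_add, UU_add, u1, u2, u3, u4]
  norm_num
  split_ifs with c1 c2 c2
  · rw [lenI_hi fun s hs => (wq_anti.antitone c2).trans (a1 s hs)]; simp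
  · refine le_trans (sm_le fun s hs => ?_) (H.tot.trans (by norm_num))
    have := a0 s hs
    split_ifs <;> linarith
  · omega
  · rw [lenI_lo fun s hs => (a2 s hs).trans_le (wq_anti.antitone (by omega))]; simp

theorem Sm.emit2 {sl su e d tot pi p q : ℕ} {R : MS} (H : Sm sl su e d tot pi R) (hp : 5800 ≤ p)
    (hq : p < q) (h1 : su * p ^ 3 ≤ C.cQ1) (h2 : C.cQ ≤ sl * q ^ 3) {g h : ℕ} (hg : g < h) :
    lenI (wq h) (wq g) R ≤ IC (sing (4 * p) e + sing (4 * p + 2) d +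
      (sing (4 * q + 1) e + sing (4 * q + 1 + 2) d)) g h := by
  obtain ⟨a0, a1, a2⟩ := H.win hp (by omega) h1 h2
  have u1 := UU_sing (i := p) (σ := 0) (s := 0) e h (by omega) (by omega)
  have u2 := UU_sing (i := p) (σ := 2) (s := 0) d h (by omega) (by omega)
  have u3 := UU_sing (i := q) (σ := 1) (s := 0) e h (by omega) (by omega)
  have u4 := UU_sing (i := q) (σ := 3) (s := 0) d h (by omega) (by omega)
  have v1 := UU_sing (i := p) (σ := 0) (s := 1) e g (by omega) (by omega)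
  have v2 := UU_sing (i := p) (σ := 2) (s := 1) d g (by omega) (by omega)
  have v3 := UU_sing (i := q) (σ := 1) (s := 1) e g (by omega) (by omega)
  have v4 := UU_sing (i := q) (σ := 3) (s := 1) d g (by omega) (by omega)
  rw [add_zero] at u1 v1
  have key : ∀ lo hi, lo ≤ hi → (lo = wq h ∨ lo = wq q) → (hi = wq g ∨ hi = wq p) →
      lenI (wq h) (wq g) R ≤ e / 2 ^ 36 + d * (hi - lo) := by
    intro lo hi b1 b2 b3
    have : lenI (wq h) (wq g) R ≤ lenI lo hi R := by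
      refine sm_le fun s hs => ?_
      have := a0 s hs; have := a1 s hs; have := a2 s hs
      split_ifs with c1 c2
      · exact le_rfl
      · exact absurd ⟨by rcases b2 with rfl | rfl <;> linarith [c1.1],
          by rcases b3 with rfl | rfl <;> linarith [c1.2]⟩ c2
      · linarith
      · exact le_rfl
    refine this.trans ?_
    rcases b1.eq_or_lt with rfl | b4
    · rw [lenI_self, sub_self, mul_zero, add_zero]; positivity
    · exact H.ch lo hi b4
  rw [IC, UU_add, UU_add, UU_add, UU_add, UU_add, UU_add, add_assoc (4 * q), u1, u2, u3, u4, v1, v2,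
    v3, v4]
  norm_num at key ⊢
  by_cases c1 : p < h
  swap
  · rw [if_neg c1, if_neg c1, if_neg (by omega), if_neg (by omega), if_neg (by omega),
      if_neg (by omega), lenI_lo fun s hs => (a2 s hs).trans_le (wq_anti.antitone (by omega))]
    simp
  by_cases c2 : q < g
  · rw [if_pos c1, if_pos c1, if_pos (by omega), if_pos (by omega), if_pos c2, if_pos c2,
      lenI_hi fun s hs => (wq_anti.antitone c2.le).trans (a1 s hs)]
    linarith
  rw [if_pos c1, if_pos c1, if_neg c2, if_neg c2]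
  split_ifs with c3 c4 c4
  · have := key _ _ (wq_anti.antitone (show g ≤ q by omega)) (Or.inr rfl) (Or.inl rfl); linarith
  · have := key _ _ (wq_anti.antitone hq.le) (Or.inr rfl) (Or.inr rfl); linarith
  · have := key _ _ (wq_anti.antitone hg.le) (Or.inl rfl) (Or.inl rfl); linarith
  · have := key _ _ (wq_anti.antitone c1.le) (Or.inl rfl) (Or.inr rfl); linarith

end Pool.Agent.MP_f14165_co
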