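import Pool.Agent.MP_f14165_co.Book

set_option autoImplicit false

namespace Pool.Agent.MP_f14165_co
open Finset

/-- the data of one batch -/
structure BD where
  (w cap : ℕ → ℝ)
  (u Λ Mu r m0 w0 w1 w2 σ τ e d κ E AR ArO Φ0 l1 l2 : ℝ)
  (b N m a B : ℕ)
  (S0 : MS)

namespace BD
variable (P : BD)

noncomputable def its (k : ℕ) : MS := ∑ i ∈ Ico k P.m, ({item (P.b + i * P.N)} : MS)
noncomputable def pl (k : ℕ) : ℝ := ∑ i ∈ Ico k P.m, 1 / (((P.b + i * P.N : ℕ) : ℝ) + 1)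
noncomputable def gr (k : ℕ) : ℝ := ∑ i ∈ Ico k P.m, (P.w0 - 1 / ((P.b + i * P.N : ℕ) : ℝ))

structure OK : Prop where
  hw : StrictAnti P.w
  hw0 : ∀ h, 0 < P.w h
  hlim : ∀ x, 0 < x → ∃ H, P.w H ≤ x
  hu : 1 / 2 ≤ P.u
  hu1 : P.u < 1
  hΛ : 0 < P.Λ
  hMu : P.Mu < P.Λ * Real.log (2 * P.u)
  h21 : P.w2 < P.w1
  h20 : P.w2 ≤ P.w0
  hN : 0 < P.N
  ha : 0 < P.a
  hab : P.a ≤ P.b
  hB : P.b + P.m * P.N ≤ P.B
  hσ0 : 0 < P.σ
  hσ : P.σ ≤ P.w2 - 1 / (P.a : ℝ)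
  hτ : P.w0 - 1 / (P.B : ℝ) ≤ P.τ
  hτB : P.τ ≤ 1 / (P.B : ℝ)
  he : 1 / (P.a : ℝ) ≤ P.e
  hd : (P.B : ℝ) / P.N ≤ P.d
  hκ0 : 0 ≤ P.κ
  hκ : P.τ ≤ P.κ * P.w2
  hbook : ∀ h, P.w (h + 1) ≤ P.u * P.w0 → (1 - P.u) * P.σ < P.w h →
    P.Λ * Real.log (P.w h / P.w (h + 1)) + 2 * P.w0 ≤ P.cap h
  huw : P.u * P.w0 ≤ P.w2
  hr : 2 ≤ P.r
  hE : ∀ x, 0 ≤ x → x ≤ P.m0 → x ^ 2 ≤ 1 / (P.a : ℝ) → x ≤ P.E
  hup : area P.S0 + P.ArO ≤ 1 / (P.a : ℝ)
  hlo : 1 / (P.B : ℝ) ≤ area P.S0 + P.ArO - area (P.its 0)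
  hO0 : 0 ≤ P.ArO
  hO : P.ArO ≤ P.AR
  hmain : 4 * P.r * P.w2 ^ 2 ≤ 1 / (P.B : ℝ) - P.AR - P.w2 * P.Mu
  hΦ : P.Φ0 + 3 * P.gr 0 ≤ P.Mu

structure EOK (k : ℕ) (Y : ℝ) (E : MS) : Prop where
  hY1 : P.w2 ≤ Y
  hY2 : Y ≤ P.w0
  hE : ∀ s ∈ E, P.w2 ≤ s.2 ∧ s.2 ≤ Y ∧ s.2 ≤ s.1
  h1 : lenGe P.w1 E ≤ max 0 (P.l1 - P.pl k)
  h2 : len E ≤ max P.E (P.l2 - P.pl k)

structure Mid (k : ℕ) (M1 M2 Y : ℝ) (ER EI Ch J : MS) : Prop where
  step : Step P.S0 (P.its k + {(M1, M2)} + (ER + EI) + Ch + J)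
  eok : P.EOK k Y (ER + EI)
  chw : WF P.w2 Ch
  chl : ∀ s ∈ Ch, s.1 ≤ P.w2
  chain : Chain (Y - 1 / ((P.b + k * P.N : ℕ) : ℝ)) P.τ P.e P.d Ch
  jw : WF P.w2 J
  jc : Capped P.w P.cap J
  pot : 3 * (M1 + M2) + 3 * thin ER + (len EI + (1 + P.κ) * thin EI) + 3 * thin Ch +
    (len J + thin J) ≤ P.Φ0 + 3 * P.gr k
  m1 : 0 < M1
  m2 : 0 < M2
  r1 : M1 ≤ P.r * M2
  r2 : M2 ≤ P.r * M1
  mm : min M1 M2 ≤ P.m0

variable {P}

theorem OK.w2pos (H : P.OK) : 0 < P.w2 := by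
  have := H.hσ; have := H.hσ0
  have : (0 : ℝ) < 1 / (P.a : ℝ) := by have := H.ha; positivity
  linarith

theorem OK.inv_le (H : P.OK) (i : ℕ) : 1 / ((P.b + i * P.N : ℕ) : ℝ) ≤ 1 / (P.a : ℝ) := by
  have h1 : (0 : ℝ) < P.a := by exact_mod_cast H.ha
  refine one_div_le_one_div_of_le h1 ?_
  have : P.a ≤ P.b + i * P.N := H.hab.trans (Nat.le_add_right _ _)
  exact_mod_cast this

theorem OK.le_inv (H : P.OK) {i : ℕ} (hi : i ≤ P.m) :
    1 / (P.B : ℝ) ≤ 1 / ((P.b + i * P.N : ℕ) : ℝ) := by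
  have h0 : 0 < P.b + i * P.N := lt_of_lt_of_le H.ha (H.hab.trans (Nat.le_add_right _ _))
  refine one_div_le_one_div_of_le (by exact_mod_cast h0) ?_
  have : P.b + i * P.N ≤ P.B := le_trans (Nat.add_le_add_left (Nat.mul_le_mul_right _ hi) _) H.hB
  exact_mod_cast this

theorem OK.gr_le (H : P.OK) (k : ℕ) : P.gr k ≤ P.gr 0 := by
  refine Finset.sum_le_sum_of_subset_of_nonneg (Finset.Ico_subset_Ico (Nat.zero_le _) le_rfl) ?_
  intro i _ _
  have := H.inv_le i; have := H.hσ; have := H.hσ0; have := H.h20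
  linarith

theorem area_item (j : ℕ) : 0 ≤ area {item j} := by
  simp only [area_single, item]; positivity

theorem OK.its_le (k : ℕ) : 0 ≤ area (P.its k) ∧ area (P.its k) ≤ area (P.its 0) := by
  simp only [its, area_sum]
  exact ⟨Finset.sum_nonneg fun i _ => area_item _,
    Finset.sum_le_sum_of_subset_of_nonneg (Finset.Ico_subset_Ico (Nat.zero_le _) le_rfl)
      fun i _ _ => area_item _⟩

theorem Mid.swap {k : ℕ} {M1 M2 Y : ℝ} {ER EI Ch J : MS} (h : P.Mid k M1 M2 Y ER EI Ch J) :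
    P.Mid k M2 M1 Y ER EI Ch J :=
  { h with
    step := h.step.trans
      (((((step_rot M1 M2).add_left _).add_right _).add_right _).add_right _)
    pot := by have := h.pot; linarith
    m1 := h.m2
    m2 := h.m1
    r1 := h.r2
    r2 := h.r1
    mm := by rw [min_comm]; exact h.mm }

theorem area_nonneg_wf {t : ℝ} {M : MS} (h : WF t M) : 0 ≤ area M :=
  sm_nonneg fun s hs => by have := h s hs; nlinarith

theorem Mid.fill (H : P.OK) {k : ℕ} {M1 M2 Y : ℝ} {Ch J : MS}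
    (h : P.Mid k M1 M2 Y 0 0 Ch J) (hM : M2 ≤ M1) :
    P.Mid k (M1 - P.w2) M2 Y {(M2, P.w2)} 0 Ch J := by
  have hw2 := H.w2pos
  have ha := h.step.2
  simp only [area_add, area_single, area_zero] at ha
  have hp := h.pot
  simp only [thin, len, sm_zero] at hp
  have c1 : area Ch ≤ P.w2 * thin Ch := by
    rw [area_eq_sm, thin, ← sm_mul]
    exact sm_le fun s hs => by have := h.chw s hs; have := h.chl s hs; nlinarith
  have c2 : area J ≤ P.w2 * len J := by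
    rw [area_eq_sm, len, ← sm_mul]
    exact sm_le fun s hs => by have := h.jw s hs; nlinarith
  have c3 := thin_nonneg h.chw
  have c4 := thin_nonneg h.jw
  have c5 := H.gr_le k
  have c6 := H.hΦ
  have c7 := h.m1
  have c8 := h.m2
  have c9 : thin Ch + len J ≤ P.Mu := by simp only [thin, len] at *; linarith
  have c10 := OK.its_le (P := P) k
  have c11 : 4 * P.r * P.w2 ^ 2 ≤ M1 * M2 := by
    have := H.hmain; have := H.hlo; have := H.hO
    nlinarith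
  have c12 : M1 * M2 ≤ 1 / (P.a : ℝ) := by
    have := H.hup; have := H.hO0
    have := area_nonneg_wf h.chw; have := area_nonneg_wf h.jw
    linarith
  have hr := H.hr
  have c13 : 2 * P.w2 ≤ M2 := by
    have := h.r1
    have h4 : P.r * (2 * P.w2) ^ 2 ≤ P.r * M2 ^ 2 := by nlinarith
    have h5 := le_of_mul_le_mul_left h4 (by linarith)
    exact le_of_sq_le_sq h5 c8.le
  have c14 : M2 ≤ P.E := H.hE M2 c8.le (by have := h.mm; rwa [min_eq_right hM] at this)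
    (by nlinarith)
  refine { h with step := ?_, eok := ?_, pot := ?_, m1 := by linarith, r1 := ?_, r2 := ?_,
                  mm := ?_ }
  · refine h.step.trans (Step.add_right (Step.add_right ?_ _) _)
    simp only [add_zero]
    rw [add_assoc]
    refine Step.add_left ?_ _
    refine (step_cut hw2.le (by linarith)).trans ?_
    rw [add_comm]
    exact (step_rot _ _).add_left _
  · refine ⟨h.eok.hY1, h.eok.hY2, ?_, ?_, ?_⟩
    · intro s hs
      simp only [add_zero, Multiset.mem_singleton] at hs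
      subst hs
      exact ⟨le_rfl, h.eok.hY1, by simp only; linarith⟩
    · simp only [add_zero, lenGe, sm_single]
      rw [if_neg (not_le.2 H.h21)]
      exact le_max_left _ _
    · simp only [add_zero, len, sm_single]
      exact c14.trans (le_max_left _ _)
  · simp only [thin, len, sm_zero, sm_single]; linarith
  · have := h.r1; linarith
  · nlinarith
  · exact (min_le_right _ _).trans (by have := h.mm; rwa [min_eq_right hM] at this)

theorem pl_succ {k : ℕ} (hk : k < P.m) :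
    P.pl k = 1 / (((P.b + k * P.N : ℕ) : ℝ) + 1) + P.pl (k + 1) := by
  simp only [pl]; rw [Finset.sum_eq_sum_Ico_succ_bot hk]
theorem gr_succ {k : ℕ} (hk : k < P.m) :
    P.gr k = (P.w0 - 1 / ((P.b + k * P.N : ℕ) : ℝ)) + P.gr (k + 1) := by
  simp only [gr]; rw [Finset.sum_eq_sum_Ico_succ_bot hk]
theorem its_succ {k : ℕ} (hk : k < P.m) :
    P.its k = {item (P.b + k * P.N)} + P.its (k + 1) := by
  simp only [its]; rw [Finset.sum_eq_sum_Ico_succ_bot hk]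

theorem EOK.next {k : ℕ} (hk : k < P.m) {Y L y L' : ℝ} {E E' : MS}
    (h : P.EOK (k + 1) Y ((L, y) ::ₘ E)) (hmax : ∀ s ∈ E, s.2 ≤ y)
    (hL' : L' = L - 1 / (((P.b + k * P.N : ℕ) : ℝ) + 1)) (hL0 : 0 ≤ L')
    (hE' : E' = E ∨ (y ≤ L' ∧ E' = (L', y) ::ₘ E)) : P.EOK k y E' := by
  have h0 := h.hE (L, y) (Multiset.mem_cons_self _ _)
  simp only at h0
  have hδ : 0 ≤ 1 / (((P.b + k * P.N : ℕ) : ℝ) + 1) := by positivity
  have hp := pl_succ (P := P) hk
  have hE : ∀ s ∈ E', P.w2 ≤ s.2 ∧ s.2 ≤ y ∧ s.2 ≤ s.1 := by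
    intro s hs
    have : s ∈ E ∨ (s = (L', y) ∧ y ≤ L') := by
      rcases hE' with rfl | ⟨h1, rfl⟩
      · exact Or.inl hs
      · rcases Multiset.mem_cons.1 hs with h2 | h2
        · exact Or.inr ⟨h2, h1⟩
        · exact Or.inl h2
    rcases this with h1 | ⟨rfl, h1⟩
    · have := h.hE s (Multiset.mem_cons_of_mem h1)
      exact ⟨this.1, hmax s h1, this.2.2⟩
    · exact ⟨h0.1, le_rfl, h1⟩
  refine ⟨h0.1, h0.2.1.trans h.hY2, hE, ?_, ?_⟩
  · by_cases hy : P.w1 ≤ y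
    · have h1 := h.h1
      have h2 : lenGe P.w1 E' ≤ lenGe P.w1 ((L, y) ::ₘ E) -
          1 / (((P.b + k * P.N : ℕ) : ℝ) + 1) := by
        rcases hE' with rfl | ⟨_, rfl⟩ <;> simp only [lenGe, sm_cons, if_pos hy] <;> linarith
      rcases le_max_iff.1 h1 with h3 | h3
      · exact le_max_of_le_left (by linarith)
      · exact le_max_of_le_right (by linarith)
    · refine le_max_of_le_left (le_of_eq (sm_eq_zero fun s hs => if_neg ?_))
      have := (hE s hs).2.1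
      intro h3; exact hy (h3.trans this)
  · have h1 := h.h2
    have h2 : len E' ≤ len ((L, y) ::ₘ E) - 1 / (((P.b + k * P.N : ℕ) : ℝ) + 1) := by
      rcases hE' with rfl | ⟨_, rfl⟩ <;> simp only [len, sm_cons] <;> linarith
    rcases le_max_iff.1 h1 with h3 | h3
    · exact le_max_of_le_left (by linarith)
    · exact le_max_of_le_right (by linarith)

theorem Mid.lenJ (H : P.OK) {k : ℕ} {M1 M2 Y : ℝ} {ER EI Ch J : MS}
    (h : P.Mid k M1 M2 Y ER EI Ch J) : len J ≤ P.Mu := by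
  have hw2 := H.w2pos
  have a1 : 0 ≤ thin ER := sm_nonneg fun s hs => by
    have := h.eok.hE s (Multiset.mem_add.2 (Or.inl hs)); linarith
  have a2 : 0 ≤ thin EI := sm_nonneg fun s hs => by
    have := h.eok.hE s (Multiset.mem_add.2 (Or.inr hs)); linarith
  have a3 : 0 ≤ len EI := sm_nonneg fun s hs => by
    have := h.eok.hE s (Multiset.mem_add.2 (Or.inr hs)); linarith
  have a4 := thin_nonneg h.chw
  have a5 := thin_nonneg h.jw
  have a6 := h.pot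
  have a7 := H.gr_le k
  have a8 := H.hΦ
  have a9 := H.hκ0
  have := h.m1; have := h.m2
  nlinarith

/-- placing one item into the hole `(L, y)` -/
theorem Mid.place (H : P.OK) {k : ℕ} (hk : k < P.m) {M1 M2 Y L y : ℝ} {ER EI Ch J E : MS}
    (h : P.Mid (k + 1) M1 M2 Y ER EI Ch J) (hE : ER + EI = (L, y) ::ₘ E)
    (hmax : ∀ s ∈ E, s.2 ≤ y) :
    ∃ L' Ch', WF P.w2 Ch' ∧ (∀ s ∈ Ch', s.1 ≤ P.w2) ∧
      Chain (y - 1 / ((P.b + k * P.N : ℕ) : ℝ)) P.τ P.e P.d Ch' ∧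
      thin Ch' ≤ thin Ch + (P.w0 - 1 / ((P.b + k * P.N : ℕ) : ℝ)) ∧ L' ≤ L ∧
      ((y ≤ L' ∧ P.EOK k y ((L', y) ::ₘ E) ∧
          Step P.S0 (P.its k + {(M1, M2)} + ((L', y) ::ₘ E) + Ch' + J)) ∨
       (∃ J', P.EOK k y E ∧ Step P.S0 (P.its k + {(M1, M2)} + E + Ch' + J') ∧ WF P.w2 J' ∧
          Capped P.w P.cap J' ∧ len J' + thin J' ≤ len J + thin J + 3 * y ∧
          len J' + thin J' ≤ len J + thin J + (L + (1 + P.κ) * y))) := by
  have eok := h.eok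
  rw [hE] at eok
  have h0 := eok.hE (L, y) (Multiset.mem_cons_self _ _)
  simp only at h0
  obtain ⟨y1, y2, y3⟩ := h0
  have y4 := eok.hY2
  set j := P.b + k * P.N with hj
  have hj0 : 0 < j := lt_of_lt_of_le H.ha (H.hab.trans (Nat.le_add_right _ _))
  have hjr : (0 : ℝ) < j := by exact_mod_cast hj0
  have hN : (1 : ℝ) ≤ P.N := by exact_mod_cast H.hN
  have i1 : 1 / (j : ℝ) ≤ 1 / (P.a : ℝ) := H.inv_le k
  have i2 : 1 / ((j : ℝ) + 1) ≤ 1 / (j : ℝ) := one_div_le_one_div_of_le hjr (by linarith)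
  have ej : ((P.b + (k + 1) * P.N : ℕ) : ℝ) = (j : ℝ) + P.N := by rw [hj]; push_cast; ring
  have hjB : (j : ℝ) + P.N ≤ P.B := by
    rw [← ej]
    have : P.b + (k + 1) * P.N ≤ P.B :=
      le_trans (Nat.add_le_add_left (Nat.mul_le_mul_right _ hk) _) H.hB
    exact_mod_cast this
  have i3 : 1 / (P.B : ℝ) ≤ 1 / ((j : ℝ) + 1) :=
    one_div_le_one_div_of_le (by linarith) (by linarith)
  have i4 : 1 / ((j : ℝ) + P.N) ≤ 1 / (j : ℝ) := one_div_le_one_div_of_le hjr (by linarith)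
  have s0 := H.hσ0; have s1 := H.hσ; have t1 := H.hτ; have t2 := H.hτB
  have hd0 : 0 ≤ P.d := le_trans (by positivity) H.hd
  have he0 : 0 ≤ P.e := le_trans (by positivity) H.he
  have hw2 := H.w2pos
  have st : Step P.S0 (P.its k + {(M1, M2)} + ((L - 1 / ((j : ℝ) + 1), y) ::ₘ E) +
      ((1 / ((j : ℝ) + 1), y - 1 / (j : ℝ)) ::ₘ Ch) + J) := by
    refine h.step.trans ?_
    rw [hE, its_succ hk, ← Multiset.singleton_add]
    have := (step_place (L := L) (y := y) hj0 (by linarith) (by linarith)).add_right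
      (P.its (k + 1) + {(M1, M2)} + E + Ch + J)
    refine (Step.of_eq ?_).trans (this.trans (Step.of_eq ?_))
    · abel
    · simp only [← Multiset.singleton_add]; abel
  refine ⟨L - 1 / ((j : ℝ) + 1), (1 / ((j : ℝ) + 1), y - 1 / (j : ℝ)) ::ₘ Ch, ?_, ?_, ?_, ?_,
    by have : 0 ≤ 1 / ((j : ℝ) + 1) := by positivity
       linarith, ?_⟩
  · exact WF.cons ⟨by simp only; linarith, by simp only; linarith, by simp only; linarith⟩ h.chw
  · intro s hs
    rcases Multiset.mem_cons.1 hs with rfl | hs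
    · simp only; linarith
    · exact h.chl s hs
  · have hc := h.chain
    rw [ej] at hc
    refine hc.cons (by linarith) (by linarith) he0 hd0 (by have := H.he; linarith) ?_
    have g1 : 1 / (j : ℝ) - 1 / ((j : ℝ) + P.N) = P.N / (j * (j + P.N)) := by
      field_simp; ring
    have g2 : 1 / (j : ℝ) ≤ P.d * (1 / (j : ℝ) - 1 / ((j : ℝ) + P.N)) := by
      rw [g1]
      have g3 : ((j : ℝ) + P.N) / P.N ≤ P.d :=
        le_trans (div_le_div_of_nonneg_right hjB (by linarith)) H.hd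
      calc 1 / (j : ℝ) = ((j : ℝ) + P.N) / P.N * (P.N / (j * (j + P.N))) := by field_simp
        _ ≤ _ := mul_le_mul_of_nonneg_right g3 (by positivity)
    have g4 : P.d * (1 / (j : ℝ) - 1 / ((j : ℝ) + P.N)) ≤
        P.d * (Y - 1 / ((j : ℝ) + P.N) - (y - 1 / (j : ℝ))) :=
      mul_le_mul_of_nonneg_left (by linarith) hd0
    linarith
  · simp only [thin, sm_cons]; linarith
  · by_cases hL : y ≤ L - 1 / ((j : ℝ) + 1)
    · exact Or.inl ⟨hL, eok.next hk hmax rfl (by linarith) (Or.inr ⟨hL, rfl⟩), st⟩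
    · right
      push Not at hL
      have hx : P.σ ≤ L - 1 / ((j : ℝ) + 1) := by linarith
      have hu := H.hu; have hu1 := H.hu1
      have hux : P.u * (L - 1 / ((j : ℝ) + 1)) < P.u * P.w0 :=
        mul_lt_mul_of_pos_left (by linarith) (by linarith)
      obtain ⟨J', b1, b2, b3, b4⟩ := book (a := y) (x := L - 1 / ((j : ℝ) + 1)) H.hw H.hw0 H.hlim
        H.hu H.hu1 H.hΛ H.hMu h.jw h.jc (h.lenJ H) (by linarith) hL.le
        (fun g g1 g2 => by
          have := H.hbook g (by linarith) (by nlinarith)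
          linarith)
        (hux.trans_le H.huw)
      refine ⟨J', eok.next hk hmax rfl (by linarith) (Or.inl rfl), ?_, b2, b3, by linarith, ?_⟩
      · refine st.trans ?_
        have := ((step_rot (L - 1 / ((j : ℝ) + 1)) y).add_right J).trans b1 |>.add_left
          (P.its k + {(M1, M2)} + E + ((1 / ((j : ℝ) + 1), y - 1 / (j : ℝ)) ::ₘ Ch))
        refine (Step.of_eq ?_).trans this
        simp only [← Multiset.singleton_add]; abel
      · have := H.hκ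
        have : P.κ * P.w2 ≤ P.κ * y := mul_le_mul_of_nonneg_left y1 H.hκ0
        linarith

theorem Mid.next_ne (H : P.OK) {k : ℕ} (hk : k < P.m) {M1 M2 Y : ℝ} {ER EI Ch J : MS}
    (h : P.Mid (k + 1) M1 M2 Y ER EI Ch J) (hne : ER + EI ≠ 0) :
    ∃ Y' ER' EI' Ch' J', P.Mid k M1 M2 Y' ER' EI' Ch' J' := by
  classical
  obtain ⟨⟨L, y⟩, hs, hmax⟩ := Multiset.exists_max_image (s := ER + EI) Prod.snd hne
  have hg := gr_succ (P := P) hk
  have hp := h.pot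
  rcases Multiset.mem_add.1 hs with hs | hs
  · obtain ⟨R, rfl⟩ := Multiset.exists_cons_of_mem hs
    have hE : (L, y) ::ₘ R + EI = (L, y) ::ₘ (R + EI) := Multiset.cons_add _ _ _
    obtain ⟨L', Ch', c1, c2, c3, c4, c5, ⟨d1, d2, d3⟩ | ⟨J', d1, d2, d3, d4, d5, d6⟩⟩ :=
      h.place H hk hE (fun s hs => hmax s (hE ▸ Multiset.mem_cons_of_mem hs))
    · refine ⟨y, (L', y) ::ₘ R, EI, Ch', J, by rwa [Multiset.cons_add], by rwa [Multiset.cons_add],
        c1, c2, c3, h.jw, h.jc, ?_, h.m1, h.m2, h.r1, h.r2, h.mm⟩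
      simp only [thin, len, sm_cons] at *; linarith
    · refine ⟨y, R, EI, Ch', J', d2, d1, c1, c2, c3, d3, d4, ?_, h.m1, h.m2, h.r1, h.r2, h.mm⟩
      simp only [thin, len, sm_cons] at *; linarith
  · obtain ⟨R, rfl⟩ := Multiset.exists_cons_of_mem hs
    have hE : ER + (L, y) ::ₘ R = (L, y) ::ₘ (ER + R) := Multiset.add_cons _ _ _
    obtain ⟨L', Ch', c1, c2, c3, c4, c5, ⟨d1, d2, d3⟩ | ⟨J', d1, d2, d3, d4, d5, d6⟩⟩ :=
      h.place H hk hE (fun s hs => hmax s (hE ▸ Multiset.mem_cons_of_mem hs))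
    · refine ⟨y, ER, (L', y) ::ₘ R, Ch', J, by rwa [Multiset.add_cons], by rwa [Multiset.add_cons],
        c1, c2, c3, h.jw, h.jc, ?_, h.m1, h.m2, h.r1, h.r2, h.mm⟩
      simp only [thin, len, sm_cons] at *; linarith
    · refine ⟨y, ER, R, Ch', J', d2, d1, c1, c2, c3, d3, d4, ?_, h.m1, h.m2, h.r1, h.r2, h.mm⟩
      simp only [thin, len, sm_cons] at *; linarith

theorem Mid.next (H : P.OK) {k : ℕ} (hk : k < P.m) {M1 M2 Y : ℝ} {ER EI Ch J : MS}
    (h : P.Mid (k + 1) M1 M2 Y ER EI Ch J) :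
    ∃ M1' M2' Y' ER' EI' Ch' J', P.Mid k M1' M2' Y' ER' EI' Ch' J' := by
  by_cases hne : ER + EI = 0
  · obtain ⟨rfl, rfl⟩ := add_eq_zero.1 hne
    rcases le_total M2 M1 with hM | hM
    · obtain ⟨_, _, _, _, _, h'⟩ := (h.fill H hM).next_ne H hk (by simp)
      exact ⟨_, _, _, _, _, _, _, h'⟩
    · obtain ⟨_, _, _, _, _, h'⟩ := (h.swap.fill H hM).next_ne H hk (by simp)
      exact ⟨_, _, _, _, _, _, _, h'⟩
  · obtain ⟨_, _, _, _, _, h'⟩ := h.next_ne H hk hne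
    exact ⟨_, _, _, _, _, _, _, h'⟩

theorem Mid.run (H : P.OK) : ∀ {k : ℕ}, k ≤ P.m → ∀ {M1 M2 Y : ℝ} {ER EI Ch J : MS},
    P.Mid k M1 M2 Y ER EI Ch J →
    ∃ M1' M2' Y' ER' EI' Ch' J', P.Mid 0 M1' M2' Y' ER' EI' Ch' J' := by
  intro k
  induction k with
  | zero => intro _ _ _ _ _ _ _ _ h; exact ⟨_, _, _, _, _, _, _, h⟩
  | succ k ih =>
    intro hk _ _ _ _ _ _ _ h
    obtain ⟨_, _, _, _, _, _, _, h'⟩ := h.next H hk
    exact ih (Nat.le_of_succ_le hk) h'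

end BD
end Pool.Agent.MP_f14165_co
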