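import Pool.Agent.MP_f14165_co.Enc

set_option autoImplicit false

namespace Pool.Agent.MP_f14165_co
open Finset

noncomputable def items (a m : ℕ) : MS := ∑ j ∈ Ico a (a + m), ({item j} : MS)

theorem items_zero (a : ℕ) : items a 0 = 0 := by simp [items]

theorem items_add (a m n : ℕ) : items a (m + n) = items a m + items (a + m) n := by
  unfold items
  rw [Finset.sum_Ico_consecutive _ (by omega) (by omega), add_assoc]

theorem items_one (a : ℕ) : items a 1 = {item a} := by simp [items]

theorem items_two (a : ℕ) : items a 2 = {item a} + {item (a + 1)} := by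
  rw [show 2 = 1 + 1 from rfl, items_add, items_one, items_one]

theorem items_mul (a c n : ℕ) : ∑ j ∈ range n, items (a + c * j) c = items a (c * n) := by
  induction n with
  | zero => simp [items_zero]
  | succ n ih => rw [Finset.sum_range_succ, ih, Nat.mul_succ, items_add]

noncomputable def bH (a o n t : ℕ) : ℝ :=
  if o ≠ 0 ∧ t + 1 = n then 1 / ((a + 2 * t : ℕ) : ℝ) else vR (a + 2 * t)
noncomputable def famH (a o n : ℕ) (y : ℝ) : MS :=
  ∑ t ∈ range n, ({(bH a o n t, y - 1 / (((a + 2 * t : ℕ) : ℝ) + 1))} : MS)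
noncomputable def famA (a J n : ℕ) (y : ℝ) : MS :=
  ∑ t ∈ range n, ({(1 / ((a + 2 * J * t + 2 * J - 1 : ℕ) : ℝ), y - cH (a + 2 * J * t) J)} : MS)
noncomputable def gX (b j n : ℕ) : ℝ := Hs (b + j + 1) n j - Hs (b + j + 3) n j
noncomputable def gY (b j l : ℕ) : ℝ := cH b l - cH (b + j) l
noncomputable def gapC (b J n : ℕ) : MS :=
  ∑ l ∈ range (J - 1), ({(gX (b + 2 * l) (2 * J) n, gY b (2 * J) (l + 1))} : MS)
noncomputable def gapS (a J K i : ℕ) : MS :=
  ∑ r ∈ range i, gapC (a + 2 * J * r) J (K - (r + 1))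

theorem famH_succ (a o t : ℕ) (y : ℝ) : famH a o (t + 1) y = famH a 0 t y +
    {(if o ≠ 0 then 1 / ((a + 2 * t : ℕ) : ℝ) else vR (a + 2 * t),
      y - 1 / (((a + 2 * t : ℕ) : ℝ) + 1))} := by
  unfold famH
  rw [Finset.sum_range_succ]
  congr 1
  · refine Finset.sum_congr rfl fun r hr => ?_
    have := Finset.mem_range.1 hr
    simp only [bH]
    rw [if_neg (by omega), if_neg (by omega)]
  · simp [bH]

theorem step_rowH0 {a : ℕ} (ha : 0 < a) {L y : ℝ} (hy : 1 / ((a : ℝ) + 1) ≤ y) (n : ℕ)
    (o : ℕ) (ho : o ≤ 1)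
    (h : cH a n + (if o ≠ 0 then 1 / ((a + 2 * n : ℕ) : ℝ) else vR (a + 2 * n)) ≤ L) :
    Step {(L, y)} (items a (2 * n + 2 - o) + famH a o (n + 1) y +
      {(L - (cH a n + (if o ≠ 0 then 1 / ((a + 2 * n : ℕ) : ℝ) else vR (a + 2 * n))), y)}) := by
  have one : ∀ (n o : ℕ) (L : ℝ), o ≤ 1 →
      (if o ≠ 0 then 1 / ((a + 2 * n : ℕ) : ℝ) else vR (a + 2 * n)) ≤ L →
      Step {(L, y)} (items (a + 2 * n) (2 - o) +
        {(if o ≠ 0 then 1 / ((a + 2 * n : ℕ) : ℝ) else vR (a + 2 * n),
          y - 1 / (((a + 2 * n : ℕ) : ℝ) + 1))} +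
        {(L - (if o ≠ 0 then 1 / ((a + 2 * n : ℕ) : ℝ) else vR (a + 2 * n)), y)}) := by
    intro n o L ho h
    have a0 : (0 : ℝ) < a := by exact_mod_cast ha
    have x1 : (a : ℝ) ≤ ((a + 2 * n : ℕ) : ℝ) := by exact_mod_cast Nat.le_add_right _ _
    generalize a + 2 * n = x at *
    have h1 : 1 / ((x : ℝ) + 1) ≤ y :=
      (one_div_le_one_div_of_le (by linarith) (by linarith)).trans hy
    have x0 : (0 : ℝ) < x := by linarith
    interval_cases o
    · simp only [ne_eq, not_true_eq_false, if_false] at h ⊢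
      refine (step_cut (by unfold vR; positivity) h).trans (Step.add_right ?_ _)
      refine (step_cutY (by positivity) h1).trans (Step.add_right ?_ _)
      have h2 : 1 / (x : ℝ) ≤ vR x := by
        unfold vR; linarith [show 0 < 1 / ((x : ℝ) + 2) by positivity]
      refine (step_cut (by positivity) h2).trans ?_
      rw [Nat.sub_zero, items_two]
      refine Step.add_left ((step_rot _ _).trans (Step.of_eq ?_)) _
      simp only [item, vR]; push_cast
      congr 2; ring
    · simp only [ne_eq, one_ne_zero, not_false_eq_true, if_true] at h ⊢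
      refine (step_cut (by positivity) h).trans (Step.add_right ?_ _)
      rw [show 2 - 1 = 1 from rfl, items_one]
      exact step_cutY (by positivity) h1
  induction n generalizing o L with
  | zero =>
    have := one 0 o L ho (by simpa [cH] using h)
    rw [famH_succ]
    simpa [cH, famH] using this
  | succ n ih =>
    have p : 0 ≤ (if o ≠ 0 then 1 / ((a + 2 * (n + 1) : ℕ) : ℝ) else vR (a + 2 * (n + 1))) := by
      split_ifs
      · positivity
      · exact (vR_pos (by omega)).le
    have i1 := ih (L := L) 0 (by omega) (by simp only [ne_eq, not_true_eq_false, if_false]; linarith [cH_succ a n])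
    simp only [ne_eq, not_true_eq_false, if_false, ← cH_succ] at i1
    have i2 := one (n + 1) o (L - cH a (n + 1)) ho (by linarith)
    refine i1.trans ((i2.add_left _).trans (Step.of_eq ?_))
    rw [famH_succ a o (n + 1), show 2 * (n + 1) + 2 - o = 2 * (n + 1) + (2 - o) by omega, items_add,
      show 2 * n + 2 - 0 = 2 * (n + 1) by omega, sub_sub]
    abel

theorem cH_Hs {a : ℕ} (n : ℕ) : cH a n + 1 / ((a + 2 * n : ℕ) : ℝ) = 1 / (a : ℝ) + 2 * Hs (a + 2) n 2 := by
  induction n with
  | zero => simp [cH, Hs]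
  | succ n ih =>
    rw [cH_succ, Hs, Finset.sum_range_succ, ← Hs, vR]
    push_cast at ih ⊢
    rw [show (a : ℝ) + 2 * (n + 1) = a + 2 * n + 2 by ring,
      show (a : ℝ) + 2 + 2 * n = a + 2 * n + 2 by ring]
    linarith

theorem step_domV {b : ℕ} (hb : 0 < b) : Step {(1 / ((b : ℝ) + 1), vR b)} (items b 2) := by
  have b0 : (0 : ℝ) < b := by exact_mod_cast hb
  have h2 : 1 / (b : ℝ) ≤ vR b := by
    unfold vR; linarith [show 0 < 1 / ((b : ℝ) + 2) by positivity]
  refine (step_cutY (by positivity) h2).trans ?_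
  rw [items_two]
  refine (step_rot _ _).add (Step.of_eq ?_)
  simp only [item, vR]; push_cast
  congr 2; ring

theorem Hs_succ' (a k s : ℕ) : Hs a (k + 1) s = 1 / (a : ℝ) + Hs (a + s) k s := by
  rw [add_comm k 1, Hs_add]; simp [Hs]

theorem step_rowA {a : ℕ} (ha : 0 < a) (p t : ℕ) {L y : ℝ}
    (hL : Hs (a + 1) (t + 1) (2 * (p + 1)) ≤ L) (hy : cH a (p + 1) ≤ y) :
    Step {(L, y)} (items a (2 * (p + 1) * (t + 1)) + famA a (p + 1) (t + 1) y +
      gapS a (p + 1) (t + 1) t +
      ∑ l ∈ range p, ({(L - Hs (a + 2 * l + 1) (t + 1) (2 * (p + 1)), vR (a + 2 * l))} : MS) +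
      {(L - Hs (a + 2 * p + 1) (t + 1) (2 * (p + 1)), y - cH a p)}) := by
  set c := 2 * (p + 1) with hc
  let X : ℕ → ℕ → ℝ := fun i j =>
    if i = 0 then 0 else L - Hs (a + c * (i - 1) + 2 * min j p + 1) (t + 1 - (i - 1)) c
  let Y : ℕ → ℕ → ℝ := fun i j =>
    if j = p + 2 ∨ (i = 0 ∧ j = p + 1) then y else cH (a + c * (i - 1)) j
  have X1 : ∀ i j, X (i + 1) j = L - Hs (a + c * i + 2 * min j p + 1) (t + 1 - i) c := by
    intro i j; simp [X]
  have X2 : ∀ i j, i < t + 1 → X (i + 1 + 1) j - X (i + 1) j =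
      1 / (((a + c * i + 2 * min j p : ℕ) : ℝ) + 1) := by
    intro i j hi
    rw [X1, X1, show t + 1 - i = (t + 1 - (i + 1)) + 1 by omega, Hs_succ',
      show a + c * i + 2 * min j p + 1 + c = a + c * (i + 1) + 2 * min j p + 1 by ring]
    push_cast; ring
  have Y1 : ∀ i j, j ≤ p + 1 → Y (i + 1) j = cH (a + c * i) j := by
    intro i j hj; simp only [Y]; rw [if_neg (by omega)]; rfl
  have Y0 : ∀ j, j ≤ p → Y 0 j = cH a j := by
    intro j hj; simp only [Y]; rw [if_neg (by omega)]; simp
  have Y2 : ∀ i, Y i (p + 1 + 1) = y := fun i => if_pos (Or.inl rfl)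
  have Y3 : Y 0 (p + 1) = y := if_pos (Or.inr ⟨rfl, rfl⟩)
  have cm : ∀ b j, 0 < b → cH b j ≤ cH b (j + 1) := fun b j hb => by
    rw [cH_succ]; linarith [vR_pos (show 0 < b + 2 * j by omega)]
  have st := step_array X Y (t + 1) (p + 1) L y (fun j => if_pos rfl)
    (fun j => by rw [X1]; simp [Hs])
    (fun i => by simp [Y, cH]) Y2
    (fun j _ i hi => by
      rcases i with _ | i
      · rw [X1]
        have := Hs_anti (t + 1) c (show 0 < a + 1 by omega)
          (show a + 1 ≤ a + c * 0 + 2 * min j p + 1 by omega)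
        simp only [X, if_true, Nat.sub_zero]; linarith
      · have := X2 i j (by omega)
        have : 0 ≤ 1 / (((a + c * i + 2 * min j p : ℕ) : ℝ) + 1) := by positivity
        linarith)
    (fun i _ j _ => by
      rcases i with _ | i
      · exact le_rfl
      · rw [X1, X1]
        have := Hs_anti (t + 1 - i) c (show 0 < a + c * i + 2 * min j p + 1 by omega)
          (show a + c * i + 2 * min j p + 1 ≤ a + c * i + 2 * min (j + 1) p + 1 by omega)
        linarith)
    (fun i _ j hj => by
      rcases i with _ | i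
      · rcases Nat.lt_trichotomy j p with h | rfl | h
        · rw [Y0 _ (by omega), Y0 _ (by omega)]; exact cm _ _ ha
        · rw [Y3, Y0 _ le_rfl]; exact (cm _ _ ha).trans hy
        · rw [show j = p + 1 by omega, Y2, Y3]
      · rcases Nat.lt_or_ge j (p + 1) with h | h
        · rw [Y1 _ _ (by omega), Y1 _ _ (by omega)]; exact cm _ _ (by omega)
        · rw [show j = p + 1 by omega, Y2, Y1 _ _ le_rfl]
          exact (cH_anti _ ha (by omega)).trans hy)
    (fun j hj i _ => by
      rcases Nat.lt_or_ge j (p + 1 + 1) with h | h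
      · rw [Y1 _ _ (by omega)]
        rcases i with _ | i
        · rcases Nat.lt_or_ge j (p + 1) with h | h
          · rw [Y0 _ (by omega)]; simp
          · rw [show j = p + 1 by omega, Y3]; simpa using hy
        · rw [Y1 _ _ (by omega)]
          exact cH_anti _ (by omega) (by rw [Nat.mul_succ]; omega)
      · rw [show j = p + 1 + 1 by omega, Y2, Y2])
  refine st.trans ?_
  rw [Finset.sum_range_succ' _ (t + 1), Finset.sum_range_succ' (fun i => ∑ j ∈ range (p + 1),
      ({(X (i + 1) (j + 1) - X (i + 1) j, Y i (j + 1) - Y (i + 1) (j + 1))} : MS)) t]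
  have e1 : ∀ i ∈ range (t + 1), Step (∑ j ∈ range (p + 1 + 1),
      ({(X (i + 1 + 1) j - X (i + 1) j, Y (i + 1) (j + 1) - Y (i + 1) j)} : MS))
      (items (a + c * i) c + {(1 / ((a + c * i + c - 1 : ℕ) : ℝ), y - cH (a + c * i) (p + 1))}) := by
    intro i hi
    have hi := Finset.mem_range.1 hi
    rw [Finset.sum_range_succ]
    refine Step.add ?_ (Step.of_eq ?_)
    · rw [hc, ← items_mul]
      refine Step.sum _ _ _ fun j hj => ?_
      have hj := Finset.mem_range.1 hj
      rw [X2 i j hi, Y1 _ _ (by omega), Y1 _ _ (by omega), cH_succ, add_sub_cancel_left,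
        min_eq_left (by omega)]
      exact step_domV (by omega)
    · rw [X2 i _ hi, Y2, Y1 _ _ le_rfl, min_eq_right (by omega),
        show a + c * i + c - 1 = a + c * i + 2 * p + 1 by omega, Nat.cast_succ]
  have e2 : Step (∑ j ∈ range (p + 1 + 1),
      ({(X (0 + 1) j - X 0 j, Y 0 (j + 1) - Y 0 j)} : MS))
      (∑ l ∈ range p, ({(L - Hs (a + 2 * l + 1) (t + 1) c, vR (a + 2 * l))} : MS) +
        {(L - Hs (a + 2 * p + 1) (t + 1) c, y - cH a p)}) := by
    have X0 : ∀ j, X 0 j = 0 := fun j => if_pos rfl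
    rw [Finset.sum_range_succ, Finset.sum_range_succ]
    refine ((step_drop ?_).add_left _).trans (Step.of_eq ?_)
    · rw [area_single, Y2, Y3]; simp
    · rw [add_zero]
      congr 1
      · refine Finset.sum_congr rfl fun j hj => ?_
        have hj := Finset.mem_range.1 hj
        rw [X1, X0, Y0 _ (by omega), Y0 _ (by omega), cH_succ, add_sub_cancel_left,
          min_eq_left (by omega)]
        simp
      · rw [X1, X0, Y3, Y0 _ le_rfl]; simp
  have e3 : ∀ i ∈ range t, Step (∑ j ∈ range (p + 1),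
      ({(X (i + 1 + 1) (j + 1) - X (i + 1 + 1) j, Y (i + 1) (j + 1) - Y (i + 1 + 1) (j + 1))} : MS))
      (gapC (a + c * i) (p + 1) (t + 1 - (i + 1))) := by
    intro i _
    rw [Finset.sum_range_succ]
    refine ((step_drop ?_).add_left _).trans (Step.of_eq ?_)
    · rw [area_single, X1, X1]; simp
    · rw [add_zero, gapC, Nat.add_sub_cancel]
      refine Finset.sum_congr rfl fun j hj => ?_
      have hj := Finset.mem_range.1 hj
      rw [X1, X1, Y1 _ _ (by omega), Y1 _ _ (by omega), min_eq_left (by omega),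
        min_eq_left (by omega), gX, gY, ← hc,
        show a + c * i + 2 * j + c + 1 = a + c * (i + 1) + 2 * j + 1 by ring,
        show a + c * i + 2 * j + c + 3 = a + c * (i + 1) + 2 * (j + 1) + 1 by ring,
        show a + c * i + c = a + c * (i + 1) by ring]
      congr 2; ring
  have e4 : Step (∑ j ∈ range (p + 1),
      ({(X (0 + 1) (j + 1) - X (0 + 1) j, Y 0 (j + 1) - Y (0 + 1) (j + 1))} : MS)) 0 := by
    refine step_drop ?_
    rw [area_sum]
    refine Finset.sum_eq_zero fun j hj => ?_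
    have hj := Finset.mem_range.1 hj
    rw [area_single]
    rcases Nat.lt_or_ge j p with h | h
    · rw [Y0 _ (by omega), Y1 _ _ (by omega)]; simp
    · rw [X1, X1, min_eq_right (by omega), min_eq_right h]; simp
  refine (((Step.sum _ _ _ e1).add e2).add ((Step.sum _ _ _ e3).add e4)).trans (Step.of_eq ?_)
  rw [Finset.sum_add_distrib, items_mul, famA, gapS]
  abel

end Pool.Agent.MP_f14165_co
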