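import Pool.Agent.MP_f14165_co.Key

set_option autoImplicit false

namespace Pool.Agent.MP_f14165_co
open Finset

def Rz : C.Stk → MS → Prop
  | .nil, M => M = 0
  | .hole a b c d r, M => ∃ L y N, In a b L ∧ In c d y ∧ Rz r N ∧ M = {(L, y)} + N
  | .fh a o t c d r, M => ∃ y N, 0 < a ∧ In c d y ∧ 1 / ((a : ℝ) + 1) ≤ y ∧ Rz r N ∧
      M = famH a o (t + 1) y + N
  | .fa a J t c d r, M => ∃ y N, 0 < a ∧ 0 < J ∧ J ≤ 8 ∧ In c d y ∧ cH a J ≤ y ∧ Rz r N ∧
      M = famA a J (t + 1) y + N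
  | .gp a J K i r, M => ∃ N, 0 < a ∧ J ≤ 8 ∧ i < K ∧ K ≤ 2 ^ 20 ∧ Rz r N ∧ M = gapS a J K i + N

def GM (M I : MS) (c : ℕ → ℕ) (pt : ℕ) : Prop :=
  ∃ R Pc, Step {(1, 1)} (I + M + R + Pc) ∧ WF (wq 5800) R ∧
    (∀ g h, g < h → lenI (wq h) (wq g) R ≤ IC c g h) ∧ PcOK Pc ∧
    (3 * thin R + (2 * len Pc + thin Pc)) * SR ≤ 3 * pt

theorem GM.step {M M' I I' : MS} {c : ℕ → ℕ} {pt : ℕ} (h : GM M I c pt) (s : Step M (I' + M')) :
    GM M' (I + I') c pt := by
  obtain ⟨R, Pc, h1, h2⟩ := h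
  refine ⟨R, Pc, h1.trans ?_, h2⟩
  rw [add_assoc I I']
  exact ((s.add_left I).add_right R).add_right Pc

theorem GM.step0 {M M' I : MS} {c : ℕ → ℕ} {pt : ℕ} (h : GM M I c pt) (s : Step M M') :
    GM M' I c pt := by
  simpa using h.step (I' := 0) (by simpa using s)

theorem GM.reg {R' N I : MS} {c c' : ℕ → ℕ} {pt pi : ℕ} (h : GM (R' + N) I c pt)
    (w : WF (wq 5800) R') (i : ∀ g h, g < h → lenI (wq h) (wq g) R' ≤ IC c' g h)
    (p : thin R' * SR ≤ pi) : GM N I (c + c') (pt + pi) := by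
  obtain ⟨R, Pc, h1, h2, h3, h4, h5⟩ := h
  refine ⟨R + R', Pc, h1.trans (Step.of_eq (by abel)), h2.add w, fun g h hg => ?_, h4, ?_⟩
  · rw [IC_add, lenI, sm_add]; exact add_le_add (h3 g h hg) (i g h hg)
  · simp only [thin, sm_add] at *; push_cast; linarith

theorem GM.irr {Z Pc' N I : MS} {c : ℕ → ℕ} {pt pi : ℕ} (h : GM (Z + N) I c pt)
    (s : Step Z Pc') (w : PcOK Pc') (p : (2 * len Pc' + thin Pc') * SR ≤ 3 * pi) :
    GM N I c (pt + pi) := by
  obtain ⟨R, Pc, h1, h2, h3, h4, h5⟩ := h.step0 (s.add_right N)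
  refine ⟨R, Pc + Pc', h1.trans (Step.of_eq (by abel)), h2, h3, fun s hs => ?_, ?_⟩
  · rcases Multiset.mem_add.1 hs with h | h
    · exact h4 s h
    · exact w s h
  · simp only [thin, len, sm_add] at *; push_cast; linarith

theorem rt_snd {r a b c d : ℕ} {k : ℕ → ℕ → ℕ → ℕ → C.Stk → Bool} {rest : C.Stk} {L y : ℝ}
    (h : C.rt r k a b c d rest = true) (h1 : In a b L) (h2 : In c d y) :
    ∃ a b c d L' y', k a b c d rest = true ∧ In a b L' ∧ In c d y' ∧ Step {(L, y)} {(L', y')} := by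
  simp only [C.rt, b_ite] at h
  split_ifs at h
  · exact ⟨a, b, c, d, L, y, h, h1, h2, Step.refl _⟩
  · exact ⟨c, d, a, b, y, L, h, h2, h1, step_rot _ _⟩

theorem pop_snd {r : ℕ} {k : ℕ → ℕ → ℕ → ℕ → C.Stk → Bool} {st : C.Stk} {M : MS}
    (h : C.pop r st k = true) (hM : Rz st M) : ∃ a b c d rest L y N, k a b c d rest = true ∧
      In a b L ∧ In c d y ∧ Rz rest N ∧ Step M ({(L, y)} + N) := by
  cases st with
  | nil => exact absurd h (by simp [C.pop])
  | gp => exact absurd h (by simp [C.pop])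
  | hole a b c d rest =>
    obtain ⟨L, y, N, h1, h2, h3, rfl⟩ := hM
    obtain ⟨a, b, c, d, L', y', k1, k2, k3, k4⟩ := rt_snd h h1 h2
    exact ⟨a, b, c, d, rest, L', y', N, k1, k2, k3, h3, k4.add_right N⟩
  | fh a o t yl yh rest =>
    obtain ⟨y, N, ha, h1, h2, h3, rfl⟩ := hM
    have i1 := inv_in (show 0 < a + 2 * t by omega)
    have i2 := vv_in (show 0 < a + 2 * t by omega)
    have i3 := inv_in (show 0 < a + 2 * t + 1 by omega)
    have m : 1 / (((a + 2 * t : ℕ) : ℝ) + 1) ≤ y := by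
      refine le_trans (one_div_le_one_div_of_le (by positivity) ?_) h2
      push_cast; linarith [Nat.cast_nonneg (α := ℝ) t]
    rw [Nat.cast_succ] at i3
    obtain ⟨a', b, c, d, L', y', k1, k2, k3, k4⟩ := rt_snd
      (L := if o ≠ 0 then 1 / ((a + 2 * t : ℕ) : ℝ) else vR (a + 2 * t)) h
      (by
        cases o with
        | zero => rw [if_neg (by simp)]; exact ⟨i2.1, i2.2.trans (le_of_eq (by norm_cast))⟩
        | succ o =>
          rw [if_pos (by simp)]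
          refine ⟨i1.1, i1.2.trans ?_⟩
          exact_mod_cast (Nat.le_succ _ : C.cS / (a + 2 * t) + 1 ≤ C.cS / (a + 2 * t) + 1 + 1))
      (h1.sub i3.1 (i3.2.trans (le_of_eq (Nat.cast_succ _).symm)) m)
    refine ⟨a', b, c, d, _, L', y', famH a 0 t y + N, k1, k2, k3, ?_, ?_⟩
    · cases t with
      | zero => simpa [famH] using h3
      | succ t => exact ⟨y, N, ha, h1, h2, h3, rfl⟩
    · rw [famH_succ, add_comm (famH a 0 t y), add_assoc]; exact k4.add_right _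
  | fa a J t yl yh rest =>
    obtain ⟨y, N, ha, hJ, hJ8, h1, h2, h3, rfl⟩ := hM
    have i1 := inv_in (show 0 < a + 2 * J * t + 2 * J - 1 by omega)
    have i3 := cv_in J (a + 2 * J * t) (by omega)
    have J8 : (J : ℝ) ≤ 8 := by exact_mod_cast hJ8
    obtain ⟨a', b, c, d, L', y', k1, k2, k3, k4⟩ := rt_snd
      (L := 1 / ((a + 2 * J * t + 2 * J - 1 : ℕ) : ℝ)) h
      ⟨i1.1, i1.2.trans (le_of_eq (Nat.cast_succ _).symm)⟩
      (h1.sub (d := C.cv J (a + 2 * J * t) + 16) i3.1 (by push_cast; linarith [i3.2])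
        ((cH_anti J ha (by omega)).trans h2))
    refine ⟨a', b, c, d, _, L', y', famA a J t y + N, k1, k2, k3, ?_, ?_⟩
    · cases t with
      | zero => simpa [famA] using h3
      | succ t => exact ⟨y, N, ha, hJ, hJ8, h1, h2, h3, rfl⟩
    · rw [famA, Finset.sum_range_succ, ← famA, add_comm (famA a J t y), add_assoc]
      exact k4.add_right _

theorem smy_snd {k : ℕ → ℕ → ℕ → ℕ → ℕ → ℕ → C.Stk → Bool} {st : C.Stk} {M : MS}
    (h : C.smy st k = true) (hM : Rz st M) : ∃ sl su e d n pi rest R N,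
      k sl su e d n pi rest = true ∧ Sm sl su e d (n * e) pi R ∧ Rz rest N ∧ M = R + N := by
  cases st with
  | nil => exact absurd h (by simp [C.smy])
  | gp => exact absurd h (by simp [C.smy])
  | hole => exact absurd h (by simp [C.smy])
  | fh a o t yl yh rest =>
    obtain ⟨y, N, ha, h1, h2, h3, rfl⟩ := hM
    simp only [C.smy, C.smh, b_and, b_le] at h
    exact ⟨_, _, _, _, _, _, _, _, N, h.2, sm_famH ha h1 h2 h.1, h3, rfl⟩
  | fa a J t yl yh rest =>
    obtain ⟨y, N, ha, hJ, hJ8, h1, h2, h3, rfl⟩ := hM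
    simp only [C.smy, C.sma, b_and, b_le] at h
    exact ⟨_, _, _, _, _, _, _, _, N, h.2, sm_famA ha hJ hJ8 h1 h2 h.1, h3, rfl⟩

theorem land_le (x m : ℕ) : Nat.land x m ≤ m := Nat.and_le_right

theorem em1b_snd {p pos sl su e d tot pi AE : ℕ} {k : ℕ → Bool} {R : MS}
    (h : C.em1b p pos sl su tot AE k = true) (H : Sm sl su e d tot pi R) (b0 : 5800 ≤ p)
    (b1 : p ≤ 65535 + 5800) (b2 : pos ≤ 4095) :
    ∃ A c, k A = true ∧ dsum fE 4096 A = dsum fE 4096 AE + c ∧ WF (wq 5800) R ∧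
      ∀ g h, g < h → lenI (wq h) (wq g) R ≤ IC c g h := by
  simp only [C.em1b, b_and, b_le, n_add, n_mul, n_pow, n_succ] at h
  obtain ⟨h1, h2, h3, h4⟩ := h
  have e1 : C.cM26 = 67108863 := rfl
  have e2 : C.cLu = 70368745226240 := rfl
  obtain ⟨A, a1, a2⟩ := sc_snd (n := 4096) fE_zero h4 (by rw [e2]; omega) (by omega)
  rw [fE_enc1 (by omega) (by omega)] at a1
  exact ⟨A, _, a2, a1, (H.win b0 (by omega) h1 h2).1, fun g h hg => H.emit1 b0 h1 h2 hg⟩

theorem em1_snd {r sl su e d tot pi AE : ℕ} {k : ℕ → Bool} {R : MS}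
    (h : C.em1 r sl su tot AE k = true) (H : Sm sl su e d tot pi R) :
    ∃ A c, k A = true ∧ dsum fE 4096 A = dsum fE 4096 AE + c ∧ WF (wq 5800) R ∧
      ∀ g h, g < h → lenI (wq h) (wq g) R ≤ IC c g h := by
  unfold C.em1 at h
  exact em1b_snd h H (Nat.le_add_left _ _) (Nat.add_le_add_right (land_le _ _) _) (land_le _ _)

theorem em2c_snd {r p q sl su e d tot pi AE : ℕ} {k : ℕ → Bool} {R : MS}
    (h : C.em2c r p q sl su e d (524288 + d * 2 ^ 20 + e * 2 ^ 46) AE k = true)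
    (H : Sm sl su e d tot pi R) (b0 : 5800 ≤ p) (b1 : p < q) (b2 : q < 2 ^ 17) :
    ∃ A c, k A = true ∧ dsum fE 4096 A = dsum fE 4096 AE + c ∧ WF (wq 5800) R ∧
      ∀ g h, g < h → lenI (wq h) (wq g) R ≤ IC c g h := by
  unfold C.em2c at h
  rw [b_and, b_and, b_and, b_and, b_le, b_le, b_le, b_le] at h
  simp only [n_add, n_mul, n_pow] at h
  obtain ⟨h1, h2, h3, h3', h4⟩ := h
  have e1 : C.cM26 = 67108863 := rfl
  obtain ⟨A, a1, a2⟩ := sc_snd (n := 4096) fE_zero h4 (by omega) (Nat.lt_succ_of_le (land_le _ _))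
  unfold C.em2d at a2
  simp only [n_add, n_mul, n_succ] at a2
  obtain ⟨A', a3, a4⟩ := sc_snd (n := 4096) fE_zero a2 (by omega) (Nat.lt_succ_of_le (land_le _ _))
  rw [fE_enc2 (by omega) (by omega)] at a1 a3
  exact ⟨A', _, a4, by rw [a3, a1, add_assoc], (H.win b0 (by omega) h1 h2).1,
    fun g h hg => H.emit2 b0 b1 h1 h2 hg⟩

theorem em2b_snd {r p sl su e d tot pi AE : ℕ} {k : ℕ → Bool} {R : MS}
    (h : C.em2b r p sl su e d AE k = true) (H : Sm sl su e d tot pi R) (b0 : 5800 ≤ p)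
    (b1 : p ≤ 65535 + 5800) :
    ∃ A c, k A = true ∧ dsum fE 4096 A = dsum fE 4096 AE + c ∧ WF (wq 5800) R ∧
      ∀ g h, g < h → lenI (wq h) (wq g) R ≤ IC c g h := by
  unfold C.em2b at h
  have b2 := land_le (Nat.shiftRight r 21) 32767
  simp only [n_add, n_succ, n_shl] at h
  exact em2c_snd h H b0 (by omega) (by omega)

theorem em2_snd {r sl su e d tot pi AE : ℕ} {k : ℕ → Bool} {R : MS}
    (h : C.em2 r sl su e d AE k = true) (H : Sm sl su e d tot pi R) :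
    ∃ A c, k A = true ∧ dsum fE 4096 A = dsum fE 4096 AE + c ∧ WF (wq 5800) R ∧
      ∀ g h, g < h → lenI (wq h) (wq g) R ≤ IC c g h := by
  unfold C.em2 at h
  exact em2b_snd h H (Nat.le_add_left _ _) (Nat.add_le_add_right (land_le _ _) _)

theorem emi_snd {r a m AI : ℕ} {k : ℕ → Bool} (h : C.emi r a m AI k = true) (ha : a < 2 ^ 27)
    (hm : m < 2 ^ 26) : ∃ A, dsum fI 4096 A = dsum fI 4096 AI + items a m ∧ k A = true := by
  simp only [C.emi, n_add, n_and, n_shl] at h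
  have b1 : Nat.shiftRight r 49 &&& 524287 ≤ 524287 := Nat.and_le_right
  have b2 : Nat.shiftRight r 68 &&& 4095 ≤ 4095 := Nat.and_le_right
  obtain ⟨A, a1, a2⟩ := sc_snd (n := 4096) fI_zero h (by omega) (by omega)
  rw [fI_enc (by omega) ha] at a1
  exact ⟨A, a1, a2⟩

section
variable {I0 : MS} {c0 : ℕ → ℕ}

def WW (I0 : MS) (c0 : ℕ → ℕ) (k : C.Stk → ℕ → ℕ → ℕ → Bool) : Prop :=
  ∃ st AI AE pt M, Rz st M ∧ GM M (I0 + dsum fI 4096 AI) (c0 + dsum fE 4096 AE) pt ∧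
    k st AI AE pt = true

variable {r AI AE pt : ℕ} {k : C.Stk → ℕ → ℕ → ℕ → Bool} {st : C.Stk} {M : MS}

theorem reg_snd {R N : MS} {rest : C.Stk} {pi : ℕ} (hN : Rz rest N)
    (G : GM (R + N) (I0 + dsum fI 4096 AI) (c0 + dsum fE 4096 AE) pt) (p : thin R * SR ≤ pi)
    (h : ∃ A c, C.kk k rest AI (pt + pi) A = true ∧ dsum fE 4096 A = dsum fE 4096 AE + c ∧
      WF (wq 5800) R ∧ ∀ g h, g < h → lenI (wq h) (wq g) R ≤ IC c g h) : WW I0 c0 k := by
  obtain ⟨A, c, a1, a2, a3, a4⟩ := h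
  exact ⟨rest, AI, A, pt + pi, N, hN, by rw [a2, ← add_assoc]; exact G.reg a3 a4 p, a1⟩

theorem itm_snd {a m : ℕ} {N : MS} {st' : C.Stk} (hN : Rz st' N)
    (G : GM M (I0 + dsum fI 4096 AI) (c0 + dsum fE 4096 AE) pt) (s : Step M (items a m + N))
    (h : C.emi r a m AI (C.ki k st' AE pt) = true) (ha : a < 2 ^ 27) (hm : m < 2 ^ 26) :
    WW I0 c0 k := by
  obtain ⟨A, a1, a2⟩ := emi_snd h ha hm
  exact ⟨st', A, AE, pt, N, hN, by rw [a1, ← add_assoc]; exact G.step s, a2⟩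

theorem l1_snd (h : C.pop r st (C.l1 r AI AE pt k) = true) (hM : Rz st M)
    (G : GM M (I0 + dsum fI 4096 AI) (c0 + dsum fE 4096 AE) pt) : WW I0 c0 k := by
  obtain ⟨a, b, c, d, rest, L, y, N, k1, k2, k3, k4, k5⟩ := pop_snd h hM
  simp only [C.l1, b_and, b_le] at k1
  have S := sm_hole k2 k3 k1.1
  exact reg_snd k4 (G.step0 k5) S.pi (em1_snd k1.2 S)

theorem l2_snd (h : C.pop r st (C.l2 r AI AE pt k) = true) (hM : Rz st M)
    (G : GM M (I0 + dsum fI 4096 AI) (c0 + dsum fE 4096 AE) pt) : WW I0 c0 k := by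
  obtain ⟨a, b, c, d, rest, L, y, N, k1, k2, k3, k4, k5⟩ := pop_snd h hM
  simp only [C.l2, b_and, b_le] at k1
  have S := sm_hole k2 k3 k1.1
  exact reg_snd k4 (G.step0 k5) S.pi (em2_snd k1.2 S)

theorem k1_snd (h : C.smy st (C.k1 r AI AE pt k) = true) (hM : Rz st M)
    (G : GM M (I0 + dsum fI 4096 AI) (c0 + dsum fE 4096 AE) pt) : WW I0 c0 k := by
  obtain ⟨sl, su, e, d, n, pi, rest, R, N, k1, S, k2, rfl⟩ := smy_snd h hM
  exact reg_snd k2 G S.pi (em1_snd k1 S)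

theorem k2_snd (h : C.smy st (C.k2 r AI AE pt k) = true) (hM : Rz st M)
    (G : GM M (I0 + dsum fI 4096 AI) (c0 + dsum fE 4096 AE) pt) : WW I0 c0 k := by
  obtain ⟨sl, su, e, d, n, pi, rest, R, N, k1, S, k2, rfl⟩ := smy_snd h hM
  exact reg_snd k2 G S.pi (em2_snd k1 S)

theorem le_of_SR {x y : ℝ} (h : x * SR ≤ y * SR) : x ≤ y := le_of_mul_le_mul_right h SR_pos

theorem oh3_snd {a o t sb su Ll Lh yl yh : ℕ} {rest : C.Stk} {L y : ℝ} {N : MS}
    (e1 : C.oh3 r AI AE pt k a o t sb su Ll Lh yl yh rest = true) (k2 : In Ll Lh L) (k3 : In yl yh y)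
    (k4 : Rz rest N) (k5 : Step M ({(L, y)} + N))
    (G : GM M (I0 + dsum fI 4096 AI) (c0 + dsum fE 4096 AE) pt) (ha : 0 < a) (b1 : a ≤ 67108863 + 1)
    (b2 : o ≤ 1) (b3 : t ≤ 131071)
    (s1 : (sb : ℝ) ≤ (cH a t + (if o ≠ 0 then 1 / ((a + 2 * t : ℕ) : ℝ) else vR (a + 2 * t))) * SR)
    (s2 : (cH a t + (if o ≠ 0 then 1 / ((a + 2 * t : ℕ) : ℝ) else vR (a + 2 * t))) * SR ≤ su) :
    WW I0 c0 k := by
  have a0 : (0 : ℝ) < a := by exact_mod_cast ha
  unfold C.oh3 at e1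
  rw [b_and, b_and, b_le, b_le] at e1
  obtain ⟨c1, c2, c3⟩ := e1
  simp only [n_mul, n_succ] at c2
  have c1' : (su : ℝ) ≤ Ll := by exact_mod_cast c1
  have d1 := le_of_SR (s2.trans (c1'.trans k2.1))
  have d2 : 1 / ((a : ℝ) + 1) ≤ y := by
    have : SR ≤ yl * ((a : ℝ) + 1) := by unfold SR; exact_mod_cast c2
    rw [div_le_iff₀ (by linarith)]
    refine le_of_SR ?_
    nlinarith [k3.1]
  have d3 : Rz (.hole (Ll - su) (Lh - sb) yl yh (.fh a o t yl yh rest)) _ :=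
    ⟨_, y, _, k2.sub s1 s2 d1, k3, ⟨y, N, ha, k3, d2, k4, rfl⟩, rfl⟩
  refine itm_snd (a := a) (m := 2 * t + 2 - o) d3 G
    (k5.trans (((step_rowH0 ha d2 t o b2 d1).add_right N).trans (Step.of_eq ?_))) c3
    (by omega) (by omega)
  abel

theorem oh1_snd {a o t Ll Lh yl yh : ℕ} {rest : C.Stk} {L y : ℝ} {N : MS}
    (k1 : C.oh1 r AI AE pt k a o t Ll Lh yl yh rest = true) (k2 : In Ll Lh L) (k3 : In yl yh y)
    (k4 : Rz rest N) (k5 : Step M ({(L, y)} + N))
    (G : GM M (I0 + dsum fI 4096 AI) (c0 + dsum fE 4096 AE) pt) (ha : 0 < a) (b1 : a ≤ 67108863 + 1)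
    (b2 : o ≤ 1) (b3 : t ≤ 131071) : WW I0 c0 k := by
  have a0 : (0 : ℝ) < a := by exact_mod_cast ha
  obtain ⟨sb, e1, s1, s2⟩ : ∃ sb, C.oh2 r AI AE pt k a o t sb Ll Lh yl yh rest = true ∧
      (sb : ℝ) ≤ (cH a t + (if o ≠ 0 then 1 / ((a + 2 * t : ℕ) : ℝ) else vR (a + 2 * t))) * SR ∧
      (cH a t + (if o ≠ 0 then 1 / ((a + 2 * t : ℕ) : ℝ) else vR (a + 2 * t))) * SR ≤
        ((sb + C.er a (2 * t) : ℕ) : ℝ) := by
    have i1 := inv_in ha
    have i2 := hs_spec 2 20 (a + 2) t (by omega) (by omega)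
    have i3 := inv_in (show 0 < a + 2 * t + 2 by omega)
    have i4 := er_spec (2 * t) ha
    have i5 := cH_Hs (a := a) t
    have i6 : (t : ℝ) * (((a + 2 : ℕ) : ℝ) + C.cE) / ((a + 2 : ℕ) : ℝ) ≤ t * (a + C.cE) / a := by
      rw [mul_div_assoc, mul_div_assoc]
      refine mul_le_mul_of_nonneg_left ?_ (Nat.cast_nonneg t)
      push_cast
      rw [div_le_div_iff₀ (by linarith) a0]
      nlinarith [Nat.cast_nonneg (α := ℝ) C.cE]
    have i7 : ((2 * t : ℕ) : ℝ) * (a + C.cE) / a = 2 * (t * (a + C.cE) / a) := by push_cast; ring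
    refine ⟨_, k1, ?_⟩
    interval_cases o
    · have e : (cH a t + (if (0 : ℕ) ≠ 0 then 1 / ((a + 2 * t : ℕ) : ℝ) else vR (a + 2 * t))) * SR =
          1 / (a : ℝ) * SR + 2 * (Hs (a + 2) t 2 * SR) + 1 / ((a + 2 * t + 2 : ℕ) : ℝ) * SR := by
        rw [if_neg (by simp), vR, ← add_assoc, i5]; push_cast; ring
      rw [e]
      change ((C.cS / a + 2 * C.hs 2 20 (a + 2) t + C.cS / (a + 2 * t + 2) : ℕ) : ℝ) ≤ _ ∧
        _ ≤ ((C.cS / a + 2 * C.hs 2 20 (a + 2) t + C.cS / (a + 2 * t + 2) + C.er a (2 * t) : ℕ) : ℝ)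
      simp only [Nat.cast_add (C.cS / a + _ + _), Nat.cast_add (C.cS / a + _), Nat.cast_add (C.cS / a),
        Nat.cast_mul 2 (C.hs _ _ _ _), Nat.cast_ofNat]
      constructor <;> linarith [i1.1, i1.2, i2.1, i2.2, i3.1, i3.2]
    · have e : (cH a t + (if (1 : ℕ) ≠ 0 then 1 / ((a + 2 * t : ℕ) : ℝ) else vR (a + 2 * t))) * SR =
          1 / (a : ℝ) * SR + 2 * (Hs (a + 2) t 2 * SR) := by
        rw [if_pos (by simp), i5]; ring
      rw [e]
      change ((C.cS / a + 2 * C.hs 2 20 (a + 2) t : ℕ) : ℝ) ≤ _ ∧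
        _ ≤ ((C.cS / a + 2 * C.hs 2 20 (a + 2) t + C.er a (2 * t) : ℕ) : ℝ)
      simp only [Nat.cast_add (C.cS / a + _), Nat.cast_add (C.cS / a),
        Nat.cast_mul 2 (C.hs _ _ _ _), Nat.cast_ofNat]
      constructor <;> linarith [i1.1, i1.2, i2.1, i2.2]
  unfold C.oh2 at e1
  exact oh3_snd e1 k2 k3 k4 k5 G ha b1 b2 b3 s1 s2

theorem oh_snd (h : C.oh r st AI AE pt k = true) (hM : Rz st M)
    (G : GM M (I0 + dsum fI 4096 AI) (c0 + dsum fE 4096 AE) pt) : WW I0 c0 k := by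
  unfold C.oh at h
  obtain ⟨Ll, Lh, yl, yh, rest, L, y, N, k1, k2, k3, k4, k5⟩ := pop_snd h hM
  exact oh1_snd k1 k2 k3 k4 k5 G (Nat.succ_pos _) (Nat.succ_le_succ (land_le _ _)) (land_le _ _)
    (land_le _ _)

theorem al_snd {a p K Ll Lh yl yh : ℕ} {L y : ℝ} {k : C.Stk → Bool} (ha : 0 < a) (hp : p ≤ 7)
    (hK : K ≤ 2 ^ 20) (h1 : In Ll Lh L) (h2 : In yl yh y) (hL : Hs (a + 1) K (2 * (p + 1)) ≤ L)
    (n : ℕ) : ∀ (l ac : ℕ) st, l + n = p → (ac : ℝ) ≤ cH a l * SR → cH a l * SR ≤ ac + 2 * l →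
      C.al (2 * (p + 1)) K (C.er a K) Ll Lh yl yh k n (a + 2 * l) ac st = true →
      cH a (p + 1) ≤ y ∧ ∃ st', k st' = true ∧ ∀ N, Rz st N → Rz st'
        (∑ l ∈ Ico l p, ({(L - Hs (a + 2 * l + 1) K (2 * (p + 1)), vR (a + 2 * l))} : MS) +
          {(L - Hs (a + 2 * p + 1) K (2 * (p + 1)), y - cH a p)} + N) := by
  have w : ∀ l, In (Ll - (C.hs (2 * (p + 1)) 20 (a + 2 * l + 1) K + C.er a K))
      (Lh - C.hs (2 * (p + 1)) 20 (a + 2 * l + 1) K) (L - Hs (a + 2 * l + 1) K (2 * (p + 1))) := by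
    intro l
    have := hs_in (2 * (p + 1)) ha (show a ≤ a + 2 * l + 1 by omega) hK
    exact h1.sub this.1 this.2 ((Hs_anti _ _ (by omega) (by omega)).trans hL)
  induction n with
  | zero =>
    intro l ac st e b1 b2 h
    obtain rfl : l = p := by omega
    simp only [C.al, Nat.rec_zero, b_and, b_le, n_add] at h
    have i := vv_in (show 0 < a + 2 * l by omega)
    have c1 : (ac : ℝ) + C.vv (a + 2 * l) + 16 ≤ yl := by exact_mod_cast h.1
    have l7 : (l : ℝ) ≤ 7 := by exact_mod_cast hp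
    have c2 : cH a (l + 1) ≤ y := le_of_SR (by rw [cH_succ]; linarith [h2.1, i.2])
    refine ⟨c2, _, h.2, fun N hN => ⟨_, _, N, w l,
      h2.sub (d := ac + 16) b1 (by push_cast; linarith) ?_, hN, by simp⟩⟩
    linarith [cH_succ a l, vR_pos (show 0 < a + 2 * l by omega)]
  | succ n ih =>
    intro l ac st e b1 b2 h
    have i := vv_in (show 0 < a + 2 * l by omega)
    obtain ⟨c1, st', c2, c3⟩ := ih (l + 1) (ac + C.vv (a + 2 * l)) _ (by omega)
      (by rw [cH_succ]; push_cast; linarith [i.1]) (by rw [cH_succ]; push_cast; linarith [i.2]) h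
    refine ⟨c1, st', c2, fun N hN => ?_⟩
    have := c3 _ ⟨_, vR (a + 2 * l), N, w l, ⟨i.1, i.2.trans (le_of_eq (by norm_cast))⟩, hN, rfl⟩
    rw [Finset.sum_eq_sum_Ico_succ_bot (by omega)]
    convert this using 1
    abel

theorem oa2_snd {a p t J j K e Ll Lh yl yh : ℕ} {rest : C.Stk} {L y : ℝ} {N : MS}
    (k1 : C.oa2 r AI AE pt k a p t J j K e Ll Lh yl yh rest = true) (hJ : J = p + 1)
    (hj : j = 2 * (p + 1)) (hK : K = t + 1) (he : e = C.er a (t + 1))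
    (k2 : In Ll Lh L) (k3 : In yl yh y)
    (k4 : Rz rest N) (k5 : Step M ({(L, y)} + N))
    (G : GM M (I0 + dsum fI 4096 AI) (c0 + dsum fE 4096 AE) pt) (ha : 0 < a) (b1 : a ≤ 67108863 + 1)
    (b2 : p ≤ 7) (b3 : t ≤ 32767) : WW I0 c0 k := by
  unfold C.oa2 at k1
  rw [b_and, b_le] at k1
  obtain ⟨c1, c2⟩ := k1
  simp only [n_add, n_succ] at c1
  subst hJ hj hK he
  have i := hs_in (2 * (p + 1)) ha (Nat.le_succ a) (show t + 1 ≤ 2 ^ 20 by omega)
  have c1' : ((C.hs (2 * (p + 1)) 20 (a + 1) (t + 1) + C.er a (t + 1) : ℕ) : ℝ) ≤ Ll := by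
    exact_mod_cast c1
  have d1 := le_of_SR (i.2.trans (c1'.trans k2.1))
  obtain ⟨d2, st', d3, d4⟩ := al_snd ha b2 (by omega) k2 k3 d1 p 0 0 _ (by omega) (by simp [cH])
    (by simp [cH]) c2
  have d5 := d4 (gapS a (p + 1) (t + 1) t + (famA a (p + 1) (t + 1) y + N)) (by
    cases p with
    | zero => exact ⟨y, N, ha, by omega, by omega, k3, d2, k4, by simp [gapS, gapC]⟩
    | succ p => exact ⟨_, ha, by omega, by omega, by omega,
        ⟨y, N, ha, by omega, by omega, k3, d2, k4, rfl⟩, rfl⟩)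
  refine itm_snd (a := a) (m := 2 * (p + 1) * (t + 1)) d5 G (k5.trans (((step_rowA ha p t d1 d2).add_right N).trans (Step.of_eq ?_))) d3
    (by omega) (lt_of_le_of_lt (Nat.mul_le_mul (show _ ≤ 16 by omega) (show _ ≤ 32768 by omega))
      (by norm_num))
  rw [Finset.range_eq_Ico]
  abel

theorem oa_snd (h : C.oa r st AI AE pt k = true) (hM : Rz st M)
    (G : GM M (I0 + dsum fI 4096 AI) (c0 + dsum fE 4096 AE) pt) : WW I0 c0 k := by
  unfold C.oa at h
  obtain ⟨Ll, Lh, yl, yh, rest, L, y, N, k1, k2, k3, k4, k5⟩ := pop_snd h hM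
  unfold C.oa1 at k1
  exact oa2_snd k1 rfl rfl rfl rfl k2 k3 k4 k5 G (Nat.succ_pos _) (Nat.succ_le_succ (land_le _ _)) (land_le _ _)
    (land_le _ _)

theorem oc_snd (h : C.oc r st AI AE pt k = true) (hM : Rz st M)
    (G : GM M (I0 + dsum fI 4096 AI) (c0 + dsum fE 4096 AE) pt) : WW I0 c0 k := by
  obtain ⟨Ll, Lh, yl, yh, rest, L, y, N, k1, k2, k3, k4, k5⟩ := pop_snd h hM
  generalize Nat.shiftLeft _ _ = W at k1
  simp only [C.oc1, b_and, b_le] at k1
  obtain ⟨c1, c2⟩ := k1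
  rw [b_ite] at c2
  have e : (W : ℝ) / SR * SR = W := div_mul_cancel₀ _ SR_pos.ne'
  have i1 : In W W (W / SR) := ⟨e.ge, e.le⟩
  have c1' : (W : ℝ) ≤ Ll := by exact_mod_cast c1
  have d1 : W / SR ≤ L := le_of_SR (by linarith [k2.1])
  have i2 := k2.sub e.ge e.le d1
  have s := G.step0 (k5.trans ((step_cut i1.nonneg d1).add_right N))
  split_ifs at c2
  · refine ⟨_, AI, AE, pt, _, ?_, s, c2⟩
    exact ⟨_, y, _, i1, k3, ⟨_, y, N, i2, k3, k4, rfl⟩, add_assoc _ _ _⟩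
  · refine ⟨_, AI, AE, pt, _, ?_, s, c2⟩
    exact ⟨_, y, _, i2, k3, ⟨_, y, N, i1, k3, k4, rfl⟩, by abel⟩

theorem in_eq {a b c : ℕ} {x : ℝ} (h : In a b x) (h1 : a * c = C.cS) (h2 : b * c = C.cS) :
    x = 1 / (c : ℝ) := by
  have e1 : (a : ℝ) * c = SR := by unfold SR; exact_mod_cast h1
  have e2 : (b : ℝ) * c = SR := by unfold SR; exact_mod_cast h2
  have c0 : (0 : ℝ) ≤ c := Nat.cast_nonneg c
  have := mul_le_mul_of_nonneg_right h.1 c0
  have := mul_le_mul_of_nonneg_right h.2 c0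
  have : x * c = 1 := le_antisymm (le_of_SR (by linarith)) (le_of_SR (by linarith))
  exact eq_one_div_of_mul_eq_one_left this

theorem of_snd (h : C.of0 r st AI AE pt k = true) (hM : Rz st M)
    (G : GM M (I0 + dsum fI 4096 AI) (c0 + dsum fE 4096 AE) pt) : WW I0 c0 k := by
  obtain ⟨Ll, Lh, yl, yh, rest, L, y, N, k1, k2, k3, k4, k5⟩ := pop_snd h hM
  have b1 : Nat.land (Nat.shiftRight r 23) C.cM26 ≤ 67108863 := Nat.and_le_right
  simp only [n_succ] at k1
  generalize Nat.land (Nat.shiftRight r 23) C.cM26 = a' at *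
  simp only [C.of1, b_and, b_eq, n_mul, n_succ] at k1
  obtain ⟨c1, c2, c3, c4, c5⟩ := k1
  refine itm_snd k4 G (k5.trans (Step.add_right ?_ N)) c5 (by omega) (by omega)
  rw [in_eq k2 c1 c2, in_eq k3 c3 c4, items_one, item, Nat.cast_succ (a' + 1)]
  exact step_rot _ _

theorem gl_snd {a b j n K : ℕ} {k : C.Stk → Bool} (ha : 0 < a) (hb : a ≤ b) (hn : n ≤ K)
    (hK : K ≤ 2 ^ 20) (f : ℕ) : ∀ (l u v : ℕ) st, l + f ≤ 8 → (u : ℝ) ≤ cH b l * SR →
      cH b l * SR ≤ u + 2 * l → (v : ℝ) ≤ cH (b + j) l * SR → cH (b + j) l * SR ≤ v + 2 * l →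
      C.gl j n (C.er a K) k f (b + 2 * l) u v st = true →
      ∃ st', k st' = true ∧ ∀ N, Rz st N → Rz st'
        (∑ l ∈ Ico l (l + f), ({(gX (b + 2 * l) j n, gY b j (l + 1))} : MS) + N) := by
  induction f with
  | zero => intro l u v st _ _ _ _ _ h; exact ⟨st, h, fun N hN => by simpa using hN⟩
  | succ f ih =>
    intro l u v st e b1 b2 b3 b4 h
    have i1 := vv_in (show 0 < b + 2 * l by omega)
    have i2 := vv_in (show 0 < b + 2 * l + j by omega)
    have e1 := cH_succ b l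
    have e2 := cH_succ (b + j) l
    rw [add_right_comm b j] at e2
    have l7 : (l : ℝ) ≤ 7 := by exact_mod_cast (by omega : l ≤ 7)
    obtain ⟨st', c2, c3⟩ := ih (l + 1) (u + C.vv (b + 2 * l)) (v + C.vv (b + 2 * l + j)) _ (by omega)
      (by rw [e1]; push_cast; linarith [i1.1]) (by rw [e1]; push_cast; linarith [i1.2])
      (by rw [e2]; push_cast; linarith [i2.1]) (by rw [e2]; push_cast; linarith [i2.2]) h
    refine ⟨st', c2, fun N hN => ?_⟩
    have m : (C.er a n : ℝ) ≤ C.er a K := by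
      exact_mod_cast Nat.add_le_add_right (Nat.div_le_div_right (Nat.mul_le_mul_right _ hn)) 3
    have j1 := hs_in j ha (show a ≤ b + 2 * l + j + 1 by omega) (hn.trans hK)
    have j2 := hs_in j ha (show a ≤ b + 2 * l + j + 3 by omega) (hn.trans hK)
    push_cast at j1 j2
    have x1 : In (C.hs j 20 (b + 2 * l + j + 1) n) (C.hs j 20 (b + 2 * l + j + 1) n + C.er a K)
      (Hs (b + 2 * l + j + 1) n j) := ⟨j1.1, by push_cast; linarith [j1.2]⟩
    have x2 : In (u + C.vv (b + 2 * l)) (u + C.vv (b + 2 * l) + 16) (cH b (l + 1)) :=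
      ⟨by rw [e1]; push_cast; linarith [i1.1], by rw [e1]; push_cast; linarith [i1.2]⟩
    have := c3 _ ⟨gX (b + 2 * l) j n, gY b j (l + 1), N,
      x1.sub (d := C.hs j 20 (b + 2 * l + j + 3) n + C.er a K) j2.1 (by push_cast; linarith [j2.2])
        (Hs_anti _ _ (by omega) (by omega)),
      x2.sub (c := v + C.vv (b + 2 * l + j)) (d := v + C.vv (b + 2 * l + j) + 16)
        (by rw [e2]; push_cast; linarith [i2.1]) (by rw [e2]; push_cast; linarith [i2.2])
        (cH_anti _ (by omega) (by omega)), hN, rfl⟩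
    rw [Finset.sum_eq_sum_Ico_succ_bot (by omega), show l + (f + 1) = l + 1 + f by omega]
    convert this using 1
    abel

theorem ox_snd (h : C.ox st AI AE pt k = true) (hM : Rz st M)
    (G : GM M (I0 + dsum fI 4096 AI) (c0 + dsum fE 4096 AE) pt) : WW I0 c0 k := by
  cases st with
  | nil => exact absurd h (by simp [C.ox])
  | hole => exact absurd h (by simp [C.ox])
  | fh => exact absurd h (by simp [C.ox])
  | fa => exact absurd h (by simp [C.ox])
  | gp a J K i rest =>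
    obtain ⟨N, ha, hJ, hi, hK, hN, rfl⟩ := hM
    cases i with
    | zero => exact ⟨rest, AI, AE, pt, N, hN, by simpa [gapS] using G, h⟩
    | succ i =>
      obtain ⟨st', c1, c2⟩ := gl_snd (b := a + 2 * J * i) (j := 2 * J) (n := K - (i + 1)) ha
        (by omega) (by omega) hK (J - 1) 0 0 0 _ (by omega) (by simp [cH]) (by simp [cH])
        (by simp [cH]) (by simp [cH]) h
      have c3 : Rz (.gp a J K i rest) _ := ⟨N, ha, hJ, by omega, hK, hN, rfl⟩
      refine ⟨st', AI, AE, pt, _, c2 _ c3, G.step0 (Step.of_eq ?_), c1⟩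
      rw [gapS, Finset.sum_range_succ, ← gapS, gapC, zero_add, Finset.range_eq_Ico]
      abel

theorem og1_snd {a j J K Z i : ℕ} {rest : C.Stk} {N : MS}
    (h : C.og1 AI AE pt k a j K Z rest = true) (hj : j = 2 * J) (hZ : Z = 2 * K + (2 * J) ^ 2)
    (ha : 0 < a) (hi : i < K) (hN : Rz rest N)
    (G : GM (gapS a J K i + N) (I0 + dsum fI 4096 AI) (c0 + dsum fE 4096 AE) pt) : WW I0 c0 k := by
  unfold C.og1 at h
  rw [b_and, b_and, b_le, b_le] at h
  simp only [n_add, n_mul, n_pow, n_succ, n_div] at h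
  subst hj hZ
  obtain ⟨Pc, p1, p2, p3⟩ := close_gaps ha hi (by rw [mul_comm]; exact h.1)
    (by rw [mul_comm]; exact h.2.1)
  exact ⟨rest, AI, AE, _, N, hN, G.irr p1 p2 p3, by rw [← add_assoc]; exact h.2.2⟩

theorem og_snd (h : C.og st AI AE pt k = true) (hM : Rz st M)
    (G : GM M (I0 + dsum fI 4096 AI) (c0 + dsum fE 4096 AE) pt) : WW I0 c0 k := by
  cases st with
  | nil => exact absurd h (by simp [C.og])
  | hole => exact absurd h (by simp [C.og])
  | fh => exact absurd h (by simp [C.og])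
  | fa => exact absurd h (by simp [C.og])
  | gp a J K i rest =>
    obtain ⟨N, ha, hJ, hi, hK, hN, rfl⟩ := hM
    exact og1_snd h rfl rfl ha hi hN G

theorem lp_snd (f : ℕ) : ∀ {rem AI AE pt : ℕ} {st : C.Stk} {M : MS},
    C.lp k f rem st AI AE pt = true → Rz st M →
    GM M (I0 + dsum fI 4096 AI) (c0 + dsum fE 4096 AE) pt → WW I0 c0 k := by
  induction f with
  | zero => intro rem AI AE pt st M h; exact absurd h (by simp [C.lp])
  | succ f ih =>
    intro rem AI AE pt st M h hM G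
    have nx : ∀ rem, WW I0 c0 (C.lp k f rem) → WW I0 c0 k := by
      rintro rem ⟨st, AI, AE, pt, M, a1, a2, a3⟩
      exact ih a3 a1 a2
    change C.disp k (C.lp k f) rem (Nat.land rem C.cM80) st AI AE pt = true at h
    generalize Nat.land rem C.cM80 = r at h
    unfold C.disp at h
    generalize Nat.land r (nat_lit 15) = n at h
    rcases n with _ | _ | _ | _ | _ | _ | _ | _ | _ | _ | n
    · exact ⟨st, AI, AE, pt, M, hM, G, h⟩
    · exact nx _ (l1_snd h hM G)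
    · exact nx _ (oh_snd h hM G)
    · exact nx _ (k2_snd h hM G)
    · exact nx _ (k1_snd h hM G)
    · exact nx _ (oa_snd h hM G)
    · exact nx _ (oc_snd h hM G)
    · exact nx _ (og_snd h hM G)
    · exact nx _ (l2_snd h hM G)
    · exact nx _ (ox_snd h hM G)
    · exact nx _ (of_snd h hM G)

theorem run_snd (l : List ℕ) : WW I0 c0 (C.run k l) → WW I0 c0 k := by
  induction l with
  | nil => exact id
  | cons x l ih =>
    rintro ⟨st, AI, AE, pt, M, a1, a2, a3⟩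
    have e : C.run k (x :: l) = C.lp (C.run k l) (nat_lit 4000) x := rfl
    rw [e] at a3
    exact ih (lp_snd _ a3 a1 a2)
end

theorem eqs_snd (s : C.Stk) : ∀ u, C.eqs s u = true → s = u := by
  induction s with
  | nil => intro u h; cases u <;> first | rfl | exact absurd h (by simp [C.eqs])
  | hole a b c d r ih =>
    intro u h
    cases u with
    | hole =>
      simp only [C.eqs, b_and, b_eq] at h
      obtain ⟨rfl, rfl, rfl, rfl, h⟩ := h
      rw [ih _ h]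
    | _ => exact absurd h (by simp [C.eqs])
  | fh a b c d e r ih =>
    intro u h
    cases u with
    | fh =>
      simp only [C.eqs, b_and, b_eq] at h
      obtain ⟨rfl, rfl, rfl, rfl, rfl, h⟩ := h
      rw [ih _ h]
    | _ => exact absurd h (by simp [C.eqs])
  | fa a b c d e r ih =>
    intro u h
    cases u with
    | fa =>
      simp only [C.eqs, b_and, b_eq] at h
      obtain ⟨rfl, rfl, rfl, rfl, rfl, h⟩ := h
      rw [ih _ h]
    | _ => exact absurd h (by simp [C.eqs])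
  | gp a b c d r ih =>
    intro u h
    cases u with
    | gp =>
      simp only [C.eqs, b_and, b_eq] at h
      obtain ⟨rfl, rfl, rfl, rfl, h⟩ := h
      rw [ih _ h]
    | _ => exact absurd h (by simp [C.eqs])

noncomputable def LS {α : Type} [AddCommMonoid α] (f : ℕ → α) : List ℕ → α
  | [] => 0
  | K :: l => LS f l + dsum f 4096 K

/-- the state of the finite packing between two chunks of the certificate -/
def Good (st : C.Stk) (pt : ℕ) (li le : List ℕ) : Prop :=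
  ∃ M, Rz st M ∧ GM M (LS fI li) (LS fE le) pt

theorem chunk_snd {l : List ℕ} {s0 s1 : C.Stk} {p0 I1 E1 p1 : ℕ}
    (h : C.chunk l s0 p0 s1 I1 E1 p1 = true) {li le : List ℕ} (G : Good s0 p0 li le) :
    Good s1 p1 (I1 :: li) (E1 :: le) := by
  obtain ⟨M, a1, a2⟩ := G
  obtain ⟨st, AI, AE, pt, M', b1, b2, b3⟩ := run_snd (I0 := LS fI li) (c0 := LS fE le) l
    ⟨s0, 0, 0, p0, M, a1, by rwa [dsum_zero fI_zero, dsum_zero fE_zero, add_zero, add_zero], h⟩
  simp only [C.fin, b_and, b_eq] at b3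
  obtain ⟨rfl, rfl, rfl, b3⟩ := b3
  obtain rfl := eqs_snd _ _ b3
  exact ⟨M', b1, b2⟩

theorem good_init : Good (.hole C.cS C.cS C.cS C.cS .nil) 0 [] [] := by
  have : In C.cS C.cS 1 := ⟨by simp [SR], by simp [SR]⟩
  refine ⟨_, ⟨1, 1, 0, this, this, rfl, rfl⟩, 0, 0, Step.of_eq (by simp [LS]), WF.zero _,
    fun g h _ => ?_, by simp [PcOK], by simp [thin, len]⟩
  simp [lenI, LS, IC_zero]

end Pool.Agent.MP_f14165_co
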