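import Pool.Agent.MP_f14165_co.S1

set_option autoImplicit false

namespace Pool.Agent.MP_f14165_co
open Finset

noncomputable def LO {α : Type} [AddCommMonoid α] (f : ℕ → α) : List ℕ → ℕ → α
  | [], _ => 0
  | K :: l, o => LO f l (o / 2 ^ 12) + dsum f (o % 2 ^ 12) K

theorem land_mod (x n m : ℕ) (h : m = 2 ^ n - 1) : Nat.land x m = x % 2 ^ n := and_mask x n m h

section
variable {α : Type} [AddCommMonoid α] {f : ℕ → α}

theorem LO_zero (l : List ℕ) : LO f l 0 = 0 := by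
  induction l with
  | nil => rfl
  | cons K l ih => rw [LO, Nat.zero_div, Nat.zero_mod, ih, dsum, add_zero]

theorem done_snd (f0 : f 0 = 0) (l : List ℕ) : ∀ o, C.done l o = true → LO f l o = LS f l := by
  induction l with
  | nil => intro o _; rfl
  | cons K l ih =>
    intro o h
    have e : C.done (K :: l) o = @Bool.rec (fun _ => Bool) false (C.done l (Nat.shiftRight o 12))
      (Nat.beq (Nat.shiftRight K (Nat.mul 72 (Nat.land o 4095))) 0) := rfl
    rw [e, b_and, b_eq, land_mod o 12 4095 rfl, n_shr, n_shr, n_mul] at h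
    have h1 : o % 2 ^ 12 + (4096 - o % 2 ^ 12) = 4096 := by omega
    rw [LO, LS, ih _ h.2, ← h1, dsum_add, h.1, dsum_zero f0, add_zero]

variable {Inv : ℕ → α → ℕ → Prop} {g : ℕ → ℕ → (ℕ → Bool) → Bool}

theorem il_snd (hs : ∀ c x A key k, c < 2 ^ 20 → key < 2 ^ 72 → Inv c x A → g key A k = true →
      ∃ A', Inv (c + 1) (x + f key) A' ∧ k A' = true) {k : ℕ → Bool} (n : ℕ) :
    ∀ X A c x, c + n ≤ 2 ^ 20 → Inv c x A → C.il g k n X A = true →
      ∃ A', Inv (c + n) (x + dsum f n X) A' ∧ k A' = true := by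
  induction n with
  | zero => intro X A c x _ h1 h2; exact ⟨A, by rwa [dsum, add_zero, add_zero], h2⟩
  | succ n ih =>
    intro X A c x h0 h1 h2
    have e : C.il g k (n + 1) X A =
      g (Nat.land X C.cM72) A (C.il g k n (Nat.shiftRight X 72)) := rfl
    rw [e, land_mod X 72 C.cM72 rfl, n_shr] at h2
    obtain ⟨A1, a1, a2⟩ := hs _ _ _ _ _ (by omega) (Nat.mod_lt _ (by positivity)) h1 h2
    obtain ⟨A2, a3, a4⟩ := ih _ _ _ _ (by omega) a1 a2
    exact ⟨A2, by rwa [dsum, ← add_assoc x, add_comm n 1, ← add_assoc c], a4⟩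

theorem ga1_snd (hs : ∀ c x A key k, c < 2 ^ 20 → key < 2 ^ 72 → Inv c x A → g key A k = true →
      ∃ A', Inv (c + 1) (x + f key) A' ∧ k A' = true) {ih : ℕ → ℕ → ℕ → ℕ → Bool}
    {K o u o1 u1 c c' A : ℕ} {x : α} (h : C.ga1 g ih K o u o1 u1 c' A = true)
    (hc : c' = c + (u1 - o1)) (h1 : Inv c x A) :
    ∃ A' y, Inv c' (x + y) A' ∧ dsum f u1 K = dsum f o1 K + y ∧
      ih (o / 2 ^ 12) (u / 2 ^ 12) c' A' = true := by
  unfold C.ga1 at h
  rw [b_and, b_and, b_le, b_le] at h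
  obtain ⟨b1, b2, b3⟩ := h
  unfold C.ga2 at b3
  rw [n_shr, n_shr, n_shr, n_shl, n_mul, n_mul, n_sub, n_sub] at b3
  rw [land_mod _ (72 * (u1 - o1)) _ (by simp)] at b3
  have b4 : c' ≤ 1048576 := b2
  obtain ⟨A', a1, a2⟩ := il_snd hs _ _ _ _ _ (by omega) h1 b3
  refine ⟨A', _, by rwa [hc], ?_, a2⟩
  rw [dsum_mod, ← dsum_add]
  congr 1; omega

theorem ga_snd (hs : ∀ c x A key k, c < 2 ^ 20 → key < 2 ^ 72 → Inv c x A → g key A k = true →
      ∃ A', Inv (c + 1) (x + f key) A' ∧ k A' = true) {k : ℕ → Bool} (l : List ℕ) :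
    ∀ o u c A x, Inv c x A → C.ga g k l o u c A = true →
      ∃ c' A' y, Inv c' (x + y) A' ∧ LO f l u = LO f l o + y ∧ k A' = true := by
  induction l with
  | nil => intro o u c A x h1 h2; exact ⟨c, A, 0, by rwa [add_zero], by simp [LO], h2⟩
  | cons K l ih =>
    intro o u c A x h1 h2
    have e : C.ga g k (K :: l) o u c A = C.ga1 g (C.ga g k l) K o u (Nat.land o 4095)
      (Nat.land u 4095) (Nat.add c (Nat.sub (Nat.land u 4095) (Nat.land o 4095))) A := rfl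
    rw [e, land_mod o 12 4095 rfl, land_mod u 12 4095 rfl] at h2
    obtain ⟨A1, y, a1, a2, a3⟩ := ga1_snd hs h2 rfl h1
    obtain ⟨c', A2, y', a4, a5, a6⟩ := ih _ _ _ _ _ a1 a3
    refine ⟨c', A2, y + y', by rwa [← add_assoc], ?_, a6⟩
    rw [LO, LO, a2, a5]; abel
end

noncomputable def IT (T : ℕ) : MS := ∑ j ∈ Ico 1 T, ({item j} : MS)

theorem tl_snd {T1 : ℕ} (n W : ℕ) : ∀ A T, 1 ≤ T → C.tl T1 W A T = true →
    1 ≤ T1 ∧ IT T + dsum fI (n + W) A = IT T1 := by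
  induction W with
  | zero =>
    intro A T h1 h2
    have e : C.tl T1 0 A T = @Bool.rec (fun _ => Bool) false (Nat.beq T T1) (Nat.beq A 0) := rfl
    rw [e, b_and, b_eq, b_eq] at h2
    obtain ⟨rfl, rfl⟩ := h2
    exact ⟨h1, by rw [dsum_zero fI_zero, add_zero]⟩
  | succ W ih =>
    intro A T h1 h2
    have e : C.tl T1 (W + 1) A T = C.tl1 (C.tl T1 W) A T (Nat.land A C.cM72) := rfl
    rw [e, land_mod A 72 C.cM72 rfl] at h2
    unfold C.tl1 at h2
    rw [b_and, b_eq, land_mod _ 27 C.cM27 rfl, n_shr, n_shr, n_shr, n_add] at h2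
    obtain ⟨a1, a2⟩ := ih _ _ (h1.trans (Nat.le_add_right _ _)) h2.2
    refine ⟨a1, ?_⟩
    rw [← a2, ← add_assoc n, dsum, ← add_assoc, fI]
    congr 1
    rw [← h2.1] at h1 ⊢
    exact Finset.sum_Ico_consecutive _ h1 (Nat.le_add_right _ _)

/-- the items `1, …, T - 1` are exactly those met so far -/
def IV (l : List ℕ) (o T : ℕ) : Prop := 1 ≤ T ∧ LO fI l o = IT T

theorem IV_init (l : List ℕ) : IV l 0 1 := ⟨le_rfl, by simp [LO_zero, IT]⟩

theorem bucketI_snd {l : List ℕ} {o u r0 W T0 T1 : ℕ} (h : C.bucketI l o u r0 W T0 T1 = true)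
    (H : IV l o T0) : IV l u T1 := by
  unfold C.bucketI at h
  obtain ⟨c, A, y, a1, a2, a3⟩ := ga_snd (f := fI)
    (Inv := fun _ x A => dsum fI (524288 + W) A = x) (by
      intro c x A key k _ h1 h2 h3
      unfold C.fi at h3
      obtain ⟨A', b1, b2⟩ := sc_snd (n := 524288 + W) fI_zero h3 h1
        (((Nat.sub_le _ _).trans (land_le key 524287)).trans_lt (by omega))
      exact ⟨A', by rw [b1, h2], b2⟩) l o u 0 0 0 (dsum_zero fI_zero _) h
  obtain ⟨b1, b2⟩ := tl_snd 524288 W A T0 H.1 a3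
  exact ⟨b1, by rw [a2, H.2, ← b2, a1, zero_add]⟩

def dg (A p : ℕ) : ℕ := A / 2 ^ (48 * p) % 2 ^ 48

theorem dg_zero (A : ℕ) : dg A 0 = A % 2 ^ 48 := by simp [dg]

theorem dg_add (A p q : ℕ) : dg A (q + p) = dg (A / 2 ^ (48 * q)) p := by
  rw [dg, dg, Nat.div_div_eq_div_mul, ← pow_add, mul_add]

theorem dg_succ (A p : ℕ) : dg A (p + 1) = dg (A / 2 ^ 48) p := by rw [add_comm, dg_add]

theorem dg_inc {z : ℕ} (q : ℕ) : ∀ A p, dg A q + z < 2 ^ 48 →
    dg (A + z * 2 ^ (48 * q)) p = dg A p + sing q z p := by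
  induction q with
  | zero =>
    intro A p h
    rw [dg_zero] at h
    rw [Nat.mul_zero, pow_zero, mul_one]
    cases p with
    | zero => rw [dg_zero, dg_zero, sing, if_pos rfl]; omega
    | succ p =>
      rw [dg_succ, dg_succ, sing, if_neg (by omega), add_zero,
        show (A + z) / 2 ^ 48 = A / 2 ^ 48 by omega]
  | succ q ih =>
    intro A p h
    have e : z * 2 ^ (48 * (q + 1)) = 2 ^ 48 * (z * 2 ^ (48 * q)) := by ring
    rw [e]
    cases p with
    | zero => rw [dg_zero, dg_zero, sing, if_neg (by omega), Nat.add_mul_mod_self_left, add_zero]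
    | succ p =>
      rw [dg_succ] at h
      rw [dg_succ, dg_succ, Nat.add_mul_div_left _ _ (by positivity), ih _ _ h]
      simp only [sing]
      split_ifs <;> omega

def HI (P0 c : ℕ) (x : ℕ → ℕ) (A : ℕ) : Prop :=
  (∀ p, p < P0 → x p = 0) ∧ (∀ p, x p ≤ c * 2 ^ 27) ∧ ∀ p, dg A p = x (P0 + p)

theorem sing_le (P z p : ℕ) : sing P z p ≤ z := by unfold sing; split_ifs <;> omega

theorem hi_add {P0 P A a b u c : ℕ} {x : ℕ → ℕ} (H : HI P0 c x A) (hc : c < 2 ^ 20)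
    (ha : a < 2 ^ 26) (hb : b < 2 ^ 26) (hP : P0 ≤ P) :
    HI P0 (c + 1) (x + (sing P a + sing (P + 1 + u) b))
      (A + (a + b * 2 ^ (48 + 48 * u)) * 2 ^ (48 * (P - P0))) := by
  obtain ⟨h1, h2, h3⟩ := H
  refine ⟨fun p hp => ?_, fun p => ?_, fun p => ?_⟩
  · simp only [Pi.add_apply, sing]
    rw [h1 p hp, if_neg (by omega), if_neg (by omega)]
  · have := h2 p; have := sing_le P a p; have := sing_le (P + 1 + u) b p
    simp only [Pi.add_apply]; omega
  · have e : A + (a + b * 2 ^ (48 + 48 * u)) * 2 ^ (48 * (P - P0)) =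
        A + a * 2 ^ (48 * (P - P0)) + b * 2 ^ (48 * (P - P0 + 1 + u)) := by ring
    have c1 : dg A (P - P0) + a < 2 ^ 48 := by have := h2 (P0 + (P - P0)); rw [h3]; omega
    have c2 : dg (A + a * 2 ^ (48 * (P - P0))) (P - P0 + 1 + u) + b < 2 ^ 48 := by
      have := h2 (P0 + (P - P0 + 1 + u)); have := sing_le (P - P0) a (P - P0 + 1 + u)
      rw [dg_inc _ _ _ c1, h3]; omega
    rw [e, dg_inc _ _ _ c2, dg_inc _ _ _ c1, h3]
    simp only [Pi.add_apply, sing]
    split_ifs <;> omega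

theorem fe_snd {P0 : ℕ} (c : ℕ) (x : ℕ → ℕ) (A key : ℕ) (k : ℕ → Bool) (hc : c < 2 ^ 20)
    (hk : key < 2 ^ 72) (H : HI P0 c x A) (h : C.fe P0 key A k = true) :
    ∃ A', HI P0 (c + 1) (x + fE key) A' ∧ k A' = true := by
  unfold C.fe at h
  rw [land_mod key 19 (nat_lit 524287) rfl] at h
  unfold C.fe1 at h
  rw [b_and, b_le, land_mod _ 26 C.cM26 rfl, land_mod _ 1 (nat_lit 1) rfl] at h
  simp only [n_add, n_mul, n_sub, n_shl, n_shr, pow_one] at h
  exact ⟨_, hi_add H hc (by omega) (Nat.mod_lt _ (by positivity)) h.1, h.2⟩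

end Pool.Agent.MP_f14165_co
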