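import Pool.Agent.MP_f14165_co.S2

set_option autoImplicit false

namespace Pool.Agent.MP_f14165_co
open Finset

noncomputable def mR : ℝ := 3600000 / 2 ^ 36

noncomputable def DD (c : ℕ → ℕ) (h : ℕ) : ℝ := ∑ i ∈ range h, ((c (4 * i + 2) : ℝ) - c (4 * i + 3))

noncomputable def VV (c : ℕ → ℕ) (g h : ℕ) : ℝ :=
  Eq' mR g + phq (G1 g) + IC c g h + ∑ k ∈ Ico g h, (thq k + capq k - cq k)

theorem UU_succ (c : ℕ → ℕ) (s h : ℕ) : UU c s (h + 1) =
    UU c s h + (c (4 * h + s) : ℝ) / 2 ^ 36 + DD c (h + 1) * (wq h - wq (h + 1)) := by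
  unfold UU DD
  rw [Finset.sum_range_succ, Finset.sum_range_succ, add_mul, Finset.sum_mul]
  have : ∑ i ∈ range h, ((c (4 * i + s) : ℝ) / 2 ^ 36 +
      ((c (4 * i + 2) : ℝ) - c (4 * i + 3)) * (wq i - wq (h + 1))) =
      ∑ i ∈ range h, ((c (4 * i + s) : ℝ) / 2 ^ 36 +
        ((c (4 * i + 2) : ℝ) - c (4 * i + 3)) * (wq i - wq h)) +
      ∑ i ∈ range h, ((c (4 * i + 2) : ℝ) - c (4 * i + 3)) * (wq h - wq (h + 1)) := by
    rw [← Finset.sum_add_distrib]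
    exact Finset.sum_congr rfl fun i _ => by ring
  rw [this]; ring

theorem VV_succ (c : ℕ → ℕ) {g h : ℕ} (hg : g ≤ h) : VV c g (h + 1) =
    VV c g h + (c (4 * h) : ℝ) / 2 ^ 36 + DD c (h + 1) * (wq h - wq (h + 1)) +
      (thq h + capq h - cq h) := by
  unfold VV IC
  rw [Finset.sum_Ico_succ_top hg, UU_succ, add_zero]; ring

theorem IC_succ (c : ℕ → ℕ) (h : ℕ) : IC c (h + 1) (h + 1) =
    IC c h h + ((c (4 * h) : ℝ) - c (4 * h + 1)) / 2 ^ 36 := by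
  unfold IC
  rw [UU_succ, UU_succ, add_zero]; ring

theorem DD_succ (c : ℕ → ℕ) (h : ℕ) : DD c (h + 1) = DD c h + ((c (4 * h + 2) : ℝ) - c (4 * h + 3)) :=
  Finset.sum_range_succ _ _

theorem VV_self (c : ℕ → ℕ) (h : ℕ) : VV c h h = Eq' mR h + phq (G1 h) + IC c h h := by
  simp [VV]

structure SW (c : ℕ → ℕ) (h v O D g1 g2 : ℕ) : Prop where
  h0 : 5800 ≤ h
  hv : ∀ g, 5800 ≤ g → g ≤ h → VV c g h ≤ v / 2 ^ 36
  ho : IC c h h ≤ O / 2 ^ 36
  hd : DD c h ≤ D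
  ok : ∀ g k, 5800 ≤ g → g < k → k ≤ h → VV c g k ≤ cq k + phq (G2 k)
  a1 : g1 ≤ G1 h
  a2 : 5800 ≤ g2

theorem SW.congr {c c' : ℕ → ℕ} {h v O D g1 g2 : ℕ} (H : SW c h v O D g1 g2)
    (e : ∀ p, p < 4 * h → c' p = c p) : SW c' h v O D g1 g2 := by
  have u : ∀ s k, s < 4 → k ≤ h → UU c' s k = UU c s k := fun s k hs hk =>
    Finset.sum_congr rfl fun i hi => by
      have := Finset.mem_range.1 hi
      rw [e _ (by omega), e _ (by omega), e _ (by omega)]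
  have i : ∀ g k, g ≤ k → k ≤ h → IC c' g k = IC c g k := fun g k hg hk => by
    unfold IC; rw [u 0 k (by omega) hk, u 1 g (by omega) (by omega)]
  have w : ∀ g k, g ≤ k → k ≤ h → VV c' g k = VV c g k := fun g k hg hk => by
    unfold VV; rw [i g k hg hk]
  refine ⟨H.h0, fun g a b => by rw [w g h b le_rfl]; exact H.hv g a b,
    by rw [i h h le_rfl le_rfl]; exact H.ho, le_trans (le_of_eq ?_) H.hd,
    fun g k a b d => by rw [w g k b.le d]; exact H.ok g k a b d, H.a1, H.a2⟩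
  exact Finset.sum_congr rfl fun i hi => by
    have := Finset.mem_range.1 hi
    rw [e _ (by omega), e _ (by omega)]

theorem b_if {α : Type} (x y : α) (a b : ℕ) :
    @Bool.rec (fun _ => α) x y (Nat.ble a b) = if a ≤ b then y else x := by
  simp only [b_ite, b_le]

theorem cq_hi {h : ℕ} (hh : 5817 ≤ h) : 3 / ((h : ℝ) + 42) ≤ cq h := by
  have hx : (5817 : ℝ) ≤ h := by exact_mod_cast hh
  have := pow_le_pow_left₀ (by norm_num) (show (5820 : ℝ) ≤ h + 3 by linarith) 3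
  unfold cq
  rw [max_eq_right (by linarith), add_assoc, show (4100 : ℝ) + 73800 = 77900 by norm_num]
  exact p_clo (by linarith)

theorem cq_lo {h : ℕ} (hh : h ≤ 5816) : cq h = (1 - 197137442300 / ((h : ℝ) + 21) ^ 3) / 18 := by
  have hx : (h : ℝ) ≤ 5816 := by exact_mod_cast hh
  have := pow_le_pow_left₀ (by positivity) (show (h : ℝ) + 3 ≤ 5819 by linarith) 3
  unfold cq
  rw [max_eq_left (by linarith)]; norm_num

theorem cl_le {h : ℕ} (hh : 5800 ≤ h) : (C.cl h : ℝ) ≤ cq h * 2 ^ 36 := by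
  have hx : (5800 : ℝ) ≤ h := by exact_mod_cast hh
  unfold C.cl
  rw [b_if]
  simp only [n_add, n_sub, n_mul, n_pow, n_div]
  split_ifs with h1
  · refine (div_lo _ _).trans (le_trans (le_of_eq ?_)
      (mul_le_mul_of_nonneg_right (cq_hi h1) (by positivity)))
    simp only [C.cZ3]; push_cast; ring
  · refine (div_lo _ _).trans (le_of_eq ?_)
    have : 197137442300 ≤ (h + 21) ^ 3 :=
      le_trans (by norm_num) (Nat.pow_le_pow_left (show 5821 ≤ h + 21 by omega) 3)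
    rw [cq_lo (by omega)]
    simp only [C.cZ]; push_cast [Nat.cast_sub this]; field_simp; norm_num

theorem cp_ge (h : ℕ) : capq h * 2 ^ 36 ≤ (C.cp h : ℝ) := by
  unfold C.cp capq
  rw [b_if]
  simp only [n_succ, n_mul, n_div]
  split_ifs with h1
  · rw [Nat.cast_succ]
    refine le_trans (le_of_eq ?_) (div_hi _ _ (by omega))
    simp only [C.cZ12]; push_cast; ring
  · simp

theorem fh_in (g : ℕ) : (C.fh g : ℝ) ≤ phq g * 2 ^ 36 ∧ phq g * 2 ^ 36 ≤ C.fh g + 1 := by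
  have e : phq g * 2 ^ 36 = (C.cF : ℝ) / (((2 * g + 5) ^ 2 : ℕ) : ℝ) := by
    simp only [phq, C.cF]; push_cast; ring
  rw [e]
  exact ⟨div_lo _ _, div_hi _ _ (by positivity)⟩

theorem phq_anti {g g' : ℕ} (h : g ≤ g') : phq g' ≤ phq g := by
  have : (g : ℝ) ≤ g' := by exact_mod_cast h
  exact div_le_div_of_nonneg_left (by norm_num) (by positivity)
    (pow_le_pow_left₀ (by positivity) (by linarith) 2)

theorem pq_eq (g : ℕ) : (C.pq g : ℝ) = (((g : ℝ) + 20) * (g + 21)) ^ 2 + 311600 * g := by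
  unfold C.pq
  simp only [n_add, n_mul, n_pow]
  push_cast; rfl

theorem dq_sum {a b : ℕ} (h : a ≤ b) : ∑ k ∈ Ico a b, dq k = ((C.pq b : ℝ) - C.pq a) / 295200 := by
  induction b, h using Nat.le_induction with
  | base => simp
  | succ b hb ih => rw [Finset.sum_Ico_succ_top hb, ih, pq_eq b, pq_eq (b + 1), dq]; push_cast; ring

theorem om_le {h : ℕ} (hh : 0 < h) :
    0 ≤ wq h - wq (h + 1) ∧ wq h - wq (h + 1) ≤ 12300 / (h : ℝ) ^ 4 := by
  refine ⟨sub_nonneg.2 (wq_anti (Nat.lt_succ_self h)).le, ?_⟩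
  have : (0 : ℝ) < h := by exact_mod_cast hh
  rw [wq_pos' hh, wq_pos' (Nat.succ_pos h)]
  push_cast
  rw [div_sub_div _ _ (by positivity) (by positivity),
    div_le_div_iff₀ (by positivity) (by positivity), ← sub_nonneg]
  ring_nf; positivity

theorem G1_mono {h h' : ℕ} (hh : h ≤ h') : G1 h ≤ G1 h' :=
  Nat.find_min' _ ⟨G1_ge h', lt_of_le_of_lt (Nat.mul_le_mul_left _ (Nat.pow_le_pow_left hh 3))
    (Nat.find_spec (ex1 h')).2⟩

theorem thq_le {h a b : ℕ} (hh : 0 < h) (ha : a ≤ G1 h) (hb : G2 (h + 1) ≤ b) :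
    thq h ≤ (wq h - wq (h + 1)) * (((C.pq b : ℝ) - C.pq a) / 295200) := by
  rw [← dq_sum (ha.trans ((G1_le_G2 (Nat.le_succ h)).trans hb))]
  exact mul_le_mul_of_nonneg_left (Finset.sum_le_sum_of_subset_of_nonneg
    (Finset.Ico_subset_Ico ha hb) fun k _ _ => dq_nonneg k) (om_le hh).1

theorem inc_ge {h D a b : ℕ} {x : ℝ} (hh : 0 < h) (ha : a ≤ G1 h) (hb : G2 (h + 1) ≤ b)
    (hx : x ≤ D) : (x * (wq h - wq (h + 1)) + thq h) * 2 ^ 36 ≤
      (((D * 295200 + C.pq b - C.pq a) * 2 ^ 33 / (3 * h ^ 4) : ℕ) : ℝ) + 1 := by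
  have h0 : (0 : ℝ) < h := by exact_mod_cast hh
  refine le_trans ?_ (div_hi _ _ (by positivity))
  have a1 := thq_le hh ha hb
  obtain ⟨a2, a3⟩ := om_le hh
  have a4 := sub_hi (D * 295200 + C.pq b) (C.pq a)
  generalize D * 295200 + C.pq b - C.pq a = X at *
  push_cast at a4 ⊢
  have a5 := mul_le_mul_of_nonneg_right hx a2
  have a6 := mul_le_mul_of_nonneg_left a4 a2
  have a7 := mul_le_mul_of_nonneg_right a3 (Nat.cast_nonneg (α := ℝ) X)
  have e : (X : ℝ) * 8589934592 / (3 * (h : ℝ) ^ 4) =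
      12300 / (h : ℝ) ^ 4 * X / 295200 * 2 ^ 36 := by field_simp; ring
  rw [e]
  refine mul_le_mul_of_nonneg_right ?_ (by positivity)
  linarith

def EB (Eb h : ℕ) : Prop := ∀ k, h < k → Eq' mR k ≤ Eb / 2 ^ 36

theorem SW.step {c : ℕ → ℕ} {h v O D g1 g2 O1 D1 a b v1 v2 Eb : ℕ} (H : SW c h v O D g1 g2)
    (E : EB Eb h) (e1 : O1 = O + c (4 * h) - c (4 * h + 1))
    (e2 : D1 = D + c (4 * h + 2) - c (4 * h + 3)) (hb : G2 (h + 1) ≤ b) (ha : a ≤ G1 (h + 1))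
    (e3 : v1 = v + c (4 * h) + (D1 * 295200 + C.pq b - C.pq g1) * 2 ^ 33 / (3 * h ^ 4) + 1 +
      C.cp h - C.cl h)
    (c1 : v1 ≤ C.cl (h + 1) + C.fh b) (c2 : v1 ≤ v2) (c3 : Eb + C.fh a + 1 + O1 ≤ v2) :
    SW c (h + 1) v2 O1 D1 a b := by
  have h0 := H.h0
  have o1 : IC c (h + 1) (h + 1) ≤ O1 / 2 ^ 36 := by
    have := sub_hi (O + c (4 * h)) (c (4 * h + 1))
    rw [← e1] at this
    push_cast at this
    rw [IC_succ]
    linarith [H.ho]
  have d1 : DD c (h + 1) ≤ D1 := by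
    have := sub_hi (D + c (4 * h + 2)) (c (4 * h + 3))
    rw [← e2] at this
    push_cast at this
    rw [DD_succ]
    linarith [H.hd]
  have w1 : ∀ g, 5800 ≤ g → g ≤ h → VV c g (h + 1) ≤ v1 / 2 ^ 36 := by
    intro g b1 b2
    have i1 := inc_ge (by omega) H.a1 hb d1
    have i2 := sub_hi (v + c (4 * h) +
      (D1 * 295200 + C.pq b - C.pq g1) * 2 ^ 33 / (3 * h ^ 4) + 1 + C.cp h) (C.cl h)
    rw [← e3] at i2
    generalize (D1 * 295200 + C.pq b - C.pq g1) * 2 ^ 33 / (3 * h ^ 4) = X at *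
    push_cast at i2
    rw [VV_succ c b2]
    linarith [H.hv g b1 b2, cp_ge h, cl_le h0]
  have c1' : (v1 : ℝ) ≤ C.cl (h + 1) + C.fh b := by exact_mod_cast c1
  have c2' : (v1 : ℝ) ≤ v2 := by exact_mod_cast c2
  have c3' : (Eb : ℝ) + C.fh a + 1 + O1 ≤ v2 := by exact_mod_cast c3
  refine ⟨by omega, fun g b1 b2 => ?_, o1, d1, fun g k b1 b2 b3 => ?_, ha, (G2_ge _).trans hb⟩
  · rcases b2.eq_or_lt with rfl | b3
    · rw [VV_self]
      linarith [E (h + 1) (by omega), phq_anti ha, (fh_in a).2]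
    · linarith [w1 g b1 (by omega)]
  · rcases b3.eq_or_lt with rfl | b4
    · linarith [w1 g b1 (by omega), cl_le (show 5800 ≤ h + 1 by omega), phq_anti hb, (fh_in b).1]
    · exact H.ok g k b1 b2 (by omega)

theorem b_or {x y : Bool} {a b : ℕ} (h : @Bool.rec (fun _ => Bool) x y (Nat.ble a b) = true) :
    (a ≤ b ∧ y = true) ∨ (b < a ∧ x = true) := by
  rw [b_if] at h
  split_ifs at h with h1
  · exact Or.inl ⟨h1, h⟩
  · exact Or.inr ⟨not_le.1 h1, h⟩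

theorem mx_ge (a b : ℕ) : a ≤ C.mx a b ∧ b ≤ C.mx a b := by
  unfold C.mx
  rw [b_if]
  split_ifs <;> omega

section
variable {Eb : ℕ} {ih : ℕ → ℕ → ℕ → ℕ → ℕ → ℕ → Bool}

theorem sw3_snd {h1 v1 O D g1 g2 : ℕ} (h : C.sw3 Eb ih h1 v1 O D g1 g2 = true) (ha : g1 ≤ G1 h1) :
    v1 ≤ C.cl h1 + C.fh g2 ∧ ∃ a v2, a ≤ G1 h1 ∧ v1 ≤ v2 ∧ Eb + C.fh a + 1 + O ≤ v2 ∧
      ih h1 v2 O D a g2 = true := by
  unfold C.sw3 at h
  rw [b_and, b_le] at h
  refine ⟨h.1, ?_⟩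
  rcases b_or h.2 with ⟨a1, a2⟩ | ⟨_, a2⟩
  · unfold C.sw4 at a2
    rw [frc_eq] at a2
    refine ⟨_, _, ?_, (mx_ge _ _).1, (mx_ge _ _).2, a2⟩
    by_contra hn
    have := crit1_mono (show G1 h1 ≤ g1 by omega) (Nat.find_spec (ex1 h1)).2
    unfold C.c1 at a1
    simp only [n_add, n_mul, n_pow, n_succ] at a1
    omega
  · unfold C.sw4 at a2
    rw [frc_eq] at a2
    exact ⟨_, _, ha, (mx_ge _ _).1, (mx_ge _ _).2, a2⟩

theorem G2_le {h g : ℕ} (hg : 5800 ≤ g) (hc : 6601 * h ^ 3 < C.c2 g) : G2 h ≤ g := by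
  unfold C.c2 at hc
  simp only [n_add, n_mul, n_pow, n_sub] at hc
  exact Nat.find_min' _ ⟨hg, hc⟩

theorem sw1_snd {h h1 x va O D g1 g2 : ℕ} (H : C.sw1 Eb ih h h1 x va O D g1 g2 = true)
    (hx : x = 6601 * h1 ^ 3) (hg : 5800 ≤ g2) :
    ∃ b, G2 h1 ≤ b ∧ C.sw2 Eb ih h h1 va O D g1 b = true := by
  unfold C.sw1 at H
  rcases b_or H with ⟨_, a2⟩ | ⟨a1, a2⟩
  · rw [b_and, b_le] at a2
    exact ⟨_, G2_le (Nat.le_succ_of_le hg) (hx ▸ a2.1), a2.2⟩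
  · exact ⟨_, G2_le hg (hx ▸ a1), a2⟩

theorem sw0_snd {c : ℕ → ℕ} {F aa h v O D g1 g2 : ℕ}
    (h1 : C.sw0 Eb ih F aa h (h + 1) v O D g1 g2 = true) (H : SW c h v O D g1 g2) (E : EB Eb h)
    (e0 : aa = c (4 * h)) (e1 : F / 2 ^ 48 % 2 ^ 48 = c (4 * h + 1))
    (e2 : F / 2 ^ 96 % 2 ^ 48 = c (4 * h + 2)) (e3 : F / 2 ^ 144 = c (4 * h + 3)) :
    ∃ v O D g1 g2, SW c (h + 1) v O D g1 g2 ∧ ih (h + 1) v O D g1 g2 = true := by
  unfold C.sw0 at h1
  rw [frc_eq, frc_eq, land_mod _ 48 C.cM48 rfl, land_mod _ 48 C.cM48 rfl] at h1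
  simp only [n_add, n_sub, n_shr, n_mul, n_pow] at h1
  rw [e0, e1, e2, e3] at h1
  obtain ⟨b, a1, a2⟩ := sw1_snd h1 rfl H.a2
  unfold C.sw2 at a2
  simp only [n_add, n_sub, n_shl, n_mul, n_pow, n_div, n_succ] at a2
  obtain ⟨a3, a, v2, a4, a5, a6, a7⟩ := sw3_snd a2 (H.a1.trans (G1_mono (Nat.le_succ h)))
  exact ⟨_, _, _, _, _, H.step E rfl rfl a1 a4 rfl a3 a5 a6, a7⟩
end

theorem sw_snd {Eb : ℕ} {k : ℕ → ℕ → ℕ → ℕ → ℕ → ℕ → Bool} {c : ℕ → ℕ} (W : ℕ) :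
    ∀ A h v O D g1 g2, C.sw Eb k W A h v O D g1 g2 = true → SW c h v O D g1 g2 → EB Eb h →
      (∀ p, dg A p = c (4 * h + p)) → ∃ h v O D g1 g2, SW c h v O D g1 g2 ∧
        (∀ p, c (4 * h + p) = 0) ∧ k h v O D g1 g2 = true := by
  induction W with
  | zero =>
    intro A h v O D g1 g2 h1 H _ h2
    have e : C.sw Eb k 0 A h v O D g1 g2 =
      @Bool.rec (fun _ => Bool) false (k h v O D g1 g2) (Nat.beq A 0) := rfl
    rw [e, b_and, b_eq] at h1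
    exact ⟨h, v, O, D, g1, g2, H, fun p => by rw [← h2, h1.1]; simp [dg], h1.2⟩
  | succ W ih =>
    intro A h v O D g1 g2 h1 H E h2
    have e : C.sw Eb k (W + 1) A h v O D g1 g2 =
      C.swa Eb (C.sw Eb k W) A (Nat.land A C.cM192) h v O D g1 g2 := rfl
    rw [e, land_mod A 192 C.cM192 rfl] at h1
    unfold C.swa at h1
    rw [frc_eq, land_mod _ 48 C.cM48 rfl, n_shr, n_succ] at h1
    have d0 := h2 0; have d1 := h2 1; have d2 := h2 2; have d3 := h2 3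
    simp only [dg, Nat.reduceMul, add_zero] at d0 d1 d2 d3
    obtain ⟨v, O, D, g1, g2, a1, a2⟩ := sw0_snd h1 H E (by omega) (by omega) (by omega) (by omega)
    refine ih _ _ _ _ _ _ _ a2 a1 (fun k hk => E k (by omega)) fun p => ?_
    rw [show 4 * (h + 1) + p = 4 * h + (4 + p) by omega, ← h2, dg_add]

theorem ebok_snd {Eb h : ℕ} (hh : 5800 ≤ h) (H : C.ebok Eb h = true) : EB Eb h := by
  intro k hk
  unfold Eq'
  rw [if_neg (by omega)]
  unfold C.ebok at H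
  rcases b_or H with ⟨a1, _⟩ | ⟨_, a2⟩
  · refine (min_le_left _ _).trans (div_le_div_of_nonneg_right ?_ (by positivity))
    exact_mod_cast a1
  · rw [b_le] at a2
    simp only [n_add, n_mul, n_pow] at a2
    have a3 : (C.cQZ : ℝ) ≤ (Eb : ℝ) ^ 2 * ((h : ℝ) + 3) ^ 3 := by exact_mod_cast a2
    have a4 : (h : ℝ) + 1 ≤ k := by exact_mod_cast hk
    have a5 := pow_le_pow_left₀ (by positivity) (show (h : ℝ) + 3 ≤ k + 2 by linarith) 3
    have a6 := mul_le_mul_of_nonneg_left a5 (sq_nonneg (Eb : ℝ))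
    refine (min_le_right _ _).trans (Real.sqrt_le_iff.2 ⟨by positivity, ?_⟩)
    rw [div_pow, div_le_div_iff₀ (by positivity) (by positivity)]
    simp only [C.cQZ] at a3
    push_cast at a3
    linarith

/-- the state of the sweep over the windows between two buckets of the certificate -/
def EV (l : List ℕ) (o h v O D g1 g2 : ℕ) : Prop :=
  SW (LO fE l o) h v O D g1 g2 ∧ ∀ p, LO fE l o (4 * h + p) = 0

theorem bucketE_snd {l : List ℕ} {o u Eb W h v O D g1 g2 h2 v2 O2 D2 a2 b2 : ℕ}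
    (h1 : C.bucketE l o u Eb W h v O D g1 g2 h2 v2 O2 D2 a2 b2 = true)
    (H : EV l o h v O D g1 g2) : EV l u h2 v2 O2 D2 a2 b2 := by
  unfold C.bucketE at h1
  rw [b_and, n_mul] at h1
  obtain ⟨c, A, y, ⟨b1, _, b3⟩, b4, b5⟩ := ga_snd (f := fE) (Inv := HI (4 * h))
    (fun c x A key k a b d e => fe_snd c x A key k a b d e) l o u 0 0 0
    ⟨fun _ _ => rfl, fun _ => Nat.zero_le _, fun p => by simp [dg]⟩ h1.2
  rw [zero_add] at b1 b3
  unfold C.swk at b5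
  obtain ⟨h, v, O, D, g1, g2, c1, c2, c3⟩ := sw_snd (c := LO fE l u) W A h v O D g1 g2 b5
    (H.1.congr fun p hp => by rw [b4, Pi.add_apply, b1 p hp, add_zero]) (ebok_snd H.1.h0 h1.1)
    fun p => by rw [b4, Pi.add_apply, H.2, zero_add, b3]
  unfold C.swf at c3
  simp only [b_and, b_eq] at c3
  obtain ⟨rfl, rfl, rfl, rfl, rfl, rfl⟩ := c3
  exact ⟨c1, c2⟩

theorem EV_init (l : List ℕ) : EV l 0 5800 4184114 0 0 5800 5800 := by
  unfold EV
  rw [LO_zero]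
  refine ⟨⟨le_rfl, fun g a b => ?_, by simp [IC_zero], by simp [DD], fun g k a b d => by omega,
    G1_ge _, le_rfl⟩, fun _ => rfl⟩
  obtain rfl : g = 5800 := by omega
  rw [VV_self, IC_zero, Eq', if_pos le_rfl]
  have := phq_anti (G1_ge 5800)
  norm_num [phq] at this ⊢
  linarith

end Pool.Agent.MP_f14165_co
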