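import Pool.Agent.MP_f14165_co.Rows

set_option autoImplicit false

namespace Pool.Agent.MP_f14165_co
open Finset

theorem mem_fsum {ι : Type} {t : Finset ι} {f : ι → ℝ × ℝ} {s : ℝ × ℝ}
    (h : s ∈ ∑ i ∈ t, ({f i} : MS)) : ∃ i ∈ t, s = f i := by
  simpa using h

theorem chain_fam {e d τ : ℝ} (he : 0 ≤ e) (hd : 0 ≤ d) (k : ℕ) : ∀ B s : ℕ → ℝ,
    (∀ t, t < k → s t ≤ s (t + 1) ∧ B t ≤ e ∧ B t ≤ d * (s (t + 1) - s t)) → s k ≤ τ →
    s 0 ≤ τ ∧ Chain (s 0) τ e d (∑ t ∈ range k, ({(B t, s t)} : MS)) := by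
  induction k with
  | zero => intro B s _ h; exact ⟨h, by simpa using Chain.zero h he hd⟩
  | succ k ih =>
    intro B s h h1
    obtain ⟨i1, i2⟩ := ih (fun t => B (t + 1)) (fun t => s (t + 1))
      (fun t ht => h (t + 1) (by omega)) h1
    obtain ⟨a1, a2, a3⟩ := h 0 (by omega)
    refine ⟨a1.trans i1, ?_⟩
    rw [Finset.sum_range_succ', add_comm, Multiset.singleton_add]
    exact i2.cons a1 (a1.trans i1) he hd a2 a3

theorem Chain.le {p τ e d : ℝ} {C : MS} (h : Chain p τ e d C) (he : 0 ≤ e) (hd : 0 ≤ d)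
    {lo hi : ℝ} (hl : lo < hi) : lenI lo hi C ≤ e + d * (hi - lo) := by
  refine (h lo hi hl).trans ?_
  unfold tb
  split_ifs
  · have := min_le_left hi τ
    have := le_max_left lo p
    nlinarith
  · nlinarith

structure Sm (sl su e d tot pi : ℕ) (R : MS) : Prop where
  lo : ∀ s ∈ R, (sl : ℝ) ≤ s.2 * SR
  hi : ∀ s ∈ R, s.2 * SR ≤ su
  wf : ∀ s ∈ R, s.2 ≤ s.1
  ch : ∀ lo hi, lo < hi → lenI lo hi R ≤ e / 2 ^ 36 + d * (hi - lo)
  tot : len R ≤ tot / 2 ^ 36
  pi : thin R * SR ≤ pi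

theorem sm_hole {a b c d : ℕ} {L y : ℝ} (h1 : In a b L) (h2 : In c d y) (h : d ≤ a) :
    Sm c d (b / C.cS36 + 1) 0 (b / C.cS36 + 1) d {(L, y)} := by
  have h3 : (d : ℝ) ≤ a := by exact_mod_cast h
  have h4 : L ≤ ((b / C.cS36 + 1 : ℕ) : ℝ) / 2 ^ 36 := by
    have := div_hi b C.cS36 (by norm_num [C.cS36])
    have e : SR = C.cS36 * 2 ^ 36 := by norm_num [SR, C.cS, C.cS36]
    have p : (0 : ℝ) < C.cS36 := by norm_num [C.cS36]
    have := h1.2
    rw [le_div_iff₀ (by positivity)]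
    have : L * 2 ^ 36 ≤ b / C.cS36 := by rw [le_div_iff₀ p]; rw [e] at this; linarith
    push_cast; linarith
  refine ⟨by simpa using h2.1, by simpa using h2.2, ?_, fun lo hi _ => ?_, by simpa [len] using h4,
    by simpa [thin] using h2.2⟩
  · simp only [Multiset.mem_singleton, forall_eq]
    exact le_of_mul_le_mul_right (by linarith [h1.1, h2.2]) SR_pos
  · simp only [lenI, sm_single, Nat.cast_zero, zero_mul, add_zero]
    split_ifs
    · exact h4
    · positivity

theorem sm_fam {n sl su e d pi x : ℕ} (B s : ℕ → ℝ)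
    (h : ∀ t, t < n → s t ≤ s (t + 1) ∧ B t ≤ e / 2 ^ 36 ∧ B t ≤ d * (s (t + 1) - s t) ∧
      (sl : ℝ) ≤ s t * SR ∧ s t * SR ≤ su ∧ 1 / (x : ℝ) ≤ B t)
    (hx : 0 < x) (hw : su * x ≤ C.cS) (hp : (∑ t ∈ range n, s t) * SR ≤ pi) :
    Sm sl su e d (n * e) pi (∑ t ∈ range n, ({(B t, s t)} : MS)) := by
  refine ⟨fun r hr => ?_, fun r hr => ?_, fun r hr => ?_, fun lo hi hl => ?_, ?_, ?_⟩
  · obtain ⟨t, ht, rfl⟩ := mem_fsum hr
    exact (h t (Finset.mem_range.1 ht)).2.2.2.1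
  · obtain ⟨t, ht, rfl⟩ := mem_fsum hr
    exact (h t (Finset.mem_range.1 ht)).2.2.2.2.1
  · obtain ⟨t, ht, rfl⟩ := mem_fsum hr
    obtain ⟨_, _, _, _, a1, a2⟩ := h t (Finset.mem_range.1 ht)
    refine le_trans ?_ a2
    have x0 : (0 : ℝ) < x := by exact_mod_cast hx
    have : (su : ℝ) * x ≤ SR := by unfold SR; exact_mod_cast hw
    rw [le_div_iff₀ x0]
    exact le_of_mul_le_mul_right (by nlinarith) SR_pos
  · exact (chain_fam (by positivity) (Nat.cast_nonneg d) n B s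
      (fun t ht => ⟨(h t ht).1, (h t ht).2.1, (h t ht).2.2.1⟩) le_rfl).2.le (by positivity)
      (Nat.cast_nonneg d) hl
  · simp only [len, sm_sum, sm_single]
    refine (Finset.sum_le_card_nsmul _ _ ((e : ℝ) / 2 ^ 36)
      fun t ht => (h t (Finset.mem_range.1 ht)).2.1).trans (le_of_eq ?_)
    simp; ring
  · simpa only [thin, sm_sum, sm_single] using hp

theorem e_hi (c a : ℕ) (ha : 0 < a) : (c : ℝ) / a ≤ ((c * 2 ^ 36 / a + 1 : ℕ) : ℝ) / 2 ^ 36 := by
  have := div_hi (c * 2 ^ 36) a ha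
  rw [le_div_iff₀ (by positivity)]
  rw [Nat.cast_mul, Nat.cast_pow, Nat.cast_ofNat] at this
  rw [div_mul_eq_mul_div, Nat.cast_succ]; exact this

theorem pot_fam {n c yh q : ℕ} {y : ℝ} (H : ℕ → ℝ) (hy : y * SR ≤ yh)
    (h : (n : ℝ) * q / c ≤ ∑ t ∈ range n, H t) :
    (∑ t ∈ range n, (y - H t)) * SR ≤ ((n * (yh - q * C.cS / c) : ℕ) : ℝ) := by
  have a1 := div_lo (q * C.cS) c
  have a2 := sub_hi yh (q * C.cS / c)
  have a3 := mul_le_mul_of_nonneg_right h SR_pos.le
  have n0 : (0 : ℝ) ≤ n := Nat.cast_nonneg n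
  rw [Finset.sum_sub_distrib, Finset.sum_const, Finset.card_range, nsmul_eq_mul, Nat.cast_mul]
  have a4 : (n : ℝ) * q / c * SR = n * (((q * C.cS : ℕ) : ℝ) / c) := by
    unfold SR; push_cast; ring
  nlinarith

theorem sm_famH {a o t yl yh : ℕ} {y : ℝ} (ha : 0 < a) (hy : In yl yh y) (h1 : 1 / ((a : ℝ) + 1) ≤ y)
    (hw : (yh - C.cS / (a + 2 * t + 1)) * (a + 2 * t + 2) ≤ C.cS) :
    Sm (yl - (C.cS / (a + 1) + 1)) (yh - C.cS / (a + 2 * t + 1)) (C.cZ2 / a + 1) (a + 2 * t + 2 + 3)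
      ((t + 1) * (C.cZ2 / a + 1)) ((t + 1) * (yh - C.cS / (a + (t + 1)))) (famH a o (t + 1) y) := by
  have a0 : (1 : ℝ) ≤ a := by exact_mod_cast ha
  refine sm_fam _ (fun r => y - 1 / (((a + 2 * r : ℕ) : ℝ) + 1)) (fun r hr => ?_) (by omega) hw ?_
  · have r0 : (0 : ℝ) ≤ r := Nat.cast_nonneg r
    have r1 : (r : ℝ) ≤ t := by exact_mod_cast Nat.lt_succ_iff.1 hr
    have b1 : bH a o (t + 1) r ≤ vR (a + 2 * r) := by
      unfold bH; split_ifs
      · unfold vR; linarith [show 0 < 1 / (((a + 2 * r : ℕ) : ℝ) + 2) by positivity]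
      · exact le_rfl
    have b2 : 1 / ((a + 2 * r : ℕ) : ℝ) ≤ bH a o (t + 1) r := by
      unfold bH; split_ifs
      · exact le_rfl
      · unfold vR; linarith [show 0 < 1 / (((a + 2 * r : ℕ) : ℝ) + 2) by positivity]
    have i1 := inv_in (show 0 < a + 1 by omega)
    have i2 := inv_in (show 0 < a + 2 * t + 1 by omega)
    have e1 := e_hi 2 a ha
    have m1 : 1 / ((a : ℝ) + 2 * r + 1) ≤ 1 / ((a : ℝ) + 1) :=
      one_div_le_one_div_of_le (by linarith) (by linarith)
    have m2 : 1 / ((a : ℝ) + 2 * t + 1) ≤ 1 / ((a : ℝ) + 2 * r + 1) :=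
      one_div_le_one_div_of_le (by linarith) (by linarith)
    have m3 := mul_le_mul_of_nonneg_right m1 SR_pos.le
    have m4 := mul_le_mul_of_nonneg_right m2 SR_pos.le
    refine ⟨?_, b1.trans (le_trans ?_ e1), b1.trans ?_, ?_, ?_, le_trans ?_ b2⟩
    · push_cast
      exact sub_le_sub_left (one_div_le_one_div_of_le (by linarith) (by linarith)) _
    · have := vR_anti ha (show a ≤ a + 2 * r by omega)
      have : 1 / ((a : ℝ) + 2) ≤ 1 / (a : ℝ) := one_div_le_one_div_of_le (by linarith) (by linarith)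
      have e : ((2 : ℕ) : ℝ) / a = 1 / a + 1 / a := by push_cast; ring
      unfold vR at *; linarith
    · unfold vR; push_cast
      have e : y - 1 / ((a : ℝ) + 2 * (r + 1) + 1) - (y - 1 / ((a : ℝ) + 2 * r + 1)) =
          2 / ((a + 2 * r + 1) * (a + 2 * r + 3)) := by field_simp; ring
      rw [e]
      have : (a : ℝ) + 2 * r + 5 ≤ a + 2 * t + 2 + 3 := by linarith
      refine le_trans ?_ (mul_le_mul_of_nonneg_right this (by positivity))
      obtain ⟨u, hu, e2⟩ : ∃ u : ℝ, 0 ≤ u ∧ (a : ℝ) + 2 * r = u + 1 := ⟨a + 2 * r - 1, by linarith, by ring⟩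
      rw [e2, ← sub_nonneg]
      have : (u + 1 + 5) * (2 / ((u + 1 + 1) * (u + 1 + 3))) - (1 / (u + 1) + 1 / (u + 1 + 2)) =
          (4 * u ^ 2 + 14 * u + 4) / ((u + 1) * (u + 2) * (u + 3) * (u + 4)) := by
        field_simp; ring
      rw [this]; positivity
    · push_cast at i1 ⊢
      refine sub_lo ?_ (mul_nonneg (by linarith) SR_pos.le)
      push_cast; linarith [hy.1, i1.2]
    · refine le_trans ?_ (sub_hi _ _)
      push_cast at i2 ⊢; linarith [hy.2, i2.1]
    · push_cast; exact one_div_le_one_div_of_le (by linarith) (by linarith)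
  · have := pot_fam (n := t + 1) (c := a + (t + 1)) (q := 1) (fun r => 1 / (((a + 2 * r : ℕ) : ℝ) + 1))
      hy.2 (by
        have := amhm (b := a + 1) (c := ((a + (t + 1) : ℕ) : ℝ)) (N := 2) (t + 1) (by linarith)
          (by norm_num) (by positivity) (by push_cast; linarith)
        rw [Nat.cast_one, mul_one]
        refine this.trans (le_of_eq (Finset.sum_congr rfl fun r _ => ?_))
        push_cast; ring)
    rwa [one_mul] at this

theorem cH_lo {b : ℕ} (J : ℕ) (hb : 0 < b) : 2 * (J : ℝ) / (b + J) ≤ cH b J := by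
  have b0 : (0 : ℝ) < b := by exact_mod_cast hb
  have := amhm (b := b + 1) (c := (b : ℝ) + J) (N := 2) J (by linarith)
    (by norm_num) (by positivity) (by linarith)
  rw [mul_div_assoc]
  refine (mul_le_mul_of_nonneg_left this (by norm_num)).trans ?_
  rw [Finset.mul_sum]
  refine Finset.sum_le_sum fun j _ => ?_
  unfold vR; push_cast
  have j0 : (0 : ℝ) ≤ j := Nat.cast_nonneg j
  rw [← sub_nonneg]
  have : 1 / ((b : ℝ) + 2 * j) + 1 / (b + 2 * j + 2) - 2 * (1 / (b + 1 + j * 2)) =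
      2 / ((b + 2 * j) * (b + 2 * j + 2) * (b + 1 + j * 2)) := by field_simp; ring
  rw [this]; positivity

theorem vR_diff {b : ℕ} (j : ℕ) (hb : 0 < b) : vR b - vR (b + j) =
    j / ((b : ℝ) * (b + j)) + j / (((b : ℝ) + 2) * (b + 2 + j)) := by
  have b0 : (0 : ℝ) < b := by exact_mod_cast hb
  unfold vR; push_cast; field_simp; ring

theorem gY_eq (b j l : ℕ) : gY b j l = ∑ r ∈ range l, (vR (b + 2 * r) - vR (b + 2 * r + j)) := by
  unfold gY cH
  rw [← Finset.sum_sub_distrib]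
  exact Finset.sum_congr rfl fun r _ => by rw [add_right_comm]

theorem gY_lo {b : ℕ} (j l : ℕ) (hb : 0 < b) :
    l * (2 * j / (((b : ℝ) + 2 * l) * (b + 2 * l + j))) ≤ gY b j l := by
  have b0 : (0 : ℝ) < b := by exact_mod_cast hb
  have j0 : (0 : ℝ) ≤ j := Nat.cast_nonneg j
  rw [gY_eq]
  refine le_trans (le_of_eq (by simp)) (Finset.card_nsmul_le_sum _ _
    (2 * j / (((b : ℝ) + 2 * l) * (b + 2 * l + j))) fun r hr => ?_)
  have r1 : (r : ℝ) + 1 ≤ l := by exact_mod_cast Finset.mem_range.1 hr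
  have r0 : (0 : ℝ) ≤ r := Nat.cast_nonneg r
  rw [vR_diff j (by omega)]
  push_cast
  have a1 : j / (((b : ℝ) + 2 * l) * (b + 2 * l + j)) ≤ j / (((b : ℝ) + 2 * r) * (b + 2 * r + j)) :=
    div_le_div_of_nonneg_left j0 (by positivity)
      (mul_le_mul (by linarith) (by linarith) (by positivity) (by positivity))
  have a2 : j / (((b : ℝ) + 2 * l) * (b + 2 * l + j)) ≤ j / (((b : ℝ) + 2 * r + 2) * (b + 2 * r + 2 + j)) :=
    div_le_div_of_nonneg_left j0 (by positivity)
      (mul_le_mul (by linarith) (by linarith) (by positivity) (by positivity))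
  rw [two_mul (j : ℝ), add_div]; linarith

theorem gY_hi {a b : ℕ} (j l : ℕ) (ha : 0 < a) (hb : a ≤ b) :
    gY b j l ≤ l * (2 * j / (a : ℝ) ^ 2) := by
  have a0 : (0 : ℝ) < a := by exact_mod_cast ha
  have b0 : (a : ℝ) ≤ b := by exact_mod_cast hb
  have j0 : (0 : ℝ) ≤ j := Nat.cast_nonneg j
  rw [gY_eq]
  refine (Finset.sum_le_card_nsmul _ _ (2 * j / (a : ℝ) ^ 2) fun r _ => ?_).trans (le_of_eq (by simp))
  have r0 : (0 : ℝ) ≤ r := Nat.cast_nonneg r
  rw [vR_diff j (by omega)]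
  push_cast
  have a1 : j / (((b : ℝ) + 2 * r) * (b + 2 * r + j)) ≤ j / (a : ℝ) ^ 2 :=
    div_le_div_of_nonneg_left j0 (by positivity) (by nlinarith)
  have a2 : j / (((b : ℝ) + 2 * r + 2) * (b + 2 * r + 2 + j)) ≤ j / (a : ℝ) ^ 2 :=
    div_le_div_of_nonneg_left j0 (by positivity) (by nlinarith)
  rw [two_mul (j : ℝ), add_div]; linarith

theorem sm_famA {a J t yl yh : ℕ} {y : ℝ} (ha : 0 < a) (hJ : 0 < J) (hJ8 : J ≤ 8) (hy : In yl yh y)
    (h1 : cH a J ≤ y)
    (hw : (yh - C.cv J (a + 2 * J * t)) * (a + 2 * J * (t + 1)) ≤ C.cS) :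
    Sm (yl - (C.cv J a + 16)) (yh - C.cv J (a + 2 * J * t)) (C.cZ / a + 1)
      ((a + 2 * J * (t + 1) + 2 * J + 3) / (2 * J) ^ 2 + 1)
      ((t + 1) * (C.cZ / a + 1)) ((t + 1) * (yh - 2 * J * C.cS / (a + J * (t + 1))))
      (famA a J (t + 1) y) := by
  have a0 : (1 : ℝ) ≤ a := by exact_mod_cast ha
  have J0 : (1 : ℝ) ≤ J := by exact_mod_cast hJ
  have J8 : (J : ℝ) ≤ 8 := by exact_mod_cast hJ8
  refine sm_fam _ (fun r => y - cH (a + 2 * J * r) J) (fun r hr => ?_) (by omega) hw ?_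
  · have r1 : 2 * J * r ≤ 2 * J * t := Nat.mul_le_mul_left _ (Nat.lt_succ_iff.1 hr)
    have i1 := cv_in J a ha
    have i2 := cv_in J (a + 2 * J * t) (by omega)
    have e1 := e_hi 1 a ha
    have m1 := cH_anti J ha (show a ≤ a + 2 * J * r by omega)
    have m2 := cH_anti J (show 0 < a + 2 * J * r by omega) (show _ ≤ a + 2 * J * t by omega)
    have m3 := mul_le_mul_of_nonneg_right m1 SR_pos.le
    have m4 := mul_le_mul_of_nonneg_right m2 SR_pos.le
    have ec : ((a + 2 * J * r + 2 * J - 1 : ℕ) : ℝ) = ((a + 2 * J * r : ℕ) : ℝ) + 2 * J - 1 := by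
      rw [Nat.cast_sub (by omega)]; push_cast; ring
    have b0 : (a : ℝ) ≤ ((a + 2 * J * r : ℕ) : ℝ) := by exact_mod_cast Nat.le_add_right _ _
    have b1 : ((a + 2 * J * r : ℕ) : ℝ) + 2 * J ≤ ((a + 2 * J * (t + 1) : ℕ) : ℝ) := by
      exact_mod_cast (by rw [Nat.mul_succ]; omega : a + 2 * J * r + 2 * J ≤ a + 2 * J * (t + 1))
    refine ⟨?_, le_trans ?_ e1, ?_, ?_, ?_, ?_⟩
    · exact sub_le_sub_left (cH_anti J (by omega) (by rw [Nat.mul_succ]; omega)) _
    · rw [ec, Nat.cast_one]; exact one_div_le_one_div_of_le (by linarith) (by linarith)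
    · have g := gY_lo (2 * J) J (show 0 < a + 2 * J * r by omega)
      have e : y - cH (a + 2 * J * (r + 1)) J - (y - cH (a + 2 * J * r) J) =
          gY (a + 2 * J * r) (2 * J) J := by
        rw [gY, Nat.mul_succ, add_assoc]; ring
      have d1 := div_hi (a + 2 * J * (t + 1) + 2 * J + 3) ((2 * J) ^ 2) (by positivity)
      rw [e, ec, Nat.cast_succ]
      rw [Nat.cast_add, Nat.cast_add] at d1
      generalize ((a + 2 * J * r : ℕ) : ℝ) = b at *
      generalize ((a + 2 * J * (t + 1) : ℕ) : ℝ) = x at *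
      generalize (((a + 2 * J * (t + 1) + 2 * J + 3) / (2 * J) ^ 2 : ℕ) : ℝ) = d at *
      push_cast at d1 g
      have d2 : (b + 4 * J + 3) / (2 * J) ^ 2 ≤ d + 1 :=
        (div_le_div_of_nonneg_right (by linarith) (by positivity)).trans d1
      have p1 : 0 < b + 2 * J - 1 := by linarith
      have p2 : 0 < b := by linarith
      refine le_trans ?_ (mul_le_mul d2 g (by positivity) (le_trans (by positivity) d2))
      have : (b + 4 * J + 3) / (2 * J) ^ 2 * (J * (2 * (2 * J) / ((b + 2 * J) * (b + 2 * J + 2 * J)))) =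
          (b + 4 * J + 3) / ((b + 2 * J) * (b + 4 * J)) := by
        field_simp; ring
      rw [this, div_le_div_iff₀ p1 (by positivity)]
      nlinarith
    · refine sub_lo ?_ (mul_nonneg (by linarith) SR_pos.le)
      push_cast; linarith [hy.1, i1.2]
    · refine le_trans ?_ (sub_hi _ _)
      linarith [hy.2, i2.1]
    · rw [ec]; exact one_div_le_one_div_of_le (by linarith) (by linarith)
  · refine pot_fam (n := t + 1) (c := a + J * (t + 1)) (q := 2 * J) (fun r => cH (a + 2 * J * r) J)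
      hy.2 ?_
    have := amhm (b := a + J) (c := ((a + J * (t + 1) : ℕ) : ℝ)) (N := 2 * J) (t + 1) (by linarith)
      (by linarith) (by positivity) (by push_cast; linarith)
    rw [mul_comm, mul_div_assoc]
    refine (mul_le_mul_of_nonneg_left this (Nat.cast_nonneg _)).trans ?_
    rw [Finset.mul_sum]
    refine Finset.sum_le_sum fun r _ => le_trans (le_of_eq ?_) (cH_lo J (by omega))
    push_cast; rw [mul_one_div]; congr 1; ring

def PcOK (Pc : MS) : Prop := ∀ s ∈ Pc, 0 < s.2 ∧ s.2 ≤ s.1 ∧ 99 / 100 * s.2 < wq 5800 ∧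
  Bookable wq capq (99 / 100) (39 / 250) s.1 s.2

theorem gX_eq (b j n : ℕ) : gX b j n = ∑ r ∈ range n,
    2 / (((b : ℝ) + j + 1 + j * r) * (b + j + 3 + j * r)) := by
  unfold gX Hs
  rw [← Finset.sum_sub_distrib]
  refine Finset.sum_congr rfl fun r _ => ?_
  push_cast; field_simp; ring

theorem gX_nonneg (b j n : ℕ) : 0 ≤ gX b j n := by
  rw [gX_eq]; exact Finset.sum_nonneg fun r _ => by positivity

theorem gY_nonneg {b : ℕ} (j l : ℕ) (hb : 0 < b) : 0 ≤ gY b j l :=
  le_trans (by positivity) (gY_lo j l hb)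

theorem close_gaps {a J K i : ℕ} (ha : 0 < a) (hi : i < K)
    (h1 : (2 * K + (2 * J) ^ 2) ^ 3 * (a + 2 * J * K) ^ 2 * 950000000000 ≤ a ^ 6)
    (h2 : (2 * J) ^ 2 * 195112000000 ≤ 4100 * a ^ 2) :
    ∃ Pc, Step (gapS a J K i) Pc ∧ PcOK Pc ∧ (2 * len Pc + thin Pc) * SR ≤
      3 * ((2 * J * K * (2 * K + (2 * J) ^ 2) * C.cS / (3 * a ^ 2) + 1 : ℕ) : ℝ) := by
  have a0 : (0 : ℝ) < a := by exact_mod_cast ha
  set Z : ℝ := 2 * K + (2 * J) ^ 2 with hZ
  set m : ℝ := a + 2 * J * K with hm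
  have h1' : Z ^ 3 * m ^ 2 * 950000000000 ≤ (a : ℝ) ^ 6 := by rw [hZ, hm]; exact_mod_cast h1
  have h2' : (2 * (J : ℝ)) ^ 2 * 195112000000 ≤ 4100 * (a : ℝ) ^ 2 := by exact_mod_cast h2
  have m0 : 0 < m := by positivity
  let x : ℕ → ℕ → ℝ := fun r l => gX (a + 2 * J * r + 2 * l) (2 * J) (K - (r + 1))
  let y : ℕ → ℕ → ℝ := fun r l => gY (a + 2 * J * r) (2 * J) (l + 1)
  have key : ∀ r, r < i → ∀ l, l < J - 1 → 2 / m ^ 2 ≤ x r l ∧ 2 / m ^ 2 ≤ y r l ∧
      x r l ≤ 2 * K / (a : ℝ) ^ 2 ∧ y r l ≤ (2 * J) ^ 2 / (a : ℝ) ^ 2 := by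
    intro r hr l hl
    have r0 : (0 : ℝ) ≤ r := Nat.cast_nonneg r
    have l0 : (0 : ℝ) ≤ l := Nat.cast_nonneg l
    have r1 : (r : ℝ) + 2 ≤ K := by exact_mod_cast (by omega : r + 2 ≤ K)
    have l1 : (l : ℝ) + 2 ≤ J := by exact_mod_cast (by omega : l + 2 ≤ J)
    have q1 : 2 * (J : ℝ) * (r + 2) ≤ 2 * J * K := mul_le_mul_of_nonneg_left r1 (by linarith)
    have q2 : 0 ≤ 2 * (J : ℝ) * r := by positivity
    refine ⟨?_, ?_, ?_, ?_⟩
    · simp only [x]
      rw [gX_eq, show K - (r + 1) = (K - (r + 2)) + 1 by omega, Finset.sum_range_succ']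
      refine le_add_of_nonneg_of_le (Finset.sum_nonneg fun _ _ => by positivity) ?_
      push_cast
      refine div_le_div_of_nonneg_left (by norm_num) (by positivity) ?_
      rw [sq]
      exact mul_le_mul (by linarith) (by linarith) (by positivity) m0.le
    · refine le_trans ?_ (gY_lo (2 * J) (l + 1) (by omega))
      push_cast
      rw [← mul_div_assoc]
      refine div_le_div₀ (by positivity) (by nlinarith) (by positivity) ?_
      rw [sq]
      exact mul_le_mul (by linarith) (by linarith) (by positivity) m0.le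
    · simp only [x]
      rw [gX_eq]
      refine (Finset.sum_le_card_nsmul _ _ (2 / (a : ℝ) ^ 2) fun u _ => ?_).trans ?_
      · have : (0 : ℝ) ≤ ((2 * J : ℕ) : ℝ) * u := by positivity
        push_cast at this ⊢
        refine div_le_div_of_nonneg_left (by norm_num) (by positivity) ?_
        rw [sq]
        exact mul_le_mul (by linarith) (by linarith) a0.le (by positivity)
      · rw [Finset.card_range, nsmul_eq_mul, ← mul_div_assoc]
        have : ((K - (r + 1) : ℕ) : ℝ) ≤ K := by exact_mod_cast Nat.sub_le _ _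
        exact div_le_div_of_nonneg_right (by linarith) (by positivity)
    · refine (gY_hi (2 * J) (l + 1) ha (by omega)).trans ?_
      push_cast
      rw [← mul_div_assoc]
      exact div_le_div_of_nonneg_right (by nlinarith) (by positivity)
  have z1 : 2 * K / (a : ℝ) ^ 2 + (2 * J) ^ 2 / (a : ℝ) ^ 2 = Z / (a : ℝ) ^ 2 := by rw [hZ]; ring
  have p0 : 0 < 2 / m ^ 2 := by positivity
  refine ⟨∑ r ∈ range i, ∑ l ∈ range (J - 1), {(max (x r l) (y r l), min (x r l) (y r l))},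
    Step.sum _ _ _ fun r _ => Step.sum _ _ _ fun l _ => ?_, fun s hs => ?_, ?_⟩
  · change Step {(x r l, y r l)} _
    rcases le_total (x r l) (y r l) with h | h
    · rw [max_eq_right h, min_eq_left h]; exact step_rot _ _
    · rw [max_eq_left h, min_eq_right h]; exact Step.refl _
  · obtain ⟨r, hr, hs⟩ := Multiset.mem_sum.1 hs
    obtain ⟨l, hl, rfl⟩ := mem_fsum hs
    obtain ⟨k1, k2, k3, k4⟩ := key r (Finset.mem_range.1 hr) l (Finset.mem_range.1 hl)
    have c1 : 2 / m ^ 2 ≤ min (x r l) (y r l) := le_min k1 k2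
    have c2 : min (x r l) (y r l) ≤ wq 5800 := by
      refine (min_le_right _ _).trans (k4.trans ?_)
      rw [wq_pos' (by norm_num), div_le_div_iff₀ (by positivity) (by positivity)]
      norm_num; linarith
    have c3 : max (x r l) (y r l) ≤ Z / (a : ℝ) ^ 2 := max_le (by linarith) (by linarith)
    have c4 : 0 < max (x r l) (y r l) := by linarith [le_max_left (x r l) (y r l)]
    refine ⟨by linarith, min_le_max, by linarith, fun h b1 b2 => ?_⟩
    refine bookable_of c4 (by linarith) ?_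
      (win_ge b1 (c2.trans (wq_anti.antitone (by norm_num)))) b2
    refine le_trans ?_ c1
    have := pow_le_pow_left₀ c4.le c3 3
    refine (mul_le_mul_of_nonneg_right this (by norm_num)).trans ?_
    rw [div_pow, div_mul_eq_mul_div, div_le_div_iff₀ (by positivity) (by positivity)]
    linarith [show ((a : ℝ) ^ 2) ^ 3 = a ^ 6 by ring]
  · have d1 := div_hi (2 * J * K * (2 * K + (2 * J) ^ 2) * C.cS) (3 * a ^ 2) (by positivity)
    rw [Nat.cast_succ]
    refine le_trans ?_ (mul_le_mul_of_nonneg_left d1 (by norm_num))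
    simp only [len, thin, sm_sum, sm_single, Finset.mul_sum, ← Finset.sum_add_distrib]
    have : ∑ r ∈ range i, ∑ l ∈ range (J - 1), (2 * max (x r l) (y r l) + min (x r l) (y r l)) ≤
        K * (J * (2 * (Z / (a : ℝ) ^ 2))) := by
      refine (Finset.sum_le_card_nsmul _ _ (J * (2 * (Z / (a : ℝ) ^ 2))) fun r hr => ?_).trans ?_
      · refine (Finset.sum_le_card_nsmul _ _ (2 * (Z / (a : ℝ) ^ 2)) fun l hl => ?_).trans ?_
        · obtain ⟨k1, k2, k3, k4⟩ := key r (Finset.mem_range.1 hr) l (Finset.mem_range.1 hl)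
          have := max_add_min (x r l) (y r l)
          have := le_min k1 k2
          linarith
        · rw [Finset.card_range, nsmul_eq_mul]
          exact mul_le_mul_of_nonneg_right (by exact_mod_cast Nat.sub_le _ _) (by positivity)
      · rw [Finset.card_range, nsmul_eq_mul]
        exact mul_le_mul_of_nonneg_right (by exact_mod_cast hi.le) (by positivity)
    refine (mul_le_mul_of_nonneg_right this SR_pos.le).trans (le_of_eq ?_)
    unfold SR; push_cast; rw [hZ]; field_simp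

end Pool.Agent.MP_f14165_co
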