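import Pool.Agent.MP_f14165_co.S3

set_option autoImplicit false

namespace Pool.Agent.MP_f14165_co
open Finset

theorem cq_hi' {h : ℕ} (hh : 5816 ≤ h) : 3 / ((h : ℝ) + 43) ≤ cq (h + 1) := by
  have := cq_hi (show 5817 ≤ h + 1 by omega)
  push_cast at this
  rwa [show (h : ℝ) + 1 + 42 = h + 43 by ring] at this

theorem hEc (h : ℕ) (hh : 5800 ≤ h) : Eq' mR h ≤ cq h := by
  have hx : (5800 : ℝ) ≤ h := by exact_mod_cast hh
  unfold Eq'
  split_ifs with h1
  · obtain rfl : h = 5800 := by omega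
    rw [cq_lo (by omega)]; norm_num
  rcases le_or_gt h 5816 with h2 | h2
  · refine (min_le_left _ _).trans ?_
    have hx : (5801 : ℝ) ≤ h := by exact_mod_cast (by omega : 5801 ≤ h)
    have a1 := pow_le_pow_left₀ (by norm_num) (show (5822 : ℝ) ≤ h + 21 by linarith) 3
    have a2 : 197137442300 / ((h : ℝ) + 21) ^ 3 ≤ 197137442300 / 5822 ^ 3 :=
      div_le_div_of_nonneg_left (by norm_num) (by norm_num) a1
    rw [cq_lo h2, mR]
    norm_num at a2 ⊢
    linarith
  · refine (min_le_right _ _).trans (le_trans (Real.sqrt_le_iff.2 ⟨by positivity, ?_⟩) (cq_hi h2))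
    obtain ⟨t, ht, e⟩ := shift hx
    rw [e, div_pow, div_le_div_iff₀ (by positivity) (by positivity), ← sub_nonneg]
    ring_nf; positivity

theorem G1_spec (h : ℕ) : 6 * (h : ℝ) ^ 3 < (((G1 h : ℝ) + 1) * ((G1 h : ℝ) + 3)) ^ 2 := by
  have := (Nat.find_spec (ex1 h)).2
  exact_mod_cast this

theorem tail2 {h : ℕ} (hh : 102400 ≤ h) : Eq' mR h + phq (G1 h) ≤ cq h := by
  have hx : (102400 : ℝ) ≤ h := by exact_mod_cast hh
  have a1 : Eq' mR h ≤ 201 / 1000 / (h : ℝ) := by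
    unfold Eq'
    rw [if_neg (by omega)]
    refine (min_le_right _ _).trans (Real.sqrt_le_iff.2 ⟨by positivity, ?_⟩)
    obtain ⟨t, ht, e⟩ := shift hx
    rw [e, div_pow, div_le_div_iff₀ (by positivity) (by positivity), ← sub_nonneg]
    ring_nf; positivity
  have a2 : phq (G1 h) ≤ 262 / 100 / (h : ℝ) := by
    have b1 := G1_spec h
    unfold phq
    generalize G1 h = a at *
    have a0 : (0 : ℝ) ≤ a := Nat.cast_nonneg a
    have b2 : 4 * (((a : ℝ) + 1) * (a + 3)) ≤ (2 * a + 5) ^ 2 := by nlinarith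
    have b3 := pow_le_pow_left₀ (by positivity) b2 2
    rw [div_le_div_iff₀ (by positivity) (by linarith)]
    refine le_of_pow_le_pow_left₀ two_ne_zero (by positivity) ?_
    have b4 : (102400 : ℝ) * h ^ 2 ≤ h ^ 3 := by nlinarith
    nlinarith
  refine le_trans ?_ (cq_hi (by omega))
  have a3 : 201 / 1000 / (h : ℝ) + 262 / 100 / (h : ℝ) ≤ 3 / ((h : ℝ) + 42) := by
    rw [← add_div, div_le_div_iff₀ (by linarith) (by linarith)]; linarith
  linarith

theorem pq_hi {h : ℕ} (hh : 102400 ≤ h) : (C.pq (G2 (h + 1)) : ℝ) ≤ 6622 / 100 * (h : ℝ) ^ 3 := by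
  have hx : (102400 : ℝ) ≤ h := by exact_mod_cast hh
  have a1 : 16000 ≤ G2 (h + 1) := by
    by_contra hn
    have b1 := crit2_mono (show G2 (h + 1) ≤ 16000 by omega) (Nat.find_spec (ex2 (h + 1))).2
    have b2 := Nat.pow_le_pow_left (show 102400 ≤ h + 1 by omega) 3
    omega
  have a2 := Nat.find_min (ex2 (h + 1)) (show G2 (h + 1) - 1 < G2 (h + 1) by omega)
  obtain ⟨t, ht⟩ : ∃ t, G2 (h + 1) = t + 16000 := ⟨G2 (h + 1) - 16000, by omega⟩
  rw [ht] at a2 ⊢
  rw [not_and, not_lt, show t + 16000 - 1 - 1 = t + 15998 by omega,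
    show t + 16000 - 1 + 21 = t + 16020 by omega] at a2
  have a3 : 100 * (((t : ℝ) + 15998) * (t + 16020)) ^ 2 ≤ 6601 * ((h : ℝ) + 1) ^ 3 := by
    exact_mod_cast a2 (by omega)
  have t0 : (0 : ℝ) ≤ t := Nat.cast_nonneg t
  have a4 : (C.pq (t + 16000) : ℝ) ≤ 1003 / 1000 * (((t : ℝ) + 15998) * (t + 16020)) ^ 2 := by
    rw [pq_eq, ← sub_nonneg]; push_cast; ring_nf; positivity
  have a5 : ((h : ℝ) + 1) ^ 3 ≤ 10001 / 10000 * (h : ℝ) ^ 3 := by
    obtain ⟨s, hs, e⟩ := shift hx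
    rw [e, ← sub_nonneg]; ring_nf; positivity
  have a6 : (0 : ℝ) ≤ (h : ℝ) ^ 3 := by positivity
  linarith

theorem tail1 {h : ℕ} (hh : 102400 ≤ h) : thq h + capq h ≤ cq (h + 1) := by
  have hx : (102400 : ℝ) ≤ h := by exact_mod_cast hh
  have a1 := thq_le (h := h) (by omega) le_rfl le_rfl
  obtain ⟨a2, a3⟩ := om_le (h := h) (by omega)
  have a4 := pq_hi hh
  have a5 : 6 * (h : ℝ) ^ 3 ≤ C.pq (G1 h) := by
    have b1 := G1_spec h
    rw [pq_eq]
    generalize G1 h = a at *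
    have a0 : (0 : ℝ) ≤ a := Nat.cast_nonneg a
    have := pow_le_pow_left₀ (by positivity)
      (show ((a : ℝ) + 1) * (a + 3) ≤ (a + 20) * (a + 21) by nlinarith) 2
    linarith
  have a6 : thq h ≤ 12300 / (h : ℝ) ^ 4 * (6022 / 100 * (h : ℝ) ^ 3 / 295200) :=
    a1.trans ((mul_le_mul_of_nonneg_left (by linarith) a2).trans
      (mul_le_mul_of_nonneg_right a3 (by positivity)))
  have a7 : 12300 / (h : ℝ) ^ 4 * (6022 / 100 * (h : ℝ) ^ 3 / 295200) = 6022 / 2400 / (h : ℝ) := by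
    field_simp; norm_num
  have a8 : 6022 / 2400 / (h : ℝ) + 12 / 25 / (h : ℝ) ≤ 3 / ((h : ℝ) + 43) := by
    rw [← add_div, div_le_div_iff₀ (by linarith) (by linarith)]; linarith
  have a9 := cq_hi' (h := h) (by omega)
  rw [capq, if_pos (by omega)]
  linarith

theorem tail_all {c : ℕ → ℕ} {v g1 g2 : ℕ} (H : SW c 102400 v 0 0 g1 g2) (hv : v ≤ 2012440)
    (hc : ∀ p, c (4 * 102400 + p) = 0) (g k : ℕ) (hg : 5800 ≤ g) (hk : g < k) :
    VV c g k ≤ cq k + phq (G2 k) := by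
  have key : ∀ h, 102400 ≤ h → (∀ g, 5800 ≤ g → g ≤ h → VV c g h ≤ cq h) ∧ IC c h h ≤ 0 ∧
      DD c h ≤ 0 := by
    intro h hh
    induction h, hh using Nat.le_induction with
    | base =>
      refine ⟨fun g a b => (H.hv g a b).trans (le_trans ?_ (cq_hi (by omega))),
        by simpa using H.ho, by simpa using H.hd⟩
      have : (v : ℝ) ≤ 2012440 := by exact_mod_cast hv
      norm_num; linarith
    | succ h hh ih =>
      obtain ⟨i1, i2, i3⟩ := ih
      have z : ∀ s, c (4 * h + s) = 0 := fun s => by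
        rw [show 4 * h + s = 4 * 102400 + (4 * h + s - 4 * 102400) by omega]; exact hc _
      have z0 : c (4 * h) = 0 := z 0
      have j2 : IC c (h + 1) (h + 1) ≤ 0 := by rw [IC_succ, z0, z]; simpa using i2
      have j3 : DD c (h + 1) ≤ 0 := by rw [DD_succ, z, z]; simpa using i3
      refine ⟨fun g a b => ?_, j2, j3⟩
      rcases b.eq_or_lt with rfl | b1
      · rw [VV_self]; linarith [tail2 (show 102400 ≤ h + 1 by omega)]
      · have := mul_nonpos_of_nonpos_of_nonneg j3 (om_le (show 0 < h by omega)).1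
        rw [VV_succ c (by omega), z0, Nat.cast_zero, zero_div]
        linarith [i1 g a (by omega), tail1 hh]
  rcases le_total k 102400 with h1 | h1
  · exact H.ok g k hg hk h1
  · have : 0 ≤ phq (G2 k) := by unfold phq; positivity
    linarith [(key k h1).1 g hg hk.le]

theorem assemble {s : C.Stk} {pt oI oE v g1 g2 : ℕ} {li le : List ℕ} (G : Good s pt li le)
    (hm : C.mainok s pt = true) (hI : IV li oI 48082285) (dI : C.done li oI = true)
    (hE : EV le oE 102400 v 0 0 g1 g2) (dE : C.done le oE = true) (hv : v ≤ 2012440) (n : ℕ) :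
    Fits (Set.Ioo 0 1 ×ˢ Set.Ioo 0 1) (∑ j ∈ Finset.Ico 1 n, ({item j} : MS)) := by
  obtain ⟨M, a1, R, Pc, a2, a3, a4, a5, a6⟩ := G
  rw [← done_snd fI_zero _ _ dI, hI.2] at a2
  rw [← done_snd fE_zero _ _ dE] at a4
  have ok := gd_ok mR (by norm_num [mR]) (IC (LO fE le oE)) hEc (tail_all hE.1 hv hE.2)
  cases s with
  | nil => exact absurd hm (by simp [C.mainok])
  | gp => exact absurd hm (by simp [C.mainok])
  | fh => exact absurd hm (by simp [C.mainok])
  | fa => exact absurd hm (by simp [C.mainok])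
  | hole a b c d r =>
    obtain ⟨L, y, N, b1, b2, b3, rfl⟩ := a1
    simp only [C.mainok, b_and, b_le, n_mul, n_add] at hm
    obtain ⟨c1, c2, c3, c4, c5, c6, c7⟩ := hm
    obtain rfl := eqs_snd _ _ c7
    obtain rfl : N = 0 := b3
    have c1' : (1 : ℝ) ≤ a := by exact_mod_cast c1
    have c2' : (1 : ℝ) ≤ c := by exact_mod_cast c2
    have c3' : (b : ℝ) ≤ 8 * c := by exact_mod_cast c3
    have c4' : (d : ℝ) ≤ 8 * a := by exact_mod_cast c4
    have c5' : (d : ℝ) ≤ C.cM0 * C.cS36 := by exact_mod_cast c5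
    have c6' : 15000 * ((b : ℝ) + d + pt) ≤ 201 * SR := by unfold SR; exact_mod_cast c6
    have e : (C.cM0 : ℝ) * C.cS36 = mR * SR := by norm_num [C.cM0, C.cS36, mR, SR, C.cS]
    refine finite_of_start ok (M1 := L) (M2 := y) (R := R) (Pc := Pc)
      ⟨by rw [add_zero] at a2; exact a2, a3, fun h1 h2 _ h => a4 h1 h2 h, a5, ?_, ?_, ?_, ?_, ?_, ?_⟩ n
    · change _ ≤ (201 : ℝ) / 5000
      exact le_of_SR (by linarith [b1.2, b2.2])
    · exact (pos_iff_pos_of_mul_pos (show 0 < L * SR by linarith [b1.1])).2 SR_pos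
    · exact (pos_iff_pos_of_mul_pos (show 0 < y * SR by linarith [b2.1])).2 SR_pos
    · change L ≤ 8 * y
      exact le_of_SR (by linarith [b1.2, b2.1])
    · change y ≤ 8 * L
      exact le_of_SR (by linarith [b1.1, b2.2])
    · exact (min_le_right _ _).trans (le_of_SR (by change _ ≤ mR * SR; linarith [b2.2]))

end Pool.Agent.MP_f14165_co
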